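import Pool.Agent.Lib.MP_98022b_fa.Basic

/-!
# The stabilizer of an axis class

Task F34.
-/

set_option autoImplicit false

open Set
open scoped Pointwise

namespace Pool.Agent.FA

variable {G V : Type} [Group G] [MulAction G V]

theorem smul_shiftClass (g : G) (l : ℤ → V) : g • shiftClass l = shiftClass (g • l) := by
  ext l'
  rw [Set.mem_smul_set_iff_inv_smul_mem]
  constructor
  · rintro ⟨t, ht⟩
    refine ⟨t, fun j => ?_⟩
    have := ht j
    rw [Pi.smul_apply, inv_smul_eq_iff] at this
    rw [this, Pi.smul_apply]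
  · rintro ⟨t, ht⟩
    refine ⟨t, fun j => ?_⟩
    rw [Pi.smul_apply, ht j, Pi.smul_apply, inv_smul_smul]

/-- The stabilizer of an axis class has a homomorphism to `ℤ` with finite kernel: `g • l` is a shift
of `l` by a unique integer. -/
theorem exists_hom_of_isAxisClass {c : Set (ℤ → V)} (hc : IsAxisClass G c) :
    ∃ τ : MulAction.stabilizer G c →* Multiplicative ℤ, Finite τ.ker := by
  obtain ⟨l, hinj, hfin, rfl⟩ := hc
  have key : ∀ g : MulAction.stabilizer G (shiftClass l),
      ∃ t : ℤ, ∀ j, (g : G) • l j = l (j + t) := by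
    intro g
    have h1 : (g : G) • shiftClass l = shiftClass l := g.2
    have h2 : l ∈ shiftClass l := ⟨0, fun j => by rw [add_zero]⟩
    have h3 : (g : G) • l ∈ (g : G) • shiftClass l := Set.smul_mem_smul_set h2
    rw [h1] at h3
    obtain ⟨t, ht⟩ := h3
    exact ⟨t, fun j => ht j⟩
  choose t ht using key
  have huniq : ∀ (g : MulAction.stabilizer G (shiftClass l)) (s : ℤ),
      (g : G) • l 0 = l s → t g = s := by
    intro g s hs
    rw [ht g 0, zero_add] at hs
    exact hinj hs
  refine ⟨{ toFun := fun g => Multiplicative.ofAdd (t g), map_one' := ?_, map_mul' := ?_ }, ?_⟩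
  · rw [huniq 1 0 (by simp)]
    rfl
  · intro g h
    rw [← ofAdd_add, huniq (g * h) (t g + t h)]
    rw [Subgroup.coe_mul, mul_smul, ht h 0, zero_add, ht g, add_comm]
  · have hF : Finite {g : G | ∀ v ∈ range l, g • v = v} := hfin.to_subtype
    refine Finite.of_injective
      (fun g => (⟨(g.1 : G), ?_⟩ : {g : G | ∀ v ∈ range l, g • v = v})) ?_
    · rintro v ⟨j, rfl⟩
      have h0 : t g.1 = 0 := by
        have := g.2
        rw [MonoidHom.mem_ker] at this
        exact ofAdd_eq_one.1 this
      rw [ht g.1 j, h0, add_zero]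
    · intro g h hgh
      have h1 := congrArg Subtype.val hgh
      exact Subtype.ext (Subtype.ext h1)

end Pool.Agent.FA
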