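import Pool.Agent.Lib.MP_98022b_fa.Bar

/-!
# Points in the interior of edges

Task F27.
-/

set_option autoImplicit false

open Set

namespace Pool.Agent.FA

variable {G V : Type} [Group G] [MulAction G V] {T : SimpleGraph V}

/-- The colour by the edge whose middle part contains the point. -/
def colE (T : SimpleGraph V) (_ : G) (x : Bar T) (e : Set V) : Prop :=
  ∃ u v, T.Adj u v ∧ e = {u, v} ∧ 1 / 6 < x.1 u v ∧ x.1 u v < 5 / 6

omit [Group G] [MulAction G V] in
/-- The coordinate before a positive coordinate is `1`. -/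
private theorem eq_one_step (x : Bar T) {a b d : V} (hab : T.Adj a b) (hbd : T.Adj b d)
    (hne : a ≠ d) (hpos : 0 < x.1 b d) : x.1 a b = 1 := by
  have h1 := Bar.mul_eq_zero x hab.symm hbd hne
  have h2 : x.1 b a = 0 := by
    rcases mul_eq_zero.1 h1 with h | h
    · exact h
    · exact absurd h hpos.ne'
  have h3 := Bar.symm x hab
  linarith

omit [Group G] [MulAction G V] in
/-- Positive coordinates away from `v`: all coordinates on the way are `1`. -/
theorem Bar.eq_one_of_pos (hT : T.IsTree) (x : Bar T) {v c d : V} (hcd : T.Adj c d)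
    (hd : T.dist v d = T.dist v c + 1) (hpos : 0 < x.1 c d) {a b : V} (hab : T.Adj a b)
    (hb : T.dist v b = T.dist v a + 1) (hbc : T.dist v b + T.dist b c = T.dist v c) :
    x.1 a b = 1 := by
  obtain ⟨n, hn⟩ : ∃ n, T.dist b c = n := ⟨_, rfl⟩
  induction n generalizing c d with
  | zero =>
    have hbceq : b = c := (hT.connected.dist_eq_zero_iff).1 hn
    subst hbceq
    refine eq_one_step x hab hcd ?_ hpos
    rintro rfl
    omega
  | succ n ih =>
    obtain ⟨p, hp0, hp1, hpadj, hpd⟩ := exists_geodesic hT b c
    rw [hn] at hp1 hpadj hpd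
    have hadj : T.Adj (p n) c := by
      have := hpadj n (Nat.lt_succ_self n)
      rwa [hp1] at this
    have hdn : T.dist b (p n) = n := by
      have := hpd 0 n (Nat.zero_le _) (Nat.le_succ n)
      rw [hp0] at this
      omega
    have h1 : T.dist v (p n) ≤ T.dist v b + T.dist b (p n) := hT.connected.dist_triangle
    have h2 : T.dist v c ≤ T.dist v (p n) + T.dist (p n) c := hT.connected.dist_triangle
    have h3 : T.dist (p n) c = 1 := SimpleGraph.dist_eq_one_iff_adj.2 hadj
    have h4 : T.dist v c = T.dist v (p n) + 1 := by omega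
    have h5 : x.1 (p n) c = 1 := by
      refine eq_one_step x hadj hcd ?_ hpos
      intro h
      rw [h] at h4
      omega
    exact ih hadj h4 (by rw [h5]; exact one_pos) (by omega) hdn

omit [Group G] [MulAction G V] in
private theorem interior_unique_aux (hT : T.IsTree) (x : Bar T) {a b c d : V} (hab : T.Adj a b)
    (hcd : T.Adj c d) (h1 : 0 < x.1 a b) (h2 : x.1 a b < 1) (h3 : 0 < x.1 c d)
    (hd : T.dist a d = T.dist a c + 1) : a = c ∧ b = d := by
  have hab1 : T.dist a b = 1 := SimpleGraph.dist_eq_one_iff_adj.2 hab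
  have hba1 : T.dist b a = 1 := by rw [SimpleGraph.dist_comm]; exact hab1
  have haa : T.dist a a = 0 := SimpleGraph.dist_self
  have hbb : T.dist b b = 0 := SimpleGraph.dist_self
  by_cases hac : a = c
  · subst hac
    refine ⟨rfl, ?_⟩
    by_contra hne
    have := Bar.mul_eq_zero x hab hcd hne
    rcases mul_eq_zero.1 this with h | h
    · exact h1.ne' h
    · exact h3.ne' h
  · exfalso
    rcases adj_between hT hab c with h | h
    · have h4 := Bar.eq_one_of_pos hT x hcd hd h3 hab (by omega) (by omega)
      linarith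
    · rcases adj_between hT hcd b with h' | h'
      · -- the neighbour of `c` in the direction of `a`
        obtain ⟨p, hp0, hp1, hpadj, hpd⟩ := exists_geodesic hT a c
        have hpos : 0 < T.dist a c := hT.connected.pos_dist_of_ne hac
        obtain ⟨n, hn⟩ : ∃ n, T.dist a c = n + 1 := ⟨T.dist a c - 1, by omega⟩
        rw [hn] at hp1 hpadj hpd
        have hadj : T.Adj (p n) c := by
          have := hpadj n (Nat.lt_succ_self n)
          rwa [hp1] at this
        have hdn : T.dist a (p n) = n := by
          have := hpd 0 n (Nat.zero_le _) (Nat.le_succ n)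
          rw [hp0] at this
          omega
        have e1 : T.dist b (p n) ≤ T.dist b a + T.dist a (p n) := hT.connected.dist_triangle
        have e2 : T.dist b c ≤ T.dist b (p n) + T.dist (p n) c := hT.connected.dist_triangle
        have e3 : T.dist (p n) c = 1 := SimpleGraph.dist_eq_one_iff_adj.2 hadj
        have e4 : T.dist (p n) b = T.dist b (p n) := SimpleGraph.dist_comm
        have e5 : T.dist c b = T.dist b c := SimpleGraph.dist_comm
        have e6 : T.dist d b = T.dist b d := SimpleGraph.dist_comm
        have h5 : d = p n := closer_unique (u := b) hT hcd hadj.symm (by omega) (by omega)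
        rw [h5] at hd
        omega
      · have e5 : T.dist c b = T.dist b c := SimpleGraph.dist_comm
        have e6 : T.dist d b = T.dist b d := SimpleGraph.dist_comm
        have h4 := Bar.eq_one_of_pos hT x (v := b) hcd (by omega) h3 hab.symm (by omega) (by omega)
        have h5 := Bar.symm x hab
        linarith

omit [Group G] [MulAction G V] in
/-- A point is in the interior of at most one edge. -/
theorem Bar.interior_unique (hT : T.IsTree) (x : Bar T) {a b c d : V} (hab : T.Adj a b)
    (hcd : T.Adj c d) (h1 : 0 < x.1 a b) (h2 : x.1 a b < 1) (h3 : 0 < x.1 c d)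
    (h4 : x.1 c d < 1) : (a = c ∧ b = d) ∨ (a = d ∧ b = c) := by
  rcases adj_between hT hcd a with h | h
  · right
    have e1 : T.dist c a = T.dist a c := SimpleGraph.dist_comm
    have e2 : T.dist d a = T.dist a d := SimpleGraph.dist_comm
    have h5 := Bar.symm x hcd
    exact interior_unique_aux hT x hab hcd.symm h1 h2 (by linarith) (by omega)
  · left
    have e1 : T.dist c a = T.dist a c := SimpleGraph.dist_comm
    have e2 : T.dist d a = T.dist a d := SimpleGraph.dist_comm
    exact interior_unique_aux hT x hab hcd h1 h2 h3 (by omega)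

omit [Group G] [MulAction G V] in
private theorem continuous_coord (u v : V) : Continuous (fun x : Bar T => x.1 u v) :=
  (continuous_apply_apply u v).comp continuous_subtype_val

theorem isColour_colE (hT : T.IsTree)
    (hadj : ∀ (g : G) (u v : V), T.Adj u v → T.Adj (g • u) (g • v)) :
    letI := barAction T hadj
    letI : MulAction G (Set V) := Set.mulActionSet
    IsColour (G := G) (fun e : Set V => ∃ u v, T.Adj u v ∧ e = {u, v}) (colE T) := by
  let _ := barAction T hadj
  let _ : MulAction G (Set V) := Set.mulActionSet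
  refine ⟨?_, ?_, ?_, ?_⟩
  · rintro g x l l' ⟨u, v, huv, rfl, h1, h2⟩ ⟨u', v', huv', rfl, h1', h2'⟩
    rcases Bar.interior_unique hT x huv huv' (by linarith) (by linarith) (by linarith)
      (by linarith) with ⟨rfl, rfl⟩ | ⟨rfl, rfl⟩
    · rfl
    · exact Set.pair_comm _ _
  · intro g l
    have : {x | colE T g x l} = ⋃ (u : V) (v : V) (_ : T.Adj u v ∧ l = {u, v}),
        {x : Bar T | 1 / 6 < x.1 u v ∧ x.1 u v < 5 / 6} := by
      ext x
      simp only [colE, Set.mem_ofPred_eq, Set.mem_iUnion, exists_prop]
      constructor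
      · rintro ⟨u, v, h1, h2, h3⟩
        exact ⟨u, v, ⟨h1, h2⟩, h3⟩
      · rintro ⟨u, v, ⟨h1, h2⟩, h3⟩
        exact ⟨u, v, h1, h2, h3⟩
    rw [this]
    refine isOpen_iUnion fun u => isOpen_iUnion fun v => isOpen_iUnion fun _ => ?_
    exact (isOpen_lt continuous_const (continuous_coord u v)).inter
      (isOpen_lt (continuous_coord u v) continuous_const)
  · rintro h g x l ⟨u, v, huv, rfl, h1, h2⟩
    have e : (h • x).1 (h • u) (h • v) = x.1 u v := by
      show x.1 (h⁻¹ • h • u) (h⁻¹ • h • v) = x.1 u v
      rw [inv_smul_smul, inv_smul_smul]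
    refine ⟨h • u, h • v, hadj h u v huv, ?_, ?_, ?_⟩
    · show (fun z => h • z) '' {u, v} = {h • u, h • v}
      exact Set.image_pair _ _ _
    · rw [e]; exact h1
    · rw [e]; exact h2
  · rintro g x l ⟨u, v, huv, rfl, -, -⟩
    exact ⟨u, v, huv, rfl⟩

omit [Group G] [MulAction G V] in
theorem reg_or_colE (x : Bar T) :
    Reg T (barB T) x ∨ ∃ e, ∃ u v, T.Adj u v ∧ e = ({u, v} : Set V) ∧ 1 / 6 < x.1 u v ∧
      x.1 u v < 5 / 6 := by
  by_cases h : Reg T (barB T) x
  · exact Or.inl h
  · right
    unfold Reg at h
    push Not at h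
    obtain ⟨u, v, huv, h1, h2⟩ := h
    have h3 : ¬ (1 / 2 < x.1 u v) := h1
    have h4 : ¬ (1 / 2 < x.1 v u) := h2
    have h5 := Bar.symm x huv
    refine ⟨{u, v}, u, v, huv, rfl, ?_, ?_⟩ <;> linarith

end Pool.Agent.FA
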