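import Pool.Agent.Lib.MP_98022b_fa.Lebesgue
import Pool.Agent.Lib.MP_98022b_fa.BarEdge

/-!
# The compactification has covering dimension at most one

Task F31.
-/

set_option autoImplicit false

open Set

namespace Pool.Agent.FA

variable {V : Type} {T : SimpleGraph V}

namespace F31aux

theorem exists_closer (hT : T.IsTree) {u v : V} (h : v ≠ u) :
    ∃ w, T.Adj v w ∧ T.dist w u + 1 = T.dist v u := by
  obtain ⟨p, hp0, hp1, hpadj, hpd⟩ := exists_geodesic hT v u
  have hpos : 0 < T.dist v u := hT.connected.pos_dist_of_ne h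
  have h1 := hpadj 0 hpos
  rw [hp0] at h1
  refine ⟨p 1, h1, ?_⟩
  have h2 := hpd 1 (T.dist v u) (by omega) le_rfl
  rw [hp1] at h2
  omega

/-- If the edge `c d` separates `v` and `b` then it is between them. -/
theorem sep (hT : T.IsTree) {c d b : V} (hcd : T.Adj c d) (h2 : T.dist b d = T.dist b c + 1) :
    ∀ (k : ℕ) (v : V), T.dist v d = k → T.dist v c = T.dist v d + 1 →
      T.dist v b = T.dist v d + 1 + T.dist c b := by
  intro k
  induction k using Nat.strong_induction_on with
  | _ k ih =>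
    intro v hk h1
    have ecb : T.dist c b = T.dist b c := SimpleGraph.dist_comm
    by_cases hvd : v = d
    · subst hvd
      have e1 : T.dist v b = T.dist b v := SimpleGraph.dist_comm
      have e2 : T.dist v v = 0 := SimpleGraph.dist_self
      omega
    · obtain ⟨v', hadj, hv'⟩ := exists_closer hT hvd
      have t1 : T.dist v' c ≤ T.dist v' d + T.dist d c := hT.connected.dist_triangle
      have t2 : T.dist v c ≤ T.dist v v' + T.dist v' c := hT.connected.dist_triangle
      have t3 : T.dist v v' = 1 := SimpleGraph.dist_eq_one_iff_adj.2 hadj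
      have t4 : T.dist d c = 1 := SimpleGraph.dist_eq_one_iff_adj.2 hcd.symm
      have h1' : T.dist v' c = T.dist v' d + 1 := by omega
      have ih1 := ih (T.dist v' d) (by omega) v' rfl h1'
      rcases adj_between hT hadj b with h | h
      · omega
      · exfalso
        -- `v` is the neighbour of `v'` closer to `b`
        by_cases hv'd : v' = d
        · subst hv'd
          have e3 : T.dist v' v' = 0 := SimpleGraph.dist_self
          have e4 : T.dist v' b = T.dist b v' := SimpleGraph.dist_comm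
          have h5 : v = c := closer_unique (u := b) (v := v') hT hadj.symm hcd.symm
            (by omega) (by omega)
          subst h5
          have e5 : T.dist v v = 0 := SimpleGraph.dist_self
          omega
        · obtain ⟨v'', hadj', hv''⟩ := exists_closer hT hv'd
          have s1 : T.dist v'' c ≤ T.dist v'' d + T.dist d c := hT.connected.dist_triangle
          have s2 : T.dist v' c ≤ T.dist v' v'' + T.dist v'' c := hT.connected.dist_triangle
          have s3 : T.dist v' v'' = 1 := SimpleGraph.dist_eq_one_iff_adj.2 hadj'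
          have h1'' : T.dist v'' c = T.dist v'' d + 1 := by omega
          have ih2 := ih (T.dist v'' d) (by omega) v'' rfl h1''
          have h5 : v = v'' := closer_unique (u := b) (v := v') hT hadj.symm hadj'
            (by omega) (by omega)
          subst h5
          omega

/-- Coordinates at darts pointing towards an edge with the point in its interior. -/
theorem toward (hT : T.IsTree) (x : Bar T) {a b c d : V} (hab : T.Adj a b) (hcd : T.Adj c d)
    (h1 : 0 < x.1 a b) (h2 : x.1 a b < 1) (hne : ¬ (c = b ∧ d = a))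
    (h : T.dist c a = T.dist d a + 1) : x.1 c d = 1 := by
  have e0 : T.dist c c = 0 := SimpleGraph.dist_self
  have e1 : T.dist c d = 1 := SimpleGraph.dist_eq_one_iff_adj.2 hcd
  have eab : T.dist a b = 1 := SimpleGraph.dist_eq_one_iff_adj.2 hab
  have eac : T.dist a c = T.dist c a := SimpleGraph.dist_comm
  have ebc : T.dist b c = T.dist c b := SimpleGraph.dist_comm
  rcases adj_between hT hab c with h' | h'
  · -- `b` is closer to `c`
    have h3 : 0 < x.1 b a := by
      have := Bar.symm x hab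
      linarith
    have hcb : c ≠ b := by
      intro hcb
      apply hne
      refine ⟨hcb, ?_⟩
      have e2 : T.dist c b = 0 := by rw [hcb]; exact SimpleGraph.dist_self
      have e3 : T.dist d a = 0 := by omega
      exact (hT.connected.dist_eq_zero_iff).1 e3
    obtain ⟨w, hw, hwb⟩ := exists_closer hT hcb
    have t1 : T.dist w a ≤ T.dist w b + T.dist b a := hT.connected.dist_triangle
    have t2 : T.dist b a = 1 := SimpleGraph.dist_eq_one_iff_adj.2 hab.symm
    have t3 : T.dist c a ≤ T.dist c w + T.dist w a := hT.connected.dist_triangle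
    have t4 : T.dist c w = 1 := SimpleGraph.dist_eq_one_iff_adj.2 hw
    have h5 : d = w := closer_unique (u := a) (v := c) hT hcd hw (by omega) (by omega)
    subst h5
    exact Bar.eq_one_of_pos hT x (v := c) (c := b) (d := a) hab.symm (by omega) h3 hcd
      (by omega) (by omega)
  · exact Bar.eq_one_of_pos hT x (v := c) (c := a) (d := b) hab (by omega) h1 hcd
      (by omega) (by omega)

/-- The other coordinates are constant on the interior of an edge. -/
theorem const_off (hT : T.IsTree) (x y : Bar T) {a b c d : V} (hab : T.Adj a b)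
    (hcd : T.Adj c d) (hx1 : 0 < x.1 a b) (hx2 : x.1 a b < 1) (hy1 : 0 < y.1 a b)
    (hy2 : y.1 a b < 1) (hne : ¬ (c = b ∧ d = a)) (hne' : ¬ (c = a ∧ d = b)) :
    x.1 c d = y.1 c d := by
  rcases adj_between hT hcd a with h | h
  · rw [toward hT x hab hcd hx1 hx2 hne h, toward hT y hab hcd hy1 hy2 hne h]
  · have hne'' : ¬ (d = b ∧ c = a) := fun h => hne' ⟨h.2, h.1⟩
    have h1 := toward hT x hab hcd.symm hx1 hx2 hne'' h
    have h2 := toward hT y hab hcd.symm hy1 hy2 hne'' h
    have h3 := Bar.symm x hcd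
    have h4 := Bar.symm y hcd
    linarith

/-- The dart points away from `v`. -/
def Away (T : SimpleGraph V) (v a b : V) : Prop := T.dist v b = T.dist v a + 1

theorem away_or (hT : T.IsTree) {a b : V} (hab : T.Adj a b) (v : V) :
    Away T v a b ∨ Away T v b a := by
  have e1 : T.dist v a = T.dist a v := SimpleGraph.dist_comm
  have e2 : T.dist v b = T.dist b v := SimpleGraph.dist_comm
  unfold Away
  rcases adj_between hT hab v with h | h
  · right; omega
  · left; omega

/-- The interval sets. -/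
def Ivl (T : SimpleGraph V) (n : ℕ) (a b : V) (j : ℕ) : Set (Bar T) :=
  {x | (j : ℝ) / n < x.1 a b ∧ x.1 a b < ((j : ℝ) + 2) / n}

/-- The sets given by the sides of a vertex. -/
def Sid (T : SimpleGraph V) (F : Finset (V × V)) (n : ℕ) (v : V) : Set (Bar T) :=
  {x | ∀ e ∈ F, (Away T v e.1 e.2 → x.1 e.1 e.2 < 1 / n) ∧
    (Away T v e.2 e.1 → x.1 e.2 e.1 < 1 / n)}

/-- The cover. -/
def Fam (T : SimpleGraph V) (F : Finset (V × V)) (n : ℕ) : Set (Set (Bar T)) :=
  {W | W.Nonempty ∧ ((∃ e ∈ F, ∃ j : ℕ, j + 2 ≤ n ∧ W = Ivl T n e.1 e.2 j) ∨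
    ∃ v, W = Sid T F n v)}

theorem continuous_coord (u v : V) : Continuous (fun x : Bar T => x.1 u v) :=
  (continuous_apply_apply u v).comp continuous_subtype_val

theorem isOpen_Ivl (n : ℕ) (a b : V) (j : ℕ) : IsOpen (Ivl T n a b j) :=
  (isOpen_lt continuous_const (continuous_coord a b)).inter
    (isOpen_lt (continuous_coord a b) continuous_const)

theorem isOpen_Sid (F : Finset (V × V)) (n : ℕ) (v : V) : IsOpen (Sid T F n v) := by
  have : Sid T F n v = ⋂ e ∈ F, ({x : Bar T | Away T v e.1 e.2 → x.1 e.1 e.2 < 1 / n} ∩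
      {x : Bar T | Away T v e.2 e.1 → x.1 e.2 e.1 < 1 / n}) := by
    ext x
    simp [Sid]
  rw [this]
  refine isOpen_biInter_finset fun e _ => ?_
  have key : ∀ (P : Prop) (a b : V), IsOpen {x : Bar T | P → x.1 a b < 1 / n} := by
    intro P a b
    by_cases hP : P
    · simp only [hP, true_implies]
      exact isOpen_lt (continuous_coord a b) continuous_const
    · simp only [hP, false_implies]
      exact isOpen_const
  exact (key _ _ _).inter (key _ _ _)

theorem Ivl_swap {n : ℕ} (hn : 0 < n) {a b : V} (hab : T.Adj a b) {j : ℕ} (hj : j + 2 ≤ n) :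
    Ivl T n b a j = Ivl T n a b (n - 2 - j) := by
  have hn' : (0 : ℝ) < n := by exact_mod_cast hn
  have e1 : ((n - 2 - j : ℕ) : ℝ) = n - 2 - j := by
    rw [Nat.cast_sub (by omega), Nat.cast_sub (by omega)]
    norm_num
  ext x
  have h := Bar.symm x hab
  simp only [Ivl, Set.mem_ofPred_eq, e1]
  rw [h, div_lt_iff₀ hn', lt_div_iff₀ hn', div_lt_iff₀ hn', lt_div_iff₀ hn']
  constructor
  · rintro ⟨h1, h2⟩
    constructor <;> nlinarith
  · rintro ⟨h1, h2⟩
    constructor <;> nlinarith

/-- Points of interval sets are in the interior of the edge. -/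
theorem Ivl_interior {n : ℕ} (hn : 0 < n) {a b : V} {j : ℕ} (hj : j + 2 ≤ n) {x : Bar T}
    (hx : x ∈ Ivl T n a b j) : 0 < x.1 a b ∧ x.1 a b < 1 := by
  have hn' : (0 : ℝ) < n := by exact_mod_cast hn
  obtain ⟨h1, h2⟩ := hx
  constructor
  · exact lt_of_le_of_lt (by positivity) h1
  · refine lt_of_lt_of_le h2 ?_
    rw [div_le_one hn']
    exact_mod_cast hj

theorem small_Ivl (hT : T.IsTree) {F : Finset (V × V)} (hF : ∀ e ∈ F, T.Adj e.1 e.2) {n : ℕ}
    (hn : 0 < n) {a b : V} (hab : T.Adj a b) {j : ℕ} (hj : j + 2 ≤ n) :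
    ∀ x ∈ Ivl T n a b j, ∀ y ∈ Ivl T n a b j, ∀ e ∈ F,
      |x.1 e.1 e.2 - y.1 e.1 e.2| ≤ 2 / n := by
  intro x hx y hy e he
  have hn' : (0 : ℝ) < n := by exact_mod_cast hn
  obtain ⟨hx1, hx2⟩ := Ivl_interior hn hj hx
  obtain ⟨hy1, hy2⟩ := Ivl_interior hn hj hy
  have hdiff : |x.1 a b - y.1 a b| ≤ 2 / n := by
    obtain ⟨h1, h2⟩ := hx
    obtain ⟨h3, h4⟩ := hy
    have e1 : ((j : ℝ) + 2) / n = (j : ℝ) / n + 2 / n := by ring
    rw [abs_le]
    constructor <;> linarith
  by_cases h1 : e.1 = b ∧ e.2 = a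
  · rw [h1.1, h1.2, Bar.symm x hab, Bar.symm y hab]
    have : (1 - x.1 a b) - (1 - y.1 a b) = -(x.1 a b - y.1 a b) := by ring
    rw [this, abs_neg]
    exact hdiff
  · by_cases h2 : e.1 = a ∧ e.2 = b
    · rw [h2.1, h2.2]
      exact hdiff
    · rw [const_off hT x y hab (hF e he) hx1 hx2 hy1 hy2 h1 h2, sub_self, abs_zero]
      positivity

theorem small_Sid (hT : T.IsTree) {F : Finset (V × V)} (hF : ∀ e ∈ F, T.Adj e.1 e.2) {n : ℕ}
    (v : V) : ∀ x ∈ Sid T F n v, ∀ y ∈ Sid T F n v, ∀ e ∈ F,
      |x.1 e.1 e.2 - y.1 e.1 e.2| ≤ 2 / n := by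
  intro x hx y hy e he
  have h0 : (0 : ℝ) ≤ 1 / n := by positivity
  have e1 : (2 : ℝ) / n = 1 / n + 1 / n := by ring
  rcases away_or hT (hF e he) v with h | h
  · have h1 := (hx e he).1 h
    have h2 := (hy e he).1 h
    have h3 := Bar.nonneg x e.1 e.2
    have h4 := Bar.nonneg y e.1 e.2
    rw [abs_le]
    constructor <;> linarith
  · have h1 := (hx e he).2 h
    have h2 := (hy e he).2 h
    have h3 := Bar.nonneg x e.2 e.1
    have h4 := Bar.nonneg y e.2 e.1
    have h5 := Bar.symm x (hF e he)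
    have h6 := Bar.symm y (hF e he)
    rw [abs_le]
    constructor <;> linarith

/-- Two sets given by vertices with a common point are equal. -/
theorem Sid_eq (hT : T.IsTree) {F : Finset (V × V)} (hF : ∀ e ∈ F, T.Adj e.1 e.2) {n : ℕ}
    (hn : 2 ≤ n) {v v' : V} {x : Bar T} (hx : x ∈ Sid T F n v) (hx' : x ∈ Sid T F n v') :
    Sid T F n v = Sid T F n v' := by
  have hn' : (2 : ℝ) ≤ n := by exact_mod_cast hn
  have h2 : (1 : ℝ) / n ≤ 1 / 2 := one_div_le_one_div_of_le (by norm_num) hn'
  have hiff : ∀ e ∈ F, (Away T v e.1 e.2 ↔ Away T v' e.1 e.2) ∧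
      (Away T v e.2 e.1 ↔ Away T v' e.2 e.1) := by
    intro e he
    have h3 := Bar.symm x (hF e he)
    have hcontra : ∀ w w', x ∈ Sid T F n w → x ∈ Sid T F n w' → Away T w e.1 e.2 →
        ¬ Away T w' e.2 e.1 := by
      intro w w' hw hw' h h'
      have h4 := (hw e he).1 h
      have h5 := (hw' e he).2 h'
      linarith
    rcases away_or hT (hF e he) v with h | h <;> rcases away_or hT (hF e he) v' with h' | h'
    · exact ⟨⟨fun _ => h', fun _ => h⟩, ⟨fun h1 => absurd h1 (hcontra v v hx hx h),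
        fun h1 => absurd h1 (hcontra v v' hx hx' h)⟩⟩
    · exact absurd h' (hcontra v v' hx hx' h)
    · exact absurd h (hcontra v' v hx' hx h')
    · exact ⟨⟨fun h1 => absurd h (hcontra v v hx hx h1), fun h1 => absurd h (hcontra v' v hx' hx h1)⟩,
        ⟨fun _ => h', fun _ => h⟩⟩
  ext y
  simp only [Sid, Set.mem_ofPred_eq]
  refine forall₂_congr fun e he => ?_
  rw [(hiff e he).1, (hiff e he).2]

/-- A point with all coordinates in `F` equal to `0` or `1` is in one of the sets of vertices. -/
theorem exists_Sid (hT : T.IsTree) {F : Finset (V × V)} (hF : ∀ e ∈ F, T.Adj e.1 e.2) {n : ℕ}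
    (hn : 0 < n) (x : Bar T) (hx : ∀ e ∈ F, x.1 e.1 e.2 = 0 ∨ x.1 e.1 e.2 = 1) :
    ∃ v, x ∈ Sid T F n v := by
  classical
  have hne : Nonempty V := hT.connected.nonempty
  have hn' : (0 : ℝ) < 1 / n := by positivity
  let F' : Finset (V × V) := F ∪ F.image Prod.swap
  have hF' : ∀ e ∈ F', T.Adj e.1 e.2 := by
    intro e he
    rw [Finset.mem_union, Finset.mem_image] at he
    rcases he with he | ⟨e', he', rfl⟩
    · exact hF e he
    · exact (hF e' he').symm
  have hx' : ∀ e ∈ F', x.1 e.1 e.2 = 0 ∨ x.1 e.1 e.2 = 1 := by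
    intro e he
    rw [Finset.mem_union, Finset.mem_image] at he
    rcases he with he | ⟨e', he', rfl⟩
    · exact hx e he
    · have h1 := Bar.symm x (hF e' he')
      simp only [Prod.fst_swap, Prod.snd_swap]
      rcases hx e' he' with h | h
      · right; rw [h1, h]; norm_num
      · left; rw [h1, h]; norm_num
  let N : V → Finset (V × V) := fun v => F'.filter fun e => Away T v e.1 e.2 ∧ x.1 e.1 e.2 = 1
  let v := Function.argmin (fun v => (N v).card)
  have hmin : ∀ w, (N v).card ≤ (N w).card := fun w => Function.argmin_le (fun v => (N v).card) w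
  refine ⟨v, ?_⟩
  have hempty : N v = ∅ := by
    by_contra hcon
    obtain ⟨e, he⟩ := Finset.nonempty_iff_ne_empty.2 hcon
    obtain ⟨a, b⟩ := e
    have he1 : (a, b) ∈ F' := (Finset.mem_filter.1 he).1
    have he2 : T.dist v b = T.dist v a + 1 := (Finset.mem_filter.1 he).2.1
    have he3 : x.1 a b = 1 := (Finset.mem_filter.1 he).2.2
    have hab : T.Adj a b := hF' _ he1
    have hsub : N b ⊂ N v := by
      rw [Finset.ssubset_iff_of_subset]
      · refine ⟨(a, b), he, ?_⟩
        intro h
        have h1 : T.dist b b = T.dist b a + 1 := (Finset.mem_filter.1 h).2.1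
        rw [SimpleGraph.dist_self] at h1
        omega
      · rintro ⟨c, d⟩ h
        have h1 : (c, d) ∈ F' := (Finset.mem_filter.1 h).1
        have h2 : T.dist b d = T.dist b c + 1 := (Finset.mem_filter.1 h).2.1
        have h3 : x.1 c d = 1 := (Finset.mem_filter.1 h).2.2
        have hcd : T.Adj c d := hF' _ h1
        refine Finset.mem_filter.2 ⟨h1, ?_, h3⟩
        rcases away_or hT hcd v with h4 | h4
        · exact h4
        · exfalso
          have h4' : T.dist v c = T.dist v d + 1 := h4
          have h5 := sep hT hcd h2 (T.dist v d) v rfl h4'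
          have h6 := Bar.symm x hcd
          have ebv : T.dist b v = T.dist v b := SimpleGraph.dist_comm
          have eav : T.dist a v = T.dist v a := SimpleGraph.dist_comm
          by_cases hcb : b = c
          · subst hcb
            have edv : T.dist d v = T.dist v d := SimpleGraph.dist_comm
            have h7 : d = a := closer_unique (u := v) (v := b) hT hcd hab.symm
              (by omega) (by omega)
            subst h7
            have h8 := Bar.symm x hab
            linarith
          · obtain ⟨w, hw, hwc⟩ := exists_closer hT hcb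
            have t1 : T.dist v w ≤ T.dist v c + T.dist c w := hT.connected.dist_triangle
            have t2 : T.dist v b ≤ T.dist v w + T.dist w b := hT.connected.dist_triangle
            have t3 : T.dist w b = 1 := SimpleGraph.dist_eq_one_iff_adj.2 hw.symm
            have t4 : T.dist c w = T.dist w c := SimpleGraph.dist_comm
            have t5 : T.dist c b = T.dist b c := SimpleGraph.dist_comm
            have t6 : T.dist w v = T.dist v w := SimpleGraph.dist_comm
            have h7 : w = a := closer_unique (u := v) (v := b) hT hw hab.symm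
              (by omega) (by omega)
            subst h7
            have h8 : x.1 d c = 1 := Bar.eq_one_of_pos hT x (v := v) (c := w) (d := b) hab
              (by omega) (by rw [he3]; norm_num) hcd.symm (by omega) (by omega)
            linarith
    exact absurd (hmin b) (not_le.2 (Finset.card_lt_card hsub))
  have hall : ∀ e ∈ F', Away T v e.1 e.2 → x.1 e.1 e.2 < 1 / n := by
    intro e he h
    rcases hx' e he with h1 | h1
    · rw [h1]; exact hn'
    · exfalso
      have : e ∈ N v := Finset.mem_filter.2 ⟨he, h, h1⟩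
      rw [hempty] at this
      exact absurd this (Finset.notMem_empty e)
  intro e he
  refine ⟨hall e (Finset.mem_union_left _ he), ?_⟩
  exact hall e.swap (Finset.mem_union_right _ (Finset.mem_image_of_mem _ he))

theorem exists_Ivl {n : ℕ} (hn : 2 ≤ n) {a b : V} {x : Bar T} (h1 : 0 < x.1 a b)
    (h2 : x.1 a b < 1) : ∃ j : ℕ, j + 2 ≤ n ∧ x ∈ Ivl T n a b j := by
  have hn' : (0 : ℝ) < n := by
    have : (2 : ℝ) ≤ n := by exact_mod_cast hn
    linarith
  set t : ℝ := x.1 a b * n with ht
  have ht0 : 0 < t := mul_pos h1 hn'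
  have htn : t < n := by
    rw [ht]
    nlinarith
  have hc0 : 0 < ⌈t⌉₊ := Nat.ceil_pos.2 ht0
  have hc1 : t ≤ ⌈t⌉₊ := Nat.le_ceil t
  have hc2 : (⌈t⌉₊ : ℝ) < t + 1 := Nat.ceil_lt_add_one ht0.le
  by_cases hcase : ⌈t⌉₊ + 1 ≤ n
  · obtain ⟨j, hj⟩ : ∃ j, ⌈t⌉₊ = j + 1 := ⟨⌈t⌉₊ - 1, by omega⟩
    rw [hj] at hc1 hc2 hcase
    push_cast at hc1 hc2
    refine ⟨j, by omega, ?_, ?_⟩
    · rw [div_lt_iff₀ hn']
      linarith
    · rw [lt_div_iff₀ hn']
      linarith
  · have h3 : (n : ℝ) ≤ ⌈t⌉₊ := by
      have : n ≤ ⌈t⌉₊ := by omega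
      exact_mod_cast this
    obtain ⟨j, hj⟩ : ∃ j, n = j + 2 := ⟨n - 2, by omega⟩
    have h4 : (n : ℝ) = j + 2 := by
      rw [hj]
      push_cast
      ring
    refine ⟨j, by omega, ?_, ?_⟩
    · rw [div_lt_iff₀ hn']
      linarith
    · rw [lt_div_iff₀ hn']
      linarith

end F31aux

open F31aux

/-- The cover by the sets `{x | j / n < x a b < (j + 2) / n}`, `(a, b) ∈ F` (one orientation for each
edge), `j < n - 1`, and the sets `W v` of the points whose coordinates at the darts of `F` away from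
`v` are less than `1 / n`. -/
theorem covDimLE_bar (hT : T.IsTree) : CovDimLE (Bar T) 1 := by
  classical
  intro ι O hO hcov
  obtain ⟨F, n, hn, hF, hW⟩ := exists_lebesgue T O hO hcov
  have hn0 : 0 < n := by omega
  have hnR : (2 : ℝ) ≤ n := by exact_mod_cast hn
  have hn' : (0 : ℝ) < n := by linarith
  refine ⟨{W : Set (Bar T) // W ∈ Fam T F n}, Subtype.val, ?_, ?_, ?_, ?_⟩
  · rintro ⟨W, -, ⟨e, -, j, -, rfl⟩ | ⟨v, rfl⟩⟩
    · exact isOpen_Ivl _ _ _ _
    · exact isOpen_Sid _ _ _
  · rw [Set.eq_univ_iff_forall]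
    intro x
    rw [Set.mem_iUnion]
    by_cases h : ∃ e ∈ F, 0 < x.1 e.1 e.2 ∧ x.1 e.1 e.2 < 1
    · obtain ⟨e, he, h1, h2⟩ := h
      obtain ⟨j, hj, hx⟩ := exists_Ivl hn h1 h2
      exact ⟨⟨_, ⟨x, hx⟩, Or.inl ⟨e, he, j, hj, rfl⟩⟩, hx⟩
    · push Not at h
      have hx : ∀ e ∈ F, x.1 e.1 e.2 = 0 ∨ x.1 e.1 e.2 = 1 := by
        intro e he
        rcases (Bar.nonneg x e.1 e.2).eq_or_lt with h1 | h1
        · exact Or.inl h1.symm
        · exact Or.inr (le_antisymm (Bar.le_one x _ _) (h e he h1))
      obtain ⟨v, hv⟩ := exists_Sid hT hF hn0 x hx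
      exact ⟨⟨_, ⟨x, hv⟩, Or.inr ⟨v, rfl⟩⟩, hv⟩
  · rintro ⟨W, hne, ⟨e, he, j, hj, rfl⟩ | ⟨v, rfl⟩⟩
    · exact hW _ (small_Ivl hT hF hn0 (hF e he) hj) hne
    · exact hW _ (small_Sid hT hF v) hne
  · intro x
    -- it is enough to find two sets
    have key : ∀ A B : Set (Bar T), (∀ W ∈ Fam T F n, x ∈ W → W = A ∨ W = B) →
        {j : {W : Set (Bar T) // W ∈ Fam T F n} | x ∈ j.1}.encard ≤ (1 : ℕ) + 1 := by
      intro A B h
      have h1 : {j : {W : Set (Bar T) // W ∈ Fam T F n} | x ∈ j.1}.encard =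
          (Subtype.val '' {j : {W : Set (Bar T) // W ∈ Fam T F n} | x ∈ j.1}).encard :=
        (Subtype.val_injective.encard_image _).symm
      rw [h1]
      have h2 : Subtype.val '' {j : {W : Set (Bar T) // W ∈ Fam T F n} | x ∈ j.1} ⊆ {A, B} := by
        rintro _ ⟨⟨W, hWm⟩, hx, rfl⟩
        exact h W hWm hx
      refine (Set.encard_le_encard h2).trans ((Set.encard_insert_le _ _).trans ?_)
      rw [Set.encard_singleton]
      norm_num
    by_cases h : ∃ e ∈ F, 0 < x.1 e.1 e.2 ∧ x.1 e.1 e.2 < 1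
    · obtain ⟨e, he, h1, h2⟩ := h
      obtain ⟨a, b⟩ := e
      simp only at h1 h2
      have hab : T.Adj a b := hF _ he
      -- the interval sets
      have hI : ∀ W, (∃ e ∈ F, ∃ j : ℕ, j + 2 ≤ n ∧ W = Ivl T n e.1 e.2 j) → x ∈ W →
          ∃ j : ℕ, j + 2 ≤ n ∧ W = Ivl T n a b j ∧ (j : ℝ) < x.1 a b * n ∧
            x.1 a b * n < j + 2 := by
        rintro W ⟨⟨c, d⟩, he', j, hj, rfl⟩ hx
        have hcd : T.Adj c d := hF _ he'
        obtain ⟨h3, h4⟩ := Ivl_interior hn0 hj hx
        simp only at h3 h4 hx ⊢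
        have hfin : ∀ j', x ∈ Ivl T n a b j' → (j' : ℝ) < x.1 a b * n ∧
            x.1 a b * n < j' + 2 := by
          rintro j' ⟨h5, h6⟩
          rw [div_lt_iff₀ hn'] at h5
          rw [lt_div_iff₀ hn'] at h6
          exact ⟨h5, h6⟩
        rcases Bar.interior_unique hT x hab hcd h1 h2 h3 h4 with ⟨rfl, rfl⟩ | ⟨rfl, rfl⟩
        · exact ⟨j, hj, rfl, hfin j hx⟩
        · rw [Ivl_swap hn0 hab hj] at hx ⊢
          exact ⟨n - 2 - j, by omega, rfl, hfin _ hx⟩
      by_cases hS : ∃ v, x ∈ Sid T F n v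
      · obtain ⟨v, hv⟩ := hS
        have hSv : ∀ v', x ∈ Sid T F n v' → Sid T F n v' = Sid T F n v := fun v' hv' =>
          Sid_eq hT hF hn hv' hv
        rcases away_or hT hab v with h3 | h3
        · have h4 : x.1 a b < 1 / n := (hv _ he).1 h3
          rw [lt_div_iff₀ hn'] at h4
          refine key (Ivl T n a b 0) (Sid T F n v) ?_
          rintro W ⟨-, hW' | ⟨v', rfl⟩⟩ hx
          · left
            obtain ⟨j, hj, rfl, h5, h6⟩ := hI W hW' hx
            have h7 : (j : ℝ) < 1 := by linarith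
            have h8 : j = 0 := by
              have : j < 1 := by exact_mod_cast h7
              omega
            rw [h8]
          · exact Or.inr (hSv v' hx)
        · have h4 : x.1 b a < 1 / n := (hv _ he).2 h3
          rw [lt_div_iff₀ hn'] at h4
          have h4' := Bar.symm x hab
          refine key (Ivl T n a b (n - 2)) (Sid T F n v) ?_
          rintro W ⟨-, hW' | ⟨v', rfl⟩⟩ hx
          · left
            obtain ⟨j, hj, rfl, h5, h6⟩ := hI W hW' hx
            have h7 : (n : ℝ) - 1 < j + 2 := by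
              rw [h4'] at h4
              nlinarith
            have h8 : j = n - 2 := by
              have : n < j + 3 := by
                have h9 : (n : ℝ) < j + 3 := by linarith
                exact_mod_cast h9
              omega
            rw [h8]
          · exact Or.inr (hSv v' hx)
      · obtain ⟨j₀, hj₀⟩ : ∃ j₀, ⌈x.1 a b * n⌉₊ = j₀ + 1 := by
          have : 0 < ⌈x.1 a b * n⌉₊ := Nat.ceil_pos.2 (mul_pos h1 hn')
          exact ⟨⌈x.1 a b * n⌉₊ - 1, by omega⟩
        refine key (Ivl T n a b j₀) (Ivl T n a b (j₀ - 1)) ?_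
        rintro W ⟨-, hW' | ⟨v', rfl⟩⟩ hx
        · obtain ⟨j, hj, rfl, h5, h6⟩ := hI W hW' hx
          have h7 : j < ⌈x.1 a b * n⌉₊ := Nat.lt_ceil.2 h5
          have h8 : ⌈x.1 a b * n⌉₊ ≤ j + 2 := by
            rw [Nat.ceil_le]
            push_cast
            exact h6.le
          rw [hj₀] at h7 h8
          rcases Nat.lt_or_ge j j₀ with h9 | h9
          · right
            have : j = j₀ - 1 := by omega
            rw [this]
          · left
            have : j = j₀ := by omega
            rw [this]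
        · exact absurd ⟨v', hx⟩ hS
    · -- no edge
      have hI : ∀ W, (∃ e ∈ F, ∃ j : ℕ, j + 2 ≤ n ∧ W = Ivl T n e.1 e.2 j) → x ∉ W := by
        rintro W ⟨e, he, j, hj, rfl⟩ hx
        exact h ⟨e, he, Ivl_interior hn0 hj hx⟩
      by_cases hS : ∃ v, x ∈ Sid T F n v
      · obtain ⟨v, hv⟩ := hS
        refine key (Sid T F n v) (Sid T F n v) ?_
        rintro W ⟨-, hW' | ⟨v', rfl⟩⟩ hx
        · exact absurd hx (hI W hW')
        · exact Or.inl (Sid_eq hT hF hn hx hv)
      · refine key ∅ ∅ ?_
        rintro W ⟨-, hW' | ⟨v', rfl⟩⟩ hx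
        · exact absurd hx (hI W hW')
        · exact absurd ⟨v', hx⟩ hS

end Pool.Agent.FA
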