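import Pool.Agent.Lib.MP_98022b_fa.Phases

/-!
# The compactification is contractible and locally contractible

Task F29.
-/

set_option autoImplicit false

open Set

namespace Pool.Agent.FA

variable {V : Type} {T : SimpleGraph V}

namespace F29aux

/-- The filter of the coordinate neighbourhoods of `x`. -/
def cf (x : V → V → ℝ) : Filter (V → V → ℝ) where
  sets := {U | ∃ (F : Finset (V × V)) (ε : ℝ), 0 < ε ∧
    ∀ y : V → V → ℝ, (∀ e ∈ F, |y e.1 e.2 - x e.1 e.2| < ε) → y ∈ U}
  univ_sets := ⟨∅, 1, one_pos, fun _ _ => trivial⟩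
  sets_of_superset := by
    rintro U W ⟨F, ε, hε, h⟩ hUW
    exact ⟨F, ε, hε, fun y hy => hUW (h y hy)⟩
  inter_sets := by
    classical
    rintro U W ⟨F, ε, hε, h⟩ ⟨F', ε', hε', h'⟩
    refine ⟨F ∪ F', min ε ε', lt_min hε hε', fun y hy => ⟨h y fun e he => ?_, h' y fun e he => ?_⟩⟩
    · exact (hy e (Finset.mem_union_left _ he)).trans_le (min_le_left _ _)
    · exact (hy e (Finset.mem_union_right _ he)).trans_le (min_le_right _ _)

theorem cf_le (x : V → V → ℝ) : cf x ≤ nhds x := by
  have h : Filter.Tendsto (fun y : V → V → ℝ => y) (cf x) (nhds x) := by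
    rw [tendsto_pi_nhds]
    intro u
    rw [tendsto_pi_nhds]
    intro v
    rw [Metric.tendsto_nhds]
    intro ε hε
    refine ⟨{(u, v)}, ε, hε, fun y hy => ?_⟩
    show dist (y u v) (x u v) < ε
    rw [Real.dist_eq]
    exact hy (u, v) (Finset.mem_singleton_self _)
  exact h

theorem exists_coord (x : Bar T) {U : Set (Bar T)} (hU : U ∈ nhds x) :
    ∃ (F : Finset (V × V)) (ε : ℝ), 0 < ε ∧
      ∀ y : Bar T, (∀ e ∈ F, |y.1 e.1 e.2 - x.1 e.1 e.2| < ε) → y ∈ U := by
  rw [nhds_subtype_eq_comap, Filter.mem_comap] at hU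
  obtain ⟨W, hW, hWU⟩ := hU
  obtain ⟨F, ε, hε, h⟩ := cf_le x.1 hW
  exact ⟨F, ε, hε, fun y hy => hWU (h y.1 hy)⟩

theorem isOpen_coord (x : Bar T) (F : Finset (V × V)) (ε : ℝ) :
    IsOpen {y : Bar T | ∀ e ∈ F, |y.1 e.1 e.2 - x.1 e.1 e.2| < ε} := by
  have h : {y : Bar T | ∀ e ∈ F, |y.1 e.1 e.2 - x.1 e.1 e.2| < ε} =
      ⋂ e ∈ F, {y : Bar T | |y.1 e.1 e.2 - x.1 e.1 e.2| < ε} := by
    ext y; simp
  rw [h]
  refine isOpen_biInter_finset fun e _ => ?_
  have hc : Continuous fun y : Bar T => y.1 e.1 e.2 :=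
    (continuous_apply_apply e.1 e.2).comp continuous_subtype_val
  exact isOpen_lt (hc.sub continuous_const).abs continuous_const

/-- A homotopy which preserves a subset, as a homotopy of self-maps of the subset. -/
theorem homotopic_of {X : Type} [TopologicalSpace X] {B : Set X} (H : unitInterval × X → X)
    (hH : Continuous H) (f g : C(B, B)) (e : B → X) (he : Continuous e)
    (hB : ∀ t (y : B), H (t, e y) ∈ B)
    (h0 : ∀ y : B, H (0, e y) = f y) (h1 : ∀ y : B, H (1, e y) = g y) : f.Homotopic g := by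
  refine ⟨⟨⟨fun p => ⟨H (p.1, e p.2), hB _ _⟩, ?_⟩, ?_, ?_⟩⟩
  · exact Continuous.subtype_mk (hH.comp (continuous_fst.prodMk (he.comp continuous_snd))) _
  · intro y
    exact Subtype.ext (h0 y)
  · intro y
    exact Subtype.ext (h1 y)

open Classical in
/-- The point of the compactification given by a vertex. -/
noncomputable def vpt (hT : T.IsTree) (v₀ : V) : Bar T :=
  ⟨fun u v => if T.Adj u v ∧ T.dist u v₀ = T.dist v v₀ + 1 then 1 else 0, by
    refine ⟨fun u v h => ⟨by positivity, ?_⟩, fun u v h => if_neg fun h' => h h'.1, ?_⟩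
    · beta_reduce
      rcases adj_between hT h v₀ with h1 | h1
      · have h3 : ¬ (T.Adj v u ∧ T.dist v v₀ = T.dist u v₀ + 1) := fun h2 => by
          have := h2.2; omega
        rw [if_pos (show T.Adj u v ∧ T.dist u v₀ = T.dist v v₀ + 1 from ⟨h, h1⟩), if_neg h3]
        norm_num
      · have h3 : ¬ (T.Adj u v ∧ T.dist u v₀ = T.dist v v₀ + 1) := fun h2 => by
          have := h2.2; omega
        rw [if_pos (show T.Adj v u ∧ T.dist v v₀ = T.dist u v₀ + 1 from ⟨h.symm, h1⟩), if_neg h3]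
        norm_num
    · intro v u w hu hw hne
      by_cases h1 : T.Adj v u ∧ T.dist v v₀ = T.dist u v₀ + 1
      · by_cases h2 : T.Adj v w ∧ T.dist v v₀ = T.dist w v₀ + 1
        · exact absurd (closer_unique hT h1.1 h2.1 h1.2.symm h2.2.symm) hne
        · simp only [if_neg h2, mul_zero]
      · simp only [if_neg h1, zero_mul]⟩

end F29aux

open F29aux

/-- The subspaces given by intervals of coordinates are contractible. -/
theorem contractible_box (hT : T.IsTree) (I : V → V → Set ℝ) (hI : ∀ u v, OrdConnected (I u v))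
    (hne : ∃ x : Bar T, ∀ u v, x.1 u v ∈ I u v) :
    ContractibleSpace {x : Bar T | ∀ u v, x.1 u v ∈ I u v} := by
  obtain ⟨x, hx⟩ := hne
  obtain ⟨f₁, f₂, H₁, H₂, H₃, c1, c2, c3, a0, a1, b0, b1, d0, d1, hu⟩ := exists_phases hT x
  set B : Set (Bar T) := {x : Bar T | ∀ u v, x.1 u v ∈ I u v} with hB
  have key : ∀ (y z : Bar T), y ∈ B → (∀ u v, z.1 u v ∈ uIcc (y.1 u v) (x.1 u v)) → z ∈ B := by
    intro y z hy hz u v
    exact (hI u v).uIcc_subset (hy u v) (hx u v) (hz u v)
  have hf1 : ∀ y ∈ B, f₁ y ∈ B := fun y hy =>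
    key y _ hy fun u v => by rw [← a1]; exact (hu 1 y u v).1
  have hf2 : ∀ y ∈ B, f₂ y ∈ B := fun y hy =>
    key y _ hy fun u v => by rw [← b1]; exact (hu 1 y u v).2.1
  have hcf1 : Continuous f₁ := by
    have : f₁ = fun y => H₁ (1, y) := by funext y; rw [a1]
    rw [this]
    exact c1.comp (continuous_const.prodMk continuous_id)
  have hcf2 : Continuous f₂ := by
    have : f₂ = fun y => H₂ (1, y) := by funext y; rw [b1]
    rw [this]
    exact c2.comp (continuous_const.prodMk continuous_id)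
  let F₁ : C(B, B) := ⟨fun y => ⟨f₁ y.1, hf1 _ y.2⟩,
    Continuous.subtype_mk (hcf1.comp continuous_subtype_val) _⟩
  let F₂ : C(B, B) := ⟨fun y => ⟨f₂ y.1, hf2 _ y.2⟩,
    Continuous.subtype_mk (hcf2.comp continuous_subtype_val) _⟩
  have g1 : (ContinuousMap.id B).Homotopic F₁ :=
    homotopic_of H₁ c1 _ _ (fun y => y.1) continuous_subtype_val
      (fun t y => key y.1 _ y.2 fun u v => (hu t y.1 u v).1) (fun y => a0 y.1) (fun y => a1 y.1)
  have g2 : F₁.Homotopic F₂ :=
    homotopic_of H₂ c2 _ _ (fun y => y.1) continuous_subtype_val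
      (fun t y => key y.1 _ y.2 fun u v => (hu t y.1 u v).2.1) (fun y => b0 y.1) (fun y => b1 y.1)
  have g3 : F₂.Homotopic (ContinuousMap.const B (⟨x, hx⟩ : B)) :=
    homotopic_of H₃ c3 _ _ (fun y => y.1) continuous_subtype_val
      (fun t y => key y.1 _ y.2 fun u v => (hu t y.1 u v).2.2) (fun y => d0 y.1) (fun y => d1 y.1)
  rw [contractible_iff_id_nullhomotopic]
  exact ⟨⟨x, hx⟩, (g1.trans g2).trans g3⟩

theorem contractibleSpace_bar (hT : T.IsTree) : ContractibleSpace (Bar T) := by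
  obtain ⟨v₀⟩ := hT.connected.nonempty
  have h := contractible_box hT (fun _ _ => univ) (fun _ _ => ordConnected_univ)
    ⟨vpt hT v₀, fun _ _ => trivial⟩
  have h1 : {x : Bar T | ∀ u v, x.1 u v ∈ (univ : Set ℝ)} = univ := by
    ext x; simp
  rw [h1] at h
  exact (Homeomorph.Set.univ (Bar T)).symm.contractibleSpace

theorem stronglyLocallyContractible_bar (hT : T.IsTree) :
    StronglyLocallyContractibleSpace (Bar T) := by
  classical
  refine ⟨fun x => ⟨fun U => ⟨fun hU => ?_, ?_⟩⟩⟩
  · obtain ⟨F, ε, hε, h⟩ := exists_coord x hU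
    let I : V → V → Set ℝ := fun u v => if (u, v) ∈ F then Metric.ball (x.1 u v) ε else univ
    have hI : ∀ u v, OrdConnected (I u v) := by
      intro u v
      show OrdConnected (if (u, v) ∈ F then Metric.ball (x.1 u v) ε else univ)
      split_ifs
      · rw [Real.ball_eq_Ioo]
        exact ordConnected_Ioo
      · exact ordConnected_univ
    have hx : ∀ u v, x.1 u v ∈ I u v := by
      intro u v
      show x.1 u v ∈ (if (u, v) ∈ F then Metric.ball (x.1 u v) ε else univ)
      split_ifs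
      · exact Metric.mem_ball_self hε
      · trivial
    have hbox : {y : Bar T | ∀ u v, y.1 u v ∈ I u v} =
        {y : Bar T | ∀ e ∈ F, |y.1 e.1 e.2 - x.1 e.1 e.2| < ε} := by
      ext y
      constructor
      · intro hy e he
        have h1 := hy e.1 e.2
        simp only [I] at h1
        rw [if_pos (show (e.1, e.2) ∈ F from he), Metric.mem_ball, Real.dist_eq] at h1
        exact h1
      · intro hy u v
        simp only [I]
        split_ifs with h1
        · rw [Metric.mem_ball, Real.dist_eq]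
          exact hy (u, v) h1
        · trivial
    refine ⟨{y : Bar T | ∀ u v, y.1 u v ∈ I u v}, ⟨?_, contractible_box hT I hI ⟨x, hx⟩⟩, ?_⟩
    · rw [hbox]
      exact (isOpen_coord x F ε).mem_nhds fun e _ => by rw [sub_self, abs_zero]; exact hε
    · intro y hy
      have hy' : y ∈ {y : Bar T | ∀ u v, y.1 u v ∈ I u v} := hy
      rw [hbox] at hy'
      exact h y hy'
  · rintro ⟨s, ⟨hs, -⟩, hsU⟩
    exact Filter.mem_of_superset hs hsU

end Pool.Agent.FA
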