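import Pool.Agent.Lib.MP_98022b_fa.Basic

/-!
# The cover defined by colours

Task F32.
-/

set_option autoImplicit false

open Set
open scoped Pointwise

namespace Pool.Agent.FA

variable {G V : Type} [Group G] [MulAction G V]

/-- The cover defined by a finite family of colours. -/
theorem isWideCover_of_colours {Δ : Type} [TopologicalSpace Δ] [MulAction G Δ] {ι : Type}
    [Finite ι] (L : ι → Type) [∀ i, MulAction G (L i)] (good : ∀ i, L i → Prop)
    (c : ∀ i, G → Δ → L i → Prop) (hc : ∀ i, IsColour (good i) (c i)) {N : ℕ}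
    (hN : Nat.card ι ≤ N + 1) {𝓕 : Subgroup G → Prop}
    (h𝓕 : ∀ i l, good i l → ∀ H : Subgroup G, (∀ h ∈ H, h • l = l) → 𝓕 H) {S : Set G}
    (hS : S.Nonempty)
    (hwide : ∀ (g : G) (x : Δ), ∃ i l, ∀ s ∈ S, c i (g * s) x l) :
    IsWideCover S N 𝓕 {U : Set (G × Δ) | U.Nonempty ∧ ∃ i l, U = {p | c i p.1 p.2 l}} := by
  classical
  -- the translates of a member
  have hsmul : ∀ (h : G) i (l : L i),
      h • ({p | c i p.1 p.2 l} : Set (G × Δ)) = {p | c i p.1 p.2 (h • l)} := by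
    intro h i l
    ext p
    rw [Set.mem_smul_set_iff_inv_smul_mem]
    constructor
    · intro hp
      have h1 := (hc i).smul h _ _ _ (show c i (h⁻¹ • p).1 (h⁻¹ • p).2 l from hp)
      have h2 : h * (h⁻¹ • p).1 = p.1 := mul_inv_cancel_left h p.1
      have h3 : h • (h⁻¹ • p).2 = p.2 := smul_inv_smul h p.2
      rw [h2, h3] at h1
      exact h1
    · intro hp
      have h1 := (hc i).smul h⁻¹ _ _ _ (show c i p.1 p.2 (h • l) from hp)
      rw [inv_smul_smul] at h1
      exact h1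
  refine ⟨?_, ?_, ?_, ?_, ?_, ?_⟩
  · rintro U ⟨-, i, l, rfl⟩ g
    exact (hc i).isOpen g l
  · rintro U ⟨hU, i, l, rfl⟩ h
    exact ⟨hU.smul_set, i, h • l, hsmul h i l⟩
  · rintro U ⟨hU, i, l, rfl⟩ h
    by_cases hl : h • l = l
    · left
      rw [hsmul, hl]
    · right
      rw [hsmul, Set.disjoint_left]
      intro p hp hp'
      exact hl ((hc i).unique _ _ _ _ hp hp')
  · rintro U ⟨⟨p, hp⟩, i, l, rfl⟩
    refine h𝓕 i l ((hc i).good _ _ _ hp) _ fun h hh => ?_
    rw [MulAction.mem_stabilizer_iff, hsmul] at hh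
    have hp' : p ∈ ({p | c i p.1 p.2 (h • l)} : Set (G × Δ)) := by
      rw [hh]
      exact hp
    exact (hc i).unique _ _ _ _ hp' hp
  · intro p
    let f : ι → Set (G × Δ) := fun i =>
      if h : ∃ l, c i p.1 p.2 l then {q | c i q.1 q.2 h.choose} else ∅
    have h1 : {U : Set (G × Δ) | U ∈ {U : Set (G × Δ) | U.Nonempty ∧
        ∃ i l, U = {p | c i p.1 p.2 l}} ∧ p ∈ U} ⊆ Set.range f := by
      rintro U ⟨⟨-, i, l, rfl⟩, hp⟩
      refine ⟨i, ?_⟩
      have h : ∃ l, c i p.1 p.2 l := ⟨l, hp⟩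
      have h2 : h.choose = l := (hc i).unique _ _ _ _ h.choose_spec hp
      change (if h : ∃ l, c i p.1 p.2 l then {q : G × Δ | c i q.1 q.2 h.choose} else ∅) = _
      rw [dif_pos h, h2]
    refine (Set.encard_le_encard h1).trans ?_
    rw [← Set.image_univ]
    refine (Set.encard_image_le _ _).trans ?_
    rw [Set.encard_univ, ENat.card_eq_coe_natCard]
    exact_mod_cast hN
  · intro g x
    obtain ⟨i, l, h⟩ := hwide g x
    obtain ⟨s, hs⟩ := hS
    exact ⟨{p | c i p.1 p.2 l}, ⟨⟨(g * s, x), h s hs⟩, i, l, rfl⟩, fun t ht => h t ht⟩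

end Pool.Agent.FA
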