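import Pool.Agent.Lib.MP_98022b_fa.Core
import Pool.Agent.Lib.MP_98022b_fa.AxisStab
import Pool.Agent.Lib.MP_98022b_fa.BarEdge
import Pool.Agent.Lib.MP_98022b_fa.BarSLC
import Pool.Agent.Lib.MP_98022b_fa.BarDim
import Pool.Agent.Lib.MP_98022b_fa.Cover

/-!
# Relatively acylindrical actions on trees are finitely amenable

Task F33.
-/

set_option autoImplicit false

open Set
open scoped Pointwise

namespace Pool.Agent.FA

variable {G V : Type} [Group G] [MulAction G V]

variable (G) in
/-- The family of the subgroups which fix a vertex, preserve an edge, preserve a member of `𝒴`, or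
have a homomorphism to `ℤ` with finite kernel. -/
def treeFamily (T : SimpleGraph V) (𝒴 : Set (Set V)) (H : Subgroup G) : Prop :=
  (∃ v : V, ∀ g ∈ H, g • v = v) ∨
  (∃ u v : V, T.Adj u v ∧ ∀ g ∈ H, g • ({u, v} : Set V) = {u, v}) ∨
  (∃ Y ∈ 𝒴, ∀ g ∈ H, g • Y = Y) ∨
  ∃ τ : H →* Multiplicative ℤ, Finite τ.ker

/-- The labels of the four kinds of colours. -/
private def LL (V : Type) (N : ℕ) : (Fin N ⊕ Fin N) ⊕ (Fin N ⊕ Unit) → Type
  | Sum.inl (Sum.inl _) => V
  | Sum.inl (Sum.inr _) => Set V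
  | Sum.inr (Sum.inl _) => Set (ℤ → V)
  | Sum.inr (Sum.inr _) => Set V

@[reducible] private def LLact (G V : Type) [Group G] [MulAction G V] (N : ℕ) :
    ∀ a, MulAction G (LL V N a)
  | Sum.inl (Sum.inl _) => (inferInstance : MulAction G V)
  | Sum.inl (Sum.inr _) => (inferInstance : MulAction G (Set V))
  | Sum.inr (Sum.inl _) => (inferInstance : MulAction G (Set (ℤ → V)))
  | Sum.inr (Sum.inr _) => (inferInstance : MulAction G (Set V))

private def LLgood (G : Type) {V : Type} [Group G] [MulAction G V] (T : SimpleGraph V)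
    (𝒴 : Set (Set V)) (N : ℕ) : ∀ a, LL V N a → Prop
  | Sum.inl (Sum.inl _) => fun _ => True
  | Sum.inl (Sum.inr _) => fun Y : Set V => Y ∈ 𝒴
  | Sum.inr (Sum.inl _) => fun c : Set (ℤ → V) => IsAxisClass G c
  | Sum.inr (Sum.inr _) => fun e : Set V => ∃ u v, T.Adj u v ∧ e = {u, v}

private def LLc {G V Δ : Type} {N : ℕ} (cV : Fin N → G → Δ → V → Prop)
    (cY : Fin N → G → Δ → Set V → Prop) (cA : Fin N → G → Δ → Set (ℤ → V) → Prop)
    (cE : G → Δ → Set V → Prop) : ∀ a, G → Δ → LL V N a → Prop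
  | Sum.inl (Sum.inl i) => cV i
  | Sum.inl (Sum.inr i) => cY i
  | Sum.inr (Sum.inl i) => cA i
  | Sum.inr (Sum.inr _) => cE

/-- THEOREM A. Let the countable group `G` act by automorphisms on the countable tree `T`
(inversions allowed), and let `𝒴` be a `G`-invariant set of convex sets of vertices, such that the
intersection of two different members has diameter less than `k`, and if `u, v` have distance at
least `k` and infinitely many elements of `G` fix both then some member of `𝒴` contains both. Then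
`G` has a finitely `𝓕`-amenable action, for the family `𝓕` of the subgroups which fix a vertex,
preserve an edge, preserve a member of `𝒴`, or are finite-by-(subgroup of `ℤ`). -/
theorem finitelyAmenable_of_tree [Countable G] [Countable V] {T : SimpleGraph V} (hT : T.IsTree)
    (hadj : ∀ (g : G) (u v : V), T.Adj u v → T.Adj (g • u) (g • v)) {𝒴 : Set (Set V)} {k : ℕ}
    (h𝒴 : ∀ (g : G), ∀ Y ∈ 𝒴, g • Y ∈ 𝒴) (hconv : ∀ Y ∈ 𝒴, Conv T Y)
    (hk : ∀ Y ∈ 𝒴, ∀ Y' ∈ 𝒴, Y ≠ Y' → ∀ u v, u ∈ Y → u ∈ Y' → v ∈ Y → v ∈ Y' → T.dist u v < k)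
    (hY : ∀ u v, k ≤ T.dist u v → ¬ FinOn G ({u, v} : Set V) → ∃ Y ∈ 𝒴, u ∈ Y ∧ v ∈ Y) :
    FinitelyAmenable G (treeFamily G T 𝒴) := by
  classical
  letI act : MulAction G (Bar T) := barAction T hadj
  have hB : IsFlow G T (barB T) := isFlow_bar hadj
  obtain ⟨N, hN⟩ := core hT hadj hB h𝒴 hconv hk hY
  refine ⟨Bar T, inferInstance, act, compactSpace_bar T, metrizableSpace_bar T,
    contractibleSpace_bar hT, stronglyLocallyContractible_bar hT, ⟨1, covDimLE_bar hT⟩,
    continuousConstSMul_bar hadj, 3 * N, fun S => ?_⟩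
  obtain ⟨cV, cY, cA, hcV, hcY, hcA, hw⟩ := hN (insert 1 S)
  letI := LLact G V N
  have key := isWideCover_of_colours (G := G) (Δ := Bar T) (LL V N) (LLgood G T 𝒴 N)
    (LLc cV cY cA (colE T)) (N := 3 * N) (𝓕 := treeFamily G T 𝒴) (S := ((insert 1 S : Finset G) : Set G))
    (by
      rintro ((i | i) | (i | i))
      · exact hcV i
      · exact hcY i
      · exact hcA i
      · exact isColour_colE hT hadj)
    (by simp; omega)
    (by
      rintro ((i | i) | (i | i)) l hl H hH
      · exact Or.inl ⟨l, hH⟩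
      · exact Or.inr (Or.inr (Or.inl ⟨l, hl, hH⟩))
      · refine Or.inr (Or.inr (Or.inr ?_))
        obtain ⟨τ, hτ⟩ := exists_hom_of_isAxisClass (G := G) (c := l) hl
        have hle : H ≤ MulAction.stabilizer G (l : Set (ℤ → V)) := fun h hh => hH h hh
        refine ⟨τ.comp (Subgroup.inclusion hle), ?_⟩
        refine Finite.of_injective (β := τ.ker)
          (fun z => ⟨Subgroup.inclusion hle z.1, z.2⟩) ?_
        intro z w hzw
        apply Subtype.ext
        apply Subgroup.inclusion_injective hle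
        exact congrArg Subtype.val hzw
      · obtain ⟨u, v, huv, rfl⟩ := hl
        exact Or.inr (Or.inl ⟨u, v, huv, hH⟩))
    ⟨1, by simp⟩
    (by
      intro g x
      rcases reg_or_colE x with hx | ⟨e, he⟩
      · rcases hw g x hx with ⟨i, l, h⟩ | ⟨i, l, h⟩ | ⟨i, l, h⟩
        · exact ⟨Sum.inl (Sum.inl i), l, fun s hs => h s (by exact_mod_cast hs)⟩
        · exact ⟨Sum.inl (Sum.inr i), l, fun s hs => h s (by exact_mod_cast hs)⟩
        · exact ⟨Sum.inr (Sum.inl i), l, fun s hs => h s (by exact_mod_cast hs)⟩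
      · exact ⟨Sum.inr (Sum.inr ()), e, fun s _ => he⟩)
  refine ⟨_, key.isOpen, key.smul_mem, key.eq_or_disjoint, key.stabilizer, key.order,
    fun g x => ?_⟩
  obtain ⟨U, hU, h⟩ := key.wide g x
  exact ⟨U, hU, fun s hs => h s (by simp [Finset.mem_coe.1 hs])⟩

end Pool.Agent.FA
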