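import Pool.Agent.Lib.MP_98022b_fa.Tree

/-!
# Axes

Task F12.
-/

set_option autoImplicit false

open Set

namespace Pool.Agent.FA

variable {G V : Type} [Group G] [MulAction G V] {P P' : ℤ → V} {A R m m' r r' δ δ' : ℤ} {g g' : G}

theorem axisOf_add (h : IsAx P A R m r g δ) (j : ℤ) :
    axisOf P m g δ (j + δ) = g • axisOf P m g δ j := by
  have hδ := h.pos
  have h1 : (j + δ - m) / δ = 1 + (j - m) / δ := by
    have e := Int.add_mul_ediv_right (j - m) 1 hδ.ne'
    rw [one_mul] at e
    rw [show j + δ - m = j - m + δ by ring, e, add_comm]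
  have h2 : (j + δ - m) % δ = (j - m) % δ := by
    rw [show j + δ - m = j - m + δ by ring, Int.add_emod_right]
  unfold axisOf
  rw [h1, h2, zpow_one_add, mul_smul]

theorem AxisBasic.sub (h : IsAx P A R m r g δ) (j : ℤ) :
    axisOf P m g δ (j - δ) = g⁻¹ • axisOf P m g δ j := by
  have h1 := axisOf_add h (j - δ)
  rw [sub_add_cancel] at h1
  rw [h1, inv_smul_smul]

/-- Iterated translation. -/
theorem AxisBasic.add_mul (h : IsAx P A R m r g δ) (a j : ℤ) :
    axisOf P m g δ (j + a * δ) = g ^ a • axisOf P m g δ j := by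
  induction a with
  | zero => rw [zero_mul, add_zero, zpow_zero, one_smul]
  | succ n ih =>
    rw [show j + ((n : ℤ) + 1) * δ = j + n * δ + δ by ring, axisOf_add h, ih, ← mul_smul,
      ← zpow_one_add, add_comm (1 : ℤ)]
  | pred n ih =>
    rw [show j + (-(n : ℤ) - 1) * δ = j + -(n : ℤ) * δ - δ by ring, AxisBasic.sub h, ih,
      ← mul_smul, ← zpow_neg_one, ← zpow_add, show (-1 : ℤ) + -(n : ℤ) = -(n : ℤ) - 1 by ring]

theorem axisOf_eq (h : IsAx P A R m r g δ) (hA : 0 ≤ A) (hr : R ≤ r) {j : ℤ}
    (hj : |j - m| ≤ r + A) : axisOf P m g δ j = P j := by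
  have hδ := h.pos
  have hδR := h.lt
  have base : ∀ j, (j - m) / δ = 0 → axisOf P m g δ j = P j := by
    intro j hj
    have h1 := Int.emod_add_mul_ediv (j - m) δ
    rw [hj, mul_zero, add_zero] at h1
    unfold axisOf
    rw [hj, h1, zpow_zero, one_smul]
    congr 1
    ring
  have up : ∀ (n : ℕ) (j : ℤ), |j - m| ≤ r + A → (j - m) / δ = n → axisOf P m g δ j = P j := by
    intro n
    induction n with
    | zero => exact fun j _ h2 => base j (by simpa using h2)
    | succ n ih =>
      intro j h1 h2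
      have e1 : (j - δ - m) / δ = n := by
        have e := Int.add_mul_ediv_right (j - m) (-1) hδ.ne'
        rw [show j - δ - m = j - m + -1 * δ by ring, e, h2]
        push_cast
        ring
      have h3 := Int.emod_add_mul_ediv (j - m) δ
      have h4 := Int.emod_nonneg (j - m) hδ.ne'
      have h6 : 0 ≤ δ * (n : ℤ) := by positivity
      have h5 : δ * ((j - m) / δ) = δ * (n : ℤ) + δ := by rw [h2]; push_cast; ring
      rw [abs_le] at h1
      have h7 : |j - δ - m| ≤ r + A := by rw [abs_le]; constructor <;> linarith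
      have h8 := ih (j - δ) h7 e1
      have h9 := axisOf_add h (j - δ)
      rw [sub_add_cancel, h8, h.tr _ h7, sub_add_cancel] at h9
      exact h9
  have down : ∀ (n : ℕ) (j : ℤ), |j - m| ≤ r + A → (j - m) / δ = -(n : ℤ) →
      axisOf P m g δ j = P j := by
    intro n
    induction n with
    | zero => exact fun j _ h2 => base j (by simpa using h2)
    | succ n ih =>
      intro j h1 h2
      have e1 : (j + δ - m) / δ = -(n : ℤ) := by
        have e := Int.add_mul_ediv_right (j - m) 1 hδ.ne'
        rw [show j + δ - m = j - m + 1 * δ by ring, e, h2]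
        push_cast
        ring
      have h3 := Int.emod_add_mul_ediv (j - m) δ
      have h4 := Int.emod_lt_of_pos (j - m) hδ
      have h6 : 0 ≤ δ * (n : ℤ) := by positivity
      have h5 : δ * ((j - m) / δ) = -(δ * (n : ℤ)) - δ := by rw [h2]; push_cast; ring
      have h1' := abs_le.1 h1
      have h7 : |j + δ - m| ≤ r + A := by rw [abs_le]; constructor <;> linarith
      have h8 := ih (j + δ) h7 e1
      rw [axisOf_add h, ← h.tr _ h1] at h8
      exact smul_left_cancel g h8
  rcases le_total 0 ((j - m) / δ) with h1 | h1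
  · exact up ((j - m) / δ).toNat j hj (by rw [Int.toNat_of_nonneg h1])
  · exact down (-((j - m) / δ)).toNat j hj (by rw [Int.toNat_of_nonneg (by omega), neg_neg])

/-- `g` normalizes the pointwise stabilizer of the window. -/
theorem AxisBasic.mem_normalizer (h : IsAx P A R m r g δ) (hA : R ≤ A) :
    g ∈ Subgroup.normalizer ((fixingSubgroup G (Win P m r) : Subgroup G) : Set G) := by
  have hδ := h.pos
  have hδR := h.lt
  have key : ∀ f ∈ fixingSubgroup G (Win P m r), g⁻¹ * f * g ∈ fixingSubgroup G (Win P m r) := by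
    intro f hf
    rw [mem_fixingSubgroup_iff] at hf ⊢
    rintro _ ⟨j, hj, rfl⟩
    rw [mem_Icc] at hj
    have h1 : |j - m| ≤ r + A := by rw [abs_le]; constructor <;> linarith
    rw [mul_smul, mul_smul, h.tr j h1, h.stab f hf (P (j + δ)) ⟨j + δ, ?_, rfl⟩, ← h.tr j h1,
      inv_smul_smul]
    rw [mem_Icc]
    constructor <;> linarith
  have hfin : Finite (fixingSubgroup G (Win P m r)) := by
    have : ({f : G | ∀ v ∈ Win P m r, f • v = v} : Set G) = (fixingSubgroup G (Win P m r) : Set G) := by
      ext f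
      rw [SetLike.mem_coe, mem_fixingSubgroup_iff]
      rfl
    have h1 := h.fin
    unfold FinOn at h1
    rw [this] at h1
    exact h1.to_subtype
  let φ : fixingSubgroup G (Win P m r) → fixingSubgroup G (Win P m r) :=
    fun f => ⟨g⁻¹ * f * g, key f f.2⟩
  have hinj : Function.Injective φ := by
    intro f f' hff
    have h1 : g⁻¹ * (f : G) * g = g⁻¹ * (f' : G) * g := congrArg Subtype.val hff
    exact Subtype.ext (mul_left_cancel (mul_right_cancel h1))
  have hsurj := Finite.surjective_of_injective hinj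
  rw [Subgroup.mem_normalizer_iff]
  intro f
  constructor
  · intro hf
    obtain ⟨f', hf'⟩ := hsurj ⟨f, hf⟩
    have h1 : g⁻¹ * (f' : G) * g = f := congrArg Subtype.val hf'
    rw [← h1]
    have : g * (g⁻¹ * (f' : G) * g) * g⁻¹ = f' := by group
    rw [this]
    exact f'.2
  · intro hf
    have h1 := key _ hf
    have : g⁻¹ * (g * f * g⁻¹) * g = f := by group
    rwa [this] at h1

/-- What fixes the window fixes the axis: `g` normalizes the pointwise stabilizer of the window of
radius `r`. -/
theorem fix_axisOf (h : IsAx P A R m r g δ) (hA : R ≤ A) (hr : R ≤ r) {f : G}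
    (hf : ∀ v ∈ Win P m r, f • v = v) (j : ℤ) : f • axisOf P m g δ j = axisOf P m g δ j := by
  have hδ := h.pos
  have hδR := h.lt
  have h1 : g ^ ((j - m) / δ) ∈ Subgroup.normalizer ((fixingSubgroup G (Win P m r) : Subgroup G) : Set G) :=
    Subgroup.zpow_mem _ (AxisBasic.mem_normalizer h hA) _
  generalize hc : g ^ ((j - m) / δ) = c at h1
  have h2 := inv_mem h1
  rw [Subgroup.mem_normalizer_iff] at h2
  have h3 := (h2 f).1 ((mem_fixingSubgroup_iff G).2 hf)
  rw [inv_inv, mem_fixingSubgroup_iff] at h3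
  unfold axisOf
  rw [hc]
  have h4 := Int.emod_nonneg (j - m) hδ.ne'
  have h5 := Int.emod_lt_of_pos (j - m) hδ
  have h6 := h3 (P (m + (j - m) % δ)) ⟨_, by rw [mem_Icc]; constructor <;> linarith, rfl⟩
  rw [mul_smul, mul_smul] at h6
  refine smul_left_cancel c⁻¹ ?_
  rw [h6, inv_smul_smul]

theorem axisOf_injective {T : SimpleGraph V} (hT : T.IsTree)
    (hadj : ∀ (g : G) (u v : V), T.Adj u v → T.Adj (g • u) (g • v))
    (h : IsAx P A R m r g δ) (hA : R ≤ A) (hr : 2 * R ≤ r)
    (h1 : ∀ j, |j - m| ≤ r → T.Adj (P j) (P (j + 1))) (h2 : ∀ j, |j - m| ≤ r → P (j + 2) ≠ P j) :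
    Function.Injective (axisOf P m g δ) := by
  have hδ := h.pos
  have hδR := h.lt
  have key : ∀ j, ∃ (a t : ℤ), 0 ≤ t ∧ t < δ ∧ ∀ i, 0 ≤ i → i ≤ 2 →
      axisOf P m g δ (j + i) = g ^ a • P (m + t + i) := by
    intro j
    refine ⟨(j - m) / δ, (j - m) % δ, Int.emod_nonneg (j - m) hδ.ne',
      Int.emod_lt_of_pos (j - m) hδ, fun i hi hi2 => ?_⟩
    have h3 := Int.emod_nonneg (j - m) hδ.ne'
    have h4 := Int.emod_lt_of_pos (j - m) hδ
    have h5 := Int.emod_add_mul_ediv (j - m) δ
    have h6 : axisOf P m g δ (m + (j - m) % δ + i) = P (m + (j - m) % δ + i) :=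
      axisOf_eq h (by linarith) (by linarith) (by rw [abs_le]; constructor <;> omega)
    rw [← h6, ← AxisBasic.add_mul h]
    congr 1
    linarith
  refine injective_of_nonback hT _ (fun j => ?_) fun j => ?_
  · obtain ⟨a, t, ht, ht', hk⟩ := key j
    have e0 := hk 0 le_rfl (by norm_num)
    rw [add_zero, add_zero] at e0
    rw [e0, hk 1 (by norm_num) (by norm_num)]
    exact hadj _ _ _ (h1 _ (by rw [abs_le]; constructor <;> linarith))
  · obtain ⟨a, t, ht, ht', hk⟩ := key j
    have e0 := hk 0 le_rfl (by norm_num)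
    rw [add_zero, add_zero] at e0
    rw [e0, hk 2 (by norm_num) (by norm_num)]
    exact fun hc => h2 (m + t) (by rw [abs_le]; constructor <;> linarith) (smul_left_cancel _ hc)

theorem finOn_axisOf (h : IsAx P A R m r g δ) (hA : 0 ≤ A) (hr : R ≤ r) :
    FinOn G (range (axisOf P m g δ)) := by
  refine h.fin.subset fun f hf => ?_
  rintro _ ⟨j, hj, rfl⟩
  rw [mem_Icc] at hj
  have h1 := axisOf_eq h hA hr (j := j) (by rw [abs_le]; constructor <;> linarith)
  have h2 := hf (axisOf P m g δ j) ⟨j, rfl⟩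
  rwa [h1] at h2

end Pool.Agent.FA
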