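import Pool.Agent.Lib.MP_98022b_fa.AxisBasic

/-!
# Uniqueness of axes

Task F13.
-/

set_option autoImplicit false

open Set

namespace Pool.Agent.FA

variable {G V : Type} [Group G] [MulAction G V] {P P' : ℤ → V} {A R m m' r r' δ δ' : ℤ} {g g' : G}

theorem AxisUniq.aux (h : IsAx P A R m r g δ) (h' : IsAx P A R m' r' g' δ') (hm : |m - m'| ≤ R)
    (hA : 3 * R ≤ A) (hr : 3 * R ≤ r) (hrr : r ≤ r') :
    axisOf P m g δ = axisOf P m' g' δ' := by
  have hδ := h.pos
  have hδR := h.lt
  have hδ' := h'.pos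
  have hδR' := h'.lt
  rw [abs_le] at hm
  -- the commutator fixes the window
  have hcomm : ∀ v ∈ Win P m r, ((g' * g)⁻¹ * (g * g')) • v = v := by
    rintro _ ⟨j, hj, rfl⟩
    rw [mem_Icc] at hj
    have a1 : |j - m'| ≤ r' + A := by rw [abs_le]; constructor <;> linarith
    have a2 : |j + δ' - m| ≤ r + A := by rw [abs_le]; constructor <;> linarith
    have a3 : |j - m| ≤ r + A := by rw [abs_le]; constructor <;> linarith
    have a4 : |j + δ - m'| ≤ r' + A := by rw [abs_le]; constructor <;> linarith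
    rw [mul_smul, inv_smul_eq_iff, mul_smul, mul_smul, h'.tr j a1, h.tr _ a2, h.tr j a3,
      h'.tr _ a4]
    congr 1
    ring
  have hl : ∀ j, g • g' • axisOf P m g δ j = g' • g • axisOf P m g δ j := by
    intro j
    have h1 := fix_axisOf h (by linarith) (by linarith) hcomm j
    rw [mul_smul, inv_smul_eq_iff, mul_smul, mul_smul] at h1
    exact h1
  have hw : ∀ j, |j - m| ≤ r + A → axisOf P m g δ j = P j := fun j hj =>
    axisOf_eq h (by linarith) (by linarith) hj
  -- `g'` commutes with the powers of `g` on the axis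
  have hpow : ∀ (a : ℤ) (j : ℤ), g' • g ^ a • axisOf P m g δ j = g ^ a • g' • axisOf P m g δ j := by
    intro a
    induction a with
    | zero => intro j; rw [zpow_zero, one_smul, one_smul]
    | succ n ih =>
      intro j
      have e1 := ih (j + δ)
      rw [axisOf_add h] at e1
      rw [zpow_add_one, mul_smul, mul_smul, e1, hl]
    | pred n ih =>
      intro j
      have e1 := ih (j - δ)
      have e2 : g⁻¹ • g' • axisOf P m g δ j = g' • g⁻¹ • axisOf P m g δ j := by
        rw [inv_smul_eq_iff]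
        have e3 := hl (j - δ)
        rw [AxisBasic.sub h] at e3
        rw [e3, smul_inv_smul]
      rw [AxisBasic.sub h] at e1
      rw [zpow_sub_one, mul_smul, mul_smul, e1, e2]
  have hg' : ∀ j, g' • axisOf P m g δ j = axisOf P m g δ (j + δ') := by
    intro j
    have h3 := Int.emod_nonneg (j - m) hδ.ne'
    have h4 := Int.emod_lt_of_pos (j - m) hδ
    have h5 := Int.emod_add_mul_ediv (j - m) δ
    generalize (j - m) % δ = t at h3 h4 h5
    generalize (j - m) / δ = a at h5
    have e1 : j = m + t + a * δ := by linarith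
    have e2 : j + δ' = m + t + δ' + a * δ := by linarith
    rw [e2, AxisBasic.add_mul h, e1, AxisBasic.add_mul h, hpow,
      hw (m + t) (by rw [abs_le]; constructor <;> linarith),
      hw (m + t + δ') (by rw [abs_le]; constructor <;> linarith),
      h'.tr _ (by rw [abs_le]; constructor <;> linarith)]
  have hgp : ∀ (a j : ℤ), g' ^ a • axisOf P m g δ j = axisOf P m g δ (j + a * δ') := by
    intro a
    induction a with
    | zero => intro j; rw [zpow_zero, one_smul, zero_mul, add_zero]
    | succ n ih =>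
      intro j
      rw [zpow_add_one, mul_smul, hg', ih]
      congr 1
      ring
    | pred n ih =>
      intro j
      have e2 : g'⁻¹ • axisOf P m g δ j = axisOf P m g δ (j - δ') := by
        rw [inv_smul_eq_iff, hg', sub_add_cancel]
      rw [zpow_sub_one, mul_smul, e2, ih]
      congr 1
      ring
  funext j
  have h3 := Int.emod_nonneg (j - m') hδ'.ne'
  have h4 := Int.emod_lt_of_pos (j - m') hδ'
  have h5 := Int.emod_add_mul_ediv (j - m') δ'
  generalize (j - m') % δ' = t at h3 h4 h5
  generalize (j - m') / δ' = a at h5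
  have e1 : j = m' + t + a * δ' := by linarith
  rw [e1, AxisBasic.add_mul h', ← hgp, hw (m' + t) (by rw [abs_le]; constructor <;> linarith),
    axisOf_eq h' (by linarith) (by linarith) (by rw [abs_le]; constructor <;> linarith)]

/-- The axis of `m` is determined by `m`, and the axes of nearby positions are equal. The
commutator of `g` and `g'` fixes the smaller window, hence the axis. -/
theorem axisOf_unique (h : IsAx P A R m r g δ) (h' : IsAx P A R m' r' g' δ') (hm : |m - m'| ≤ R)
    (hA : 3 * R ≤ A) (hr : 3 * R ≤ r) (hr' : 3 * R ≤ r') :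
    axisOf P m g δ = axisOf P m' g' δ' := by
  rcases le_total r r' with h1 | h1
  · exact AxisUniq.aux h h' hm hA hr h1
  · exact (AxisUniq.aux h' h (by rw [abs_sub_comm]; exact hm) hA hr' h1).symm

theorem AxisUniq.win_smul (f : G) (P : ℤ → V) (m r : ℤ) {k : G}
    (hk : ∀ v ∈ Win (fun j => f • P j) m r, k • v = v) :
    ∀ v ∈ Win P m r, (f⁻¹ * k * f) • v = v := by
  rintro _ ⟨j, hj, rfl⟩
  have h1 : k • f • P j = f • P j := hk _ ⟨j, hj, rfl⟩
  rw [mul_smul, mul_smul, h1, inv_smul_smul]

theorem isAx_smul (f : G) (h : IsAx P A R m r g δ) :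
    IsAx (fun j => f • P j) A R m r (f * g * f⁻¹) δ := by
  refine ⟨?_, ?_, h.pos, h.lt, ?_⟩
  · refine (h.fin.image fun k => f * k * f⁻¹).subset fun k hk => ?_
    refine ⟨f⁻¹ * k * f, AxisUniq.win_smul f P m r hk, ?_⟩
    group
  · rintro k hk _ ⟨j, hj, rfl⟩
    have h1 := h.stab _ (AxisUniq.win_smul f P m r hk) (P j) ⟨j, hj, rfl⟩
    rw [mul_smul, mul_smul, inv_smul_eq_iff] at h1
    exact h1
  · intro j hj
    rw [mul_smul, mul_smul, inv_smul_smul, h.tr j hj]

theorem axisOf_smul (f : G) (P : ℤ → V) (m : ℤ) (g : G) (δ : ℤ) :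
    axisOf (fun j => f • P j) m (f * g * f⁻¹) δ = f • axisOf P m g δ := by
  funext j
  rw [Pi.smul_apply]
  unfold axisOf
  rw [conj_zpow, mul_smul, mul_smul, inv_smul_smul]

theorem AxisUniq.shift_aux (t : ℤ) (hP : ∀ j, |j - m| ≤ r + A + R → P j = P' (j + t)) (hA : 0 ≤ A)
    (_hR : 0 ≤ R) (h : IsAx P A R m r g δ) : IsAx P' A R (m + t) r g δ := by
  have hδ := h.pos
  have hδR := h.lt
  have hw : ∀ r'', r'' ≤ r + A → Win P' (m + t) r'' = Win P m r'' := by
    intro r'' hr''
    ext v
    constructor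
    · rintro ⟨j, hj, rfl⟩
      rw [mem_Icc] at hj
      refine ⟨j - t, by rw [mem_Icc]; constructor <;> linarith, ?_⟩
      rw [hP (j - t) (by rw [abs_le]; constructor <;> linarith), sub_add_cancel]
    · rintro ⟨j, hj, rfl⟩
      rw [mem_Icc] at hj
      refine ⟨j + t, by rw [mem_Icc]; constructor <;> linarith, ?_⟩
      rw [hP j (by rw [abs_le]; constructor <;> linarith)]
  refine ⟨?_, ?_, hδ, hδR, ?_⟩
  · rw [hw r (by linarith)]; exact h.fin
  · rw [hw r (by linarith), hw (r + A) le_rfl]; exact h.stab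
  · intro j hj
    have e1 : j - t - m = j - (m + t) := by ring
    have h1 := h.tr (j - t) (by rw [e1]; exact hj)
    rw [abs_le] at hj
    rw [hP (j - t) (by rw [abs_le]; constructor <;> linarith),
      hP (j - t + δ) (by rw [abs_le]; constructor <;> linarith)] at h1
    rw [sub_add_cancel, show j - t + δ + t = j + δ by ring] at h1
    exact h1

theorem isAx_shift (t : ℤ) (hP : ∀ j, |j - m| ≤ r + A + R → P j = P' (j + t)) (hA : 0 ≤ A)
    (hR : 0 ≤ R) : IsAx P A R m r g δ ↔ IsAx P' A R (m + t) r g δ := by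
  refine ⟨AxisUniq.shift_aux t hP hA hR, fun h => ?_⟩
  have h1 := AxisUniq.shift_aux (P := P') (P' := P) (m := m + t) (-t) (fun j hj => ?_) hA hR h
  · rwa [add_neg_cancel_right] at h1
  · rw [hP (j + -t) (by rw [show j + -t - m = j - (m + t) by ring]; exact hj)]
    congr 1
    ring

theorem shiftClass_axisOf_shift (t : ℤ) (h : IsAx P A R m r g δ) (hA : 0 ≤ A) (hr : R ≤ r)
    (hP : ∀ j, |j - m| ≤ r + A + R → P j = P' (j + t)) :
    shiftClass (axisOf P' (m + t) g δ) = shiftClass (axisOf P m g δ) := by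
  have hδ := h.pos
  have hδR := h.lt
  have key : ∀ j, axisOf P' (m + t) g δ (j + t) = axisOf P m g δ j := by
    intro j
    unfold axisOf
    have h3 := Int.emod_nonneg (j - m) hδ.ne'
    have h4 := Int.emod_lt_of_pos (j - m) hδ
    rw [show j + t - (m + t) = j - m by ring,
      hP (m + (j - m) % δ) (by rw [abs_le]; constructor <;> linarith)]
    congr 2
    ring
  ext l
  constructor
  · rintro ⟨s, hs⟩
    refine ⟨s - t, fun j => ?_⟩
    rw [← key, hs]
    congr 1
    ring
  · rintro ⟨s, hs⟩
    refine ⟨s + t, fun j => ?_⟩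
    rw [hs, ← key]
    congr 1
    ring

end Pool.Agent.FA
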