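import Pool.Agent.Lib.MP_98022b_fa.Tree

/-!
# The compactification of a tree

A point of `Bar T` assigns to each adjacent pair `u, v` a number in `[0, 1]` which tells how far the
point is on the side of `v`.

Task F26.
-/

set_option autoImplicit false

open Set

namespace Pool.Agent.FA

variable {G V : Type} [Group G] [MulAction G V]

/-- The compactification of the tree `T`. -/
def Bar (T : SimpleGraph V) : Set (V → V → ℝ) :=
  {x | (∀ u v, T.Adj u v → 0 ≤ x u v ∧ x v u = 1 - x u v) ∧ (∀ u v, ¬ T.Adj u v → x u v = 0) ∧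
    ∀ v u w, T.Adj v u → T.Adj v w → u ≠ w → x v u * x v w = 0}

variable {T : SimpleGraph V}

omit [Group G] [MulAction G V] in
theorem Bar.nonneg (x : Bar T) (u v : V) : 0 ≤ x.1 u v := by
  by_cases h : T.Adj u v
  · exact (x.2.1 u v h).1
  · exact (x.2.2.1 u v h).ge

omit [Group G] [MulAction G V] in
theorem Bar.le_one (x : Bar T) (u v : V) : x.1 u v ≤ 1 := by
  by_cases h : T.Adj u v
  · have h1 := (x.2.1 v u h.symm).1
    have h2 := (x.2.1 u v h).2
    linarith
  · rw [x.2.2.1 u v h]
    exact zero_le_one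

omit [Group G] [MulAction G V] in
theorem Bar.symm (x : Bar T) {u v : V} (h : T.Adj u v) : x.1 v u = 1 - x.1 u v := (x.2.1 u v h).2

omit [Group G] [MulAction G V] in
theorem Bar.mul_eq_zero (x : Bar T) {v u w : V} (hu : T.Adj v u) (hw : T.Adj v w) (h : u ≠ w) :
    x.1 v u * x.1 v w = 0 := x.2.2.2 v u w hu hw h

omit [Group G] [MulAction G V] in
theorem isClosed_bar (T : SimpleGraph V) : IsClosed (Bar T) := by
  have hc : ∀ u v : V, Continuous fun x : V → V → ℝ => x u v := fun u v =>
    (continuous_apply v).comp (continuous_apply u)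
  have h1 : IsClosed {x : V → V → ℝ | ∀ u v, T.Adj u v → 0 ≤ x u v ∧ x v u = 1 - x u v} := by
    simp only [setOf_forall]
    exact isClosed_iInter fun u => isClosed_iInter fun v => isClosed_iInter fun _ =>
      (isClosed_le continuous_const (hc u v)).inter
        (isClosed_eq (hc v u) (continuous_const.sub (hc u v)))
  have h2 : IsClosed {x : V → V → ℝ | ∀ u v, ¬ T.Adj u v → x u v = 0} := by
    simp only [setOf_forall]
    exact isClosed_iInter fun u => isClosed_iInter fun v => isClosed_iInter fun _ =>
      isClosed_eq (hc u v) continuous_const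
  have h3 : IsClosed {x : V → V → ℝ | ∀ v u w, T.Adj v u → T.Adj v w → u ≠ w →
      x v u * x v w = 0} := by
    simp only [setOf_forall]
    exact isClosed_iInter fun v => isClosed_iInter fun u => isClosed_iInter fun w =>
      isClosed_iInter fun _ => isClosed_iInter fun _ => isClosed_iInter fun _ =>
      isClosed_eq ((hc v u).mul (hc v w)) continuous_const
  exact h1.inter (h2.inter h3)

omit [Group G] [MulAction G V] in
theorem compactSpace_bar (T : SimpleGraph V) : CompactSpace (Bar T) := by
  have hK : IsCompact (Set.pi univ fun _ : V => Set.pi univ fun _ : V => Icc (0 : ℝ) 1) :=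
    isCompact_univ_pi fun _ => isCompact_univ_pi fun _ => isCompact_Icc
  have hsub : Bar T ⊆ Set.pi univ fun _ : V => Set.pi univ fun _ : V => Icc (0 : ℝ) 1 :=
    fun x hx u _ v _ => ⟨Bar.nonneg ⟨x, hx⟩ u v, Bar.le_one ⟨x, hx⟩ u v⟩
  exact isCompact_iff_compactSpace.1 (hK.of_isClosed_subset (isClosed_bar T) hsub)

omit [Group G] [MulAction G V] in
theorem metrizableSpace_bar [Countable V] (T : SimpleGraph V) :
    TopologicalSpace.MetrizableSpace (Bar T) := by
  infer_instance

/-- The action of `G` on the compactification. -/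
@[reducible] def barAction (T : SimpleGraph V)
    (hadj : ∀ (g : G) (u v : V), T.Adj u v → T.Adj (g • u) (g • v)) : MulAction G (Bar T) where
  smul g x := ⟨fun u v => x.1 (g⁻¹ • u) (g⁻¹ • v), by
    have key : ∀ u v, T.Adj (g⁻¹ • u) (g⁻¹ • v) ↔ T.Adj u v := fun u v =>
      ⟨fun h => by simpa using hadj g _ _ h, fun h => hadj g⁻¹ _ _ h⟩
    refine ⟨fun u v h => x.2.1 _ _ ((key u v).2 h), fun u v h => x.2.2.1 _ _ (fun h' => h
      ((key u v).1 h')), fun v u w hu hw hne => x.2.2.2 _ _ _ ((key v u).2 hu) ((key v w).2 hw)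
      (fun h => hne ?_)⟩
    simpa using h⟩
  one_smul x := by
    apply Subtype.ext
    funext u v
    show x.1 ((1 : G)⁻¹ • u) ((1 : G)⁻¹ • v) = x.1 u v
    simp
  mul_smul g h x := by
    apply Subtype.ext
    funext u v
    show x.1 ((g * h)⁻¹ • u) ((g * h)⁻¹ • v) = x.1 (h⁻¹ • g⁻¹ • u) (h⁻¹ • g⁻¹ • v)
    simp [mul_smul]

omit [Group G] [MulAction G V] in
private theorem continuous_coord (T : SimpleGraph V) (u v : V) :
    Continuous fun x : Bar T => x.1 u v := by
  have h : Continuous fun x : V → V → ℝ => x u v := (continuous_apply v).comp (continuous_apply u)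
  exact h.comp continuous_subtype_val

/-- The points beyond the middle of the edge `u v`. -/
def barB (T : SimpleGraph V) (u v : V) : Set (Bar T) := {x | 1 / 2 < x.1 u v}

theorem continuousConstSMul_bar
    (hadj : ∀ (g : G) (u v : V), T.Adj u v → T.Adj (g • u) (g • v)) :
    letI := barAction T hadj
    ContinuousConstSMul G (Bar T) := by
  letI := barAction T hadj
  refine ⟨fun g => ?_⟩
  refine Continuous.subtype_mk (f := fun (x : Bar T) u v => x.1 (g⁻¹ • u) (g⁻¹ • v)) ?_ _
  exact continuous_pi fun u => continuous_pi fun v => continuous_coord T (g⁻¹ • u) (g⁻¹ • v)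

theorem isFlow_bar (hadj : ∀ (g : G) (u v : V), T.Adj u v → T.Adj (g • u) (g • v)) :
    letI := barAction T hadj
    IsFlow G T (barB T) := by
  letI := barAction T hadj
  refine ⟨fun u v => ?_, fun u v x h hx hx' => ?_, fun u v w x hu hw hne hx => ?_,
    fun g u v x hx => ?_⟩
  · exact isOpen_lt continuous_const (continuous_coord T u v)
  · have h1 : 1 / 2 < x.1 u v := hx
    have h2 : 1 / 2 < x.1 v u := hx'
    have h3 := Bar.symm x h
    linarith
  · have h1 : 1 / 2 < x.1 v u := hx
    have h2 := Bar.mul_eq_zero x hu hw hne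
    have h3 : x.1 v w = 0 := by
      rcases _root_.mul_eq_zero.1 h2 with h | h
      · rw [h] at h1
        norm_num at h1
      · exact h
    have h4 := Bar.symm x hw
    show 1 / 2 < x.1 w v
    rw [h4, h3]
    norm_num
  · show 1 / 2 < x.1 (g⁻¹ • g • u) (g⁻¹ • g • v)
    rw [inv_smul_smul, inv_smul_smul]
    exact hx

end Pool.Agent.FA
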