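import Pool.Agent.Lib.MP_98022b_fa.Defs

/-!
# Basic definitions: flows on a tree, paths, gauges, tight steps, colours

All definitions used by the modules of the project. `T` is a tree on `V`, `G` acts on `V`
preserving adjacency (`hadj`), `Δ` is a space with an action of `G` and `B u v` is the (open) set
of points of `Δ` beyond the middle of the edge `u v`, on the side of `v`.
-/

set_option autoImplicit false

open Set

namespace Pool.Agent.FA

variable {G V Δ : Type} [Group G] [MulAction G V]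

/-! ### Subsets of a tree -/

/-- A set of vertices is convex: it contains all vertices between two of its members. -/
def Conv (T : SimpleGraph V) (Y : Set V) : Prop :=
  ∀ u ∈ Y, ∀ v ∈ Y, ∀ w, T.dist u w + T.dist w v = T.dist u v → w ∈ Y

variable (G) in
/-- The pointwise stabilizer of `P` is finite. -/
def FinOn (P : Set V) : Prop := {g : G | ∀ v ∈ P, g • v = v}.Finite

/-! ### Gauges -/

variable (G) in
/-- `β` is a proper function on `V`, and translation by `g` increases it by at most `len g`. -/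
structure IsGauge (β : V → ℕ) (len : G → ℕ) : Prop where
  finite : ∀ n, {v | β v ≤ n}.Finite
  le : ∀ (g : G) (v : V), β (g • v) ≤ β v + len g

/-- `h` is `ρ`-close to `v`. -/
def Close (β : V → ℕ) (ρ : ℕ) (h : G) (v : V) : Prop := β (h⁻¹ • v) ≤ ρ

/-! ### Tight steps -/

open Classical in
variable (G) in
/-- The largest `l ≤ m` such that `p l, ..., p m` have a finite pointwise stabilizer (`0` if there
is none). -/
noncomputable def lst (p : ℕ → V) (m : ℕ) : ℕ :=
  Nat.findGreatest (fun l => FinOn G (p '' Icc l m)) m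

/-- `w` is a `ρ`-tight vertex for the sequence `p 0, ..., p m` based at `g`. -/
def Tight (β : V → ℕ) (ρ : ℕ) (g : G) (p : ℕ → V) (m : ℕ) (w : V) : Prop :=
  (FinOn G (p '' Icc 0 m) ∧
    ∃ h : G, (∀ i, lst G p m ≤ i → i ≤ m → Close β ρ h (p i)) ∧ Close β ρ h w) ∨
  (¬ FinOn G (p '' Icc 0 m) ∧ Close β ρ g w)

/-! ### Flows -/

variable [TopologicalSpace Δ] [MulAction G Δ]

variable (G) in
/-- The properties of the sets `B u v`. -/
structure IsFlow (T : SimpleGraph V) (B : V → V → Set Δ) : Prop where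
  isOpen : ∀ u v, IsOpen (B u v)
  anti : ∀ u v x, T.Adj u v → x ∈ B u v → x ∉ B v u
  trans : ∀ u v w x, T.Adj v u → T.Adj v w → u ≠ w → x ∈ B v u → x ∈ B w v
  smul : ∀ (g : G) u v x, x ∈ B u v → g • x ∈ B (g • u) (g • v)

omit [TopologicalSpace Δ] in
/-- `x` is regular: each edge is decided. -/
def Reg (T : SimpleGraph V) (B : V → V → Set Δ) (x : Δ) : Prop :=
  ∀ u v, T.Adj u v → x ∈ B u v ∨ x ∈ B v u

open Classical in
/-- The neighbour of `v` in the direction of `x` (`v` if there is none). -/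
noncomputable def nxt (T : SimpleGraph V) (B : V → V → Set Δ) (x : Δ) (v : V) : V :=
  if h : ∃ w, T.Adj v w ∧ x ∈ B v w then h.choose else v

/-- The path from `v` in the direction of `x`. -/
noncomputable def pth (T : SimpleGraph V) (B : V → V → Set Δ) (x : Δ) (v : V) (n : ℕ) : V :=
  (nxt T B x)^[n] v

/-- The step `m` of the path from `g • v₀` is a tight move. -/
def Move (T : SimpleGraph V) (B : V → V → Set Δ) (β : V → ℕ) (v₀ : V) (ρ : ℕ) (g : G) (x : Δ)
    (m : ℕ) : Prop :=
  T.Adj (pth T B x (g • v₀) m) (pth T B x (g • v₀) (m + 1)) ∧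
    Tight β ρ g (pth T B x (g • v₀)) m (pth T B x (g • v₀) (m + 1))

/-- At the step `m` the point `x` is not beyond any tight neighbour. -/
def Event (T : SimpleGraph V) (B : V → V → Set Δ) (β : V → ℕ) (v₀ : V) (ρ : ℕ) (g : G) (x : Δ)
    (m : ℕ) : Prop :=
  ∀ w, T.Adj (pth T B x (g • v₀) m) w → Tight β ρ g (pth T B x (g • v₀)) m w →
    x ∈ B w (pth T B x (g • v₀) m)

/-- The first event is at `J`. -/
def FirstEvent (T : SimpleGraph V) (B : V → V → Set Δ) (β : V → ℕ) (v₀ : V) (ρ : ℕ) (g : G)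
    (x : Δ) (J : ℕ) : Prop :=
  (∀ m < J, Move T B β v₀ ρ g x m) ∧ Event T B β v₀ ρ g x J

/-! ### Colours -/

/-- A colour: an equivariant partial function from `G × Δ` to a set `L` of labels with open fibres;
`c g x l` means that `(g, x)` has the label `l`. -/
structure IsColour {L : Type} [MulAction G L] (good : L → Prop) (c : G → Δ → L → Prop) :
    Prop where
  unique : ∀ g x l l', c g x l → c g x l' → l = l'
  isOpen : ∀ g l, IsOpen {x | c g x l}
  smul : ∀ (h g : G) x l, c g x l → c (h * g) (h • x) (h • l)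
  good : ∀ g x l, c g x l → good l

/-- The colour by the vertex at which the first `ρ`-event happens. -/
def colV (T : SimpleGraph V) (B : V → V → Set Δ) (β : V → ℕ) (v₀ : V) (ρ : ℕ) (g : G) (x : Δ)
    (v : V) : Prop :=
  ∃ J, FirstEvent T B β v₀ ρ g x J ∧ v = pth T B x (g • v₀) J

/-- The colour by the member of `𝒴` which contains the first segment of length `L` with infinite
pointwise stabilizer. -/
def colY (T : SimpleGraph V) (B : V → V → Set Δ) (v₀ : V) (𝒴 : Set (Set V)) (L : ℕ) (g : G)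
    (x : Δ) (Y : Set V) : Prop :=
  ∃ a, (∀ m < a + L, T.Adj (pth T B x (g • v₀) m) (pth T B x (g • v₀) (m + 1))) ∧
    ¬ FinOn G (pth T B x (g • v₀) '' Icc a (a + L)) ∧
    (∀ a' < a, FinOn G (pth T B x (g • v₀) '' Icc a' (a' + L))) ∧
    Y ∈ 𝒴 ∧ pth T B x (g • v₀) a ∈ Y ∧ pth T B x (g • v₀) (a + L) ∈ Y

/-- The colour by the member of `𝒴` which contains the segment from the first `ρ₁`-event to the
first `ρ₂`-event. -/
def colW (T : SimpleGraph V) (B : V → V → Set Δ) (β : V → ℕ) (v₀ : V) (𝒴 : Set (Set V))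
    (k ρ₁ ρ₂ : ℕ) (g : G) (x : Δ) (Y : Set V) : Prop :=
  ∃ a b, FirstEvent T B β v₀ ρ₁ g x a ∧ FirstEvent T B β v₀ ρ₂ g x b ∧ a + k ≤ b ∧
    Y ∈ 𝒴 ∧ pth T B x (g • v₀) a ∈ Y ∧ pth T B x (g • v₀) b ∈ Y

/-! ### Marked positions and axes of sequences -/

/-- Marking positions in increasing order of priority. -/
def mark (NA : ℤ → Prop) (pr : ℤ → ℕ) (R : ℤ) (n : ℕ) (j : ℤ) : Prop :=
  NA j ∧ pr j = n ∧ ∀ n' (_ : n' < n) j', |j' - j| < R → ¬ mark NA pr R n' j'
termination_by n

/-- The position `j` is marked. -/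
def Marked (NA : ℤ → Prop) (pr : ℤ → ℕ) (R : ℤ) (j : ℤ) : Prop := mark NA pr R (pr j) j

/-- The window of radius `r` around `m`. -/
def Win (P : ℤ → V) (m r : ℤ) : Set V := P '' Icc (m - r) (m + r)

/-- `g` translates the window of radius `r + A` around `m` by `δ`, and the windows of radius `r`
and `r + A` have the same finite pointwise stabilizer. -/
structure IsAx (P : ℤ → V) (A R m r : ℤ) (g : G) (δ : ℤ) : Prop where
  fin : FinOn G (Win P m r)
  stab : ∀ h : G, (∀ v ∈ Win P m r, h • v = v) → ∀ v ∈ Win P m (r + A), h • v = v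
  pos : 0 < δ
  lt : δ < R
  tr : ∀ j, |j - m| ≤ r + A → g • P j = P (j + δ)

/-- The axis. -/
def axisOf (P : ℤ → V) (m : ℤ) (g : G) (δ : ℤ) : ℤ → V :=
  fun j => g ^ ((j - m) / δ) • P (m + (j - m) % δ)

/-- The class of a bi-infinite sequence under shifts. -/
def shiftClass (l : ℤ → V) : Set (ℤ → V) := {l' | ∃ t : ℤ, ∀ j, l' j = l (j + t)}

variable (G) in
/-- The label of an axis: the shift class of an injective bi-infinite sequence with finite
pointwise stabilizer. -/
def IsAxisClass (c : Set (ℤ → V)) : Prop :=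
  ∃ l : ℤ → V, Function.Injective l ∧ FinOn G (range l) ∧ c = shiftClass l

/-- The priority of the window of radius `r` around `m`: the smallest code of a translate. -/
noncomputable def prio (G : Type) [Group G] [MulAction G V] (r : ℕ) (e : (Fin (2 * r + 1) → V) → ℕ)
    (P : ℤ → V) (m : ℤ) : ℕ :=
  sInf {n | ∃ g : G, n = e (fun t => g • P (m - r + (t : ℕ)))}

/-- The parameters for the marker and axis colours: a position is axial if it is so at one of the
radii `r₀ + i * A`, `i ≤ M`; types are windows of radius `r`; `e` is an encoding of windows. -/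
structure Par (V : Type) where
  (R A r₀ : ℤ)
  (M r : ℕ)
  (e : (Fin (2 * r + 1) → V) → ℕ)

variable (G) in
/-- The position `m` is axial. -/
def Axial (π : Par V) (P : ℤ → V) (m : ℤ) : Prop :=
  ∃ i : ℕ, i ≤ π.M ∧ ∃ (g : G) (δ : ℤ), IsAx P π.A π.R m (π.r₀ + i * π.A) g δ

variable (G) in
/-- The position `m` is a marker. -/
noncomputable def Mrk (π : Par V) (P : ℤ → V) (m : ℤ) : Prop :=
  Marked (fun j => ¬ Axial G π P j) (fun j => prio G π.r π.e P j) π.R m

/-- The domain of the marker and axis colours. -/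
def Dom (T : SimpleGraph V) (B : V → V → Set Δ) (β : V → ℕ) (v₀ : V) (ρ L D : ℕ) (g : G) (x : Δ) :
    Prop :=
  (∀ m < D, Move T B β v₀ ρ g x m) ∧
    ∀ a, a + L ≤ D → FinOn G (pth T B x (g • v₀) '' Icc a (a + L))

/-- The path from `g • v₀` as a sequence indexed by `ℤ`. -/
noncomputable def zpth (T : SimpleGraph V) (B : V → V → Set Δ) (v₀ : V) (g : G) (x : Δ) (j : ℤ) :
    V :=
  pth T B x (g • v₀) j.toNat

/-- The colour by the vertex at the first marker in `[C, C + R)`. -/
def colM (T : SimpleGraph V) (B : V → V → Set Δ) (β : V → ℕ) (v₀ : V) (π : Par V) (ρ L D : ℕ)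
    (C : ℤ) (g : G) (x : Δ) (v : V) : Prop :=
  Dom T B β v₀ ρ L D g x ∧ ∃ m : ℤ, C ≤ m ∧ m < C + π.R ∧
    Mrk G π (zpth T B v₀ g x) m ∧ v = zpth T B v₀ g x m

/-- The colour by the axis at the position `E`. -/
def colA (T : SimpleGraph V) (B : V → V → Set Δ) (β : V → ℕ) (v₀ : V) (π : Par V) (ρ L D : ℕ)
    (E : ℤ) (g : G) (x : Δ) (c : Set (ℤ → V)) : Prop :=
  Dom T B β v₀ ρ L D g x ∧ ∃ i : ℕ, i ≤ π.M ∧ ∃ (h : G) (δ : ℤ),
    IsAx (zpth T B v₀ g x) π.A π.R E (π.r₀ + i * π.A) h δ ∧
    c = shiftClass (axisOf (zpth T B v₀ g x) E h δ)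

end Pool.Agent.FA
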