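import Pool.Agent.Lib.MP_98022b_fa.Hull

/-!
# Groups with a central element and a homomorphism to `ℤ`

Task F39.
-/

set_option autoImplicit false

open Set
open scoped Pointwise

namespace Pool.Agent.FJ

open Pool.Agent.FA

variable {P : ∀ (G : Type) [Group G], Prop}

/-- A group with a central element `z` of infinite order and a homomorphism `σ` to `ℤ` such that
`⟨z⟩` has finite index in `ker σ` is virtually abelian of rank at most two. -/
theorem IsFJClass.of_central_ker (hP : IsFJClass P) {G : Type} [Group G] (z : G)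
    (hz : ∀ g : G, g * z = z * g) (hz' : ∀ n : ℤ, z ^ n = 1 → n = 0)
    (σ : G →* Multiplicative ℤ) (hσ : z ∈ σ.ker)
    (h : ((Subgroup.zpowers z).subgroupOf σ.ker).FiniteIndex) : P G := by
  classical
  have hfin : Finite (σ.ker ⧸ (Subgroup.zpowers z).subgroupOf σ.ker) :=
    Subgroup.finite_quotient_of_finiteIndex
  -- subgroups which contain `z` and a generator of the range have finite index
  have key : ∀ t : G, (∀ g : G, ∃ b : ℤ, σ g = σ t ^ b) → ∀ H : Subgroup G, z ∈ H → t ∈ H →
      H.FiniteIndex := by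
    intro t ht H hzH htH
    have hle : Subgroup.zpowers z ≤ H := by
      rw [Subgroup.zpowers_le]
      exact hzH
    let F : σ.ker ⧸ (Subgroup.zpowers z).subgroupOf σ.ker → G ⧸ H :=
      Quotient.lift (fun k : σ.ker => (QuotientGroup.mk (k : G) : G ⧸ H)) (by
        intro k k' hkk
        have h1 : k⁻¹ * k' ∈ (Subgroup.zpowers z).subgroupOf σ.ker :=
          QuotientGroup.leftRel_apply.1 hkk
        rw [Subgroup.mem_subgroupOf] at h1
        exact QuotientGroup.eq.2 (hle h1))
    have hF : Function.Surjective F := by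
      intro q
      obtain ⟨g, rfl⟩ := QuotientGroup.mk_surjective q
      obtain ⟨b, hb⟩ := ht g
      have hk : g * t ^ (-b) ∈ σ.ker := by
        rw [MonoidHom.mem_ker, map_mul, map_zpow, hb, ← zpow_add, add_neg_cancel, zpow_zero]
      refine ⟨Quotient.mk _ ⟨g * t ^ (-b), hk⟩, ?_⟩
      refine QuotientGroup.eq.2 ?_
      change (g * t ^ (-b))⁻¹ * g ∈ H
      rw [mul_inv_rev, mul_assoc, inv_mul_cancel, mul_one]
      exact H.inv_mem (H.zpow_mem htH _)
    have : Finite (G ⧸ H) := Finite.of_surjective F hF
    exact Subgroup.finiteIndex_of_finite_quotient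
  obtain ⟨t, ht⟩ : ∃ t : G, ∀ g : G, ∃ b : ℤ, σ g = σ t ^ b := by
    obtain ⟨⟨y, ⟨t, rfl⟩⟩, hy⟩ := IsCyclic.exists_generator (α := σ.range)
    refine ⟨t, fun g => ?_⟩
    obtain ⟨b, hb⟩ := hy ⟨σ g, ⟨g, rfl⟩⟩
    exact ⟨b, (congrArg Subtype.val hb).symm⟩
  have hz1 : Function.Injective (zpowersHom G z) := by
    rw [injective_iff_map_eq_one]
    intro a ha
    rw [zpowersHom_apply] at ha
    exact hz' _ ha
  by_cases hσt : σ t = 1
  · refine hP.of_finiteIndex (zpowersHom G z).range ?_
      (hP.of_equiv (MonoidHom.ofInjective hz1).symm hP.int)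
    refine key 1 (fun g => ?_) _ ⟨Multiplicative.ofAdd 1, ?_⟩ (one_mem _)
    · obtain ⟨b, hb⟩ := ht g
      exact ⟨b, by rw [hb, hσt, map_one]⟩
    · rw [zpowersHom_apply, toAdd_ofAdd, zpow_one]
  · have hcomm : ∀ a b : Multiplicative ℤ, Commute (zpowersHom G z a) (zpowersHom G t b) := by
      intro a b
      rw [zpowersHom_apply, zpowersHom_apply]
      refine Commute.zpow_zpow ?_ _ _
      exact (hz t).symm
    let φ : Multiplicative ℤ × Multiplicative ℤ →* G :=
      MonoidHom.noncommCoprod (zpowersHom G z) (zpowersHom G t) hcomm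
    have hφ : ∀ q, φ q = z ^ q.1.toAdd * t ^ q.2.toAdd := by
      intro q
      rw [MonoidHom.noncommCoprod_apply, zpowersHom_apply, zpowersHom_apply]
    have hinj : Function.Injective φ := by
      rw [injective_iff_map_eq_one]
      rintro ⟨a, b⟩ hab
      rw [hφ] at hab
      have hσz : σ z = 1 := hσ
      have hb : b.toAdd = 0 := by
        have h1 := congrArg σ hab
        rw [map_mul, map_zpow, map_zpow, hσz, one_zpow, one_mul, map_one] at h1
        by_contra hb
        apply hσt
        have h2 : b.toAdd * (σ t).toAdd = 0 := by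
          have h3 := congrArg Multiplicative.toAdd h1
          rw [toAdd_zpow, toAdd_one, smul_eq_mul] at h3
          exact h3
        rcases mul_eq_zero.1 h2 with h3 | h3
        · exact absurd h3 hb
        · exact h3
      have ha : a.toAdd = 0 := by
        dsimp only at hab
        rw [hb, zpow_zero, mul_one] at hab
        exact hz' _ hab
      ext
      · exact ha
      · exact hb
    refine hP.of_finiteIndex φ.range ?_
      (hP.of_equiv (MonoidHom.ofInjective hinj).symm (hP.prod hP.int hP.int))
    refine key t ht _ ⟨(Multiplicative.ofAdd 1, 1), ?_⟩ ⟨(1, Multiplicative.ofAdd 1), ?_⟩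
    · rw [hφ]
      simp
    · rw [hφ]
      simp

end Pool.Agent.FJ
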