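import Pool.Agent.Lib.MP_98022b_fa.Defs

/-!
# Pulling back finitely amenable actions along homomorphisms

Task F35.
-/

set_option autoImplicit false

open Set
open scoped Pointwise

namespace Pool.Agent.FA

namespace F35aux

variable {G Q Δ : Type} [Group G] [Group Q]

/-- The preimage of a subset of `Q × Δ` in `G × Δ`. -/
def pre (f : G →* Q) (U : Set (Q × Δ)) : Set (G × Δ) := {p | (f p.1, p.2) ∈ U}

theorem smul_pre [MulAction Q Δ] [MulAction G Δ] (f : G →* Q)
    (hact : ∀ (g : G) (x : Δ), g • x = f g • x) (h : G) (U : Set (Q × Δ)) :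
    h • pre f U = pre f (f h • U) := by
  ext ⟨g, x⟩
  rw [Set.mem_smul_set_iff_inv_smul_mem]
  change (f (h⁻¹ * g), h⁻¹ • x) ∈ U ↔ (f g, x) ∈ f h • U
  rw [Set.mem_smul_set_iff_inv_smul_mem, hact, map_mul, map_inv]
  rfl

end F35aux

open F35aux in
/-- If `Q` has a finitely `𝓕`-amenable action and `f : G → Q` is a homomorphism then `G` has a
finitely amenable action for the family of the subgroups of the preimages of members of `𝓕`. -/
theorem FinitelyAmenable.comap {G Q : Type} [Group G] [Group Q] (f : G →* Q)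
    {𝓕 : Subgroup Q → Prop} (h : FinitelyAmenable Q 𝓕) :
    FinitelyAmenable G (fun H => ∃ H' : Subgroup Q, 𝓕 H' ∧ H ≤ H'.comap f) := by
  classical
  obtain ⟨Δ, top, act, h1, h2, h3, h4, h5, h6, N, hN⟩ := h
  letI actG : MulAction G Δ := MulAction.compHom Δ f
  have hact : ∀ (g : G) (x : Δ), g • x = f g • x := fun _ _ => rfl
  refine ⟨Δ, top, actG, h1, h2, h3, h4, h5, ⟨fun g => continuous_const_smul (f g)⟩, N, ?_⟩
  intro S
  obtain ⟨𝒰, hU⟩ := hN (insert 1 (S.image f))
  refine ⟨{U | U.Nonempty ∧ ∃ U' ∈ 𝒰, U = pre f U'}, ?_, ?_, ?_, ?_, ?_, ?_⟩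
  · rintro U ⟨-, U', hU', rfl⟩ g
    exact hU.isOpen U' hU' (f g)
  · rintro U ⟨hne, U', hU', rfl⟩ g
    exact ⟨hne.smul_set, f g • U', hU.smul_mem U' hU' (f g), smul_pre f hact g U'⟩
  · rintro U ⟨hne, U', hU', rfl⟩ g
    rw [smul_pre f hact g U']
    rcases hU.eq_or_disjoint U' hU' (f g) with h | h
    · left; rw [h]
    · right
      exact Set.disjoint_left.2 fun p hp hp' => Set.disjoint_left.1 h hp hp'
  · rintro U ⟨hne, U', hU', rfl⟩
    refine ⟨MulAction.stabilizer Q U', hU.stabilizer U' hU', ?_⟩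
    intro g hg
    rw [MulAction.mem_stabilizer_iff, smul_pre f hact g U'] at hg
    rw [Subgroup.mem_comap, MulAction.mem_stabilizer_iff]
    rcases hU.eq_or_disjoint U' hU' (f g) with h | h
    · exact h
    · exfalso
      obtain ⟨p, hp⟩ := hne
      have hp' := hp
      rw [← hg] at hp'
      exact Set.disjoint_left.1 h hp' hp
  · intro p
    have hsub : {U ∈ {U | U.Nonempty ∧ ∃ U' ∈ 𝒰, U = pre f U'} | p ∈ U}
        ⊆ pre f '' {U' ∈ 𝒰 | (f p.1, p.2) ∈ U'} := by
      rintro U ⟨⟨hne, U', hU', rfl⟩, hp⟩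
      exact ⟨U', ⟨hU', hp⟩, rfl⟩
    exact (Set.encard_le_encard hsub).trans ((Set.encard_image_le _ _).trans
      (hU.order (f p.1, p.2)))
  · intro g x
    obtain ⟨U', hU', hw⟩ := hU.wide (f g) x
    refine ⟨pre f U', ⟨⟨(g, x), ?_⟩, U', hU', rfl⟩, ?_⟩
    · have := hw 1 (by simp)
      rw [mul_one] at this
      exact this
    · intro s hs
      have := hw (f s) (by
        rw [Finset.mem_coe]
        exact Finset.mem_insert_of_mem (Finset.mem_image_of_mem f hs))
      change (f (g * s), x) ∈ U'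
      rw [map_mul]
      exact this

end Pool.Agent.FA
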