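import Pool.Agent.Lib.MP_98022b_fa.Tree

/-!
# Countable invariant subtrees

Task F36.
-/

set_option autoImplicit false

open Set

namespace Pool.Agent.FA

variable {G V : Type} [Group G] [MulAction G V] {T : SimpleGraph V}

/-- The set of the vertices between `v₀` and some `g • v₀`. -/
def hullSet (G : Type) {V : Type} [Group G] [MulAction G V] (T : SimpleGraph V) (v₀ : V) : Set V :=
  {w | ∃ g : G, T.dist v₀ w + T.dist w (g • v₀) = T.dist v₀ (g • v₀)}

theorem mem_hullSet_self (v₀ : V) : v₀ ∈ hullSet G T v₀ := by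
  refine ⟨1, ?_⟩
  rw [one_smul, SimpleGraph.dist_self]

theorem countable_hullSet [Countable G] (hT : T.IsTree) (v₀ : V) : (hullSet G T v₀).Countable := by
  have h : hullSet G T v₀ =
      ⋃ g : G, {w | T.dist v₀ w + T.dist w (g • v₀) = T.dist v₀ (g • v₀)} := by
    ext w
    rw [mem_iUnion]
    exact Iff.rfl
  rw [h]
  refine countable_iUnion fun g => ?_
  refine MapsTo.countable_of_injOn (f := fun w => T.dist v₀ w) (t := univ)
    (mapsTo_univ _ _) ?_ countable_univ
  intro w hw w' hw' hww
  exact between_unique hT hw hw' hww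

/-- Neighbours which are closer to a given vertex exist. -/
private theorem exists_closer (hT : T.IsTree) {u v : V} (h : v ≠ u) :
    ∃ w, T.Adj v w ∧ T.dist w u + 1 = T.dist v u := by
  obtain ⟨p, h0, h1, h2, h3⟩ := exists_geodesic hT v u
  have hd : 0 < T.dist v u := hT.1.pos_dist_of_ne h
  refine ⟨p 1, ?_, ?_⟩
  · have := h2 0 hd
    rwa [h0] at this
  · have := h3 1 (T.dist v u) hd le_rfl
    rw [h1] at this
    omega

/-- A vertex between `a` and `b` is, for each `c`, between `c` and `a` or between `c` and `b`. -/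
private theorem between_or (hT : T.IsTree) {a b w : V}
    (hw : T.dist a w + T.dist w b = T.dist a b) (c : V) :
    T.dist c w + T.dist w a = T.dist c a ∨ T.dist c w + T.dist w b = T.dist c b := by
  obtain ⟨n, hn⟩ : ∃ n, n = T.dist c w := ⟨_, rfl⟩
  induction n generalizing c with
  | zero =>
    have : c = w := hT.1.dist_eq_zero_iff.1 hn.symm
    subst this
    left
    omega
  | succ m ih =>
    have hcw : c ≠ w := by
      rintro rfl
      rw [SimpleGraph.dist_self] at hn
      omega
    obtain ⟨c', hcc', hc'⟩ := exists_closer hT hcw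
    by_cases hc'w : c' = w
    · subst hc'w
      have h1 := adj_between hT hcc' a
      have h2 := adj_between hT hcc' b
      have h3 := hT.1.dist_triangle (u := a) (v := c) (w := b)
      have h4 : T.dist a c = T.dist c a := SimpleGraph.dist_comm
      have h5 : T.dist a c' = T.dist c' a := SimpleGraph.dist_comm
      rw [SimpleGraph.dist_self] at hc'
      omega
    · obtain ⟨c'', hc'c'', hc''⟩ := exists_closer hT hc'w
      have key : ∀ x, T.dist c' w + T.dist w x = T.dist c' x →
          T.dist c w + T.dist w x = T.dist c x := by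
        intro x hx
        rcases adj_between hT hcc' x with h | h
        · omega
        · exfalso
          have h1 := hT.1.dist_triangle (u := c'') (v := w) (w := x)
          have h2 : T.dist c'' x + 1 = T.dist c' x := by
            rcases adj_between hT hc'c'' x with h3 | h3
            · omega
            · omega
          have h3 : c = c'' := closer_unique hT hcc'.symm hc'c'' h.symm h2
          subst h3
          omega
      rcases ih c' (by omega) with h | h
      · exact Or.inl (key a h)
      · exact Or.inr (key b h)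

/-- The hull is convex. -/
private theorem conv_hullSet (hT : T.IsTree) (v₀ : V) {u v w : V} (hu : u ∈ hullSet G T v₀)
    (hv : v ∈ hullSet G T v₀) (hw : T.dist u w + T.dist w v = T.dist u v) :
    w ∈ hullSet G T v₀ := by
  obtain ⟨g, hg⟩ := hu
  obtain ⟨h, hh⟩ := hv
  rcases between_or hT hw v₀ with h1 | h1
  · refine ⟨g, ?_⟩
    have h2 := hT.1.dist_triangle (u := w) (v := u) (w := g • v₀)
    have h3 := hT.1.dist_triangle (u := v₀) (v := w) (w := g • v₀)
    omega
  · refine ⟨h, ?_⟩
    have h2 := hT.1.dist_triangle (u := w) (v := v) (w := h • v₀)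
    have h3 := hT.1.dist_triangle (u := v₀) (v := w) (w := h • v₀)
    omega

theorem smul_mem_hullSet (hT : T.IsTree)
    (hadj : ∀ (g : G) (u v : V), T.Adj u v → T.Adj (g • u) (g • v)) (v₀ : V) (g : G) {v : V}
    (hv : v ∈ hullSet G T v₀) : g • v ∈ hullSet G T v₀ := by
  obtain ⟨h, hh⟩ := hv
  have h1 : T.dist (g • v₀) (g • v) + T.dist (g • v) (g • h • v₀) =
      T.dist (g • v₀) (g • h • v₀) := by
    rw [dist_smul hadj, dist_smul hadj, dist_smul hadj, hh]
  rcases between_or hT h1 v₀ with h2 | h2
  · exact ⟨g, h2⟩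
  · refine ⟨g * h, ?_⟩
    rw [mul_smul]
    exact h2

/-- A sequence of adjacent vertices gives a walk. -/
private theorem walk_of_seq (s : Set V) (p : ℕ → V) (n : ℕ)
    (h1 : ∀ m < n, T.Adj (p m) (p (m + 1))) (hs : ∀ m ≤ n, p m ∈ s) :
    ∃ W : (T.induce s).Walk ⟨p 0, hs 0 (Nat.zero_le n)⟩ ⟨p n, hs n le_rfl⟩, W.length = n := by
  induction n with
  | zero => exact ⟨SimpleGraph.Walk.nil, rfl⟩
  | succ n ih =>
    obtain ⟨W, hW⟩ := ih (fun m hm => h1 m (by omega)) (fun m hm => hs m (by omega))
    have hadj : (T.induce s).Adj ⟨p n, hs n (by omega)⟩ ⟨p (n + 1), hs (n + 1) le_rfl⟩ :=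
      h1 n (by omega)
    exact ⟨W.concat hadj, by rw [SimpleGraph.Walk.length_concat, hW]⟩

/-- Geodesics between vertices of the hull are in the hull. -/
private theorem exists_walk_hullSet (hT : T.IsTree) (v₀ : V) (u v : hullSet G T v₀) :
    ∃ W : (T.induce (hullSet G T v₀)).Walk u v, W.length = T.dist (u : V) v := by
  obtain ⟨p, h0, h1, h2, h3⟩ := exists_geodesic hT (u : V) v
  have hs : ∀ m ≤ T.dist (u : V) v, p m ∈ hullSet G T v₀ := by
    intro m hm
    refine conv_hullSet hT v₀ u.2 v.2 ?_
    have h4 := h3 0 m (Nat.zero_le m) hm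
    have h5 := h3 m _ hm le_rfl
    rw [h0] at h4
    rw [h1] at h5
    omega
  obtain ⟨W, hW⟩ := walk_of_seq (T := T) (hullSet G T v₀) p (T.dist (u : V) v) h2 hs
  have hu : (⟨p 0, hs 0 (Nat.zero_le _)⟩ : hullSet G T v₀) = u := Subtype.ext h0
  have hv : (⟨p (T.dist (u : V) v), hs _ le_rfl⟩ : hullSet G T v₀) = v := Subtype.ext h1
  exact ⟨W.copy hu hv, by rw [SimpleGraph.Walk.length_copy, hW]⟩

theorem isTree_induce_hullSet (hT : T.IsTree) (v₀ : V) :
    (T.induce (hullSet G T v₀)).IsTree := by
  refine ⟨?_, hT.2.induce _⟩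
  have : Nonempty (hullSet G T v₀) := ⟨⟨v₀, mem_hullSet_self v₀⟩⟩
  refine ⟨fun u v => ?_⟩
  obtain ⟨W, -⟩ := exists_walk_hullSet hT v₀ u v
  exact ⟨W⟩

theorem dist_induce_hullSet (hT : T.IsTree) (v₀ : V) (u v : hullSet G T v₀) :
    (T.induce (hullSet G T v₀)).dist u v = T.dist (u : V) v := by
  refine le_antisymm ?_ ?_
  · obtain ⟨W, hW⟩ := exists_walk_hullSet hT v₀ u v
    rw [← hW]
    exact SimpleGraph.dist_le W
  · obtain ⟨W, hW⟩ := (isTree_induce_hullSet hT v₀).1.exists_walk_length_eq_dist u v
    rw [← hW]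
    have h := SimpleGraph.dist_le (W.map (SimpleGraph.Embedding.induce (hullSet G T v₀)).toHom)
    rw [SimpleGraph.Walk.length_map] at h
    exact h

end Pool.Agent.FA
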