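import Pool.Agent.Lib.MP_98022b_fa.Amen
import Pool.Agent.Lib.MP_98022b_fa.CentralKer
import Pool.Agent.Lib.MP_98022b_fa.Restrict
import Pool.Agent.Lib.MP_98022b_fa.Pull

/-!
# Central elements fixing a subtree

Task F40.
-/

set_option autoImplicit false

open Set
open scoped Pointwise

namespace Pool.Agent.FJ

open Pool.Agent.FA

namespace F40aux

/-- The action on the hull. -/
@[instance_reducible]
def hullAction {G V : Type} [Group G] [MulAction G V] {T : SimpleGraph V} (hT : T.IsTree)
    (hadj : ∀ (g : G) (u v : V), T.Adj u v → T.Adj (g • u) (g • v)) (v₀ : V) :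
    MulAction G (hullSet G T v₀) where
  smul g w := ⟨g • (w : V), smul_mem_hullSet hT hadj v₀ g w.2⟩
  one_smul w := Subtype.ext (one_smul G (w : V))
  mul_smul g h w := Subtype.ext (mul_smul g h (w : V))

/-- A subgroup acting with finite orbit of a point, with the stabilizer in the class. -/
theorem of_finite_orbit {P : ∀ (G : Type) [Group G], Prop} (hP : IsFJClass P) {G V : Type}
    [Group G] [MulAction G V] (H : Subgroup G) (u : V) (hu : P (MulAction.stabilizer G u))
    {F : Set V} (hF : F.Finite) (h : ∀ g ∈ H, g • u ∈ F) : P H := by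
  refine hP.of_finiteIndex (MulAction.stabilizer H u) ⟨?_⟩ ?_
  · rw [MulAction.index_stabilizer]
    have h1 : (MulAction.orbit H u).Finite := by
      refine hF.subset ?_
      rintro _ ⟨g, rfl⟩
      exact h g g.2
    have h2 : (MulAction.orbit H u).Nonempty := ⟨u, MulAction.mem_orbit_self u⟩
    exact ((Set.ncard_pos h1).2 h2).ne'
  · refine hP.of_injective (H := MulAction.stabilizer G u)
      ((H.subtype.comp (MulAction.stabilizer H u).subtype).codRestrict
        (MulAction.stabilizer G u) fun g => ?_) ?_ hu
    · exact g.2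
    · intro a b hab
      have h1 := congrArg (fun x : MulAction.stabilizer G u => (x : G)) hab
      exact Subtype.ext (Subtype.ext h1)

/-- The finiteness of the index in the preimage of a finite group. -/
theorem relIndex_ne_zero {G Q : Type} [Group G] [Group Q] (f : G →* Q) (Z M N : Subgroup G)
    (hZ : Z ≤ f.ker) (hN : f.ker ≤ N) (hZN : Z.relIndex N ≠ 0) (hM : f.ker ≤ M)
    (hfin : Finite (M.map f)) : Z.relIndex M ≠ 0 := by
  have h1 : Z.relIndex f.ker ≠ 0 := by
    have h2 := Subgroup.relIndex_mul_relIndex Z f.ker N hZ hN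
    intro h3
    rw [h3, zero_mul] at h2
    exact hZN h2.symm
  rw [← Subgroup.relIndex_mul_relIndex Z f.ker M hZ hM, Subgroup.relIndex_ker]
  exact mul_ne_zero h1 Nat.card_pos.ne'

end F40aux

open F40aux

variable {P : ∀ (G : Type) [Group G], Prop}

/-- A countable group `G` acting on a tree with vertex stabilizers in the class, and a central
element `z` of infinite order which fixes a vertex `v₀`, such that `⟨z⟩` has finite index in the
pointwise stabilizer of `u, v` whenever `z` fixes `u` and `v` and their distance is at least `k`.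
(`z` fixes `V' = hullSet G T v₀` pointwise; `Q = G ⧸ zpowers z` acts on `V'` with finite pointwise
stabilizers of vertices at distance at least `k`; `finitelyAmenable_of_tree` for `𝒴 = ∅`, pulled
back to `G`; the preimage of a finite-by-`ℤ` group satisfies `of_central_ker`.) -/
theorem IsFJClassA.central (hP : IsFJClassA P) {G V : Type} [Group G] [Countable G]
    [MulAction G V] {T : SimpleGraph V} (hT : T.IsTree)
    (hadj : ∀ (g : G) (u v : V), T.Adj u v → T.Adj (g • u) (g • v))
    (hv : ∀ v : V, P (MulAction.stabilizer G v)) (z : G) (hz : ∀ g : G, g * z = z * g)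
    (hz' : ∀ n : ℤ, z ^ n = 1 → n = 0) (v₀ : V) (hv₀ : z • v₀ = v₀) (k : ℕ)
    (hE : ∀ u v, k ≤ T.dist u v → z • u = u → z • v = v →
      ((Subgroup.zpowers z).subgroupOf
        (MulAction.stabilizer G u ⊓ MulAction.stabilizer G v)).FiniteIndex) : P G := by
  classical
  let act : MulAction G (hullSet G T v₀) := hullAction hT hadj v₀
  have hsm : ∀ (g : G) (w : hullSet G T v₀), ((g • w : hullSet G T v₀) : V) = g • (w : V) :=
    fun g w => rfl
  have hT' := isTree_induce_hullSet (G := G) hT v₀
  have hdist := dist_induce_hullSet (G := G) hT v₀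
  have hcV : Countable (hullSet G T v₀) := (countable_hullSet hT v₀).to_subtype
  have hzfix : ∀ w : hullSet G T v₀, z • (w : V) = w := by
    rintro ⟨w, g, hg⟩
    have h1 : z • g • v₀ = g • v₀ := by
      rw [smul_smul, ← hz, mul_smul, hv₀]
    exact fix_between hT hadj hv₀ h1 hg
  -- the quotient by the central subgroup
  have hnorm : (Subgroup.zpowers z).Normal := by
    refine ⟨fun n hn g => ?_⟩
    obtain ⟨i, rfl⟩ := hn
    have hc : Commute g (z ^ i) := Commute.zpow_right (hz g) i
    have : g * z ^ i * g⁻¹ = z ^ i := by rw [hc.eq, mul_inv_cancel_right]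
    show g * z ^ i * g⁻¹ ∈ Subgroup.zpowers z
    rw [this]
    exact ⟨i, rfl⟩
  let φ : G ⧸ Subgroup.zpowers z →* Equiv.Perm (hullSet G T v₀) :=
    QuotientGroup.lift (Subgroup.zpowers z) (MulAction.toPermHom G (hullSet G T v₀)) (by
      rintro g ⟨i, rfl⟩
      have hz1 : MulAction.toPermHom G (hullSet G T v₀) z = 1 := by
        apply Equiv.ext
        intro w
        exact Subtype.ext (hzfix w)
      show MulAction.toPermHom G (hullSet G T v₀) (z ^ i) = 1
      rw [map_zpow, hz1, one_zpow])
  let actQ : MulAction (G ⧸ Subgroup.zpowers z) (hullSet G T v₀) :=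
    MulAction.compHom (hullSet G T v₀) φ
  let f : G →* G ⧸ Subgroup.zpowers z := QuotientGroup.mk' (Subgroup.zpowers z)
  have hf : ∀ (g : G) (w : hullSet G T v₀), f g • w = g • w := fun g w => rfl
  have hfs : Function.Surjective f := QuotientGroup.mk'_surjective _
  have hfker : f.ker = Subgroup.zpowers z := QuotientGroup.ker_mk' _
  have hcQ : Countable (G ⧸ Subgroup.zpowers z) := hfs.countable
  have hadjQ : ∀ (q : G ⧸ Subgroup.zpowers z) (u v : hullSet G T v₀),
      (T.induce (hullSet G T v₀)).Adj u v →
      (T.induce (hullSet G T v₀)).Adj (q • u) (q • v) := by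
    intro q u v h
    obtain ⟨g, rfl⟩ := hfs q
    rw [hf, hf]
    exact hadj g u v h
  have hfz : f z = 1 := by
    have : z ∈ f.ker := by rw [hfker]; exact Subgroup.mem_zpowers z
    exact this
  -- finiteness of the stabilizers of long segments
  have hfinE : ∀ u v : hullSet G T v₀, k ≤ T.dist (u : V) v →
      FinOn (G ⧸ Subgroup.zpowers z) ({u, v} : Set (hullSet G T v₀)) := by
    intro u v huv
    have hEuv := hE u v huv (hzfix u) (hzfix v)
    let N : Subgroup G := MulAction.stabilizer G (u : V) ⊓ MulAction.stabilizer G (v : V)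
    let fN : N →* G ⧸ Subgroup.zpowers z := f.comp N.subtype
    have h1 : (Subgroup.zpowers z).subgroupOf N ≤ fN.ker := by
      intro g hg
      rw [Subgroup.mem_subgroupOf, Subgroup.mem_zpowers_iff] at hg
      obtain ⟨n, hn⟩ := hg
      rw [MonoidHom.mem_ker]
      change f (g : G) = 1
      rw [← hn, map_zpow, hfz, one_zpow]
    have h2 : fN.ker.FiniteIndex := by
      have : ((Subgroup.zpowers z).subgroupOf N).FiniteIndex := hEuv
      exact Subgroup.finiteIndex_of_le h1
    have h3 : Finite fN.range := by
      have h4 := Subgroup.index_ker fN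
      have h5 := h2.index_ne_zero
      rw [h4] at h5
      exact Nat.finite_of_card_ne_zero h5
    have h6 : (fN.range : Set (G ⧸ Subgroup.zpowers z)).Finite := Set.toFinite _
    refine h6.subset ?_
    intro q hq
    obtain ⟨g, rfl⟩ := hfs q
    have hu : g • (u : V) = u := by
      have := hq u (Or.inl rfl)
      rw [hf] at this
      exact congrArg Subtype.val this
    have hv' : g • (v : V) = v := by
      have := hq v (Or.inr rfl)
      rw [hf] at this
      exact congrArg Subtype.val this
    exact ⟨⟨g, hu, hv'⟩, rfl⟩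
  have hA : FinitelyAmenable (G ⧸ Subgroup.zpowers z)
      (treeFamily (G ⧸ Subgroup.zpowers z) (T.induce (hullSet G T v₀)) ∅) := by
    refine finitelyAmenable_of_tree (k := k) hT' hadjQ (by simp) (by simp) (by simp) ?_
    intro u v huv hfin
    rw [hdist] at huv
    exact absurd (hfinE u v huv) hfin
  refine hP.amenable _ (hA.comap f) ?_
  rintro H ⟨H', hH', hle⟩
  rcases hH' with ⟨v, h⟩ | ⟨u, v, huv, h⟩ | ⟨Y, hY, -⟩ | ⟨τ, hτ⟩
  · refine hP.of_le (K := MulAction.stabilizer G (v : V)) ?_ (hv v)
    intro g hg
    have h1 := h (f g) (hle hg)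
    rw [hf] at h1
    exact congrArg Subtype.val h1
  · refine of_finite_orbit hP.toIsFJClass H (u : V) (hv u) (F := {(u : V), (v : V)}) (by simp) ?_
    intro g hg
    have h1 := h (f g) (hle hg)
    have h2 : f g • u ∈ ({u, v} : Set (hullSet G T v₀)) := by
      rw [← h1]
      exact Set.smul_mem_smul_set (Or.inl rfl)
    rw [hf] at h2
    rcases h2 with h2 | h2
    · exact Or.inl (congrArg Subtype.val h2)
    · exact Or.inr (congrArg Subtype.val h2)
  · exact absurd hY (Set.notMem_empty Y)
  · refine hP.of_le hle ?_
    have hzK : z ∈ H'.comap f := by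
      rw [Subgroup.mem_comap, hfz]
      exact H'.one_mem
    let σ : (H'.comap f) →* Multiplicative ℤ := τ.comp (f.subgroupComap H')
    refine hP.toIsFJClass.of_central_ker (G := H'.comap f) ⟨z, hzK⟩ ?_ ?_ σ ?_ ?_
    · intro g
      exact Subtype.ext (hz g)
    · intro n hn
      apply hz'
      have := congrArg Subtype.val hn
      simpa using this
    · rw [MonoidHom.mem_ker]
      change τ (f.subgroupComap H' ⟨z, hzK⟩) = 1
      have h1 : f.subgroupComap H' ⟨z, hzK⟩ = 1 := Subtype.ext hfz
      rw [h1, map_one]
    · have key : (Subgroup.zpowers z).relIndex (σ.ker.map (H'.comap f).subtype) ≠ 0 := by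
        refine relIndex_ne_zero f _ _ f.ker ?_ le_rfl ?_ ?_ ?_
        · rw [hfker]
        · rw [hfker, Subgroup.relIndex_self]
          exact one_ne_zero
        · intro g hg
          have hg1 : f g = 1 := hg
          have hgK : g ∈ H'.comap f := by
            rw [Subgroup.mem_comap, hg1]
            exact H'.one_mem
          refine ⟨⟨g, hgK⟩, ?_, rfl⟩
          have h1 : f.subgroupComap H' ⟨g, hgK⟩ = 1 := Subtype.ext hg1
          change τ (f.subgroupComap H' ⟨g, hgK⟩) = 1
          rw [h1, map_one]
        · have h1 : ((τ.ker.map H'.subtype : Subgroup (G ⧸ Subgroup.zpowers z)) :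
              Set (G ⧸ Subgroup.zpowers z)).Finite := by
            rw [Subgroup.coe_map]
            exact Set.Finite.image _ (Set.toFinite _)
          refine (h1.subset ?_).to_subtype
          rintro _ ⟨_, ⟨g, hg, rfl⟩, rfl⟩
          exact ⟨f.subgroupComap H' g, hg, rfl⟩
      have h2 : (Subgroup.zpowers z) = (Subgroup.zpowers (⟨z, hzK⟩ : H'.comap f)).map
          (H'.comap f).subtype := by
        rw [MonoidHom.map_zpowers]
        rfl
      have key2 : ((Subgroup.zpowers (⟨z, hzK⟩ : H'.comap f)).map
          (H'.comap f).subtype).relIndex (σ.ker.map (H'.comap f).subtype) ≠ 0 := by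
        rw [← h2]
        exact key
      rw [Subgroup.relIndex_map_map_of_injective _ _ (Subgroup.subtype_injective _)] at key2
      exact ⟨key2⟩

end Pool.Agent.FJ
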