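import Pool.Agent.Lib.MP_98022b_fa.Tight

/-!
# Long windows are close to one element

Task F07.
-/

set_option autoImplicit false

open Set

namespace Pool.Agent.FA

variable {G V : Type} [Group G] [MulAction G V]

/-- If the steps of the sequence are `ρ`-tight and all segments of length `L` have finite
stabilizers, then each segment of length `n + 1` after `L` is `ρ'`-close to one element. (The
element `h` of step `a` works: by `exists_len_bound` the elements of consecutive steps differ by
an element of bounded length, as they are both close to the segment from `lst (a + 1)` to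
`a + 1`.) -/
theorem exists_chain {β : V → ℕ} {len : G → ℕ} (hβ : IsGauge G β len) (ρ n : ℕ) :
    ∃ ρ' : ℕ, ∀ (g : G) (p : ℕ → V) (L D : ℕ), (∀ m < D, Tight β ρ g p m (p (m + 1))) →
      (∀ a, a + L ≤ D → FinOn G (p '' Icc a (a + L))) →
      ∀ a, L ≤ a → a + n + 1 ≤ D → ∃ h : G, ∀ i, a ≤ i → i ≤ a + n + 1 → Close β ρ' h (p i) := by
  obtain ⟨Φ, hΦ⟩ := exists_len_bound hβ
  refine ⟨ρ + n * Φ ρ, fun g p L D ht hf a hLa haD => ?_⟩
  have hfin : ∀ m, L ≤ m → m ≤ D → FinOn G (p '' Icc 0 m) := by
    intro m h1 h2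
    have h3 := hf (m - L) (by omega)
    refine h3.mono (image_mono ?_)
    intro i hi
    have := hi.2
    exact ⟨Nat.zero_le _, by omega⟩
  -- the element of each step
  have hstep : ∀ m, ∃ h : G, L ≤ m → m < D →
      (∀ i, lst G p m ≤ i → i ≤ m + 1 → Close β ρ h (p i)) := by
    intro m
    by_cases h1 : L ≤ m
    · by_cases h2 : m < D
      · rcases ht m h2 with ⟨_, h, hh, hw⟩ | ⟨hn, _⟩
        · refine ⟨h, fun _ _ i hi hi' => ?_⟩
          rcases Nat.lt_or_ge m i with hmi | hmi
          · have : i = m + 1 := by omega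
            rw [this]
            exact hw
          · exact hh i hi hmi
        · exact absurd (hfin m h1 (le_of_lt h2)) hn
      · exact ⟨1, fun _ h => absurd h h2⟩
    · exact ⟨1, fun h => absurd h h1⟩
  choose H hH using hstep
  have hlen : ∀ m, L ≤ m → m + 1 < D → len ((H m)⁻¹ * H (m + 1)) ≤ Φ ρ := by
    intro m h1 h2
    refine hΦ ρ (p '' Icc (lst G p (m + 1)) (m + 1)) ((finite_Icc _ _).image _)
      (lst_spec (hfin _ (by omega) (by omega))) _ _ ?_ ?_
    · rintro v ⟨i, ⟨hi1, hi2⟩, rfl⟩
      refine hH m h1 (by omega) i (le_trans (lst_mono (hfin _ h1 (by omega))) hi1) hi2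
    · rintro v ⟨i, ⟨hi1, hi2⟩, rfl⟩
      exact hH (m + 1) (by omega) h2 i hi1 (by omega)
  have hback : ∀ j, a + j < D → ∀ (c : ℕ) (v : V), Close β c (H (a + j)) v →
      Close β (c + j * Φ ρ) (H a) v := by
    intro j
    induction j with
    | zero => intro _ c v hv; simpa using hv
    | succ j ih =>
      intro hj c v hv
      have h1 := Close.trans hβ hv (H (a + j))
      have h2 := hlen (a + j) (by omega) (by omega)
      have h3 := ih (by omega) (c + Φ ρ) v (h1.mono (Nat.add_le_add_left h2 c))
      refine h3.mono (le_of_eq ?_)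
      ring
  refine ⟨H a, fun i h1 h2 => ?_⟩
  rcases Nat.eq_or_lt_of_le h1 with rfl | h1
  · exact (hH a hLa (by omega) a (lst_le p a) (by omega)).mono (Nat.le_add_right _ _)
  · obtain ⟨j, rfl⟩ : ∃ j, i = a + j + 1 := ⟨i - a - 1, by omega⟩
    have h3 := hH (a + j) (by omega) (by omega) (a + j + 1)
      (le_trans (lst_le p _) (Nat.le_succ _)) le_rfl
    refine (hback j (by omega) ρ _ h3).mono ?_
    have : j ≤ n := by omega
    exact Nat.add_le_add_left (Nat.mul_le_mul_right _ this) _

end Pool.Agent.FA
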