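import Pool.Agent.Lib.MP_98022b_fa.Basic

/-!
# The conditions on the parameters
-/

set_option autoImplicit false

open Set

namespace Pool.Agent.FA

variable {G V : Type} [Group G] [MulAction G V]

/-- The conditions on the parameters. -/
structure Par.Ok (π : Par V) : Prop where
  hR : 0 < π.R
  hA : 3 * π.R ≤ π.A
  hr₀ : 3 * π.R ≤ π.r₀
  hr : π.r₀ + (π.M + 1) * π.A ≤ π.r
  he : Function.Injective π.e

/-- `π` fits to `ρ` and `L` with the bound `Q`: for each sequence with `ρ`-tight steps `< D` all of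
whose segments of length `L` have finite stabilizers, the windows of radius `r₀` inside `[L, D]`
have stabilizers of order at most `M`, and those of radius `r` have priority at most `Q`. -/
structure Par.Fits (G : Type) [Group G] [MulAction G V] (π : Par V) (β : V → ℕ) (ρ L Q : ℕ) :
    Prop where
  ok : π.Ok
  card : ∀ (g : G) (p : ℕ → V) (D : ℕ), (∀ m < D, Tight β ρ g p m (p (m + 1))) →
    (∀ a, a + L ≤ D → FinOn G (p '' Icc a (a + L))) →
    ∀ m : ℤ, L + π.r₀ ≤ m → m + π.r₀ ≤ D →
      FinOn G (Win (fun j => p j.toNat) m π.r₀) ∧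
      {h : G | ∀ v ∈ Win (fun j => p j.toNat) m π.r₀, h • v = v}.ncard ≤ π.M
  prio : ∀ (g : G) (p : ℕ → V) (D : ℕ), (∀ m < D, Tight β ρ g p m (p (m + 1))) →
    (∀ a, a + L ≤ D → FinOn G (p '' Icc a (a + L))) →
    ∀ m : ℤ, L + π.r ≤ m → m + π.r ≤ D →
      Pool.Agent.FA.prio G π.r π.e (fun j => p j.toNat) m ≤ Q

end Pool.Agent.FA
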