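import Pool.Agent.Lib.MP_98022b_fa.DomLem
import Pool.Agent.Lib.MP_98022b_fa.AxisUniq
import Pool.Agent.Lib.MP_98022b_fa.AxisStab
import Pool.Agent.Lib.MP_98022b_fa.Params

/-!
# The axis colours

Task F20.
-/

set_option autoImplicit false

open Set Filter
open scoped Topology Pointwise

namespace Pool.Agent.FA

variable {G V Δ : Type} [Group G] [MulAction G V] [TopologicalSpace Δ] [MulAction G Δ]
  {T : SimpleGraph V} {B : V → V → Set Δ}

namespace F20aux

theorem zpth_smul (hadj : ∀ (g : G) (u v : V), T.Adj u v → T.Adj (g • u) (g • v))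
    (hB : IsFlow G T B) (v₀ : V) (h g : G) (x : Δ) :
    zpth T B v₀ (h * g) (h • x) = fun j => h • zpth T B v₀ g x j := by
  funext j
  unfold zpth
  rw [mul_smul, pth_smul hadj hB]

theorem radius_le {π : Par V} (hπ : π.Ok) {i : ℕ} (hi : i ≤ π.M) :
    π.r₀ + i * π.A + π.A ≤ π.r := by
  have h1 := hπ.hr
  have h2 := hπ.hA
  have h3 := hπ.hR
  have h4 : (i : ℤ) ≤ π.M := by exact_mod_cast hi
  have h5 : (i : ℤ) * π.A ≤ π.M * π.A := mul_le_mul_of_nonneg_right h4 (by linarith)
  linarith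

theorem le_radius {π : Par V} (hπ : π.Ok) (i : ℕ) : 3 * π.R ≤ π.r₀ + i * π.A := by
  have h2 := hπ.hA
  have h3 := hπ.hR
  have h4 := hπ.hr₀
  have h5 : 0 ≤ (i : ℤ) * π.A := mul_nonneg (Int.natCast_nonneg i) (by linarith)
  linarith

end F20aux

open F20aux

theorem isColour_colA (hT : T.IsTree)
    (hadj : ∀ (g : G) (u v : V), T.Adj u v → T.Adj (g • u) (g • v))
    (hB : IsFlow G T B) {β : V → ℕ} (v₀ : V) {ρ L Q : ℕ} {π : Par V} (hπ : π.Fits G β ρ L Q)
    {D : ℕ} {E : ℤ} (hE : L + (π.r + π.R) ≤ E) (hD : E + (π.r + π.R) ≤ D) :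
    IsColour (G := G) (IsAxisClass G) (colA T B β v₀ π ρ L D E) := by
  have hok := hπ.ok
  have hR := hok.hR
  have hA := hok.hA
  have hL : (0 : ℤ) ≤ L := Int.natCast_nonneg L
  refine ⟨?_, ?_, ?_, ?_⟩
  · rintro g x c c' ⟨-, i, hi, h, δ, hx, rfl⟩ ⟨-, i', hi', h', δ', hx', rfl⟩
    rw [axisOf_unique hx hx' (by rw [sub_self, abs_zero]; exact hR.le) hA (le_radius hok i)
      (le_radius hok i')]
  · intro g c
    rw [isOpen_iff_mem_nhds]
    rintro x ⟨hd, i, hi, h, δ, hx, rfl⟩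
    filter_upwards [eventually_dom hB hd] with y hy
    have hr := radius_le hok hi
    have hz : ∀ j : ℤ, |j - E| ≤ π.r₀ + i * π.A + π.A + π.R →
        zpth T B v₀ g x j = zpth T B v₀ g y (j + 0) := by
      intro j hj
      rw [add_zero]
      refine (hy.2 _ ?_).symm
      have := (abs_le.1 hj).2
      omega
    have h1 := (isAx_shift (G := G) (P := zpth T B v₀ g x) (P' := zpth T B v₀ g y) (g := h) (δ := δ)
      (m := E) (r := π.r₀ + i * π.A) (A := π.A) (R := π.R) 0 hz (by linarith) hR.le).1 hx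
    have h2 := shiftClass_axisOf_shift (P := zpth T B v₀ g x) (P' := zpth T B v₀ g y) 0 hx
      (by linarith) (by linarith [le_radius hok i]) hz
    rw [add_zero] at h1 h2
    exact ⟨hy.1, i, hi, h, δ, h1, h2.symm⟩
  · rintro f g x c ⟨hd, i, hi, h, δ, hx, rfl⟩
    refine ⟨dom_smul hadj hB f hd, i, hi, f * h * f⁻¹, δ, ?_, ?_⟩
    · rw [zpth_smul hadj hB]
      exact isAx_smul f hx
    · rw [zpth_smul hadj hB, axisOf_smul, smul_shiftClass]
  · rintro g x c ⟨hd, i, hi, h, δ, hx, rfl⟩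
    have hr := radius_le hok hi
    have hmv : ∀ j, |j - E| ≤ π.r₀ + i * π.A →
        ∃ n : ℕ, (n : ℤ) = j ∧ n < D := by
      intro j hj
      have h1 := (abs_le.1 hj).1
      have h2 := (abs_le.1 hj).2
      exact ⟨j.toNat, by omega, by omega⟩
    refine ⟨_, axisOf_injective hT hadj hx (by linarith) (by linarith [le_radius hok i]) ?_ ?_,
      finOn_axisOf hx (by linarith) (by linarith [le_radius hok i]), rfl⟩
    · intro j hj
      obtain ⟨n, rfl, hn⟩ := hmv j hj
      have h1 := (hd.1 n hn).1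
      have h2 : ((n : ℤ) + 1).toNat = n + 1 := by omega
      unfold zpth
      rw [h2, Int.toNat_natCast]
      exact h1
    · intro j hj
      obtain ⟨n, rfl, hn⟩ := hmv j hj
      have h1 := (hd.1 n hn).1
      have h2 : ((n : ℤ) + 2).toNat = n + 2 := by omega
      unfold zpth
      rw [h2, Int.toNat_natCast]
      exact pth_nonback hB h1

end Pool.Agent.FA
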