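import Pool.Agent.Lib.MP_98022b_fa.Basic

/-!
# Markers

Task F11.
-/

set_option autoImplicit false

open Set

namespace Pool.Agent.FA

theorem mark_iff (NA : ℤ → Prop) (pr : ℤ → ℕ) (R : ℤ) (n : ℕ) (j : ℤ) :
    mark NA pr R n j ↔
      NA j ∧ pr j = n ∧ ∀ n' < n, ∀ j', |j' - j| < R → ¬ mark NA pr R n' j' := by
  rw [mark]

/-- If `j` is not marked then a position within `R` is. -/
theorem marked_or {NA : ℤ → Prop} {pr : ℤ → ℕ} {R : ℤ} {j : ℤ} (hj : NA j) :
    Marked NA pr R j ∨ ∃ j', |j' - j| < R ∧ Marked NA pr R j' := by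
  by_contra hcon
  push Not at hcon
  obtain ⟨h1, h2⟩ := hcon
  refine h1 ((mark_iff _ _ _ _ _).2 ⟨hj, rfl, fun n' _ j' hj' hm => h2 j' hj' ?_⟩)
  have h3 := ((mark_iff _ _ _ _ _).1 hm).2.1
  unfold Marked
  rw [h3]
  exact hm

/-- Marked positions of different priority have distance at least `R`. -/
theorem marked_sep {NA : ℤ → Prop} {pr : ℤ → ℕ} {R : ℤ} {j j' : ℤ} (h : Marked NA pr R j)
    (h' : Marked NA pr R j') (hR : |j' - j| < R) : pr j = pr j' := by
  have key : ∀ {a b : ℤ}, Marked NA pr R a → Marked NA pr R b → |b - a| < R → ¬ pr a < pr b := by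
    intro a b ha hb hab hlt
    have h1 := ((mark_iff _ _ _ _ _).1 hb).2.2 (pr a) hlt a (by rw [abs_sub_comm]; exact hab)
    exact h1 ha
  have h1 := key h h' hR
  have h2 := key h' h (by rw [abs_sub_comm]; exact hR)
  omega

theorem mark_shift {NA NA' : ℤ → Prop} {pr pr' : ℤ → ℕ} {R : ℤ} (hR : 0 ≤ R) (t : ℤ) (n : ℕ)
    (j : ℤ) (h : ∀ i, |i - j| ≤ R * n → (NA i ↔ NA' (i + t)) ∧ pr i = pr' (i + t)) :
    mark NA pr R n j ↔ mark NA' pr' R n (j + t) := by
  induction n using Nat.strong_induction_on generalizing j with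
  | _ n ih =>
    have hj := h j (by rw [sub_self, abs_zero]; positivity)
    rw [mark_iff, mark_iff, hj.1, hj.2]
    have key : ∀ n' < n, ∀ j', |j' - j| < R →
        (mark NA pr R n' j' ↔ mark NA' pr' R n' (j' + t)) := by
      intro n' hn' j' hj'
      refine ih n' hn' j' fun i hi => h i ?_
      have h1 : |i - j| ≤ |i - j'| + |j' - j| := abs_sub_le i j' j
      have h2 : R * (n' : ℤ) + R ≤ R * n := by
        have : (n' : ℤ) + 1 ≤ n := by exact_mod_cast hn'
        nlinarith
      linarith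
    refine and_congr_right fun _ => and_congr_right fun _ => ?_
    constructor
    · intro h1 n' hn' j' hj'
      have e : j' - t + t = j' := by ring
      have h2 : |j' - t - j| < R := by
        rw [show j' - t - j = j' - (j + t) by ring]; exact hj'
      have h3 := key n' hn' (j' - t) h2
      rw [e] at h3
      exact fun h4 => h1 n' hn' (j' - t) h2 (h3.2 h4)
    · intro h1 n' hn' j' hj'
      have h2 : |j' + t - (j + t)| < R := by
        rw [show j' + t - (j + t) = j' - j by ring]; exact hj'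
      exact fun h4 => h1 n' hn' (j' + t) h2 ((key n' hn' j' hj').1 h4)

end Pool.Agent.FA
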