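import Pool.Agent.Lib.MP_98022b_fa.Prio
import Pool.Agent.Lib.MP_98022b_fa.Params
import Pool.Agent.Lib.MP_98022b_fa.Marker
import Pool.Agent.Lib.MP_98022b_fa.AxisUniq

/-!
# Locality and equivariance of markers

Task F16.
-/

set_option autoImplicit false

open Set

namespace Pool.Agent.FA

variable {G V : Type} [Group G] [MulAction G V]

namespace F16aux

theorem radius_le {π : Par V} (hπ : π.Ok) {i : ℕ} (hi : i ≤ π.M) :
    π.r₀ + i * π.A + π.A ≤ π.r := by
  have h1 := hπ.hr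
  have h2 := hπ.hA
  have h3 := hπ.hR
  have h4 : (i : ℤ) ≤ π.M := by exact_mod_cast hi
  have h5 : (i : ℤ) * π.A ≤ π.M * π.A := mul_le_mul_of_nonneg_right h4 (by linarith)
  linarith

theorem axial_smul {π : Par V} (P : ℤ → V) (m : ℤ) (g : G) (h : Axial G π P m) :
    Axial G π (fun j => g • P j) m := by
  obtain ⟨i, hi, f, δ, hf⟩ := h
  exact ⟨i, hi, g * f * g⁻¹, δ, isAx_smul g hf⟩

end F16aux

open F16aux

theorem axial_shift {π : Par V} (hπ : π.Ok) {P P' : ℤ → V} {m : ℤ} (t : ℤ)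
    (h : ∀ j, |j - m| ≤ π.r + π.R → P j = P' (j + t)) :
    Axial G π P m ↔ Axial G π P' (m + t) := by
  have hR := hπ.hR
  have hA := hπ.hA
  have key : ∀ i : ℕ, i ≤ π.M → ∀ (g : G) (δ : ℤ), IsAx P π.A π.R m (π.r₀ + i * π.A) g δ ↔
      IsAx P' π.A π.R (m + t) (π.r₀ + i * π.A) g δ := by
    intro i hi g δ
    refine isAx_shift t (fun j hj => h j ?_) (by linarith) hR.le
    have := radius_le hπ hi
    linarith
  constructor
  · rintro ⟨i, hi, g, δ, hg⟩
    exact ⟨i, hi, g, δ, (key i hi g δ).1 hg⟩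
  · rintro ⟨i, hi, g, δ, hg⟩
    exact ⟨i, hi, g, δ, (key i hi g δ).2 hg⟩

theorem mrk_shift {π : Par V} (hπ : π.Ok) {P P' : ℤ → V} {m : ℤ} (t : ℤ) {Q : ℕ}
    (hQ : prio G π.r π.e P m ≤ Q)
    (h : ∀ j, |j - m| ≤ π.R * Q + π.r + π.R → P j = P' (j + t)) :
    Mrk G π P m ↔ Mrk G π P' (m + t) := by
  have hR := hπ.hR
  have hA := hπ.hA
  have hQ' : π.R * (prio G π.r π.e P m : ℤ) ≤ π.R * Q :=
    mul_le_mul_of_nonneg_left (by exact_mod_cast hQ) hR.le
  have hRQ : 0 ≤ π.R * (Q : ℤ) := mul_nonneg hR.le (Int.natCast_nonneg Q)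
  have hp : prio G π.r π.e P m = prio G π.r π.e P' (m + t) := by
    refine prio_shift t fun j hj => h j ?_
    linarith
  unfold Mrk Marked
  beta_reduce
  rw [← hp]
  refine mark_shift hR.le t _ m fun i hi => ⟨not_congr (axial_shift hπ t fun j hj => h j ?_),
    prio_shift t fun j hj => h j ?_⟩
  · have h1 : |j - m| ≤ |j - i| + |i - m| := abs_sub_le _ _ _
    linarith
  · have h1 : |j - m| ≤ |j - i| + |i - m| := abs_sub_le _ _ _
    linarith

theorem mrk_smul {π : Par V} (P : ℤ → V) (m : ℤ) (g : G) :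
    Mrk G π (fun j => g • P j) m ↔ Mrk G π P m := by
  have h1 : (fun j => ¬ Axial G π (fun j => g • P j) j) = fun j => ¬ Axial G π P j := by
    funext j
    refine propext (not_congr ⟨fun h => ?_, axial_smul P j g⟩)
    have h2 := axial_smul _ j g⁻¹ h
    simpa only [inv_smul_smul] using h2
  have h2 : (fun j => prio G π.r π.e (fun j => g • P j) j) = fun j => prio G π.r π.e P j := by
    funext j
    exact prio_smul P j g
  unfold Mrk
  rw [h1, h2]

end Pool.Agent.FA
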