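import Pool.Agent.Lib.MP_98022b_fa.Prio
import Pool.Agent.Lib.MP_98022b_fa.Params

/-!
# Nonaxial positions have different types

Task F15.
-/

set_option autoImplicit false

open Set

namespace Pool.Agent.FA

variable {G V : Type} [Group G] [MulAction G V]

/-- A weakly decreasing sequence of natural numbers starting at most at `M` is constant
somewhere. -/
private theorem exists_eq_of_anti {f : ℕ → ℕ} {M : ℕ} (h0 : f 0 ≤ M)
    (hanti : ∀ i, f (i + 1) ≤ f i) : ∃ i ≤ M, f (i + 1) = f i := by
  by_contra hcon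
  push Not at hcon
  have hlt : ∀ i ≤ M, f (i + 1) + 1 ≤ f i := fun i hi =>
    lt_of_le_of_ne (hanti i) (hcon i hi)
  have key : ∀ i ≤ M + 1, f i + i ≤ M := by
    intro i
    induction i with
    | zero => intro _; simpa using h0
    | succ i ih =>
      intro hi
      have := ih (by omega)
      have := hlt i (by omega)
      omega
  have h1 := key (M + 1) le_rfl
  omega

/-- A nonaxial position has another type than the next `R - 1` positions. -/
theorem prio_ne {π : Par V} (hπ : π.Ok) {P : ℤ → V} {m m' : ℤ} (hf : FinOn G (Win P m π.r₀))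
    (hc : {g : G | ∀ v ∈ Win P m π.r₀, g • v = v}.ncard ≤ π.M) (hna : ¬ Axial G π P m)
    (hmm : m < m') (hR : m' - m < π.R) : prio G π.r π.e P m ≠ prio G π.r π.e P m' := by
  intro heq
  obtain ⟨g, hg⟩ := prio_eq hπ.he heq
  have hR0 := hπ.hR
  have hA := hπ.hA
  -- the stabilizers of the windows
  let S : ℕ → Set G := fun i => {h : G | ∀ v ∈ Win P m (π.r₀ + i * π.A), h • v = v}
  have hsub0 : ∀ i : ℕ, Win P m (π.r₀ + i * π.A) ⊆ Win P m (π.r₀ + (i + 1 : ℕ) * π.A) := by
    intro i
    refine image_mono (Icc_subset_Icc ?_ ?_) <;> push_cast <;> nlinarith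
  have hsub1 : ∀ i : ℕ, Win P m π.r₀ ⊆ Win P m (π.r₀ + i * π.A) := by
    intro i
    refine image_mono (Icc_subset_Icc ?_ ?_) <;>
      nlinarith [mul_nonneg (Int.natCast_nonneg i) (by linarith : (0 : ℤ) ≤ π.A)]
  have hSfin : ∀ i, (S i).Finite := fun i => hf.subset (fun h hh v hv => hh v (hsub1 i hv))
  obtain ⟨i, hi, hieq⟩ := exists_eq_of_anti (f := fun i => (S i).ncard) (M := π.M)
    (le_trans (ncard_le_ncard (fun h hh v hv => hh v (hsub1 0 hv)) hf) hc)
    (fun i => ncard_le_ncard (fun h hh v hv => hh v (hsub0 i hv)) (hSfin i))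
  have hSeq : S (i + 1) = S i :=
    eq_of_subset_of_ncard_le (fun h hh v hv => hh v (hsub0 i hv)) hieq.ge (hSfin i)
  refine hna ⟨i, hi, g, m' - m, ?_, ?_, by linarith, hR, ?_⟩
  · exact (hSfin i)
  · intro h hh v hv
    have : h ∈ S (i + 1) := by rw [hSeq]; exact hh
    refine this v ?_
    have e : π.r₀ + (i : ℤ) * π.A + π.A = π.r₀ + ((i + 1 : ℕ) : ℤ) * π.A := by push_cast; ring
    rwa [← e]
  · intro j hj
    have hr := hπ.hr
    have hi' : ((i : ℤ) + 1) * π.A ≤ (π.M + 1) * π.A := by
      refine mul_le_mul_of_nonneg_right ?_ (by linarith)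
      exact_mod_cast Nat.succ_le_succ hi
    have h1 := hg (j - m) (by
      refine le_trans hj ?_
      have : π.r₀ + (i : ℤ) * π.A + π.A = π.r₀ + ((i : ℤ) + 1) * π.A := by ring
      rw [this]
      linarith)
    rw [show m + (j - m) = j by ring, show m' + (j - m) = j + (m' - m) by ring] at h1
    exact h1

end Pool.Agent.FA
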