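import Pool.Agent.Lib.MP_98022b_fa.DomLem
import Pool.Agent.Lib.MP_98022b_fa.Loc
import Pool.Agent.Lib.MP_98022b_fa.PrioNe

/-!
# The marker colours

Task F19.
-/

set_option autoImplicit false

open Set Filter
open scoped Topology Pointwise

namespace Pool.Agent.FA

variable {G V Δ : Type} [Group G] [MulAction G V] [TopologicalSpace Δ] [MulAction G Δ]
  {T : SimpleGraph V} {B : V → V → Set Δ}

/-- In the domain, two markers have distance at least `R`. -/
theorem mrk_sep {β : V → ℕ} {ρ L Q : ℕ} {π : Par V} (hπ : π.Fits G β ρ L Q) {p : ℕ → V} {g : G}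
    {D : ℕ} (h1 : ∀ m < D, Tight β ρ g p m (p (m + 1)))
    (h2 : ∀ a, a + L ≤ D → FinOn G (p '' Icc a (a + L))) {m m' : ℤ}
    (hm : L + π.r ≤ m) (hm' : m' + π.r ≤ D) (hmm : m < m') (hR : m' - m < π.R)
    (h : Mrk G π (fun j => p j.toNat) m) (h' : Mrk G π (fun j => p j.toNat) m') : False := by
  have hok := hπ.ok
  have hR0 := hok.hR
  have hA := hok.hA
  have hr : π.r₀ ≤ π.r := by
    have h3 := hok.hr
    have h4 : 0 ≤ ((π.M : ℤ) + 1) * π.A := mul_nonneg (by positivity) (by linarith)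
    linarith
  obtain ⟨hf, hc⟩ := hπ.card g p D h1 h2 m (by linarith) (by linarith)
  refine prio_ne hok hf hc ?_ hmm hR (marked_sep h h' ?_)
  · unfold Mrk Marked at h
    rw [mark_iff] at h
    exact h.1
  · rw [abs_of_pos (by linarith)]
    exact hR

namespace F19aux

theorem zpth_smul (hadj : ∀ (g : G) (u v : V), T.Adj u v → T.Adj (g • u) (g • v))
    (hB : IsFlow G T B) (v₀ : V) (h g : G) (x : Δ) :
    zpth T B v₀ (h * g) (h • x) = fun j => h • zpth T B v₀ g x j := by
  funext j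
  unfold zpth
  rw [mul_smul, pth_smul hadj hB]

end F19aux

theorem isColour_colM (hadj : ∀ (g : G) (u v : V), T.Adj u v → T.Adj (g • u) (g • v))
    (hB : IsFlow G T B) {β : V → ℕ} (v₀ : V) {ρ L Q : ℕ} {π : Par V} (hπ : π.Fits G β ρ L Q)
    {D : ℕ} {C : ℤ} (hC : L + (π.R * Q + π.r + π.R) ≤ C)
    (hD : C + π.R + (π.R * Q + π.r + π.R) ≤ D) :
    IsColour (G := G) (fun _ : V => True) (colM T B β v₀ π ρ L D C) := by
  have hok := hπ.ok
  have hR0 := hok.hR
  have hRQ : 0 ≤ π.R * (Q : ℤ) := mul_nonneg hR0.le (Int.natCast_nonneg Q)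
  refine ⟨?_, ?_, ?_, fun _ _ _ _ => trivial⟩
  · rintro g x v v' ⟨hd, m, h1, h2, h3, rfl⟩ ⟨-, m', h1', h2', h3', rfl⟩
    have key : ∀ m m' : ℤ, C ≤ m → m < C + π.R → Mrk G π (zpth T B v₀ g x) m → C ≤ m' →
        m' < C + π.R → Mrk G π (zpth T B v₀ g x) m' → m < m' → False := by
      intro m m' h1 h2 h3 h1' h2' h3' hlt
      exact mrk_sep hπ (p := pth T B x (g • v₀)) (g := g) (D := D) (fun m hm => (hd.1 m hm).2)
        hd.2 (m := m) (m' := m') (by linarith) (by linarith) hlt (by linarith) h3 h3'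
    rcases lt_trichotomy m m' with hlt | rfl | hlt
    · exact (key m m' h1 h2 h3 h1' h2' h3' hlt).elim
    · rfl
    · exact (key m' m h1' h2' h3' h1 h2 h3 hlt).elim
  · intro g v
    rw [isOpen_iff_mem_nhds]
    rintro x ⟨hd, m, h1, h2, h3, rfl⟩
    filter_upwards [eventually_dom hB hd] with y hy
    have hz : ∀ j : ℤ, j ≤ D → zpth T B v₀ g y j = zpth T B v₀ g x j := by
      intro j hj
      exact hy.2 _ (by omega)
    refine ⟨hy.1, m, h1, h2, ?_, (hz m (by linarith)).symm⟩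
    have h4 := hπ.prio g (pth T B x (g • v₀)) D (fun m hm => (hd.1 m hm).2) hd.2 m
      (by linarith) (by linarith)
    have h5 := mrk_shift (G := G) hok (P := zpth T B v₀ g x) (P' := zpth T B v₀ g y) (m := m) 0
      (Q := Q) h4 (fun j hj => by
        rw [add_zero, hz]
        have := (abs_le.1 hj).2
        linarith)
    rw [add_zero] at h5
    exact h5.1 h3
  · rintro h g x v ⟨hd, m, h1, h2, h3, rfl⟩
    refine ⟨dom_smul hadj hB h hd, m, h1, h2, ?_, ?_⟩
    · rw [F19aux.zpth_smul hadj hB, mrk_smul]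
      exact h3
    · rw [F19aux.zpth_smul hadj hB]

end Pool.Agent.FA
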