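import Pool.Agent.Lib.MP_98022b_fa.Events

/-!
# The colour `colV`

Task F09.
-/

set_option autoImplicit false

open Set Filter
open scoped Topology Pointwise

namespace Pool.Agent.FA

variable {G V Δ : Type} [Group G] [MulAction G V] [TopologicalSpace Δ] [MulAction G Δ]
  {T : SimpleGraph V} {B : V → V → Set Δ}

theorem isColour_colV (hadj : ∀ (g : G) (u v : V), T.Adj u v → T.Adj (g • u) (g • v))
    (hB : IsFlow G T B) {β : V → ℕ} {len : G → ℕ} (hβ : IsGauge G β len) (v₀ : V) (ρ : ℕ) :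
    IsColour (G := G) (fun _ : V => True) (colV T B β v₀ ρ) where
  unique := by
    rintro g x l l' ⟨J, hJ, rfl⟩ ⟨J', hJ', rfl⟩
    rw [hJ.unique hB hJ']
  isOpen := by
    intro g l
    rw [isOpen_iff_mem_nhds]
    rintro x ⟨J, hJ, rfl⟩
    filter_upwards [eventually_firstEvent hB hβ hJ] with y hy
    exact ⟨J, hy.1, (hy.2 J le_rfl).symm⟩
  smul := by
    rintro h g x l ⟨J, hJ, rfl⟩
    refine ⟨J, firstEvent_smul hadj hB h hJ, ?_⟩
    rw [mul_smul, pth_smul hadj hB]
  good := fun _ _ _ _ => trivial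

end Pool.Agent.FA
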