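import Pool.Agent.Lib.MP_98022b_fa.Events

/-!
# The colours `colY` and `colW`

Task F10.
-/

set_option autoImplicit false

open Set Filter
open scoped Topology Pointwise

namespace Pool.Agent.FA

variable {G V Δ : Type} [Group G] [MulAction G V] [TopologicalSpace Δ] [MulAction G Δ]
  {T : SimpleGraph V} {B : V → V → Set Δ}

namespace F10aux

omit [TopologicalSpace Δ] [MulAction G Δ] in
theorem image_congr_Icc {p q : ℕ → V} {n a b : ℕ} (h : ∀ m ≤ n, p m = q m) (hb : b ≤ n) :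
    p '' Icc a b = q '' Icc a b :=
  Set.image_congr (fun m hm => h m (hm.2.trans hb))

theorem finOn_smul_path (hadj : ∀ (g : G) (u v : V), T.Adj u v → T.Adj (g • u) (g • v))
    (hB : IsFlow G T B) (h : G) (x : Δ) (v : V) (a b : ℕ) :
    FinOn G (pth T B (h • x) (h • v) '' Icc a b) ↔ FinOn G (pth T B x v '' Icc a b) := by
  have : pth T B (h • x) (h • v) '' Icc a b = (fun w => h • w) '' (pth T B x v '' Icc a b) := by
    rw [Set.image_image]
    exact Set.image_congr (fun m _ => pth_smul hadj hB h x v m)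
  rw [this, finOn_smul]

end F10aux

theorem isColour_colY (hT : T.IsTree)
    (hadj : ∀ (g : G) (u v : V), T.Adj u v → T.Adj (g • u) (g • v))
    (hB : IsFlow G T B) (v₀ : V) {𝒴 : Set (Set V)} {k L : ℕ}
    (h𝒴 : ∀ (g : G), ∀ Y ∈ 𝒴, g • Y ∈ 𝒴)
    (hk : ∀ Y ∈ 𝒴, ∀ Y' ∈ 𝒴, Y ≠ Y' → ∀ u v, u ∈ Y → u ∈ Y' → v ∈ Y → v ∈ Y' → T.dist u v < k)
    (hL : k ≤ L) :
    IsColour (G := G) (fun Y : Set V => Y ∈ 𝒴) (colY T B v₀ 𝒴 L) where
  unique := by
    rintro g x Y Y' ⟨a, h1, h2, h3, hY, ha, hb⟩ ⟨a', h1', h2', h3', hY', ha', hb'⟩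
    have haa : a = a' := by
      rcases lt_trichotomy a a' with h | h | h
      · exact absurd (h3' a h) h2
      · exact h
      · exact absurd (h3 a' h) h2'
    subst haa
    by_contra hne
    have := hk Y hY Y' hY' hne _ _ ha ha' hb hb'
    rw [dist_pth hT hB h1 (Nat.le_add_right a L) le_rfl] at this
    omega
  isOpen := by
    intro g Y
    rw [isOpen_iff_mem_nhds]
    rintro x ⟨a, h1, h2, h3, hY, ha, hb⟩
    filter_upwards [eventually_pth_eq hB h1] with y hy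
    refine ⟨a, ?_, ?_, ?_, hY, ?_, ?_⟩
    · intro m hm
      rw [hy m hm.le, hy (m + 1) hm]
      exact h1 m hm
    · rw [F10aux.image_congr_Icc hy le_rfl]
      exact h2
    · intro a' ha'
      rw [F10aux.image_congr_Icc hy (by omega)]
      exact h3 a' ha'
    · rw [hy a (by omega)]; exact ha
    · rw [hy (a + L) le_rfl]; exact hb
  smul := by
    rintro h g x Y ⟨a, h1, h2, h3, hY, ha, hb⟩
    refine ⟨a, ?_, ?_, ?_, h𝒴 h Y hY, ?_, ?_⟩
    · intro m hm
      rw [mul_smul, pth_smul hadj hB, pth_smul hadj hB]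
      exact hadj h _ _ (h1 m hm)
    · rw [mul_smul, F10aux.finOn_smul_path hadj hB]
      exact h2
    · intro a' ha'
      rw [mul_smul, F10aux.finOn_smul_path hadj hB]
      exact h3 a' ha'
    · rw [mul_smul, pth_smul hadj hB]
      exact Set.smul_mem_smul_set ha
    · rw [mul_smul, pth_smul hadj hB]
      exact Set.smul_mem_smul_set hb
  good := by
    rintro g x Y ⟨a, h1, h2, h3, hY, ha, hb⟩
    exact hY

theorem isColour_colW (hT : T.IsTree)
    (hadj : ∀ (g : G) (u v : V), T.Adj u v → T.Adj (g • u) (g • v))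
    (hB : IsFlow G T B) {β : V → ℕ} {len : G → ℕ} (hβ : IsGauge G β len) (v₀ : V)
    {𝒴 : Set (Set V)} {k : ℕ} (h𝒴 : ∀ (g : G), ∀ Y ∈ 𝒴, g • Y ∈ 𝒴)
    (hk : ∀ Y ∈ 𝒴, ∀ Y' ∈ 𝒴, Y ≠ Y' → ∀ u v, u ∈ Y → u ∈ Y' → v ∈ Y → v ∈ Y' → T.dist u v < k)
    (ρ₁ ρ₂ : ℕ) :
    IsColour (G := G) (fun Y : Set V => Y ∈ 𝒴) (colW T B β v₀ 𝒴 k ρ₁ ρ₂) where
  unique := by
    rintro g x Y Y' ⟨a, b, h1, h2, h3, hY, ha, hb⟩ ⟨a', b', h1', h2', h3', hY', ha', hb'⟩
    have haa : a = a' := h1.unique hB h1'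
    have hbb : b = b' := h2.unique hB h2'
    subst haa hbb
    by_contra hne
    have := hk Y hY Y' hY' hne _ _ ha ha' hb hb'
    rw [dist_pth hT hB (n := b) (fun m hm => (h2.1 m hm).1) (by omega) le_rfl] at this
    omega
  isOpen := by
    intro g Y
    rw [isOpen_iff_mem_nhds]
    rintro x ⟨a, b, h1, h2, h3, hY, ha, hb⟩
    filter_upwards [eventually_firstEvent hB hβ h1, eventually_firstEvent hB hβ h2] with y hy hy'
    refine ⟨a, b, hy.1, hy'.1, h3, hY, ?_, ?_⟩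
    · rw [hy.2 a le_rfl]; exact ha
    · rw [hy'.2 b le_rfl]; exact hb
  smul := by
    rintro h g x Y ⟨a, b, h1, h2, h3, hY, ha, hb⟩
    refine ⟨a, b, firstEvent_smul hadj hB h h1, firstEvent_smul hadj hB h h2, h3, h𝒴 h Y hY,
      ?_, ?_⟩
    · rw [mul_smul, pth_smul hadj hB]
      exact Set.smul_mem_smul_set ha
    · rw [mul_smul, pth_smul hadj hB]
      exact Set.smul_mem_smul_set hb
  good := by
    rintro g x Y ⟨a, b, h1, h2, h3, hY, ha, hb⟩
    exact hY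

end Pool.Agent.FA
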