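import Pool.Agent.Lib.MP_98022b_fa.Tight

/-!
# Comparison of thresholds

Task F06 (`exists_comp`) and F07 (`exists_chain`).
-/

set_option autoImplicit false

open Set

namespace Pool.Agent.FA

variable {G V : Type} [Group G] [MulAction G V]

namespace F06aux

/-- The auxiliary thresholds. -/
def sig (Φ : ℕ → ℕ) (ρ : ℕ) : ℕ → ℕ
  | 0 => ρ
  | i + 1 => sig Φ ρ i + Φ (sig Φ ρ i)

theorem sig_mono (Φ : ℕ → ℕ) (ρ : ℕ) : Monotone (sig Φ ρ) :=
  monotone_nat_of_le_succ fun _ => Nat.le_add_right _ _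

theorem le_sig (Φ : ℕ → ℕ) (ρ i : ℕ) : ρ ≤ sig Φ ρ i := sig_mono Φ ρ (Nat.zero_le i)

end F06aux

open F06aux

/-- If the steps `< j` of the tail `q` are `ρ`-tight for the base `g₁` then they are `F ρ`-tight
for the base `g₂`. (For `m ≥ K` the tail has finite stabilizer and tightness does not depend on the
base, `tight_tail`. For the steps `m` such that `q 0, ..., q m` have infinite stabilizer one shows
by induction that `g₁` is close to `q 0, ..., q (m + 1)`, with `exists_len_bound`.) -/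
theorem exists_comp {β : V → ℕ} {len : G → ℕ} (hβ : IsGauge G β len) (ρH c K : ℕ) :
    ∃ F : ℕ → ℕ, (∀ ρ, ρ ≤ F ρ) ∧ ∀ ρ, ρH ≤ ρ → ∀ (g₁ g₂ : G) (p₁ p₂ q : ℕ → V) (b₁ b₂ : ℕ),
      len (g₂⁻¹ * g₁) ≤ c → (∀ i, p₁ (b₁ + i) = q i) → (∀ i, p₂ (b₂ + i) = q i) →
      (∀ i ≤ b₁, Close β ρH g₁ (p₁ i)) → (∀ i ≤ b₂, Close β ρH g₂ (p₂ i)) →
      ∀ j, (∀ m, K ≤ m → m < j → FinOn G (q '' Icc 0 m)) →
        (∀ m < j, Tight β ρ g₁ p₁ (b₁ + m) (q (m + 1))) →
        ∀ m < j, Tight β (F ρ) g₂ p₂ (b₂ + m) (q (m + 1)) := by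
  obtain ⟨Φ, hΦ⟩ := exists_len_bound hβ
  refine ⟨fun ρ => sig Φ ρ K + c, fun ρ => (le_sig Φ ρ K).trans (Nat.le_add_right _ _), ?_⟩
  intro ρ hρ g₁ g₂ p₁ p₂ q b₁ b₂ hc hq₁ hq₂ hcl₁ hcl₂ j hfin htight m hm
  have hF : ρ ≤ sig Φ ρ K + c := (le_sig Φ ρ K).trans (Nat.le_add_right _ _)
  by_cases hA : FinOn G (q '' Icc 0 m)
  · have h1 := (tight_tail (β := β) (ρ := ρ) (g := g₁) (g' := g₁) hq₁ hA (q (m + 1))).1
      (htight m hm)
    have h2 := (tight_tail (β := β) (ρ := ρ) (g := g₂) (g' := g₁) hq₂ hA (q (m + 1))).2 h1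
    exact h2.mono hF
  · have hmK : m < K := by
      by_contra h
      exact hA (hfin m (not_lt.1 h) hm)
    have key : ∀ i ≤ m + 1, ∀ t ≤ i, Close β (sig Φ ρ i) g₁ (q t) := by
      intro i
      induction i with
      | zero =>
        intro _ t ht
        obtain rfl : t = 0 := by omega
        have h1 := hcl₁ b₁ le_rfl
        rw [show p₁ b₁ = q 0 from hq₁ 0] at h1
        exact h1.mono hρ
      | succ i ih =>
        intro hi t ht
        have ih' := ih (by omega)
        have hle : sig Φ ρ i ≤ sig Φ ρ (i + 1) := sig_mono Φ ρ (Nat.le_succ i)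
        rcases Nat.lt_or_ge t (i + 1) with h | h
        · exact (ih' t (by omega)).mono hle
        · obtain rfl : t = i + 1 := by omega
          rcases htight i (by omega) with ⟨h1, h, hh, hw⟩ | ⟨_, hw⟩
          · have hall : ∀ l ≤ b₁ + i, Close β (sig Φ ρ i) g₁ (p₁ l) := by
              intro l hl
              rcases Nat.lt_or_ge l b₁ with hlb | hlb
              · exact (hcl₁ l hlb.le).mono (hρ.trans (le_sig Φ ρ i))
              · obtain ⟨s, rfl⟩ := Nat.exists_eq_add_of_le hlb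
                rw [hq₁]
                exact ih' s (by omega)
            have h2 := hΦ (sig Φ ρ i) (p₁ '' Icc (lst G p₁ (b₁ + i)) (b₁ + i))
              ((Set.finite_Icc _ _).image _) (lst_spec h1) g₁ h
              (by
                rintro _ ⟨l, hl, rfl⟩
                exact hall l hl.2)
              (by
                rintro _ ⟨l, hl, rfl⟩
                exact (hh l hl.1 hl.2).mono (le_sig Φ ρ i))
            refine (hw.trans hβ g₁).mono ?_
            show ρ + len (g₁⁻¹ * h) ≤ sig Φ ρ i + Φ (sig Φ ρ i)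
            exact Nat.add_le_add (le_sig Φ ρ i) h2
          · exact hw.mono (le_sig Φ ρ _)
    have key2 : ∀ t ≤ m + 1, Close β (sig Φ ρ K + c) g₂ (q t) := by
      intro t ht
      have h1 := (key (m + 1) le_rfl t ht).trans hβ g₂
      refine h1.mono ?_
      exact Nat.add_le_add (sig_mono Φ ρ (by omega)) hc
    refine tight_of_close ?_ (key2 (m + 1) le_rfl)
    intro l hl
    rcases Nat.lt_or_ge l b₂ with hlb | hlb
    · exact (hcl₂ l hlb.le).mono (hρ.trans hF)
    · obtain ⟨s, rfl⟩ := Nat.exists_eq_add_of_le hlb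
      rw [hq₂]
      exact key2 s (by omega)

end Pool.Agent.FA
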