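import Pool.Agent.Lib.MP_98022b_fa.Gauge

/-!
# Tight steps

Task F05.
-/

set_option autoImplicit false

open Set

namespace Pool.Agent.FA

variable {G V : Type} [Group G] [MulAction G V]

theorem lst_le (p : ℕ → V) (m : ℕ) : lst G p m ≤ m := by
  classical
  unfold lst
  exact Nat.findGreatest_le m

theorem lst_spec {p : ℕ → V} {m : ℕ} (h : FinOn G (p '' Icc 0 m)) :
    FinOn G (p '' Icc (lst G p m) m) := by
  classical
  unfold lst
  exact Nat.findGreatest_spec (P := fun l => FinOn G (p '' Icc l m)) (Nat.zero_le m) h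

theorem le_lst {p : ℕ → V} {l m : ℕ} (hl : l ≤ m) (h : FinOn G (p '' Icc l m)) :
    l ≤ lst G p m := by
  classical
  unfold lst
  exact Nat.le_findGreatest (P := fun l => FinOn G (p '' Icc l m)) hl h

theorem lst_mono {p : ℕ → V} {m : ℕ} (h : FinOn G (p '' Icc 0 m)) :
    lst G p m ≤ lst G p (m + 1) := by
  apply le_lst (le_trans (lst_le p m) (Nat.le_succ m))
  exact (lst_spec h).mono (image_mono (Icc_subset_Icc_right (Nat.le_succ m)))

private theorem image_congr_Icc {p p' : ℕ → V} {m : ℕ} (h : ∀ i ≤ m, p i = p' i) (l : ℕ) :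
    p '' Icc l m = p' '' Icc l m :=
  image_congr fun i hi => h i hi.2

theorem lst_congr {p p' : ℕ → V} {m : ℕ} (h : ∀ i ≤ m, p i = p' i) : lst G p m = lst G p' m := by
  classical
  unfold lst
  congr 1
  funext l
  rw [image_congr_Icc h l]

private theorem image_tail {p q : ℕ → V} {b : ℕ} (hq : ∀ i, p (b + i) = q i) (l m : ℕ) :
    p '' Icc (b + l) (b + m) = q '' Icc l m := by
  ext v
  constructor
  · rintro ⟨i, ⟨h1, h2⟩, rfl⟩
    obtain ⟨j, rfl⟩ := Nat.exists_eq_add_of_le (le_trans (Nat.le_add_right b l) h1)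
    exact ⟨j, ⟨by omega, by omega⟩, (hq j).symm⟩
  · rintro ⟨j, ⟨h1, h2⟩, rfl⟩
    exact ⟨b + j, ⟨by omega, by omega⟩, hq j⟩

theorem lst_tail {p q : ℕ → V} {b m : ℕ} (hq : ∀ i, p (b + i) = q i)
    (h : FinOn G (q '' Icc 0 m)) : lst G p (b + m) = b + lst G q m := by
  have hle : b + lst G q m ≤ lst G p (b + m) := by
    apply le_lst
    · have := lst_le (G := G) q m
      omega
    · rw [image_tail hq]
      exact lst_spec h
  apply le_antisymm _ hle
  obtain ⟨j, hj⟩ := Nat.exists_eq_add_of_le (le_trans (Nat.le_add_right b _) hle)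
  rw [hj]
  apply Nat.add_le_add_left
  apply le_lst
  · have := lst_le (G := G) p (b + m)
    omega
  · rw [← image_tail hq, ← hj]
    apply lst_spec
    refine FinOn.mono h ?_
    rw [← image_tail hq 0 m]
    exact image_mono (Icc_subset_Icc_left (Nat.zero_le _))

theorem finite_tight {β : V → ℕ} {len : G → ℕ} (hβ : IsGauge G β len) (ρ : ℕ) (g : G)
    (p : ℕ → V) (m : ℕ) : {w | Tight β ρ g p m w}.Finite := by
  have hfc : ∀ h : G, {w | Close β ρ h w}.Finite := by
    intro h
    have : {w | Close β ρ h w} = (fun w => h⁻¹ • w) ⁻¹' {v | β v ≤ ρ} := rfl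
    rw [this]
    exact (hβ.finite ρ).preimage (MulAction.injective h⁻¹).injOn
  by_cases hF : FinOn G (p '' Icc 0 m)
  · have h1 : {h : G | ∀ v ∈ p '' Icc (lst G p m) m, Close β ρ h v}.Finite :=
      finite_close hβ ((finite_Icc _ _).image _) (lst_spec hF) ρ
    refine (h1.biUnion (t := fun h => {w | Close β ρ h w}) fun h _ => hfc h).subset ?_
    intro w hw
    rcases hw with ⟨_, h, hh, hw⟩ | ⟨hn, _⟩
    · simp only [mem_iUnion]
      refine ⟨h, ?_, hw⟩
      rintro v ⟨i, ⟨hi1, hi2⟩, rfl⟩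
      exact hh i hi1 hi2
    · exact absurd hF hn
  · refine (hfc g).subset ?_
    intro w hw
    rcases hw with ⟨h1, _⟩ | ⟨_, hw⟩
    · exact absurd h1 hF
    · exact hw

private theorem image_smul_Icc (h : G) (p : ℕ → V) (l m : ℕ) :
    (fun i => h • p i) '' Icc l m = (fun v => h • v) '' (p '' Icc l m) := by
  rw [image_image]

private theorem lst_smul (h : G) (p : ℕ → V) (m : ℕ) :
    lst G (fun i => h • p i) m = lst G p m := by
  classical
  unfold lst
  congr 1
  funext l
  rw [image_smul_Icc, finOn_smul]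

theorem tight_smul (β : V → ℕ) (ρ : ℕ) (h g : G) (p : ℕ → V) (m : ℕ) (w : V) :
    Tight β ρ (h * g) (fun i => h • p i) m (h • w) ↔ Tight β ρ g p m w := by
  unfold Tight
  rw [image_smul_Icc, finOn_smul, lst_smul, close_smul]
  refine or_congr (and_congr_right fun _ => ?_) Iff.rfl
  constructor
  · rintro ⟨k, hk, hw⟩
    refine ⟨h⁻¹ * k, fun i h1 h2 => ?_, ?_⟩
    · have := hk i h1 h2
      rw [← close_smul β ρ h, mul_inv_cancel_left]
      exact this
    · rw [← close_smul β ρ h, mul_inv_cancel_left]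
      exact hw
  · rintro ⟨k, hk, hw⟩
    refine ⟨h * k, fun i h1 h2 => ?_, ?_⟩
    · exact (close_smul β ρ h k (p i)).mpr (hk i h1 h2)
    · exact (close_smul β ρ h k w).mpr hw

theorem tight_congr (β : V → ℕ) (ρ : ℕ) (g : G) {p p' : ℕ → V} {m : ℕ}
    (h : ∀ i ≤ m, p i = p' i) (w : V) : Tight β ρ g p m w ↔ Tight β ρ g p' m w := by
  unfold Tight
  rw [image_congr_Icc h 0, lst_congr (G := G) h]
  refine or_congr (and_congr_right fun _ => exists_congr fun k => and_congr_left fun _ => ?_)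
    Iff.rfl
  refine forall_congr' fun i => forall_congr' fun _ => forall_congr' fun h2 => ?_
  rw [h i h2]

theorem Tight.mono {β : V → ℕ} {ρ ρ' : ℕ} {g : G} {p : ℕ → V} {m : ℕ} {w : V}
    (h : Tight β ρ g p m w) (hρ : ρ ≤ ρ') : Tight β ρ' g p m w := by
  rcases h with ⟨h1, k, hk, hw⟩ | ⟨h1, hw⟩
  · exact Or.inl ⟨h1, k, fun i hi hi' => (hk i hi hi').mono hρ, hw.mono hρ⟩
  · exact Or.inr ⟨h1, hw.mono hρ⟩

theorem tight_of_close {β : V → ℕ} {ρ : ℕ} {g : G} {p : ℕ → V} {m : ℕ} {w : V}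
    (h : ∀ i ≤ m, Close β ρ g (p i)) (hw : Close β ρ g w) : Tight β ρ g p m w := by
  by_cases hF : FinOn G (p '' Icc 0 m)
  · exact Or.inl ⟨hF, g, fun i _ hi => h i hi, hw⟩
  · exact Or.inr ⟨hF, hw⟩

/-- Once the tail has a finite stabilizer, tightness depends only on the tail. -/
theorem tight_tail {β : V → ℕ} {ρ : ℕ} {g g' : G} {p q : ℕ → V} {b m : ℕ}
    (hq : ∀ i, p (b + i) = q i) (h : FinOn G (q '' Icc 0 m)) (w : V) :
    Tight β ρ g p (b + m) w ↔ Tight β ρ g' q m w := by
  have hp : FinOn G (p '' Icc 0 (b + m)) := by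
    refine FinOn.mono h ?_
    rw [← image_tail hq 0 m]
    exact image_mono (Icc_subset_Icc_left (Nat.zero_le _))
  unfold Tight
  simp only [hp, h, not_true_eq_false, false_and, or_false, true_and]
  rw [lst_tail hq h]
  refine exists_congr fun k => and_congr_left fun _ => ?_
  constructor
  · intro hk i h1 h2
    rw [← hq i]
    exact hk (b + i) (by omega) (by omega)
  · intro hk i h1 h2
    obtain ⟨j, rfl⟩ := Nat.exists_eq_add_of_le (le_trans (Nat.le_add_right b _) h1)
    rw [hq j]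
    exact hk j (by omega) (by omega)

end Pool.Agent.FA
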