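import Pool.Agent.Lib.MP_98022b_fa.Flow
import Pool.Agent.Lib.MP_98022b_fa.Tight

/-!
# Moves and events

Task F08.
-/

set_option autoImplicit false

open Set Filter
open scoped Topology

namespace Pool.Agent.FA

variable {G V Δ : Type} [Group G] [MulAction G V] [TopologicalSpace Δ] [MulAction G Δ]
  {T : SimpleGraph V} {B : V → V → Set Δ} {β : V → ℕ} {v₀ : V} {ρ : ℕ} {g : G} {x : Δ}

theorem not_event_of_move (hB : IsFlow G T B) {m : ℕ} (h : Move T B β v₀ ρ g x m) :
    ¬ Event T B β v₀ ρ g x m := by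
  intro he
  exact hB.anti _ _ x h.1 (mem_of_adj_pth h.1) (he _ h.1 h.2)

theorem move_of_not_event (hB : IsFlow G T B) (hx : Reg T B x) {m : ℕ}
    (h : ¬ Event T B β v₀ ρ g x m) : Move T B β v₀ ρ g x m := by
  unfold Event at h
  push Not at h
  obtain ⟨w, hw, ht, hn⟩ := h
  have h1 : x ∈ B (pth T B x (g • v₀) m) w := (hx _ _ hw).resolve_right hn
  have h2 : pth T B x (g • v₀) (m + 1) = w := by
    rw [pth_succ]
    exact nxt_eq hB hw h1
  exact ⟨by rw [h2]; exact hw, by rw [h2]; exact ht⟩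

theorem FirstEvent.unique (hB : IsFlow G T B) {J J' : ℕ} (h : FirstEvent T B β v₀ ρ g x J)
    (h' : FirstEvent T B β v₀ ρ g x J') : J = J' := by
  rcases lt_trichotomy J J' with h1 | h1 | h1
  · exact absurd h.2 (not_event_of_move hB (h'.1 J h1))
  · exact h1
  · exact absurd h'.2 (not_event_of_move hB (h.1 J' h1))

/-- For regular `x` there is a first event or all steps are tight moves. -/
theorem firstEvent_or (hB : IsFlow G T B) (hx : Reg T B x) (β : V → ℕ) (v₀ : V) (ρ : ℕ) (g : G) :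
    (∃ J, FirstEvent T B β v₀ ρ g x J) ∨ ∀ m, Move T B β v₀ ρ g x m := by
  classical
  by_cases h : ∃ J, Event T B β v₀ ρ g x J
  · left
    refine ⟨Nat.find h, fun m hm => ?_, Nat.find_spec h⟩
    exact move_of_not_event hB hx (Nat.find_min h hm)
  · right
    push Not at h
    exact fun m => move_of_not_event hB hx (h m)

private theorem pth_mul_smul (hadj : ∀ (g : G) (u v : V), T.Adj u v → T.Adj (g • u) (g • v))
    (hB : IsFlow G T B) (h g : G) (x : Δ) (v₀ : V) (m : ℕ) :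
    pth T B (h • x) ((h * g) • v₀) m = h • pth T B x (g • v₀) m := by
  rw [mul_smul]
  exact pth_smul hadj hB h x (g • v₀) m

theorem move_smul (hadj : ∀ (g : G) (u v : V), T.Adj u v → T.Adj (g • u) (g • v))
    (hB : IsFlow G T B) (h : G) {m : ℕ} (hm : Move T B β v₀ ρ g x m) :
    Move T B β v₀ ρ (h * g) (h • x) m := by
  have hp : pth T B (h • x) ((h * g) • v₀) = fun i => h • pth T B x (g • v₀) i :=
    funext fun i => pth_mul_smul hadj hB h g x v₀ i
  unfold Move
  rw [hp]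
  exact ⟨hadj h _ _ hm.1, (tight_smul β ρ h g _ m _).mpr hm.2⟩

private theorem event_smul (hadj : ∀ (g : G) (u v : V), T.Adj u v → T.Adj (g • u) (g • v))
    (hB : IsFlow G T B) (h : G) {m : ℕ} (hm : Event T B β v₀ ρ g x m) :
    Event T B β v₀ ρ (h * g) (h • x) m := by
  have hp : pth T B (h • x) ((h * g) • v₀) = fun i => h • pth T B x (g • v₀) i :=
    funext fun i => pth_mul_smul hadj hB h g x v₀ i
  unfold Event
  rw [hp]
  intro w hw ht
  obtain ⟨w', rfl⟩ : ∃ w', w = h • w' := ⟨h⁻¹ • w, by rw [smul_inv_smul]⟩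
  have h1 : T.Adj (pth T B x (g • v₀) m) w' := by
    have := hadj h⁻¹ _ _ hw
    simpa only [inv_smul_smul] using this
  exact hB.smul h _ _ _ (hm w' h1 ((tight_smul β ρ h g _ m _).mp ht))

theorem firstEvent_smul (hadj : ∀ (g : G) (u v : V), T.Adj u v → T.Adj (g • u) (g • v))
    (hB : IsFlow G T B) (h : G) {J : ℕ} (hJ : FirstEvent T B β v₀ ρ g x J) :
    FirstEvent T B β v₀ ρ (h * g) (h • x) J :=
  ⟨fun m hm => move_smul hadj hB h (hJ.1 m hm), event_smul hadj hB h hJ.2⟩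

omit [TopologicalSpace Δ] in
private theorem move_congr' {y : Δ} {n m : ℕ} (hm : m < n)
    (h : ∀ i ≤ n, pth T B y (g • v₀) i = pth T B x (g • v₀) i)
    (hx : Move T B β v₀ ρ g x m) : Move T B β v₀ ρ g y m := by
  unfold Move
  rw [h m (le_of_lt hm), h (m + 1) hm]
  exact ⟨hx.1, (tight_congr β ρ g (fun i hi => h i (le_trans hi (le_of_lt hm))) _).mpr hx.2⟩

/-- Moves are determined by the path. -/
theorem move_congr {y : Δ} {n m : ℕ} (hm : m < n)
    (h : ∀ i ≤ n, pth T B y (g • v₀) i = pth T B x (g • v₀) i)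
    (hx : Move T B β v₀ ρ g x m) : Move T B β v₀ ρ g y m :=
  move_congr' hm h hx

/-- A first event is an open condition. -/
theorem eventually_firstEvent (hB : IsFlow G T B) {len : G → ℕ} (hβ : IsGauge G β len) {J : ℕ}
    (h : FirstEvent T B β v₀ ρ g x J) :
    ∀ᶠ y in 𝓝 x, FirstEvent T B β v₀ ρ g y J ∧
      ∀ i ≤ J, pth T B y (g • v₀) i = pth T B x (g • v₀) i := by
  have h1 : ∀ᶠ y in 𝓝 x, ∀ m ≤ J, pth T B y (g • v₀) m = pth T B x (g • v₀) m :=
    eventually_pth_eq hB fun m hm => (h.1 m hm).1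
  have hfin : {w | Tight β ρ g (pth T B x (g • v₀)) J w}.Finite := finite_tight hβ ρ g _ J
  have h2 : ∀ᶠ y in 𝓝 x, ∀ w ∈ {w | Tight β ρ g (pth T B x (g • v₀)) J w},
      T.Adj (pth T B x (g • v₀) J) w → y ∈ B w (pth T B x (g • v₀) J) := by
    rw [Filter.eventually_all_finite hfin]
    intro w hw
    by_cases ha : T.Adj (pth T B x (g • v₀) J) w
    · filter_upwards [(hB.isOpen w (pth T B x (g • v₀) J)).mem_nhds (h.2 w ha hw)] with y hy _
      exact hy
    · exact Filter.Eventually.of_forall fun y h => absurd h ha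
  filter_upwards [h1, h2] with y hy1 hy2
  refine ⟨⟨fun m hm => move_congr hm hy1 (h.1 m hm), ?_⟩, hy1⟩
  intro w hw ht
  rw [hy1 J le_rfl] at hw ⊢
  exact hy2 w ((tight_congr β ρ g hy1 w).mp ht) hw

theorem Move.mono {ρ' : ℕ} {m : ℕ} (h : Move T B β v₀ ρ g x m) (hρ : ρ ≤ ρ') :
    Move T B β v₀ ρ' g x m := ⟨h.1, h.2.mono hρ⟩

end Pool.Agent.FA
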