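import Pool.Agent.Lib.MP_98022b_fa.Gate
import Pool.Agent.Lib.MP_98022b_fa.Events
import Pool.Agent.Lib.MP_98022b_fa.Comp

/-!
# The comparison of thresholds for paths

Task F22.
-/

set_option autoImplicit false

open Set

namespace Pool.Agent.FA

variable {G V Δ : Type} [Group G] [MulAction G V] [TopologicalSpace Δ] [MulAction G Δ]
  {T : SimpleGraph V} {B : V → V → Set Δ}

/-- The moves before the gate are tight. -/
theorem move_initial {β : V → ℕ} {v₀ : V} {S : Finset G} {η ρH : ℕ} {g : G} {x : Δ} {u : V}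
    {b : G → ℕ} (hd : GateData T B β v₀ S η ρH g x u b) {ρ : ℕ} (hρ : ρH ≤ ρ) {s : G}
    (hs : s ∈ S) {m : ℕ} (hm : m < b s) : Move T B β v₀ ρ (g * s) x m := by
  refine ⟨hd.adj s hs m hm, tight_of_close (fun i hi => ?_) ?_⟩
  · exact le_trans (hd.close s hs i (by omega)) hρ
  · exact le_trans (hd.close s hs (m + 1) (by omega)) hρ

/-- The comparison of thresholds for paths. -/
theorem exists_comp_path {β : V → ℕ} {len : G → ℕ} (hβ : IsGauge G β len) (ρH K : ℕ)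
    (S : Finset G) :
    ∃ F : ℕ → ℕ, (∀ ρ, ρ ≤ F ρ) ∧ ∀ ρ, ρH ≤ ρ → ∀ (v₀ : V) (η : ℕ) (g : G) (x : Δ) (u : V)
      (b : G → ℕ), GateData T B β v₀ S η ρH g x u b → ∀ s ∈ S, ∀ s' ∈ S, ∀ j,
      (∀ m, K ≤ m → (∀ i < m, T.Adj (pth T B x u i) (pth T B x u (i + 1))) →
        FinOn G (pth T B x u '' Icc 0 m)) →
      (∀ m < j, Move T B β v₀ ρ (g * s) x (b s + m)) →
      ∀ m < j, Move T B β v₀ (F ρ) (g * s') x (b s' + m) := by
  classical
  obtain ⟨F, hF1, hF2⟩ := exists_comp hβ ρH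
    ((S ×ˢ S).sup fun q => len (q.2⁻¹ * q.1)) K
  refine ⟨F, hF1, ?_⟩
  intro ρ hρ v₀ η g x u b hd s hs s' hs' j hfin hmv
  have hq : ∀ s ∈ S, ∀ m, pth T B x ((g * s) • v₀) (b s + m) = pth T B x u m := by
    intro s hs m
    rw [pth_add, hd.eq s hs]
  have hadj : ∀ m < j, T.Adj (pth T B x u m) (pth T B x u (m + 1)) := by
    intro m hm
    have h1 := (hmv m hm).1
    rwa [add_assoc, hq s hs, hq s hs] at h1
  have hlen : len ((g * s')⁻¹ * (g * s)) ≤ (S ×ˢ S).sup fun q => len (q.2⁻¹ * q.1) := by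
    have h1 : (g * s')⁻¹ * (g * s) = s'⁻¹ * s := by group
    rw [h1]
    exact Finset.le_sup (f := fun q : G × G => len (q.2⁻¹ * q.1))
      (Finset.mem_product.2 ⟨hs, hs'⟩ : (s, s') ∈ S ×ˢ S)
  have h := hF2 ρ hρ (g * s) (g * s') (pth T B x ((g * s) • v₀)) (pth T B x ((g * s') • v₀))
    (pth T B x u) (b s) (b s') hlen (hq s hs) (hq s' hs') (hd.close s hs) (hd.close s' hs') j
    (fun m hKm hm => hfin m hKm fun i hi => hadj i (by omega))
    (fun m hm => by
      have h1 := (hmv m hm).2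
      rwa [add_assoc, hq s hs] at h1)
  intro m hm
  refine ⟨?_, ?_⟩
  · rw [add_assoc, hq s' hs', hq s' hs']
    exact hadj m hm
  · rw [add_assoc, hq s' hs']
    exact h m hm

end Pool.Agent.FA
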