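import Pool.Agent.Lib.MP_98022b_fa.Tree

/-!
# Convex subsets of trees
-/

set_option autoImplicit false

open Set

namespace Pool.Agent.FA

variable {V : Type} {T : SimpleGraph V}

/-- A sequence of adjacent vertices gives a walk. -/
private theorem walk_of_seq' (s : Set V) (p : ℕ → V) (n : ℕ)
    (h1 : ∀ m < n, T.Adj (p m) (p (m + 1))) (hs : ∀ m ≤ n, p m ∈ s) :
    ∃ W : (T.induce s).Walk ⟨p 0, hs 0 (Nat.zero_le n)⟩ ⟨p n, hs n le_rfl⟩, W.length = n := by
  induction n with
  | zero => exact ⟨SimpleGraph.Walk.nil, rfl⟩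
  | succ n ih =>
    obtain ⟨W, hW⟩ := ih (fun m hm => h1 m (by omega)) (fun m hm => hs m (by omega))
    have hadj : (T.induce s).Adj ⟨p n, hs n (by omega)⟩ ⟨p (n + 1), hs (n + 1) le_rfl⟩ :=
      h1 n (by omega)
    exact ⟨W.concat hadj, by rw [SimpleGraph.Walk.length_concat, hW]⟩

/-- Geodesics between vertices of a convex set are in the set. -/
private theorem exists_walk_conv (hT : T.IsTree) {Y : Set V} (hY : Conv T Y) (u v : Y) :
    ∃ W : (T.induce Y).Walk u v, W.length = T.dist (u : V) v := by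
  obtain ⟨p, h0, h1, h2, h3⟩ := exists_geodesic hT (u : V) v
  have hs : ∀ m ≤ T.dist (u : V) v, p m ∈ Y := by
    intro m hm
    refine hY u.1 u.2 v.1 v.2 _ ?_
    have h4 := h3 0 m (Nat.zero_le m) hm
    have h5 := h3 m _ hm le_rfl
    rw [h0] at h4
    rw [h1] at h5
    omega
  obtain ⟨W, hW⟩ := walk_of_seq' (T := T) Y p (T.dist (u : V) v) h2 hs
  have hu : (⟨p 0, hs 0 (Nat.zero_le _)⟩ : Y) = u := Subtype.ext h0
  have hv : (⟨p (T.dist (u : V) v), hs _ le_rfl⟩ : Y) = v := Subtype.ext h1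
  exact ⟨W.copy hu hv, by rw [SimpleGraph.Walk.length_copy, hW]⟩

theorem isTree_induce_conv (hT : T.IsTree) {Y : Set V} (hY : Conv T Y) (hne : Y.Nonempty) :
    (T.induce Y).IsTree := by
  refine ⟨?_, hT.2.induce _⟩
  have : Nonempty Y := hne.to_subtype
  refine ⟨fun u v => ?_⟩
  obtain ⟨W, -⟩ := exists_walk_conv hT hY u v
  exact ⟨W⟩

theorem dist_induce_conv (hT : T.IsTree) {Y : Set V} (hY : Conv T Y) (u v : Y) :
    (T.induce Y).dist u v = T.dist (u : V) v := by
  refine le_antisymm ?_ ?_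
  · obtain ⟨W, hW⟩ := exists_walk_conv hT hY u v
    rw [← hW]
    exact SimpleGraph.dist_le W
  · obtain ⟨W, hW⟩ := (isTree_induce_conv hT hY ⟨u.1, u.2⟩).1.exists_walk_length_eq_dist u v
    rw [← hW]
    have h := SimpleGraph.dist_le (W.map (SimpleGraph.Embedding.induce Y).toHom)
    rw [SimpleGraph.Walk.length_map] at h
    exact h

end Pool.Agent.FA
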