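import Pool.Agent.Lib.MP_98022b_fa.Gate
import Pool.Agent.Lib.MP_98022b_fa.Events
import Pool.Agent.Lib.MP_98022b_fa.Loc
import Pool.Agent.Lib.MP_98022b_fa.Params

/-!
# Common marker or axis

Task F24.
-/

set_option autoImplicit false

open Set

namespace Pool.Agent.FA

variable {G V Δ : Type} [Group G] [MulAction G V] [TopologicalSpace Δ] [MulAction G Δ]
  {T : SimpleGraph V} {B : V → V → Set Δ}

/-- If all steps are tight moves and all segments of length `L` have finite stabilizers then one of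
the six marker colours or the axis colour is common. -/
theorem core_M (hB : IsFlow G T B) {β : V → ℕ} {v₀ : V} {S : Finset G} {η ρH : ℕ} {g : G} {x : Δ}
    {u : V} {b : G → ℕ} (hd : GateData T B β v₀ S η ρH g x u b) {ρ L Q : ℕ} {π : Par V}
    (hπ : π.Fits G β ρ L Q) (hπR : π.R = 2 * η + 2) {D : ℕ} {C : ℤ}
    (hC : L + η + π.R + (π.R * Q + π.r + π.R) ≤ C)
    (hD : C + 4 * π.R + (π.R * Q + π.r + π.R) ≤ D)
    (hmv : ∀ s ∈ S, ∀ m, Move T B β v₀ ρ (g * s) x m)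
    (hfin : ∀ s ∈ S, ∀ a, FinOn G (pth T B x ((g * s) • v₀) '' Icc a (a + L))) :
    (∃ c : ℕ, c < 6 ∧ ∃ v, ∀ s ∈ S, colM T B β v₀ π ρ L D (C + c * (η + 1)) (g * s) x v) ∨
    (∃ l, ∀ s ∈ S, colA T B β v₀ π ρ L D (C + 2 * π.R) (g * s) x l) := by
  classical
  rcases S.eq_empty_or_nonempty with rfl | ⟨s₀, hs₀⟩
  · left
    exact ⟨0, by norm_num, v₀, fun s hs => absurd hs (Finset.notMem_empty s)⟩
  have hok := hπ.ok
  have hR0 : 0 < π.R := hok.hR
  have hA0 : 0 ≤ π.A := by have := hok.hA; omega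
  have hrQ : 0 ≤ π.R * Q := by positivity
  have hdom : ∀ s ∈ S, Dom T B β v₀ ρ L D (g * s) x := fun s hs =>
    ⟨fun m _ => hmv s hs m, fun a _ => hfin s hs a⟩
  -- the sequences agree after the gate
  have hzq : ∀ s ∈ S, ∀ j : ℤ, (b s : ℤ) ≤ j →
      zpth T B v₀ (g * s) x j = pth T B x u (j - b s).toNat := by
    intro s hs j hj
    unfold zpth
    have h1 : j.toNat = b s + (j - b s).toNat := by omega
    rw [h1, pth_add, hd.eq s hs]
  have hagree : ∀ s ∈ S, ∀ s' ∈ S, ∀ j : ℤ, (b s : ℤ) ≤ j →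
      zpth T B v₀ (g * s) x j = zpth T B v₀ (g * s') x (j + ((b s' : ℤ) - b s)) := by
    intro s hs s' hs' j hj
    rw [hzq s hs j hj, hzq s' hs' _ (by omega)]
    congr 2
    omega
  have hb : ∀ s ∈ S, (b s : ℤ) ≤ η := fun s hs => by exact_mod_cast hd.le s hs
  have hprio : ∀ s ∈ S, ∀ m : ℤ, L + π.r ≤ m →
      prio G π.r π.e (zpth T B v₀ (g * s) x) m ≤ Q := by
    intro s hs m hm
    exact hπ.prio (g * s) (pth T B x ((g * s) • v₀)) (m + π.r).toNat
      (fun i _ => (hmv s hs i).2) (fun a _ => hfin s hs a) m hm (by omega)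
  have hmrk : ∀ s ∈ S, ∀ m : ℤ, C ≤ m + b s₀ → m ≥ C →
      Mrk G π (zpth T B v₀ (g * s₀) x) (m + b s₀) →
      Mrk G π (zpth T B v₀ (g * s) x) (m + b s) := by
    intro s hs m hm hmC h
    have hb0 := hb s₀ hs₀
    have h1 := (mrk_shift hok (P := zpth T B v₀ (g * s₀) x) (P' := zpth T B v₀ (g * s) x)
      (m := m + b s₀) ((b s : ℤ) - b s₀) (Q := Q)
      (hprio s₀ hs₀ _ (by omega)) (fun j hj => by
        apply hagree s₀ hs₀ s hs
        rw [abs_le] at hj
        omega)).1 h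
    have e : m + (b s₀ : ℤ) + ((b s : ℤ) - b s₀) = m + b s := by ring
    rwa [e] at h1
  by_cases hex : ∃ m : ℤ, C ≤ m ∧ m < C + 3 * π.R ∧
      Mrk G π (zpth T B v₀ (g * s₀) x) (m + b s₀)
  · left
    obtain ⟨m, hm1, hm2, hm3⟩ := hex
    have hη : (0 : ℤ) < (η : ℤ) + 1 := by positivity
    obtain ⟨c, hc⟩ : ∃ c : ℕ, (c : ℤ) = (m - C) / ((η : ℤ) + 1) := by
      refine ⟨((m - C) / ((η : ℤ) + 1)).toNat, Int.toNat_of_nonneg ?_⟩
      exact Int.ediv_nonneg (by omega) hη.le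
    have hdm := Int.mul_ediv_add_emod (m - C) ((η : ℤ) + 1)
    have hmod0 := Int.emod_nonneg (m - C) hη.ne'
    have hmod1 := Int.emod_lt_of_pos (m - C) hη
    rw [← hc] at hdm
    have hcm : (c : ℤ) * ((η : ℤ) + 1) = ((η : ℤ) + 1) * c := by ring
    refine ⟨c, ?_, pth T B x u m.toNat, fun s hs => ⟨hdom s hs, m + b s, ?_, ?_, ?_, ?_⟩⟩
    · by_contra hc6
      push Not at hc6
      have h6 : (6 : ℤ) ≤ c := by exact_mod_cast hc6
      nlinarith
    · have := hb s hs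
      rw [hcm]
      omega
    · have := hb s hs
      rw [hcm]
      omega
    · exact hmrk s hs m (by omega) hm1 hm3
    · rw [hzq s hs _ (by omega)]
      congr 2
      omega
  · right
    push Not at hex
    have hax : ∀ m : ℤ, C + π.R ≤ m → m ≤ C + 2 * π.R →
        Axial G π (zpth T B v₀ (g * s₀) x) (m + b s₀) := by
      intro m hm1 hm2
      by_contra hna
      rcases marked_or (NA := fun j => ¬ Axial G π (zpth T B v₀ (g * s₀) x) j)
        (pr := fun j => prio G π.r π.e (zpth T B v₀ (g * s₀) x) j) (R := π.R)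
        (j := m + b s₀) hna with h | ⟨j', hj', h⟩
      · exact hex m (by omega) (by omega) h
      · rw [abs_lt] at hj'
        apply hex (j' - b s₀) (by omega) (by omega)
        have e : j' - (b s₀ : ℤ) + b s₀ = j' := by ring
        rw [e]
        exact h
    have hrad : ∀ i : ℕ, i ≤ π.M → π.r₀ + i * π.A + π.A ≤ π.r := by
      intro i hi
      have h1 := hok.hr
      have h2 : (i : ℤ) * π.A ≤ (π.M : ℤ) * π.A := by
        apply mul_le_mul_of_nonneg_right _ hA0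
        exact_mod_cast hi
      have h3 : ((π.M : ℤ) + 1) * π.A = (π.M : ℤ) * π.A + π.A := by ring
      rw [h3] at h1
      omega
    have hmain : ∀ s ∈ S, ∃ i : ℕ, i ≤ π.M ∧ ∃ (h : G) (δ : ℤ),
        IsAx (zpth T B v₀ (g * s₀) x) π.A π.R (C + 2 * π.R + ((b s₀ : ℤ) - b s))
          (π.r₀ + i * π.A) h δ := by
      intro s hs
      have h1 := hb s hs
      obtain ⟨i, hi, h, δ, hh⟩ := hax (C + 2 * π.R - b s) (by omega) (by omega)
      refine ⟨i, hi, h, δ, ?_⟩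
      have e : C + 2 * π.R - (b s : ℤ) + b s₀ = C + 2 * π.R + ((b s₀ : ℤ) - b s) := by ring
      rw [← e]
      exact hh
    have hagr : ∀ s ∈ S, ∀ i : ℕ, i ≤ π.M →
        ∀ j, |j - (C + 2 * π.R)| ≤ π.r₀ + i * π.A + π.A + π.R →
          zpth T B v₀ (g * s) x j = zpth T B v₀ (g * s₀) x (j + ((b s₀ : ℤ) - b s)) := by
      intro s hs i hi j hj
      apply hagree s hs s₀ hs₀
      have h1 := hb s hs
      have h2 := hrad i hi
      rw [abs_le] at hj
      omega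
    obtain ⟨i₀, hi₀, h₀, δ₀, hh₀⟩ := hmain s₀ hs₀
    refine ⟨shiftClass (axisOf (zpth T B v₀ (g * s₀) x) (C + 2 * π.R + ((b s₀ : ℤ) - b s₀))
      h₀ δ₀), fun s hs => ⟨hdom s hs, ?_⟩⟩
    obtain ⟨i, hi, h, δ, hh⟩ := hmain s hs
    have hr3 : ∀ i : ℕ, 3 * π.R ≤ π.r₀ + i * π.A := by
      intro i
      have h1 := hok.hr₀
      have h2 : 0 ≤ (i : ℤ) * π.A := by positivity
      omega
    have hIs : IsAx (zpth T B v₀ (g * s) x) π.A π.R (C + 2 * π.R) (π.r₀ + i * π.A) h δ :=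
      (isAx_shift ((b s₀ : ℤ) - b s) (hagr s hs i hi) hA0 hR0.le).2 hh
    refine ⟨i, hi, h, δ, hIs, ?_⟩
    rw [← shiftClass_axisOf_shift ((b s₀ : ℤ) - b s) hIs hA0 (by have := hr3 i; omega)
      (hagr s hs i hi)]
    congr 1
    apply axisOf_unique hh₀ hh _ hok.hA (hr3 i₀) (hr3 i)
    have h1 := hb s hs
    have h2 := hb s₀ hs₀
    rw [abs_le]
    omega

end Pool.Agent.FA
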