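import Pool.Agent.Lib.MP_98022b_fa.CompPath

/-!
# The pigeonhole argument for the thresholds

Task F23.
-/

set_option autoImplicit false

open Set

namespace Pool.Agent.FA

variable {G V Δ : Type} [Group G] [MulAction G V] [TopologicalSpace Δ] [MulAction G Δ]
  {T : SimpleGraph V} {B : V → V → Set Δ}

/-- Let `ρ 0 ≥ ρH` and `ρ (i + 1) = F (ρ i)` as in `exists_comp_path`. Then for one of the thresholds
`ρ i`, `i < k + 3`, the first event is at a common vertex or there is no event at all, or the colour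
`colW` is common. -/
theorem core_W (hT : T.IsTree)
    (hadj : ∀ (g : G) (u v : V), T.Adj u v → T.Adj (g • u) (g • v))
    (hB : IsFlow G T B) {β : V → ℕ} {v₀ : V} {𝒴 : Set (Set V)} {k : ℕ}
    (hconv : ∀ Y ∈ 𝒴, Conv T Y)
    (hk : ∀ Y ∈ 𝒴, ∀ Y' ∈ 𝒴, Y ≠ Y' → ∀ u v, u ∈ Y → u ∈ Y' → v ∈ Y → v ∈ Y' → T.dist u v < k)
    (hY : ∀ u v, k ≤ T.dist u v → ¬ FinOn G ({u, v} : Set V) → ∃ Y ∈ 𝒴, u ∈ Y ∧ v ∈ Y)
    {S : Finset G} {η ρH : ℕ} {g : G} {x : Δ} (hx : Reg T B x) {u : V} {b : G → ℕ}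
    (hd : GateData T B β v₀ S η ρH g x u b) {ρ : ℕ → ℕ} (hρ0 : ρH ≤ ρ 0)
    (hρ : ∀ i, ρ i ≤ ρ (i + 1))
    (hcomp : ∀ i, ∀ s ∈ S, ∀ s' ∈ S, ∀ j, (∀ m < j, Move T B β v₀ (ρ i) (g * s) x (b s + m)) →
      ∀ m < j, Move T B β v₀ (ρ (i + 1)) (g * s') x (b s' + m)) :
    (∃ i < k + 3, ∃ v, ∀ s ∈ S, colV T B β v₀ (ρ i) (g * s) x v) ∨
    (∃ Y, ∀ s ∈ S, colW T B β v₀ 𝒴 k (ρ 0) (ρ (k + 1)) (g * s) x Y) ∨
    (∃ i < k + 3, ∀ s ∈ S, ∀ m, Move T B β v₀ (ρ i) (g * s) x m) := by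
  classical
  by_contra hcon
  rw [not_or, not_or] at hcon
  obtain ⟨hV, hW, hM⟩ := hcon
  -- the tail
  have hq : ∀ s ∈ S, ∀ m, pth T B x ((g * s) • v₀) (b s + m) = pth T B x u m := by
    intro s hs m
    rw [pth_add, hd.eq s hs]
  have hρH : ∀ i, ρH ≤ ρ i := by
    intro i
    induction i with
    | zero => exact hρ0
    | succ i ih => exact ih.trans (hρ i)
  -- the first events are in the tail
  have htail : ∀ i, ∀ s ∈ S, ∀ J, FirstEvent T B β v₀ (ρ i) (g * s) x J →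
      ∃ a, J = b s + a := by
    intro i s hs J hJ
    by_cases h : J < b s
    · exact absurd hJ.2 (not_event_of_move hB (move_initial hd (hρH i) hs h))
    · exact ⟨J - b s, by omega⟩
  -- critical indices
  have hcrit : ∀ i, i < k + 3 → ∃ t,
      (∀ s ∈ S, ∀ m < t, Move T B β v₀ (ρ i) (g * s) x (b s + m)) ∧
      (∃ s ∈ S, FirstEvent T B β v₀ (ρ i) (g * s) x (b s + t)) ∧
      (∃ s ∈ S, Move T B β v₀ (ρ i) (g * s) x (b s + t)) := by
    intro i hi
    have hex : ∃ t, ∃ s ∈ S, FirstEvent T B β v₀ (ρ i) (g * s) x (b s + t) := by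
      by_contra hno
      refine hM ⟨i, hi, fun s hs => ?_⟩
      rcases firstEvent_or hB hx β v₀ (ρ i) (g * s) with ⟨J, hJ⟩ | h
      · obtain ⟨a, rfl⟩ := htail i s hs J hJ
        exact absurd ⟨a, s, hs, hJ⟩ hno
      · exact h
    have hmv : ∀ s ∈ S, ∀ m < Nat.find hex, Move T B β v₀ (ρ i) (g * s) x (b s + m) := by
      intro s hs m hm
      rcases firstEvent_or hB hx β v₀ (ρ i) (g * s) with ⟨J, hJ⟩ | h
      · obtain ⟨a, rfl⟩ := htail i s hs J hJ
        have h1 : Nat.find hex ≤ a := Nat.find_min' hex ⟨s, hs, hJ⟩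
        exact hJ.1 _ (by omega)
      · exact h _
    refine ⟨Nat.find hex, hmv, Nat.find_spec hex, ?_⟩
    by_contra hno
    refine hV ⟨i, hi, pth T B x u (Nat.find hex), fun s hs => ⟨b s + Nat.find hex, ⟨?_, ?_⟩,
      (hq s hs _).symm⟩⟩
    · intro m hm
      by_cases h : m < b s
      · exact move_initial hd (hρH i) hs h
      · obtain ⟨m', rfl⟩ : ∃ m', m = b s + m' := ⟨m - b s, by omega⟩
        exact hmv s hs m' (by omega)
    · by_contra hev
      exact hno ⟨s, hs, move_of_not_event hB hx hev⟩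
  choose! t ht1 ht2 ht3 using hcrit
  -- the stabilizer is infinite
  have hinf : ∀ i, i < k + 3 → ¬ FinOn G (pth T B x u '' Icc 0 (t i)) := by
    intro i hi hfin
    obtain ⟨s, hs, hev⟩ := ht2 i hi
    obtain ⟨s', hs', hmv⟩ := ht3 i hi
    have h1 := hmv.2
    have h2 := hmv.1
    rw [add_assoc, hq s' hs'] at h1
    rw [add_assoc, hq s' hs', hq s' hs'] at h2
    rw [tight_tail (g' := g * s) (hq s' hs') hfin] at h1
    have h3 := hev.2 (pth T B x u (t i + 1))
    rw [hq s hs, tight_tail (g' := g * s) (hq s hs) hfin] at h3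
    exact hB.anti _ _ x h2 (mem_of_adj_pth h2) (h3 h2 h1)
  -- the critical indices increase
  have hstep : ∀ i, i + 1 < k + 3 → ∀ s ∈ S,
      (∀ m < t (i + 1) + 1, Move T B β v₀ (ρ i) (g * s) x (b s + m)) → False := by
    intro i hi s hs h
    obtain ⟨s', hs', hev⟩ := ht2 (i + 1) hi
    exact not_event_of_move hB (hcomp i s hs s' hs' _ h _ (Nat.lt_succ_self _)) hev.2
  have hmono : ∀ i, i + 1 < k + 3 → t i + 1 ≤ t (i + 1) := by
    intro i hi
    by_contra hlt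
    obtain ⟨s', hs', hmv⟩ := ht3 i (by omega)
    refine hstep i hi s' hs' fun m hm => ?_
    rcases Nat.lt_or_ge m (t i) with h | h
    · exact ht1 i (by omega) s' hs' m h
    · have : m = t i := by omega
      rw [this]
      exact hmv
  have hmono' : ∀ j, j + 1 < k + 3 → t 1 + j ≤ t (j + 1) := by
    intro j
    induction j with
    | zero => intro _; exact le_rfl
    | succ j ih =>
      intro hj
      have h1 := ih (by omega)
      have h2 := hmono (j + 1) hj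
      omega
  -- upper bounds
  have hup : ∀ i, i + 1 < k + 3 → ∀ s ∈ S, ∃ a, t i ≤ a ∧ a ≤ t (i + 1) ∧
      FirstEvent T B β v₀ (ρ i) (g * s) x (b s + a) := by
    intro i hi s hs
    rcases firstEvent_or hB hx β v₀ (ρ i) (g * s) with ⟨J, hJ⟩ | h
    · obtain ⟨a, rfl⟩ := htail i s hs J hJ
      refine ⟨a, ?_, ?_, hJ⟩
      · by_contra hlt
        exact not_event_of_move hB (ht1 i (by omega) s hs a (by omega)) hJ.2
      · by_contra hlt
        exact hstep i hi s hs fun m hm => hJ.1 _ (by omega)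
    · exact (hstep i hi s hs fun m _ => h _).elim
  have hadjq : ∀ m < t (k + 2), T.Adj (pth T B x u m) (pth T B x u (m + 1)) := by
    intro m hm
    obtain ⟨s, hs, -⟩ := ht2 (k + 2) (by omega)
    have h1 := (ht1 (k + 2) (by omega) s hs m hm).1
    rwa [add_assoc, hq s hs, hq s hs] at h1
  have hk12 : t 1 + k ≤ t (k + 1) := hmono' k (by omega)
  have hk2 : t (k + 1) + 1 ≤ t (k + 2) := hmono (k + 1) (by omega)
  -- the members of `𝒴`
  have hmem : ∀ s ∈ S, ∃ Y ∈ 𝒴, colW T B β v₀ 𝒴 k (ρ 0) (ρ (k + 1)) (g * s) x Y ∧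
      pth T B x u (t 1) ∈ Y ∧ pth T B x u (t (k + 1)) ∈ Y := by
    intro s hs
    obtain ⟨a, ha0, ha1, hea⟩ := hup 0 (by omega) s hs
    obtain ⟨c, hc0, hc1, hec⟩ := hup (k + 1) (by omega) s hs
    rw [zero_add] at ha1
    have hc2 : c ≤ t (k + 2) := hc1
    have hac : a + k ≤ c := by omega
    have hd1 : T.dist (pth T B x u a) (pth T B x u c) = c - a :=
      dist_pth hT hB hadjq (by omega) (by omega)
    have hnf : ¬ FinOn G ({pth T B x u a, pth T B x u c} : Set V) := by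
      intro hfin
      refine hinf (k + 2) (by omega) (hfin.subset fun h hh v hv => ?_)
      rcases hv with rfl | hv
      · exact hh _ ⟨a, ⟨Nat.zero_le _, by omega⟩, rfl⟩
      · rw [mem_singleton_iff] at hv
        subst hv
        exact hh _ ⟨c, ⟨Nat.zero_le _, by omega⟩, rfl⟩
    obtain ⟨Y, hY1, hY2, hY3⟩ := hY _ _ (by rw [hd1]; omega) hnf
    have hbet : ∀ m, a ≤ m → m ≤ c → pth T B x u m ∈ Y := by
      intro m h1 h2
      refine hconv Y hY1 _ hY2 _ hY3 _ ?_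
      rw [hd1, dist_pth hT hB hadjq h1 (by omega), dist_pth hT hB hadjq h2 (by omega)]
      omega
    refine ⟨Y, hY1, ⟨b s + a, b s + c, hea, hec, by omega, hY1, ?_, ?_⟩, hbet _ ha1 (by omega),
      hbet _ (by omega) hc0⟩
    · rw [hq s hs]; exact hY2
    · rw [hq s hs]; exact hY3
  have hdist : T.dist (pth T B x u (t 1)) (pth T B x u (t (k + 1))) = t (k + 1) - t 1 :=
    dist_pth hT hB hadjq (by omega) (by omega)
  obtain ⟨s₀, hs₀, -⟩ := ht2 0 (by omega)
  obtain ⟨Y₀, hY₀, -, hY₀1, hY₀2⟩ := hmem s₀ hs₀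
  refine hW ⟨Y₀, fun s hs => ?_⟩
  obtain ⟨Y, hYm, hYc, hY1, hY2⟩ := hmem s hs
  have : Y = Y₀ := by
    by_contra hne
    have := hk Y hYm Y₀ hY₀ hne _ _ hY1 hY₀1 hY2 hY₀2
    rw [hdist] at this
    omega
  rw [← this]
  exact hYc

end Pool.Agent.FA
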