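import Pool.Agent.Lib.MP_98022b_fa.Gate

/-!
# The colours by long segments with infinite stabilizers

Task F21.
-/

set_option autoImplicit false

open Set

namespace Pool.Agent.FA

variable {G V Δ : Type} [Group G] [MulAction G V] [TopologicalSpace Δ] [MulAction G Δ]
  {T : SimpleGraph V} {B : V → V → Set Δ}

/-- Either one of the colours `colY` with `L = k + η, k + 2 * η` is common, or long initial segments
of the tail have finite stabilizers and all segments of length `k + 2 * η` of all paths have finite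
stabilizers. -/
theorem core_Y (hT : T.IsTree)
    (hadj : ∀ (g : G) (u v : V), T.Adj u v → T.Adj (g • u) (g • v))
    (hB : IsFlow G T B) {β : V → ℕ} {v₀ : V} {𝒴 : Set (Set V)} {k : ℕ}
    (hconv : ∀ Y ∈ 𝒴, Conv T Y)
    (hk : ∀ Y ∈ 𝒴, ∀ Y' ∈ 𝒴, Y ≠ Y' → ∀ u v, u ∈ Y → u ∈ Y' → v ∈ Y → v ∈ Y' → T.dist u v < k)
    (hY : ∀ u v, k ≤ T.dist u v → ¬ FinOn G ({u, v} : Set V) → ∃ Y ∈ 𝒴, u ∈ Y ∧ v ∈ Y)
    {S : Finset G} {η ρH : ℕ} {g : G} {x : Δ} {u : V} {b : G → ℕ}
    (hd : GateData T B β v₀ S η ρH g x u b) :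
    (∃ Y, ∀ s ∈ S, colY T B v₀ 𝒴 (k + η) (g * s) x Y) ∨
    (∃ Y, ∀ s ∈ S, colY T B v₀ 𝒴 (k + 2 * η) (g * s) x Y) ∨
    ((∀ m, k + η ≤ m → (∀ i < m, T.Adj (pth T B x u i) (pth T B x u (i + 1))) →
        FinOn G (pth T B x u '' Icc 0 m)) ∧
      ∀ s ∈ S, ∀ a, (∀ i < a + (k + 2 * η),
          T.Adj (pth T B x ((g * s) • v₀) i) (pth T B x ((g * s) • v₀) (i + 1))) →
        FinOn G (pth T B x ((g * s) • v₀) '' Icc a (a + (k + 2 * η)))) := by
  classical
  have hmonoF : ∀ {P P' : Set V}, P ⊆ P' → FinOn G P → FinOn G P' := by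
    intro P P' hPP hP
    exact hP.subset fun h hh v hv => hh v (hPP hv)
  have hq : ∀ s ∈ S, ∀ m, pth T B x ((g * s) • v₀) (b s + m) = pth T B x u m := by
    intro s hs m
    rw [pth_add, hd.eq s hs]
  -- moving paths
  have hmove : ∀ s ∈ S, ∀ n, (∀ i < n, T.Adj (pth T B x u i) (pth T B x u (i + 1))) →
      ∀ i < b s + n, T.Adj (pth T B x ((g * s) • v₀) i) (pth T B x ((g * s) • v₀) (i + 1)) := by
    intro s hs n hn i hi
    by_cases h : i < b s
    · exact hd.adj s hs i h
    · obtain ⟨j, rfl⟩ : ∃ j, i = b s + j := ⟨i - b s, by omega⟩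
      rw [add_assoc, hq s hs, hq s hs]
      exact hn j (by omega)
  have himg : ∀ s ∈ S, ∀ a c, pth T B x ((g * s) • v₀) '' Icc (b s + a) (b s + c) =
      pth T B x u '' Icc a c := by
    intro s hs a c
    ext w
    constructor
    · rintro ⟨i, ⟨h1, h2⟩, rfl⟩
      obtain ⟨j, rfl⟩ : ∃ j, i = b s + j := ⟨i - b s, by omega⟩
      exact ⟨j, ⟨by omega, by omega⟩, (hq s hs j).symm⟩
    · rintro ⟨j, ⟨h1, h2⟩, rfl⟩
      exact ⟨b s + j, ⟨by omega, by omega⟩, hq s hs j⟩
  -- a member of `𝒴` through a segment with infinite stabilizer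
  have hseg : ∀ (w : V) (a L : ℕ), k ≤ L →
      (∀ i < a + L, T.Adj (pth T B x w i) (pth T B x w (i + 1))) →
      ¬ FinOn G (pth T B x w '' Icc a (a + L)) →
      ∃ Y ∈ 𝒴, ∀ m, a ≤ m → m ≤ a + L → pth T B x w m ∈ Y := by
    intro w a L hkL hmv hnf
    have hd1 : T.dist (pth T B x w a) (pth T B x w (a + L)) = L := by
      rw [dist_pth hT hB hmv (Nat.le_add_right a L) le_rfl]
      omega
    obtain ⟨Y, hY1, hY2, hY3⟩ := hY _ _ (by rw [hd1]; exact hkL) (fun hfin => hnf
      (hmonoF (by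
        rintro v (rfl | hv)
        · exact ⟨a, ⟨le_rfl, Nat.le_add_right a L⟩, rfl⟩
        · rw [mem_singleton_iff] at hv
          subst hv
          exact ⟨a + L, ⟨Nat.le_add_right a L, le_rfl⟩, rfl⟩) hfin))
    refine ⟨Y, hY1, fun m h1 h2 => hconv Y hY1 _ hY2 _ hY3 _ ?_⟩
    rw [hd1, dist_pth hT hB hmv h1 h2, dist_pth hT hB hmv h2 le_rfl]
    omega
  by_cases hA : ∀ m, k + η ≤ m → (∀ i < m, T.Adj (pth T B x u i) (pth T B x u (i + 1))) →
      FinOn G (pth T B x u '' Icc 0 m)
  · by_cases hBB : ∀ s ∈ S, ∀ a, (∀ i < a + (k + 2 * η),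
          T.Adj (pth T B x ((g * s) • v₀) i) (pth T B x ((g * s) • v₀) (i + 1))) →
        FinOn G (pth T B x ((g * s) • v₀) '' Icc a (a + (k + 2 * η)))
    · exact Or.inr (Or.inr ⟨hA, hBB⟩)
    · right; left
      -- segments with infinite stabilizers start in the tail
      have hclaim : ∀ s ∈ S, ∀ a, (∀ i < a + (k + 2 * η),
          T.Adj (pth T B x ((g * s) • v₀) i) (pth T B x ((g * s) • v₀) (i + 1))) →
          ¬ FinOn G (pth T B x ((g * s) • v₀) '' Icc a (a + (k + 2 * η))) →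
          ∃ a', a = b s + a' ∧
            (∀ i < a' + (k + 2 * η), T.Adj (pth T B x u i) (pth T B x u (i + 1))) ∧
            ¬ FinOn G (pth T B x u '' Icc a' (a' + (k + 2 * η))) := by
        intro s hs a hmv hnf
        have hble := hd.le s hs
        have hmvq : ∀ i, b s + i < a + (k + 2 * η) →
            T.Adj (pth T B x u i) (pth T B x u (i + 1)) := by
          intro i hi
          have := hmv (b s + i) hi
          rwa [add_assoc, hq s hs, hq s hs] at this
        by_cases hab : a < b s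
        · exfalso
          apply hnf
          refine hmonoF ?_ (hA (k + η) le_rfl fun i hi => hmvq i (by omega))
          rw [← himg s hs]
          refine image_mono (Icc_subset_Icc ?_ ?_)
          · omega
          · omega
        · obtain ⟨a', rfl⟩ : ∃ a', a = b s + a' := ⟨a - b s, by omega⟩
          refine ⟨a', rfl, fun i hi => hmvq i (by omega), ?_⟩
          rwa [add_assoc, himg s hs] at hnf
      have hex : ∃ a', (∀ i < a' + (k + 2 * η), T.Adj (pth T B x u i) (pth T B x u (i + 1))) ∧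
            ¬ FinOn G (pth T B x u '' Icc a' (a' + (k + 2 * η))) := by
        push Not at hBB
        obtain ⟨s, hs, a, h1, h2⟩ := hBB
        obtain ⟨a', -, h3⟩ := hclaim s hs a h1 h2
        exact ⟨a', h3⟩
      obtain ⟨hf1, hf2⟩ := Nat.find_spec hex
      obtain ⟨Y, hYm, hYs⟩ := hseg u (Nat.find hex) (k + 2 * η) (by omega) hf1 hf2
      refine ⟨Y, fun s hs => ⟨b s + Nat.find hex, ?_, ?_, ?_, hYm, ?_, ?_⟩⟩
      · intro m hm
        exact hmove s hs _ hf1 m (by omega)
      · rw [add_assoc, himg s hs]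
        exact hf2
      · intro a' ha'
        by_contra hnf
        obtain ⟨a'', rfl, h3⟩ := hclaim s hs a' (fun i hi => hmove s hs _ hf1 i (by omega)) hnf
        exact Nat.find_min hex (by omega : a'' < Nat.find hex) h3
      · rw [hq s hs]
        exact hYs _ le_rfl (Nat.le_add_right _ _)
      · rw [add_assoc, hq s hs]
        exact hYs _ (Nat.le_add_right _ _) le_rfl
  · left
    push Not at hA
    obtain ⟨m₀, hm₀, hmvm, hnfm⟩ := hA
    have hmvq : ∀ i < k + η, T.Adj (pth T B x u i) (pth T B x u (i + 1)) :=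
      fun i hi => hmvm i (by omega)
    have hnfq : ¬ FinOn G (pth T B x u '' Icc 0 (k + η)) := fun hfin =>
      hnfm (hmonoF (image_mono (Icc_subset_Icc le_rfl hm₀)) hfin)
    have hmem : ∀ s ∈ S, ∃ Y ∈ 𝒴, colY T B v₀ 𝒴 (k + η) (g * s) x Y ∧
        pth T B x u 0 ∈ Y ∧ pth T B x u k ∈ Y := by
      intro s hs
      have hble := hd.le s hs
      have hex : ∃ a, ¬ FinOn G (pth T B x ((g * s) • v₀) '' Icc a (a + (k + η))) := by
        refine ⟨b s, ?_⟩
        have := himg s hs 0 (k + η)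
        rw [add_zero] at this
        rw [this]
        exact hnfq
      have hle : Nat.find hex ≤ b s := Nat.find_min' hex (by
        have := himg s hs 0 (k + η)
        rw [add_zero] at this
        rw [this]
        exact hnfq)
      have hmvs : ∀ m < Nat.find hex + (k + η),
          T.Adj (pth T B x ((g * s) • v₀) m) (pth T B x ((g * s) • v₀) (m + 1)) :=
        fun m hm => hmove s hs _ hmvq m (by omega)
      obtain ⟨Y, hYm, hYs⟩ := hseg ((g * s) • v₀) (Nat.find hex) (k + η) (by omega) hmvs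
        (Nat.find_spec hex)
      refine ⟨Y, hYm, ⟨Nat.find hex, hmvs, Nat.find_spec hex, ?_, hYm,
        hYs _ le_rfl (Nat.le_add_right _ _), hYs _ (Nat.le_add_right _ _) le_rfl⟩, ?_, ?_⟩
      · intro a' ha'
        exact not_not.1 (Nat.find_min hex ha')
      · rw [← hq s hs]
        exact hYs _ (by omega) (by omega)
      · rw [← hq s hs]
        exact hYs _ (by omega) (by omega)
    have hdist : T.dist (pth T B x u 0) (pth T B x u k) = k := by
      rw [dist_pth hT hB hmvq (Nat.zero_le k) (by omega)]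
      omega
    rcases S.eq_empty_or_nonempty with rfl | ⟨s₀, hs₀⟩
    · exact ⟨∅, fun s hs => absurd hs (Finset.notMem_empty s)⟩
    · obtain ⟨Y₀, hY₀, -, hY₀1, hY₀2⟩ := hmem s₀ hs₀
      refine ⟨Y₀, fun s hs => ?_⟩
      obtain ⟨Y, hYm, hYc, hY1, hY2⟩ := hmem s hs
      have : Y = Y₀ := by
        by_contra hne
        have := hk Y hYm Y₀ hY₀ hne _ _ hY1 hY₀1 hY2 hY₀2
        rw [hdist] at this
        exact lt_irrefl _ this
      rw [← this]
      exact hYc

end Pool.Agent.FA
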