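import Pool.Agent.Lib.MP_98022b_fa.Prio
import Pool.Agent.Lib.MP_98022b_fa.Params
import Pool.Agent.Lib.MP_98022b_fa.Chain

/-!
# Fitting parameters exist

Task F17.
-/

set_option autoImplicit false

open Set

namespace Pool.Agent.FA

variable {G V : Type} [Group G] [MulAction G V]

theorem exists_par [Countable V] {β : V → ℕ} {len : G → ℕ} (hβ : IsGauge G β len) (ρ L : ℕ)
    (R : ℤ) (hR : 0 < R) : ∃ (π : Par V) (Q : ℕ), π.R = R ∧ π.Fits G β ρ L Q := by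
  obtain ⟨Rn, rfl⟩ : ∃ n : ℕ, R = n := ⟨R.toNat, by omega⟩
  have hRn : 0 < Rn := by omega
  obtain ⟨ρ1, hρ1⟩ := exists_chain hβ ρ (2 * (3 * Rn + L) - 1)
  obtain ⟨Mf, hMf⟩ := exists_card_bound hβ
  obtain ⟨rn, hrn⟩ : ∃ rn : ℕ, rn = (3 * Rn + L) + (Mf ρ1 + 1) * (3 * Rn) := ⟨_, rfl⟩
  have hrn0 : 0 < rn := by omega
  obtain ⟨e, he⟩ := Countable.exists_injective_nat (Fin (2 * rn + 1) → V)
  obtain ⟨ρ2, hρ2⟩ := exists_chain hβ ρ (2 * rn - 1)
  obtain ⟨Q, hQ⟩ := prio_bound hβ e ρ2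
  refine ⟨⟨Rn, 3 * Rn, ((3 * Rn + L : ℕ) : ℤ), Mf ρ1, rn, e⟩, Q, rfl, ?_, ?_, ?_⟩
  · refine ⟨hR, le_rfl, ?_, ?_, he⟩
    · simp only
      push_cast
      omega
    · simp only
      rw [hrn]
      push_cast
      exact le_rfl
  · intro g p D hp hL m hm1 hm2
    simp only at hm1 hm2 ⊢
    push_cast at hm1 hm2
    obtain ⟨h, hh⟩ := hρ1 g p L D hp hL (m - (3 * Rn + L)).toNat (by omega) (by omega)
    have hfin : FinOn G (Win (fun j => p j.toNat) m ((3 * Rn + L : ℕ) : ℤ)) := by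
      refine (hL (m - (3 * Rn + L)).toNat (by omega)).mono ?_
      rintro _ ⟨i, ⟨hi1, hi2⟩, rfl⟩
      refine ⟨(i : ℤ), ⟨?_, ?_⟩, ?_⟩
      · push_cast
        omega
      · push_cast
        omega
      · simp
    have hWf : (Win (fun j => p j.toNat) m ((3 * Rn + L : ℕ) : ℤ)).Finite :=
      (Set.finite_Icc _ _).image _
    refine ⟨hfin, hMf ρ1 _ hWf hfin h ?_⟩
    rintro _ ⟨j, ⟨hj1, hj2⟩, rfl⟩
    push_cast at hj1 hj2
    exact hh j.toNat (by omega) (by omega)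
  · intro g p D hp hL m hm1 hm2
    simp only at hm1 hm2 ⊢
    obtain ⟨h, hh⟩ := hρ2 g p L D hp hL (m - rn).toNat (by omega) (by omega)
    refine hQ _ m h ?_
    intro j hj
    rw [abs_le] at hj
    exact hh j.toNat (by omega) (by omega)

end Pool.Agent.FA
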