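import Pool.Agent.Lib.MP_98022b_fa.ColV
import Pool.Agent.Lib.MP_98022b_fa.ColY
import Pool.Agent.Lib.MP_98022b_fa.ColM
import Pool.Agent.Lib.MP_98022b_fa.ColA
import Pool.Agent.Lib.MP_98022b_fa.Fits
import Pool.Agent.Lib.MP_98022b_fa.CoreY
import Pool.Agent.Lib.MP_98022b_fa.CoreW
import Pool.Agent.Lib.MP_98022b_fa.CorMk

/-!
# The colours exist

Task F25.
-/

set_option autoImplicit false

open Set
open scoped Pointwise

namespace Pool.Agent.FA

variable {G V Δ : Type} [Group G] [MulAction G V] [TopologicalSpace Δ] [MulAction G Δ]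
  {T : SimpleGraph V} {B : V → V → Set Δ}

/-- Padding a finite family of colours with empty ones. -/
private theorem pad {ι : Type} [Fintype ι] {N : ℕ} (hN : Fintype.card ι ≤ N) {L : Type}
    [MulAction G L] {good : L → Prop} (c : ι → G → Δ → L → Prop) (hc : ∀ i, IsColour good (c i)) :
    ∃ c' : Fin N → G → Δ → L → Prop, (∀ n, IsColour good (c' n)) ∧ ∀ i, ∃ n, c' n = c i := by
  classical
  let e := Fintype.equivFin ι
  refine ⟨fun n => if h : (n : ℕ) < Fintype.card ι then c (e.symm ⟨n, h⟩) else fun _ _ _ => False,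
    fun n => ?_, fun i => ⟨⟨e i, lt_of_lt_of_le (e i).2 hN⟩, ?_⟩⟩
  · by_cases h : (n : ℕ) < Fintype.card ι
    · simp only [h, dite_true]
      exact hc _
    · simp only [h, dite_false]
      exact ⟨fun _ _ _ _ h => h.elim, fun _ _ => by simp, fun _ _ _ _ h => h.elim,
        fun _ _ _ h => h.elim⟩
  · simp

/-- There are boundedly many colours one of which is common to `(g * s, x)`, `s ∈ S`, for all `g` and
all regular `x`. -/
theorem core [Countable G] [Countable V] (hT : T.IsTree)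
    (hadj : ∀ (g : G) (u v : V), T.Adj u v → T.Adj (g • u) (g • v))
    (hB : IsFlow G T B) {𝒴 : Set (Set V)} {k : ℕ}
    (h𝒴 : ∀ (g : G), ∀ Y ∈ 𝒴, g • Y ∈ 𝒴) (hconv : ∀ Y ∈ 𝒴, Conv T Y)
    (hk : ∀ Y ∈ 𝒴, ∀ Y' ∈ 𝒴, Y ≠ Y' → ∀ u v, u ∈ Y → u ∈ Y' → v ∈ Y → v ∈ Y' → T.dist u v < k)
    (hY : ∀ u v, k ≤ T.dist u v → ¬ FinOn G ({u, v} : Set V) → ∃ Y ∈ 𝒴, u ∈ Y ∧ v ∈ Y) :
    ∃ N : ℕ, ∀ S : Finset G, ∃ (cV : Fin N → G → Δ → V → Prop) (cY : Fin N → G → Δ → Set V → Prop)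
      (cA : Fin N → G → Δ → Set (ℤ → V) → Prop),
      (∀ i, IsColour (fun _ : V => True) (cV i)) ∧ (∀ i, IsColour (fun Y => Y ∈ 𝒴) (cY i)) ∧
      (∀ i, IsColour (IsAxisClass G) (cA i)) ∧
      ∀ (g : G) (x : Δ), Reg T B x → (∃ i l, ∀ s ∈ S, cV i (g * s) x l) ∨
        (∃ i l, ∀ s ∈ S, cY i (g * s) x l) ∨ ∃ i l, ∀ s ∈ S, cA i (g * s) x l := by
  classical
  refine ⟨7 * (k + 3) + 3, fun S => ?_⟩
  obtain ⟨v₀⟩ := hT.1.nonempty
  obtain ⟨β, len, hβ⟩ := exists_gauge (G := G) (V := V)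
  obtain ⟨η, ρH, hgate⟩ := exists_gate (G := G) hT hadj hB β v₀ S
  obtain ⟨F, hF, hcomp⟩ := exists_comp_path (Δ := Δ) (T := T) (B := B) hβ ρH (k + η) S
  set ρ : ℕ → ℕ := fun i => F^[i] ρH with hρdef
  have hρs : ∀ i, ρ (i + 1) = F (ρ i) := fun i => Function.iterate_succ_apply' F i ρH
  have hρ0 : ρH ≤ ρ 0 := le_rfl
  have hρm : ∀ i, ρ i ≤ ρ (i + 1) := fun i => by rw [hρs]; exact hF _
  have hρH : ∀ i, ρH ≤ ρ i := fun i => by
    induction i with
    | zero => exact hρ0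
    | succ i ih => exact ih.trans (hρm i)
  have hR : (0 : ℤ) < 2 * (η : ℤ) + 2 := by positivity
  choose π Q hπR hπ using fun i : ℕ => exists_par hβ (ρ i) (k + 2 * η) (2 * (η : ℤ) + 2) hR
  let Z : ℕ → ℤ := fun i => (π i).R * Q i + (π i).r + (π i).R
  have hZ : ∀ i, (π i).r + (π i).R ≤ Z i := fun i => by
    have h1 : 0 ≤ (π i).R * (Q i : ℤ) := by rw [hπR]; positivity
    simp only [Z]; linarith
  have hRnn : ∀ i, 0 < (π i).R := fun i => by rw [hπR]; exact hR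
  have hZ0 : ∀ i, 0 ≤ Z i := fun i => by
    have := hZ i; have := hRnn i
    have : (0 : ℤ) ≤ (π i).r := by positivity
    linarith
  let C : ℕ → ℤ := fun i => ((k + 2 * η : ℕ) : ℤ) + η + (π i).R + Z i
  let D : ℕ → ℕ := fun i => (C i + 4 * (π i).R + Z i).toNat
  have hC0 : ∀ i, 0 ≤ C i := fun i => by
    have h1 := hZ0 i; have h2 := hRnn i
    have h3 : (0 : ℤ) ≤ ((k + 2 * η : ℕ) : ℤ) := by positivity
    have h4 : (0 : ℤ) ≤ (η : ℤ) := by positivity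
    simp only [C]; linarith
  have hD : ∀ i, C i + 4 * (π i).R + Z i = D i := fun i => by
    have h1 := hZ0 i; have h2 := hRnn i; have h3 := hC0 i
    simp only [D]
    rw [Int.toNat_of_nonneg (by linarith)]
  -- the vertex colours
  let cV' : Fin (k + 3) ⊕ (Fin (k + 3) × Fin 6) → G → Δ → V → Prop := fun a => match a with
    | Sum.inl i => colV T B β v₀ (ρ i)
    | Sum.inr (i, c) => colM T B β v₀ (π i) (ρ i) (k + 2 * η) (D i) (C i + ((c : ℕ) : ℤ) * (η + 1))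
  have hcV' : ∀ a, IsColour (G := G) (fun _ : V => True) (cV' a) := by
    rintro (i | ⟨i, c⟩)
    · exact isColour_colV hadj hB hβ v₀ (ρ i)
    · refine isColour_colM hadj hB v₀ (hπ i) ?_ ?_
      · have h1 := hZ0 i; have h2 := hRnn i
        have h3 : (0 : ℤ) ≤ ((c : ℕ) : ℤ) * ((η : ℤ) + 1) := by positivity
        have h4 : (0 : ℤ) ≤ (η : ℤ) := by positivity
        simp only [C]
        show ((k + 2 * η : ℕ) : ℤ) + Z i ≤ _
        linarith
      · have h2 := hRnn i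
        have h3 : ((c : ℕ) : ℤ) ≤ 5 := by
          have := c.2
          omega
        have h4 : (0 : ℤ) ≤ (η : ℤ) := by positivity
        have h5 : ((c : ℕ) : ℤ) * ((η : ℤ) + 1) ≤ 5 * ((η : ℤ) + 1) :=
          mul_le_mul_of_nonneg_right h3 (by linarith)
        have h6 := hπR i
        rw [← hD i]
        show C i + ((c : ℕ) : ℤ) * (η + 1) + (π i).R + Z i ≤ _
        linarith
  -- the colours by members of `𝒴`
  let cY' : Fin 3 → G → Δ → Set V → Prop := fun a => match a with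
    | 0 => colY T B v₀ 𝒴 (k + η)
    | 1 => colY T B v₀ 𝒴 (k + 2 * η)
    | 2 => colW T B β v₀ 𝒴 k (ρ 0) (ρ (k + 1))
  have hcY' : ∀ a, IsColour (G := G) (fun Y : Set V => Y ∈ 𝒴) (cY' a) := by
    intro a
    match a with
    | 0 => exact isColour_colY hT hadj hB v₀ h𝒴 hk (by omega)
    | 1 => exact isColour_colY hT hadj hB v₀ h𝒴 hk (by omega)
    | 2 => exact isColour_colW hT hadj hB hβ v₀ h𝒴 hk _ _
  -- the axis colours
  let cA' : Fin (k + 3) → G → Δ → Set (ℤ → V) → Prop := fun i =>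
    colA T B β v₀ (π i) (ρ i) (k + 2 * η) (D i) (C i + 2 * (π i).R)
  have hcA' : ∀ a, IsColour (G := G) (IsAxisClass G) (cA' a) := by
    intro i
    refine isColour_colA hT hadj hB v₀ (hπ i) ?_ ?_
    · have h1 := hZ i; have h2 := hRnn i
      have h4 : (0 : ℤ) ≤ (η : ℤ) := by positivity
      simp only [C]
      linarith
    · have h1 := hZ i; have h2 := hRnn i
      rw [← hD i]
      linarith
  obtain ⟨cV, hcV, hcV2⟩ := pad (N := 7 * (k + 3) + 3) (by simp; omega) cV' hcV'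
  obtain ⟨cY, hcY, hcY2⟩ := pad (N := 7 * (k + 3) + 3) (by simp) cY' hcY'
  obtain ⟨cA, hcA, hcA2⟩ := pad (N := 7 * (k + 3) + 3) (by simp; omega) cA' hcA'
  refine ⟨cV, cY, cA, hcV, hcY, hcA, fun g x hx => ?_⟩
  have useV : ∀ a l, (∀ s ∈ S, cV' a (g * s) x l) → ∃ i l, ∀ s ∈ S, cV i (g * s) x l := by
    intro a l h
    obtain ⟨n, hn⟩ := hcV2 a
    exact ⟨n, l, fun s hs => by rw [hn]; exact h s hs⟩
  have useY : ∀ a l, (∀ s ∈ S, cY' a (g * s) x l) → ∃ i l, ∀ s ∈ S, cY i (g * s) x l := by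
    intro a l h
    obtain ⟨n, hn⟩ := hcY2 a
    exact ⟨n, l, fun s hs => by rw [hn]; exact h s hs⟩
  have useA : ∀ a l, (∀ s ∈ S, cA' a (g * s) x l) → ∃ i l, ∀ s ∈ S, cA i (g * s) x l := by
    intro a l h
    obtain ⟨n, hn⟩ := hcA2 a
    exact ⟨n, l, fun s hs => by rw [hn]; exact h s hs⟩
  obtain ⟨u, b, hd⟩ := hgate g x hx
  rcases core_Y hT hadj hB hconv hk hY hd with ⟨Y, h⟩ | ⟨Y, h⟩ | ⟨hfin, hseg⟩
  · exact Or.inr (Or.inl (useY 0 Y h))
  · exact Or.inr (Or.inl (useY 1 Y h))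
  · rcases core_W hT hadj hB hconv hk hY hx hd hρ0 hρm (fun i s hs s' hs' j hj => by
      rw [hρs]
      exact hcomp (ρ i) (hρH i) v₀ η g x u b hd s hs s' hs' j hfin hj) with
      ⟨i, hi, v, h⟩ | ⟨Y, h⟩ | ⟨i, hi, h⟩
    · exact Or.inl (useV (Sum.inl ⟨i, hi⟩) v h)
    · exact Or.inr (Or.inl (useY 2 Y h))
    · rcases core_M hB hd (hπ i) (hπR i) (C := C i) (D := D i) (le_of_eq rfl) (le_of_eq (hD i)) h
        (fun s hs a => hseg s hs a fun m _ => (h s hs m).1) with ⟨c, hc, v, h'⟩ | ⟨l, h'⟩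
      · exact Or.inl (useV (Sum.inr (⟨i, hi⟩, ⟨c, hc⟩)) v h')
      · exact Or.inr (Or.inr (useA ⟨i, hi⟩ l h'))

end Pool.Agent.FA
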