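import Pool.Agent.Lib.MP_98022b_fa.RelKnopf
import Pool.Agent.Lib.MP_98022b_fa.Central

/-!
# Actions on trees such that the stabilizers of long segments are virtually cyclic

Task F41.
-/

set_option autoImplicit false

open Set
open scoped Pointwise

namespace Pool.Agent.FA.F41aux

variable {G V : Type} [Group G]

/-- `c` has infinite order. -/
def Inf (c : G) : Prop := ∀ i : ℤ, c ^ i = 1 → i = 0

lemma Inf.zpow {c : G} (hc : Inf c) {m : ℤ} (hm : m ≠ 0) : Inf (c ^ m) := by
  intro i hi
  rw [← zpow_mul] at hi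
  rcases mul_eq_zero.1 (hc _ hi) with h | h
  · exact absurd h hm
  · exact h

lemma Inf.conj {c : G} (hc : Inf c) (g : G) : Inf (g * c * g⁻¹) := by
  intro i hi
  apply hc
  rw [conj_zpow] at hi
  have h1 : g * c ^ i = g := by
    have := congrArg (fun x => x * g) hi
    simpa using this
  simpa using h1

/-- A subgroup of finite index in `E` which is generated by `d`: powers. -/
lemma exists_zpow_eq {E : Subgroup G} {d : G}
    (h : ((Subgroup.zpowers d).subgroupOf E).FiniteIndex) {x : G} (hx : x ∈ E) :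
    ∃ m i : ℤ, m ≠ 0 ∧ x ^ m = d ^ i := by
  have h1 : (Subgroup.zpowers d).relIndex E ≠ 0 := h.index_ne_zero
  obtain ⟨n, hn, -, hmem⟩ := Subgroup.exists_pow_mem_of_relIndex_ne_zero h1 hx
  obtain ⟨i, hi⟩ := Subgroup.mem_zpowers_iff.1 (Subgroup.mem_inf.1 hmem).1
  refine ⟨n, i, by omega, ?_⟩
  rw [hi, zpow_natCast]

/-- Two elements of infinite order of a virtually cyclic group are commensurable. -/
lemma commens {E : Subgroup G} {d : G}
    (h : ((Subgroup.zpowers d).subgroupOf E).FiniteIndex) {x y : G} (hx : x ∈ E) (hy : y ∈ E)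
    (hx' : Inf x) (hy' : Inf y) : ∃ m n : ℤ, m ≠ 0 ∧ n ≠ 0 ∧ x ^ m = y ^ n := by
  obtain ⟨m, i, hm, h1⟩ := exists_zpow_eq h hx
  obtain ⟨n, j, hn, h2⟩ := exists_zpow_eq h hy
  have hi : i ≠ 0 := by
    rintro rfl
    rw [zpow_zero] at h1
    exact hm (hx' m h1)
  have hj : j ≠ 0 := by
    rintro rfl
    rw [zpow_zero] at h2
    exact hn (hy' n h2)
  refine ⟨m * j, n * i, mul_ne_zero hm hj, mul_ne_zero hn hi, ?_⟩
  rw [zpow_mul, h1, ← zpow_mul, zpow_mul y, h2, ← zpow_mul, mul_comm]

/-- The generator of an infinite virtually cyclic group has infinite order. -/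
lemma inf_of_infinite {E : Subgroup G} {d : G}
    (h : ((Subgroup.zpowers d).subgroupOf E).FiniteIndex) (hE : Infinite E) : Inf d := by
  intro i hi
  by_contra hi0
  have h1 : IsOfFinOrder d := isOfFinOrder_iff_zpow_eq_one.2 ⟨i, hi0, hi⟩
  have h2 : Finite (Subgroup.zpowers d) := h1.finite_zpowers
  have h3 : Finite ((Subgroup.zpowers d).subgroupOf E) :=
    Finite.of_injective (fun x : (Subgroup.zpowers d).subgroupOf E =>
      (⟨(x : E), Subgroup.mem_subgroupOf.1 x.2⟩ : Subgroup.zpowers d)) (by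
        intro x y hxy
        apply Subtype.ext
        apply Subtype.ext
        exact Subtype.mk.inj hxy)
  have h4 : Finite E := (Subgroup.finite_iff_finite_and_finiteIndex
    (H := (Subgroup.zpowers d).subgroupOf E)).2 ⟨h3, h⟩
  exact not_finite E

/-- An infinite set in a group containing `⟨d⟩` with finite index: a power of `d` is a quotient of
two of its elements. -/
lemma exists_zpow_of_infinite {E : Subgroup G} {d : G}
    (h : ((Subgroup.zpowers d).subgroupOf E).FiniteIndex) {K : Subgroup G} (hK : K ≤ E)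
    (hinf : Infinite K) : ∃ n : ℤ, n ≠ 0 ∧ d ^ n ∈ K := by
  have hfin : Finite (E ⧸ (Subgroup.zpowers d).subgroupOf E) :=
    Subgroup.finiteIndex_iff_finite_quotient.1 h
  let f : K → E ⧸ (Subgroup.zpowers d).subgroupOf E := fun k =>
    QuotientGroup.mk (⟨k, hK k.2⟩ : E)
  obtain ⟨x, y, hxy, hf⟩ := Finite.exists_ne_map_eq_of_infinite f
  have h1 := QuotientGroup.eq.1 hf
  rw [Subgroup.mem_subgroupOf] at h1
  obtain ⟨n, hn⟩ := Subgroup.mem_zpowers_iff.1 h1
  have e : (((⟨(x : G), hK x.2⟩ : E)⁻¹ * ⟨(y : G), hK y.2⟩ : E) : G) = (x : G)⁻¹ * y := rfl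
  rw [e] at hn
  refine ⟨n, ?_, ?_⟩
  · rintro rfl
    rw [zpow_zero] at hn
    apply hxy
    apply Subtype.ext
    have := congrArg (fun z => (x : G) * z) hn
    simpa using this
  · rw [hn]
    exact K.mul_mem (K.inv_mem x.2) y.2

variable [MulAction G V]

/-- The vertices fixed by a power of `c`. -/
def cyl (V : Type) [MulAction G V] (c : G) : Set V := {w | ∃ n : ℤ, n ≠ 0 ∧ c ^ n • w = w}

lemma zpow_smul_of {g : G} {v : V} (h : g • v = v) (n : ℤ) : g ^ n • v = v :=
  (zpow_mem (show g ∈ MulAction.stabilizer G v from h) n : g ^ n ∈ MulAction.stabilizer G v)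

lemma zpow_mul_smul_of {g : G} {v : V} {n : ℤ} (h : g ^ n • v = v) (m : ℤ) :
    g ^ (n * m) • v = v := by
  rw [zpow_mul]
  exact zpow_smul_of h m

lemma cyl_mono {c d : G} {m n : ℤ} (hn : n ≠ 0) (h : c ^ m = d ^ n) : cyl V c ⊆ cyl V d := by
  rintro w ⟨k, hk, h1⟩
  refine ⟨n * k, mul_ne_zero hn hk, ?_⟩
  rw [zpow_mul, ← h, ← zpow_mul, mul_comm]
  exact zpow_mul_smul_of h1 m

lemma cyl_eq {c d : G} {m n : ℤ} (hm : m ≠ 0) (hn : n ≠ 0) (h : c ^ m = d ^ n) :
    cyl V c = cyl V d :=
  Subset.antisymm (cyl_mono hn h) (cyl_mono hm h.symm)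

lemma smul_cyl (g c : G) : g • cyl V c = cyl V (g * c * g⁻¹) := by
  have key : ∀ (g c : G), g • cyl V c ⊆ cyl V (g * c * g⁻¹) := by
    intro g c
    rintro _ ⟨w, ⟨k, hk, h1⟩, rfl⟩
    refine ⟨k, hk, ?_⟩
    change (g * c * g⁻¹) ^ k • (g • w) = g • w
    rw [conj_zpow, mul_smul, inv_smul_smul, mul_smul, h1]
  refine Subset.antisymm (key g c) ?_
  rw [Set.subset_smul_set_iff]
  refine (key g⁻¹ (g * c * g⁻¹)).trans ?_
  have e : g⁻¹ * (g * c * g⁻¹) * g⁻¹⁻¹ = c := by group
  rw [e]

lemma conv_cyl {T : SimpleGraph V} (hT : T.IsTree)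
    (hadj : ∀ (g : G) (u v : V), T.Adj u v → T.Adj (g • u) (g • v)) (c : G) :
    Pool.Agent.FA.Conv T (cyl V c) := by
  intro u hu v hv w hw
  obtain ⟨m, hm, h1⟩ := hu
  obtain ⟨n, hn, h3⟩ := hv
  have e1 : c ^ (m * n) • u = u := zpow_mul_smul_of h1 n
  have e3 : c ^ (m * n) • v = v := by rw [mul_comm]; exact zpow_mul_smul_of h3 m
  exact ⟨m * n, mul_ne_zero hm hn, Pool.Agent.FA.fix_between hT hadj e1 e3 hw⟩

lemma countable_closure {G : Type} [Group G] (S : Set G) (hS : S.Countable) :
    Countable (Subgroup.closure S) := by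
  have h1 : Countable S := hS.to_subtype
  have h2 : Countable (FreeGroup S) := inferInstanceAs (Countable (Quot _))
  rw [← Subtype.range_coe (s := S), ← FreeGroup.range_lift_eq_closure]
  exact (MonoidHom.rangeRestrict_surjective (FreeGroup.lift (Subtype.val : S → G))).countable

/-- In a virtually cyclic group each element of infinite order generates a subgroup of finite
index. -/
lemma relIndex_zpowers_ne_zero {E : Subgroup G} {d : G}
    (h : ((Subgroup.zpowers d).subgroupOf E).FiniteIndex) {z : G} (hz : z ∈ E) (hz' : Inf z) :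
    (Subgroup.zpowers z).relIndex E ≠ 0 := by
  obtain ⟨m, i, hm, h1⟩ := exists_zpow_eq h hz
  have hi : i ≠ 0 := by
    rintro rfl
    rw [zpow_zero] at h1
    exact hm (hz' m h1)
  have h2 : (Subgroup.zpowers (d ^ i)).relIndex (Subgroup.zpowers d) ≠ 0 := by
    intro h0
    have hinf : Infinite (Subgroup.zpowers d ⧸
        (Subgroup.zpowers (d ^ i)).subgroupOf (Subgroup.zpowers d)) :=
      Subgroup.index_eq_zero_iff_infinite.1 h0
    let f : Fin i.natAbs → (Subgroup.zpowers d ⧸
        (Subgroup.zpowers (d ^ i)).subgroupOf (Subgroup.zpowers d)) := fun t =>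
      QuotientGroup.mk (⟨d ^ (t : ℕ), Subgroup.pow_mem _ (Subgroup.mem_zpowers d) _⟩)
    have hf : Function.Surjective f := by
      intro q
      obtain ⟨⟨x, hx⟩, rfl⟩ := QuotientGroup.mk_surjective q
      obtain ⟨n, rfl⟩ := Subgroup.mem_zpowers_iff.1 hx
      have hi' : 0 < |i| := abs_pos.2 hi
      refine ⟨⟨(n % i).toNat, ?_⟩, ?_⟩
      · have h3 := Int.emod_nonneg n hi
        have h4 := Int.emod_lt_abs n hi
        have h5 : ((i.natAbs : ℕ) : ℤ) = |i| := Int.natCast_natAbs i
        rw [← h5] at h4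
        omega
      · apply QuotientGroup.eq.2
        rw [Subgroup.mem_subgroupOf]
        refine Subgroup.mem_zpowers_iff.2 ⟨n / i, ?_⟩
        change (d ^ i) ^ (n / i) = (d ^ ((n % i).toNat))⁻¹ * d ^ n
        rw [← zpow_natCast d, Int.toNat_of_nonneg (Int.emod_nonneg n hi), ← zpow_neg, ← zpow_add,
          ← zpow_mul]
        congr 1
        have := Int.mul_ediv_add_emod n i
        linarith
    have : Finite (Subgroup.zpowers d ⧸
        (Subgroup.zpowers (d ^ i)).subgroupOf (Subgroup.zpowers d)) := Finite.of_surjective f hf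
    exact not_finite (Subgroup.zpowers d ⧸
        (Subgroup.zpowers (d ^ i)).subgroupOf (Subgroup.zpowers d))
  have h3 : (Subgroup.zpowers (d ^ i)).relIndex E ≠ 0 :=
    Subgroup.relIndex_ne_zero_trans h2 h.index_ne_zero
  have h4 : Subgroup.zpowers (d ^ i) ≤ Subgroup.zpowers z := by
    rw [← h1, Subgroup.zpowers_le]
    exact Subgroup.zpow_mem _ (Subgroup.mem_zpowers z) m
  intro h0
  exact h3 (Subgroup.relIndex_eq_zero_of_le_left h4 h0)

end Pool.Agent.FA.F41aux

namespace Pool.Agent.FJ

open Pool.Agent.FA Pool.Agent.FA.F41aux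

variable {P : ∀ (G : Type) [Group G], Prop}

/-- The virtual centralizer of `c`. -/
private def vcent {G : Type} [Group G] (c : G) : Subgroup G where
  carrier := {p | ∃ m : ℤ, m ≠ 0 ∧ p * c ^ m = c ^ m * p}
  one_mem' := ⟨1, one_ne_zero, by group⟩
  mul_mem' := by
    rintro p q ⟨m, hm, hp⟩ ⟨n, hn, hq⟩
    have hp' : Commute p (c ^ m) := hp
    have hq' : Commute q (c ^ n) := hq
    refine ⟨m * n, mul_ne_zero hm hn, ?_⟩
    have h1 : Commute p (c ^ (m * n)) := by
      rw [zpow_mul]
      exact hp'.zpow_right n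
    have h2 : Commute q (c ^ (m * n)) := by
      rw [mul_comm m n, zpow_mul]
      exact hq'.zpow_right m
    exact h1.mul_left h2
  inv_mem' := by
    rintro p ⟨m, hm, hp⟩
    have hp' : Commute p (c ^ m) := hp
    exact ⟨m, hm, hp'.inv_left⟩

private lemma P_vcent (hP : IsFJClassA P) {G V : Type} [Group G]
    [MulAction G V] {T : SimpleGraph V} (hT : T.IsTree)
    (hadj : ∀ (g : G) (u v : V), T.Adj u v → T.Adj (g • u) (g • v))
    (hv : ∀ v : V, P (MulAction.stabilizer G v)) {k : ℕ}
    (hE : ∀ u v, k ≤ T.dist u v → ∃ c ∈ MulAction.stabilizer G u ⊓ MulAction.stabilizer G v,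
      ((Subgroup.zpowers c).subgroupOf
        (MulAction.stabilizer G u ⊓ MulAction.stabilizer G v)).FiniteIndex)
    {c : G} (hc : Inf c) {v₀ : V} (hv₀ : c • v₀ = v₀) : P (vcent c) := by
  classical
  refine hP.toIsFJClass.locally fun S => ?_
  -- a common power
  have hcom : ∀ x : vcent c, ∃ m : ℤ, m ≠ 0 ∧ (x : G) * c ^ m = c ^ m * x := fun x => x.2
  choose m hm hmc using hcom
  set a : ℤ := ∏ x ∈ S, m x with ha
  have ha0 : a ≠ 0 := Finset.prod_ne_zero_iff.2 fun x _ => hm x
  have hzmem : c ^ a ∈ vcent c := ⟨1, one_ne_zero, by group⟩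
  let z : vcent c := ⟨c ^ a, hzmem⟩
  let L : Subgroup (vcent c) := Subgroup.closure (insert z (S : Set (vcent c)))
  refine ⟨L, fun x hx => Subgroup.subset_closure (Set.mem_insert_of_mem _ hx), ?_⟩
  have hLc : Countable L :=
    countable_closure _ ((Finset.countable_toSet S).insert z)
  have hzL : z ∈ L := Subgroup.subset_closure (Set.mem_insert _ _)
  have hcent : ∀ g : L, g * ⟨z, hzL⟩ = ⟨z, hzL⟩ * g := by
    intro g
    apply Subtype.ext
    have h1 : L ≤ Subgroup.centralizer {z} := by
      refine (Subgroup.closure_le _).2 ?_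
      intro x hx
      rw [SetLike.mem_coe, Subgroup.mem_centralizer_iff]
      intro y hy
      rw [Set.mem_singleton_iff] at hy
      subst hy
      rcases Set.mem_insert_iff.1 hx with rfl | hx
      · rfl
      · apply Subtype.ext
        change c ^ a * (x : G) = (x : G) * c ^ a
        have h2 : Commute (x : G) (c ^ (m x)) := hmc x
        obtain ⟨k, hk⟩ : m x ∣ a := Finset.dvd_prod_of_mem m hx
        have h3 : Commute (x : G) (c ^ a) := by
          rw [hk, zpow_mul]
          exact h2.zpow_right k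
        exact h3.symm
    have h2 := (Subgroup.mem_centralizer_iff.1 (h1 g.2)) z rfl
    exact h2.symm
  have hinj : Function.Injective ((vcent c).subtype.comp L.subtype) :=
    (vcent c).subtype_injective.comp L.subtype_injective
  refine hP.central (G := L) hT (fun g u v h => hadj (g : G) u v h) (fun v => ?_) ⟨z, hzL⟩ hcent
    ?_ v₀ ?_ k ?_
  · -- vertex stabilizers
    refine hP.toIsFJClass.of_injective (H := MulAction.stabilizer G v)
      { toFun := fun x => ⟨((x : L) : vcent c), x.2⟩
        map_one' := rfl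
        map_mul' := fun _ _ => rfl } ?_ (hv v)
    intro x y hxy
    apply Subtype.ext
    apply Subtype.ext
    apply Subtype.ext
    exact Subtype.mk.inj hxy
  · intro n hn
    have h1 : (c ^ a) ^ n = 1 := by
      have := congrArg (fun w : L => ((w : vcent c) : G)) hn
      simpa using this
    exact hc.zpow ha0 n h1
  · change (c ^ a) • v₀ = v₀
    exact zpow_smul_of hv₀ a
  · intro u v huv hu hv'
    have hu' : (c ^ a) • u = u := hu
    have hv'' : (c ^ a) • v = v := hv'
    obtain ⟨d, -, hd⟩ := hE u v huv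
    have h1 : (Subgroup.zpowers (c ^ a)).relIndex
        (MulAction.stabilizer G u ⊓ MulAction.stabilizer G v) ≠ 0 :=
      relIndex_zpowers_ne_zero hd (Subgroup.mem_inf.2 ⟨hu', hv''⟩) (hc.zpow ha0)
    have h2 := Subgroup.relIndex_comap_ne_zero ((vcent c).subtype.comp L.subtype) h1
    have e1 : (Subgroup.zpowers (c ^ a)).comap ((vcent c).subtype.comp L.subtype) =
        Subgroup.zpowers (⟨z, hzL⟩ : L) := by
      ext x
      rw [Subgroup.mem_comap, Subgroup.mem_zpowers_iff, Subgroup.mem_zpowers_iff]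
      constructor
      · rintro ⟨k, hk⟩
        refine ⟨k, hinj ?_⟩
        rw [map_zpow, ← hk]
        rfl
      · rintro ⟨k, hk⟩
        refine ⟨k, ?_⟩
        rw [← hk, map_zpow]
        rfl
    have e2 : (MulAction.stabilizer G u ⊓ MulAction.stabilizer G v).comap
        ((vcent c).subtype.comp L.subtype) =
        MulAction.stabilizer L u ⊓ MulAction.stabilizer L v := rfl
    rw [e1, e2] at h2
    exact ⟨h2⟩

/-- THEOREM C. Groups acting on trees with vertex stabilizers in the class, such that the pointwise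
stabilizer of any two vertices at distance at least `k` is virtually cyclic, in the balanced
case. (For `k = 1`: virtually cyclic edge stabilizers.)

Proof: for `c` of infinite order let `F c = {w | ∃ n ≠ 0, c ^ n • w = w}`, a convex set;
`g • F c = F (g * c * g⁻¹)`. Let `𝒴` be the set of all `F c`, `c` of infinite order fixing `u, v` with
`k ≤ dist u v`. If `F c` and `F c'` contain two common vertices at distance `≥ k` then powers of `c`
and `c'` are in one virtually cyclic group, so `c ^ a = c' ^ b` with `a, b ≠ 0` and `F c = F c'`.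
Theorem B1 applies. The stabilizer of `F c`: `p` in it satisfies `p * c ^ a * p⁻¹ = c ^ b`, `a, b ≠ 0`,
so `|a| = |b|` by `hbal`; the subgroup `K = {p | ∃ a ≠ 0, p * c ^ a = c ^ a * p}` of the stabilizer
has index at most two; each finite subset of `K` is contained in a countable subgroup
`L = closure (S ∪ {c ^ a})` in which `z = c ^ a` is central: `IsFJClassA.central`. -/
theorem IsFJClassA.cyclicEdges (hP : IsFJClassA P) {G V : Type} [Group G]
    [MulAction G V] {T : SimpleGraph V} (hT : T.IsTree)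
    (hadj : ∀ (g : G) (u v : V), T.Adj u v → T.Adj (g • u) (g • v))
    (hv : ∀ v : V, P (MulAction.stabilizer G v)) (k : ℕ)
    (hE : ∀ u v, k ≤ T.dist u v → ∃ c ∈ MulAction.stabilizer G u ⊓ MulAction.stabilizer G v,
      ((Subgroup.zpowers c).subgroupOf
        (MulAction.stabilizer G u ⊓ MulAction.stabilizer G v)).FiniteIndex)
    (hbal : ∀ (g c : G) (u v : V) (m n : ℤ), k ≤ T.dist u v → c • u = u → c • v = v →
      (∀ i : ℤ, c ^ i = 1 → i = 0) → g * c ^ m * g⁻¹ = c ^ n → |m| = |n|) : P G := by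
  classical
  -- commensurability of elements of infinite order with powers fixing two distant vertices
  have htwo : ∀ (c d : G) (u v : V), k ≤ T.dist u v → Inf c → Inf d → u ∈ cyl V c → v ∈ cyl V c →
      u ∈ cyl V d → v ∈ cyl V d → ∃ p q : ℤ, p ≠ 0 ∧ q ≠ 0 ∧ c ^ p = d ^ q := by
    rintro c d u v huv hc hd ⟨m₁, hm₁, h1⟩ ⟨m₂, hm₂, h2⟩ ⟨n₁, hn₁, h3⟩ ⟨n₂, hn₂, h4⟩
    have h1' : c ^ (m₁ * m₂) • u = u := zpow_mul_smul_of h1 _
    have h2' : c ^ (m₁ * m₂) • v = v := by rw [mul_comm]; exact zpow_mul_smul_of h2 _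
    have h3' : d ^ (n₁ * n₂) • u = u := zpow_mul_smul_of h3 _
    have h4' : d ^ (n₁ * n₂) • v = v := by rw [mul_comm]; exact zpow_mul_smul_of h4 _
    obtain ⟨e, -, he⟩ := hE u v huv
    obtain ⟨p, q, hp, hq, hpq⟩ := commens he
      (x := c ^ (m₁ * m₂)) (y := d ^ (n₁ * n₂))
      (Subgroup.mem_inf.2 ⟨h1', h2'⟩) (Subgroup.mem_inf.2 ⟨h3', h4'⟩)
      (hc.zpow (mul_ne_zero hm₁ hm₂)) (hd.zpow (mul_ne_zero hn₁ hn₂))
    exact ⟨m₁ * m₂ * p, n₁ * n₂ * q, mul_ne_zero (mul_ne_zero hm₁ hm₂) hp,
      mul_ne_zero (mul_ne_zero hn₁ hn₂) hq, by rw [zpow_mul, zpow_mul d, hpq]⟩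
  have hmem : ∀ (c : G) (a : V), c • a = a → a ∈ cyl V c := by
    intro c a h1
    exact ⟨1, one_ne_zero, by rwa [zpow_one]⟩
  let 𝒴 : Set (Set V) := {Y | ∃ (c : G) (a b : V), k ≤ T.dist a b ∧ c • a = a ∧ c • b = b ∧
    Inf c ∧ Y = cyl V c}
  refine hP.relAcyl (𝒴 := 𝒴) (k := k) hT hadj ?_ ?_ ?_ ?_ hv ?_
  · rintro g _ ⟨c, a, b, hab, h1, h2, hc, rfl⟩
    refine ⟨g * c * g⁻¹, g • a, g • b, ?_, ?_, ?_, hc.conj g, smul_cyl g c⟩
    · rwa [dist_smul hadj]
    · rw [mul_smul, inv_smul_smul, mul_smul, h1]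
    · rw [mul_smul, inv_smul_smul, mul_smul, h2]
  · rintro _ ⟨c, a, b, hab, h1, h2, hc, rfl⟩
    exact conv_cyl hT hadj c
  · rintro _ ⟨c, a, b, hab, h1, h2, hc, rfl⟩ _ ⟨d, a', b', hab', h1', h2', hd, rfl⟩ hne u v
      hu hu' hv hv'
    by_contra hlt
    obtain ⟨p, q, hp, hq, hpq⟩ := htwo c d u v (not_lt.1 hlt) hc hd hu hv hu' hv'
    exact hne (cyl_eq hp hq hpq)
  · intro u v huv hinf
    obtain ⟨c, hc, hcE⟩ := hE u v huv
    set K : Subgroup G := MulAction.stabilizer G u ⊓ MulAction.stabilizer G v with hKdef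
    have hKinf : Infinite K := by
      rw [← not_finite_iff_infinite]
      intro hfin
      apply hinf
      unfold FinOn
      have e : {g : G | ∀ v' ∈ ({u, v} : Set V), g • v' = v'} = (K : Set G) := by
        ext g
        simp only [Set.mem_ofPred_eq, Set.mem_insert_iff, Set.mem_singleton_iff, forall_eq_or_imp,
          forall_eq, SetLike.mem_coe, hKdef, Subgroup.mem_inf, MulAction.mem_stabilizer_iff]
      rw [e]
      exact hfin
    have hcI : Inf c := inf_of_infinite hcE hKinf
    obtain ⟨hc1, hc2⟩ := Subgroup.mem_inf.1 hc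
    exact ⟨cyl V c, ⟨c, u, v, huv, hc1, hc2, hcI, rfl⟩, hmem c u hc1, hmem c v hc2⟩
  · rintro _ ⟨c, a, b, hab, h1, h2, hc, rfl⟩
    -- elements of the stabilizer
    have hst : ∀ p ∈ MulAction.stabilizer G (cyl V c), ∃ m n : ℤ, m ≠ 0 ∧
        p * c ^ m * p⁻¹ = c ^ n ∧ (n = m ∨ n = -m) := by
      intro p hp
      have hp' : cyl V (p * c * p⁻¹) = cyl V c := by
        rw [← smul_cyl]
        exact hp
      have ha : a ∈ cyl V c := hmem c a h1
      have hb : b ∈ cyl V c := hmem c b h2
      obtain ⟨m, n, hm, hn, hmn⟩ := htwo (p * c * p⁻¹) c a b hab (hc.conj p) hc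
        (hp' ▸ ha) (hp' ▸ hb) ha hb
      rw [conj_zpow] at hmn
      have h3 := hbal p c a b m n hab h1 h2 hc hmn
      exact ⟨m, n, hm, hmn, by rcases abs_eq_abs.1 h3 with h | h <;> omega⟩
    have hle : vcent c ≤ MulAction.stabilizer G (cyl V c) := by
      rintro p ⟨m, hm, hpm⟩
      rw [MulAction.mem_stabilizer_iff, smul_cyl]
      refine cyl_eq (m := m) (n := m) hm hm ?_
      rw [conj_zpow, hpm]
      group
    refine hP.toIsFJClass.of_finiteIndex ((vcent c).subgroupOf (MulAction.stabilizer G (cyl V c)))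
      ?_ ?_
    · have hdvd : ((vcent c).subgroupOf (MulAction.stabilizer G (cyl V c))).index ∣ 2 := by
        rw [Subgroup.index_dvd_two_iff]
        by_cases hall : ∀ b : MulAction.stabilizer G (cyl V c),
            b ∈ (vcent c).subgroupOf (MulAction.stabilizer G (cyl V c))
        · exact ⟨1, fun b => Or.inr (hall b)⟩
        · push Not at hall
          obtain ⟨⟨q, hq⟩, hq'⟩ := hall
          rw [Subgroup.mem_subgroupOf] at hq'
          refine ⟨⟨q, hq⟩, fun ⟨p, hp⟩ => ?_⟩
          rw [Subgroup.mem_subgroupOf, Subgroup.mem_subgroupOf]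
          obtain ⟨m, n, hm, hmn, hn⟩ := hst q hq
          obtain ⟨m', n', hm', hmn', hn'⟩ := hst p hp
          rcases hn' with rfl | rfl
          · right
            refine ⟨n', hm', ?_⟩
            change p * c ^ n' = c ^ n' * p
            calc p * c ^ n' = (p * c ^ n' * p⁻¹) * p := by group
              _ = c ^ n' * p := by rw [hmn']
          · left
            have hn : n = -m := by
              rcases hn with rfl | h
              · exfalso
                apply hq'
                refine ⟨n, hm, ?_⟩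
                change q * c ^ n = c ^ n * q
                calc q * c ^ n = (q * c ^ n * q⁻¹) * q := by group
                  _ = c ^ n * q := by rw [hmn]
              · exact h
            subst hn
            refine ⟨m * m', mul_ne_zero hm hm', ?_⟩
            change p * q * c ^ (m * m') = c ^ (m * m') * (p * q)
            have e1 : q * c ^ (m * m') * q⁻¹ = c ^ (-(m * m')) := by
              rw [zpow_mul, ← conj_zpow, hmn, ← zpow_mul, neg_mul]
            have e2 : p * c ^ (-(m * m')) * p⁻¹ = c ^ (m * m') := by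
              have : -(m * m') = m' * (-m) := by ring
              rw [this, zpow_mul, ← conj_zpow, hmn', ← zpow_mul]
              congr 1
              ring
            calc p * q * c ^ (m * m') = p * (q * c ^ (m * m') * q⁻¹) * q := by group
              _ = p * c ^ (-(m * m')) * q := by rw [e1]
              _ = (p * c ^ (-(m * m')) * p⁻¹) * (p * q) := by group
              _ = c ^ (m * m') * (p * q) := by rw [e2]
      refine ⟨fun h0 => ?_⟩
      rw [h0] at hdvd
      exact absurd hdvd (by norm_num)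
    · exact hP.toIsFJClass.of_equiv (Subgroup.subgroupOfEquivOfLe hle)
        (P_vcent hP hT hadj hv hE hc h1)

end Pool.Agent.FJ
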