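import Mathlib

/-!
# Finitely amenable actions

The definition of a finitely `𝓕`-amenable action on a compact, metrizable, contractible, locally
contractible, finite-dimensional space (Bartels, Bartels-Lück, Bartels-Lück-Reich).
-/

set_option autoImplicit false

open Set
open scoped Pointwise

namespace Pool.Agent.FA

/-- The covering dimension of `X` is at most `n`: every open cover has an open refinement such that
each point lies in at most `n + 1` of its members. -/
def CovDimLE (X : Type) [TopologicalSpace X] (n : ℕ) : Prop :=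
  ∀ (ι : Type) (O : ι → Set X), (∀ i, IsOpen (O i)) → (⋃ i, O i) = univ →
    ∃ (κ : Type) (W : κ → Set X), (∀ j, IsOpen (W j)) ∧ (⋃ j, W j) = univ ∧
      (∀ j, ∃ i, W j ⊆ O i) ∧ ∀ x, {j | x ∈ W j}.encard ≤ n + 1

/-- `𝒰` is a `G`-invariant open cover of `G × Δ` (`G` discrete, `h • (g, x) = (h * g, h • x)`) such
that each member is equal to or disjoint from each of its translates, the stabilizers of the
members are in the family `𝓕`, each point is in at most `N + 1` members, and for each `(g, x)`
some member contains all points `(g * s, x)`, `s ∈ S`. -/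
structure IsWideCover {G Δ : Type} [Group G] [TopologicalSpace Δ] [MulAction G Δ]
    (S : Set G) (N : ℕ) (𝓕 : Subgroup G → Prop) (𝒰 : Set (Set (G × Δ))) : Prop where
  isOpen : ∀ U ∈ 𝒰, ∀ g : G, IsOpen {x | (g, x) ∈ U}
  smul_mem : ∀ U ∈ 𝒰, ∀ h : G, h • U ∈ 𝒰
  eq_or_disjoint : ∀ U ∈ 𝒰, ∀ h : G, h • U = U ∨ Disjoint (h • U) U
  stabilizer : ∀ U ∈ 𝒰, 𝓕 (MulAction.stabilizer G U)
  order : ∀ p, {U ∈ 𝒰 | p ∈ U}.encard ≤ N + 1
  wide : ∀ (g : G) (x : Δ), ∃ U ∈ 𝒰, ∀ s ∈ S, (g * s, x) ∈ U

/-- `G` has a finitely `𝓕`-amenable action on a compact, metrizable, contractible, (strongly)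
locally contractible space `Δ` of finite covering dimension: there is `N` such that for each finite
set `S` in `G` there is a cover of `G × Δ` as in `IsWideCover`. -/
def FinitelyAmenable (G : Type) [Group G] (𝓕 : Subgroup G → Prop) : Prop :=
  ∃ (Δ : Type) (_ : TopologicalSpace Δ) (_ : MulAction G Δ),
    CompactSpace Δ ∧ TopologicalSpace.MetrizableSpace Δ ∧ ContractibleSpace Δ ∧
    StronglyLocallyContractibleSpace Δ ∧ (∃ n, CovDimLE Δ n) ∧ ContinuousConstSMul G Δ ∧
    ∃ N : ℕ, ∀ S : Finset G, ∃ 𝒰 : Set (Set (G × Δ)), IsWideCover (S : Set G) N 𝓕 𝒰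

end Pool.Agent.FA
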