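import Pool.Agent.Lib.MP_98022b_fa.Events

/-!
# The domain of the marker and axis colours

Task F18.
-/

set_option autoImplicit false

open Set Filter
open scoped Topology Pointwise

namespace Pool.Agent.FA

variable {G V Δ : Type} [Group G] [MulAction G V] [TopologicalSpace Δ] [MulAction G Δ]
  {T : SimpleGraph V} {B : V → V → Set Δ}

theorem dom_smul (hadj : ∀ (g : G) (u v : V), T.Adj u v → T.Adj (g • u) (g • v))
    (hB : IsFlow G T B) {β : V → ℕ} {v₀ : V} {ρ L D : ℕ} {g : G} {x : Δ} (h : G)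
    (hx : Dom T B β v₀ ρ L D g x) : Dom T B β v₀ ρ L D (h * g) (h • x) := by
  refine ⟨fun m hm => move_smul hadj hB h (hx.1 m hm), fun a ha => ?_⟩
  have : pth T B (h • x) ((h * g) • v₀) '' Icc a (a + L)
      = (fun w => h • w) '' (pth T B x (g • v₀) '' Icc a (a + L)) := by
    rw [Set.image_image, mul_smul]
    exact Set.image_congr (fun m _ => pth_smul hadj hB h x (g • v₀) m)
  rw [this, finOn_smul]
  exact hx.2 a ha

/-- The domain is open, and the path of length `D` is constant near a point of it. -/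
theorem eventually_dom (hB : IsFlow G T B) {β : V → ℕ} {v₀ : V} {ρ L D : ℕ} {g : G} {x : Δ}
    (hx : Dom T B β v₀ ρ L D g x) :
    ∀ᶠ y in 𝓝 x, Dom T B β v₀ ρ L D g y ∧
      ∀ i ≤ D, pth T B y (g • v₀) i = pth T B x (g • v₀) i := by
  filter_upwards [eventually_pth_eq hB (fun m hm => (hx.1 m hm).1)] with y hy
  refine ⟨⟨fun m hm => move_congr hm hy (hx.1 m hm), fun a ha => ?_⟩, hy⟩
  rw [Set.image_congr (fun m hm => hy m (hm.2.trans ha))]
  exact hx.2 a ha

end Pool.Agent.FA
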