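import Pool.Agent.Lib.MP_98022b_fa.Tree

/-!
# Flows and paths

Task F02.
-/

set_option autoImplicit false

open Set Filter
open scoped Topology

namespace Pool.Agent.FA

variable {G V Δ : Type} [Group G] [MulAction G V] [TopologicalSpace Δ] [MulAction G Δ]
  {T : SimpleGraph V} {B : V → V → Set Δ}

theorem nxt_eq (hB : IsFlow G T B) {x : Δ} {v w : V} (hvw : T.Adj v w) (hx : x ∈ B v w) :
    nxt T B x v = w := by
  have h : ∃ w, T.Adj v w ∧ x ∈ B v w := ⟨w, hvw, hx⟩
  unfold nxt
  rw [dif_pos h]
  have h1 := h.choose_spec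
  by_contra hne
  exact hB.anti v w x hvw hx (hB.trans h.choose v w x h1.1 hvw hne h1.2)

omit [TopologicalSpace Δ] in
theorem mem_of_adj_nxt {x : Δ} {v : V} (h : T.Adj v (nxt T B x v)) : x ∈ B v (nxt T B x v) := by
  by_cases h1 : ∃ w, T.Adj v w ∧ x ∈ B v w
  · have h2 := h1.choose_spec.2
    unfold nxt
    rw [dif_pos h1]
    exact h2
  · exfalso
    unfold nxt at h
    rw [dif_neg h1] at h
    exact T.loopless.irrefl v h

theorem nxt_smul (hadj : ∀ (g : G) (u v : V), T.Adj u v → T.Adj (g • u) (g • v))
    (hB : IsFlow G T B) (g : G) (x : Δ) (v : V) :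
    nxt T B (g • x) (g • v) = g • nxt T B x v := by
  by_cases h1 : ∃ w, T.Adj v w ∧ x ∈ B v w
  · obtain ⟨w, hw, hx⟩ := h1
    rw [nxt_eq hB hw hx]
    exact nxt_eq hB (hadj g v w hw) (hB.smul g v w x hx)
  · have h2 : ¬ ∃ w, T.Adj (g • v) w ∧ g • x ∈ B (g • v) w := by
      rintro ⟨w, hw, hx⟩
      refine h1 ⟨g⁻¹ • w, ?_, ?_⟩
      · have := hadj g⁻¹ _ _ hw
        rwa [inv_smul_smul] at this
      · have := hB.smul g⁻¹ _ _ _ hx
        rwa [inv_smul_smul, inv_smul_smul] at this
    unfold nxt
    rw [dif_neg h1, dif_neg h2]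

omit [TopologicalSpace Δ] in
theorem pth_zero (x : Δ) (v : V) : pth T B x v 0 = v := rfl

omit [TopologicalSpace Δ] in
theorem pth_succ (x : Δ) (v : V) (n : ℕ) : pth T B x v (n + 1) = nxt T B x (pth T B x v n) :=
  Function.iterate_succ_apply' _ _ _

omit [TopologicalSpace Δ] in
theorem pth_add (x : Δ) (v : V) (a b : ℕ) :
    pth T B x v (a + b) = pth T B x (pth T B x v a) b := by
  unfold pth
  rw [add_comm, Function.iterate_add_apply]

theorem pth_smul (hadj : ∀ (g : G) (u v : V), T.Adj u v → T.Adj (g • u) (g • v))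
    (hB : IsFlow G T B) (g : G) (x : Δ) (v : V) (n : ℕ) :
    pth T B (g • x) (g • v) n = g • pth T B x v n := by
  induction n with
  | zero => rfl
  | succ n ih => rw [pth_succ, pth_succ, ih, nxt_smul hadj hB]

omit [TopologicalSpace Δ] in
/-- A moving step is beyond the edge. -/
theorem mem_of_adj_pth {x : Δ} {v : V} {m : ℕ}
    (h : T.Adj (pth T B x v m) (pth T B x v (m + 1))) :
    x ∈ B (pth T B x v m) (pth T B x v (m + 1)) := by
  rw [pth_succ] at h ⊢
  exact mem_of_adj_nxt h

theorem pth_nonback (hB : IsFlow G T B) {x : Δ} {v : V} {m : ℕ}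
    (h : T.Adj (pth T B x v m) (pth T B x v (m + 1))) :
    pth T B x v (m + 2) ≠ pth T B x v m := by
  intro h1
  have h2 := mem_of_adj_pth h
  have h3 : T.Adj (pth T B x v (m + 1)) (pth T B x v (m + 1 + 1)) := by
    rw [show m + 1 + 1 = m + 2 from rfl, h1]
    exact h.symm
  have h4 := mem_of_adj_pth h3
  rw [show m + 1 + 1 = m + 2 from rfl, h1] at h4
  exact hB.anti _ _ x h h2 h4

theorem dist_pth (hT : T.IsTree) (hB : IsFlow G T B) {x : Δ} {v : V} {n : ℕ}
    (h : ∀ m < n, T.Adj (pth T B x v m) (pth T B x v (m + 1))) {a b : ℕ} (hab : a ≤ b)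
    (hb : b ≤ n) : T.dist (pth T B x v a) (pth T B x v b) = b - a :=
  dist_of_nonback hT (pth T B x v) n h (fun m hm => pth_nonback hB (h m (by omega))) hab hb

/-- The initial part of a moving path is locally constant in `x`. -/
theorem eventually_pth_eq (hB : IsFlow G T B) {x : Δ} {v : V} {n : ℕ}
    (h : ∀ m < n, T.Adj (pth T B x v m) (pth T B x v (m + 1))) :
    ∀ᶠ y in 𝓝 x, ∀ m ≤ n, pth T B y v m = pth T B x v m := by
  induction n with
  | zero =>
    refine Filter.Eventually.of_forall fun y m hm => ?_
    obtain rfl : m = 0 := by omega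
    rfl
  | succ n ih =>
    have h1 := ih fun m hm => h m (by omega)
    have h2 := h n (by omega)
    have h3 : ∀ᶠ y in 𝓝 x, y ∈ B (pth T B x v n) (pth T B x v (n + 1)) :=
      (hB.isOpen _ _).mem_nhds (mem_of_adj_pth h2)
    filter_upwards [h1, h3] with y hy1 hy3 m hm
    rcases Nat.lt_or_ge m (n + 1) with hlt | hge
    · exact hy1 m (by omega)
    · obtain rfl : m = n + 1 := by omega
      rw [pth_succ, hy1 n le_rfl]
      exact nxt_eq hB h2 hy3

/-- For adjacent vertices one of the two paths passes through the other vertex. -/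
theorem nxt_of_reg (hB : IsFlow G T B) {x : Δ} (hx : Reg T B x) {u v : V} (h : T.Adj u v) :
    nxt T B x u = v ∨ nxt T B x v = u := by
  rcases hx u v h with h1 | h1
  · exact Or.inl (nxt_eq hB h h1)
  · exact Or.inr (nxt_eq hB h.symm h1)

/-- The paths from two vertices meet on the geodesic between them. -/
theorem exists_meet (hT : T.IsTree) (hB : IsFlow G T B) {x : Δ} (hx : Reg T B x) (u v : V) :
    ∃ a b, a + b = T.dist u v ∧ pth T B x u a = pth T B x v b ∧
      (∀ m < a, T.Adj (pth T B x u m) (pth T B x u (m + 1))) ∧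
      (∀ m < b, T.Adj (pth T B x v m) (pth T B x v (m + 1))) ∧
      (∀ m ≤ a, T.dist u (pth T B x u m) + T.dist (pth T B x u m) v = T.dist u v) ∧
      (∀ m ≤ b, T.dist u (pth T B x v m) + T.dist (pth T B x v m) v = T.dist u v) := by
  have hconn : T.Connected := hT.1
  obtain ⟨d, hd⟩ : ∃ d, T.dist u v = d := ⟨_, rfl⟩
  induction d generalizing u v with
  | zero =>
    have huv : u = v := (hconn.dist_eq_zero_iff).1 hd
    subst huv
    refine ⟨0, 0, by simp, rfl, fun m hm => absurd hm (by omega),
      fun m hm => absurd hm (by omega), ?_, ?_⟩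
    · intro m hm
      obtain rfl : m = 0 := by omega
      simp [pth_zero]
    · intro m hm
      obtain rfl : m = 0 := by omega
      simp [pth_zero]
  | succ d ih =>
    obtain ⟨p, hp0, hp1, hpa, hpd⟩ := exists_geodesic hT u v
    obtain ⟨w, hw⟩ : ∃ w, w = p 1 := ⟨_, rfl⟩
    have huw : T.Adj u w := by
      have := hpa 0 (by omega)
      rw [hp0] at this
      rw [hw]
      exact this
    have hwv : T.dist w v = d := by
      have := hpd 1 (d + 1) (by omega) (by omega)
      rw [← hd, hp1, ← hw] at this
      omega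
    have hwd : T.dist w u = 1 := SimpleGraph.dist_eq_one_iff_adj.2 huw.symm
    have huwd : T.dist u w = 1 := SimpleGraph.dist_eq_one_iff_adj.2 huw
    -- points between `w` and `v` are between `u` and `v`
    have hbet : ∀ z, T.dist w z + T.dist z v = T.dist w v →
        T.dist u z + T.dist z v = T.dist u v := by
      intro z hz
      have h1 : T.dist u z ≤ T.dist u w + T.dist w z := hconn.dist_triangle
      have h2 : T.dist u v ≤ T.dist u z + T.dist z v := hconn.dist_triangle
      omega
    obtain ⟨a, b, hab, heq, ha, hb, hba, hbb⟩ := ih w v hwv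
    rcases nxt_of_reg hB hx huw with hn | hn
    · have hs : ∀ m, pth T B x u (m + 1) = pth T B x w m := by
        intro m
        rw [add_comm, pth_add, show pth T B x u 1 = w from hn]
      refine ⟨a + 1, b, by omega, ?_, ?_, hb, ?_, ?_⟩
      · rw [hs, heq]
      · intro m hm
        rcases m with _ | m
        · rw [hs, pth_zero, pth_zero]
          exact huw
        · rw [hs, hs]
          exact ha m (by omega)
      · intro m hm
        rcases m with _ | m
        · simp [pth_zero]
        · rw [hs]
          exact hbet _ (hba m (by omega))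
      · intro m hm
        exact hbet _ (hbb m hm)
    · have ha0 : a = 0 := by
        by_contra hne
        have h1 := hba 1 (by omega)
        rw [show pth T B x w 1 = u from hn, hwd, hd, hwv] at h1
        omega
      subst ha0
      obtain rfl : b = d := by omega
      have hlast : pth T B x v (b + 1) = u := by
        rw [pth_succ, ← heq, pth_zero]
        exact hn
      refine ⟨0, b + 1, by omega, ?_, fun m hm => absurd hm (by omega), ?_, ?_, ?_⟩
      · rw [hlast, pth_zero]
      · intro m hm
        rcases Nat.lt_or_ge m b with hlt | hge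
        · exact hb m hlt
        · obtain rfl : m = b := by omega
          rw [hlast, ← heq, pth_zero]
          exact huw.symm
      · intro m hm
        obtain rfl : m = 0 := by omega
        simp [pth_zero]
      · intro m hm
        rcases Nat.lt_or_ge m (b + 1) with hlt | hge
        · exact hbet _ (hbb m (by omega))
        · obtain rfl : m = b + 1 := by omega
          rw [hlast]
          simp

end Pool.Agent.FA
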