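import Pool.Agent.Lib.MP_98022b_fa.Flow

/-!
# The gate

Task F03. The paths from the points `(g * s) • v₀`, `s ∈ S`, to a regular point `x` meet in a
vertex `u` after at most `η` steps.
-/

set_option autoImplicit false

open Set

namespace Pool.Agent.FA

variable {G V Δ : Type} [Group G] [MulAction G V] [TopologicalSpace Δ] [MulAction G Δ]
  {T : SimpleGraph V} {B : V → V → Set Δ}

/-- The paths from the points `(g * s) • v₀` reach `u` after `b s ≤ η` moving steps, and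
`g * s` is `ρH`-close to the initial part. -/
structure GateData (T : SimpleGraph V) (B : V → V → Set Δ) (β : V → ℕ) (v₀ : V) (S : Finset G)
    (η ρH : ℕ) (g : G) (x : Δ) (u : V) (b : G → ℕ) : Prop where
  le : ∀ s ∈ S, b s ≤ η
  eq : ∀ s ∈ S, pth T B x ((g * s) • v₀) (b s) = u
  adj : ∀ s ∈ S, ∀ j < b s,
    T.Adj (pth T B x ((g * s) • v₀) j) (pth T B x ((g * s) • v₀) (j + 1))
  close : ∀ s ∈ S, ∀ j ≤ b s, Close β ρH (g * s) (pth T B x ((g * s) • v₀) j)

/-- The gate. (`X₀` is the finite set of the vertices on the geodesics from `v₀` to `s • v₀`.) -/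
theorem exists_gate (hT : T.IsTree)
    (hadj : ∀ (g : G) (u v : V), T.Adj u v → T.Adj (g • u) (g • v)) (hB : IsFlow G T B)
    (β : V → ℕ) (v₀ : V) (S : Finset G) :
    ∃ η ρH : ℕ, ∀ (g : G) (x : Δ), Reg T B x → ∃ (u : V) (b : G → ℕ),
      GateData T B β v₀ S η ρH g x u b := by
  classical
  by_cases hS : S.Nonempty
  swap
  · refine ⟨0, 0, fun g x _ => ⟨g • v₀, fun _ => 0, ?_⟩⟩
    rw [Finset.not_nonempty_iff_eq_empty] at hS
    subst hS
    exact ⟨by simp, by simp, by simp, by simp⟩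
  have hbet : ∀ w : V, {y | T.dist v₀ y + T.dist y w = T.dist v₀ w}.Finite := by
    intro w
    refine Set.Finite.of_injOn (f := fun y => T.dist v₀ y) (t := Set.Iic (T.dist v₀ w)) ?_ ?_
      (Set.finite_Iic _)
    · intro y hy
      have hy' : T.dist v₀ y + T.dist y w = T.dist v₀ w := hy
      exact Set.mem_Iic.2 (by change T.dist v₀ y ≤ _; omega)
    · intro y hy z hz hyz
      exact between_unique hT hy hz hyz
  set X₀ : Set V := ⋃ s ∈ (S : Set G),
    {y | T.dist v₀ y + T.dist y (s • v₀) = T.dist v₀ (s • v₀)} with hX₀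
  have hX : X₀.Finite := S.finite_toSet.biUnion fun s _ => hbet _
  obtain ⟨ρH, hρH⟩ : ∃ ρH, ∀ s ∈ S, ∀ y ∈ X₀, β (s⁻¹ • y) ≤ ρH := by
    have h1 : ((fun p : G × V => β (p.1⁻¹ • p.2)) '' ((S : Set G) ×ˢ X₀)).Finite :=
      (S.finite_toSet.prod hX).image _
    obtain ⟨M, hM⟩ := h1.bddAbove
    exact ⟨M, fun s hs y hy => hM ⟨(s, y), ⟨hs, hy⟩, rfl⟩⟩
  obtain ⟨D, hD⟩ : ∃ D, ∀ s ∈ S, T.dist v₀ (s • v₀) ≤ D := by
    obtain ⟨M, hM⟩ := (S.finite_toSet.image fun s : G => T.dist v₀ (s • v₀)).bddAbove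
    exact ⟨M, fun s hs => hM ⟨s, hs, rfl⟩⟩
  refine ⟨2 * D, ρH, fun g x hx => ?_⟩
  choose a b hab hmeet hadja hadjb hbwa hbwb using
    fun s : G => exists_meet hT hB hx (g • v₀) ((g * s) • v₀)
  obtain ⟨s₁, hs₁, hmax⟩ := S.exists_max_image a hS
  have hdist : ∀ s : G, T.dist (g • v₀) ((g * s) • v₀) = T.dist v₀ (s • v₀) := by
    intro s
    rw [mul_smul, dist_smul hadj]
  have hbt : ∀ s ∈ S, ∀ y : V, T.dist (g • v₀) y + T.dist y ((g * s) • v₀) =
      T.dist (g • v₀) ((g * s) • v₀) → g⁻¹ • y ∈ X₀ := by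
    intro s hs y hy
    refine Set.mem_biUnion (x := s) hs ?_
    change T.dist v₀ (g⁻¹ • y) + T.dist (g⁻¹ • y) (s • v₀) = T.dist v₀ (s • v₀)
    rw [← dist_smul hadj g v₀ (g⁻¹ • y), ← dist_smul hadj g (g⁻¹ • y) (s • v₀),
      ← hdist s, smul_inv_smul, ← mul_smul]
    exact hy
  have hcl : ∀ s ∈ S, ∀ s' ∈ S, ∀ y : V, T.dist (g • v₀) y + T.dist y ((g * s') • v₀) =
      T.dist (g • v₀) ((g * s') • v₀) → Close β ρH (g * s) y := by
    intro s hs s' hs' y hy
    have h1 := hρH s hs _ (hbt s' hs' y hy)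
    unfold Close
    rw [mul_inv_rev, mul_smul]
    exact h1
  have hpt : ∀ s : G, ∀ i, pth T B x ((g * s) • v₀) (b s + i) =
      pth T B x (g • v₀) (a s + i) := by
    intro s i
    rw [pth_add, pth_add, hmeet]
  refine ⟨pth T B x (g • v₀) (a s₁), fun s => b s + (a s₁ - a s), ⟨?_, ?_, ?_, ?_⟩⟩
  · intro s hs
    have h1 := hab s
    have h2 := hab s₁
    rw [hdist] at h1 h2
    have h3 := hD s hs
    have h4 := hD s₁ hs₁
    change b s + (a s₁ - a s) ≤ 2 * D
    omega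
  · intro s hs
    have h1 := hmax s hs
    change pth T B x ((g * s) • v₀) (b s + (a s₁ - a s)) = _
    rw [hpt, Nat.add_sub_cancel' h1]
  · intro s hs j hj
    have hj' : j < b s + (a s₁ - a s) := hj
    rcases lt_or_ge j (b s) with h | h
    · exact hadjb s j h
    · obtain ⟨i, rfl⟩ := Nat.exists_eq_add_of_le h
      rw [hpt, add_assoc, hpt, ← add_assoc]
      exact hadja s₁ _ (by omega)
  · intro s hs j hj
    have hj' : j ≤ b s + (a s₁ - a s) := hj
    rcases le_or_gt j (b s) with h | h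
    · exact hcl s hs s hs _ (hbwb s j h)
    · obtain ⟨i, rfl⟩ := Nat.exists_eq_add_of_le h.le
      rw [hpt]
      exact hcl s hs s₁ hs₁ _ (hbwa s₁ _ (by have := hmax s hs; omega))

end Pool.Agent.FA
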