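import Pool.Agent.Lib.MP_98022b_fa.Basic

/-!
# Gauges

Task F04.
-/

set_option autoImplicit false

open Set

namespace Pool.Agent.FA

variable {G V : Type} [Group G] [MulAction G V]

/-- Gauges exist: take an increasing exhaustion of `V` by finite sets `A n` with
`a i • A n ⊆ A (n + 1)` for `i ≤ n`, where `a` enumerates `G`, and `β v = min {n | v ∈ A n}`. -/
theorem exists_gauge [Countable G] [Countable V] :
    ∃ (β : V → ℕ) (len : G → ℕ), IsGauge G β len := by
  classical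
  obtain ⟨a, ha⟩ := exists_surjective_nat G
  obtain ⟨f, hf⟩ := exists_injective_nat V
  let A : ℕ → Set V := fun n => Nat.rec (∅ : Set V)
    (fun n s => (s ∪ {v | f v = n}) ∪ ⋃ i ∈ Set.Iic n, (fun v => a i • v) '' s) n
  have hA : ∀ n, A (n + 1) = (A n ∪ {v | f v = n}) ∪ ⋃ i ∈ Set.Iic n, (fun v => a i • v) '' A n :=
    fun n => rfl
  have hfin : ∀ n, (A n).Finite := by
    intro n
    induction n with
    | zero => exact Set.finite_empty
    | succ n ih =>
      rw [hA]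
      refine (ih.union ?_).union ?_
      · refine Set.Subsingleton.finite ?_
        intro v hv w hw
        exact hf (hv.trans hw.symm)
      · exact (Set.finite_Iic n).biUnion fun i _ => ih.image _
  have hmono : Monotone A := by
    refine monotone_nat_of_le_succ fun n => ?_
    rw [hA]
    exact (Set.subset_union_left).trans Set.subset_union_left
  have hmem : ∀ v, ∃ n, v ∈ A n := fun v => ⟨f v + 1, by
    rw [hA]
    exact Or.inl (Or.inr rfl)⟩
  have hspec : ∀ (v : V) (n : ℕ), sInf {n | v ∈ A n} ≤ n ↔ v ∈ A n := by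
    intro v n
    exact ⟨fun h => hmono h (Nat.sInf_mem (hmem v)), fun h => Nat.sInf_le h⟩
  choose i hi using ha
  refine ⟨fun v => sInf {n | v ∈ A n}, fun g => i g + 1, ⟨fun n => ?_, fun g v => ?_⟩⟩
  · exact (hfin n).subset fun v hv => (hspec v n).1 hv
  · refine (hspec _ _).2 ?_
    have e : sInf {n | v ∈ A n} + (i g + 1) = (sInf {n | v ∈ A n} + i g) + 1 := by ring
    rw [e, hA]
    refine Or.inr ?_
    refine Set.mem_biUnion (x := i g) (Set.mem_Iic.2 (by omega)) ?_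
    refine ⟨v, (hspec v _).1 (by omega), ?_⟩
    change a (i g) • v = g • v
    rw [hi]

theorem close_smul (β : V → ℕ) (ρ : ℕ) (g h : G) (v : V) :
    Close β ρ (g * h) (g • v) ↔ Close β ρ h v := by
  unfold Close
  rw [mul_inv_rev, mul_smul, inv_smul_smul]

theorem Close.mono {β : V → ℕ} {ρ ρ' : ℕ} {h : G} {v : V} (hc : Close β ρ h v) (hρ : ρ ≤ ρ') :
    Close β ρ' h v := le_trans hc hρ

theorem Close.trans {β : V → ℕ} {len : G → ℕ} (hβ : IsGauge G β len) {ρ : ℕ} {h : G} {v : V}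
    (hc : Close β ρ h v) (g : G) : Close β (ρ + len (g⁻¹ * h)) g v := by
  have h1 := hβ.le (g⁻¹ * h) (h⁻¹ • v)
  rw [mul_smul, smul_inv_smul] at h1
  unfold Close at *
  omega

theorem FinOn.mono {P P' : Set V} (h : FinOn G P) (hP : P ⊆ P') : FinOn G P' :=
  Set.Finite.subset h fun _ hg v hv => hg v (hP hv)

private theorem finOn_smul_aux (g : G) (P : Set V) (h : FinOn G P) :
    FinOn G ((fun v => g • v) '' P) := by
  unfold FinOn at *
  refine Set.Finite.of_injOn (f := fun h => g⁻¹ * h * g) (t := {g : G | ∀ v ∈ P, g • v = v})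
    ?_ ?_ h
  · intro k hk v hv
    have := hk (g • v) ⟨v, hv, rfl⟩
    change (g⁻¹ * k * g) • v = v
    rw [mul_smul, mul_smul, this, inv_smul_smul]
  · intro k _ l _ hkl
    have hkl' : g⁻¹ * k * g = g⁻¹ * l * g := hkl
    simpa using hkl'

theorem finOn_smul (g : G) (P : Set V) : FinOn G ((fun v => g • v) '' P) ↔ FinOn G P := by
  refine ⟨fun h => ?_, finOn_smul_aux g P⟩
  have h1 := finOn_smul_aux g⁻¹ _ h
  rw [Set.image_image] at h1
  simpa using h1

/-- Only finitely many elements are close to a finite set with finite pointwise stabilizer. -/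
theorem finite_close {β : V → ℕ} {len : G → ℕ} (hβ : IsGauge G β len) {P : Set V}
    (hP : P.Finite) (hF : FinOn G P) (ρ : ℕ) : {h : G | ∀ v ∈ P, Close β ρ h v}.Finite := by
  classical
  have : Finite P := hP
  refine Set.Finite.of_finite_fibers (fun (h : G) (v : P) => h⁻¹ • (v : V)) ?_ ?_
  · refine Set.Finite.subset (Set.Finite.pi' (t := fun _ : P => {v | β v ≤ ρ})
      fun _ => hβ.finite ρ) ?_
    rintro _ ⟨h, hh, rfl⟩
    exact fun v => hh v v.2
  · rintro _ ⟨h₀, _, rfl⟩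
    refine Set.Finite.of_injOn (f := fun h => h * h₀⁻¹) (t := {g : G | ∀ v ∈ P, g • v = v})
      ?_ ?_ hF
    · rintro h ⟨_, hh⟩ v hv
      have h1 : h⁻¹ • v = h₀⁻¹ • v := congrFun hh ⟨v, hv⟩
      change (h * h₀⁻¹) • v = v
      rw [mul_smul, ← h1, smul_inv_smul]
    · intro k _ l _ hkl
      exact mul_right_cancel hkl

/-- Two elements close to the same finite set with finite pointwise stabilizer differ by an
element of bounded length. -/
theorem exists_len_bound {β : V → ℕ} {len : G → ℕ} (hβ : IsGauge G β len) :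
    ∃ Φ : ℕ → ℕ, ∀ (ρ : ℕ) (P : Set V), P.Finite → FinOn G P → ∀ g h : G,
      (∀ v ∈ P, Close β ρ g v) → (∀ v ∈ P, Close β ρ h v) → len (g⁻¹ * h) ≤ Φ ρ := by
  classical
  have key : ∀ ρ : ℕ, ∃ N : ℕ, ∀ P : Set V, P.Finite → FinOn G P → ∀ g h : G,
      (∀ v ∈ P, Close β ρ g v) → (∀ v ∈ P, Close β ρ h v) → len (g⁻¹ * h) ≤ N := by
    intro ρ
    have hfin : {γ : G | ∃ P₁ ∈ {P₁ : Set V | P₁ ⊆ {v | β v ≤ ρ}},
        γ ∈ (if FinOn G P₁ then {γ : G | ∀ v ∈ P₁, Close β ρ γ⁻¹ v} else ∅)}.Finite := by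
      have h1 : {P₁ : Set V | P₁ ⊆ {v | β v ≤ ρ}}.Finite := (hβ.finite ρ).finite_subsets
      refine (h1.biUnion (t := fun P₁ : Set V =>
        (if FinOn G P₁ then {γ : G | ∀ v ∈ P₁, Close β ρ γ⁻¹ v} else ∅)) ?_).subset ?_
      · intro P₁ hP₁
        split_ifs with hF
        · have h2 := finite_close hβ ((hβ.finite ρ).subset hP₁) hF ρ
          have h3 := h2.preimage (f := fun γ : G => γ⁻¹) inv_injective.injOn
          exact h3
        · exact Set.finite_empty
      · rintro γ ⟨P₁, hP₁, hγ⟩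
        exact Set.mem_biUnion hP₁ hγ
    obtain ⟨N, hN⟩ := (hfin.image len).bddAbove
    refine ⟨N, fun P hP hF g h hg hh => hN ⟨g⁻¹ * h, ?_, rfl⟩⟩
    refine ⟨(fun v => h⁻¹ • v) '' P, ?_, ?_⟩
    · rintro _ ⟨v, hv, rfl⟩
      exact hh v hv
    · rw [if_pos ((finOn_smul h⁻¹ P).2 hF)]
      rintro _ ⟨v, hv, rfl⟩
      have h4 := hg v hv
      unfold Close at *
      rw [inv_inv, mul_smul, smul_inv_smul]
      exact h4
  choose Φ hΦ using key
  exact ⟨Φ, hΦ⟩

/-- The orders of the finite pointwise stabilizers of sets to which some element is close are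
bounded. -/
theorem exists_card_bound {β : V → ℕ} {len : G → ℕ} (hβ : IsGauge G β len) :
    ∃ M : ℕ → ℕ, ∀ (ρ : ℕ) (P : Set V), P.Finite → FinOn G P → ∀ h : G,
      (∀ v ∈ P, Close β ρ h v) → {g : G | ∀ v ∈ P, g • v = v}.ncard ≤ M ρ := by
  classical
  have key : ∀ ρ : ℕ, ∃ N : ℕ, ∀ P : Set V, P.Finite → FinOn G P → ∀ h : G,
      (∀ v ∈ P, Close β ρ h v) → {g : G | ∀ v ∈ P, g • v = v}.ncard ≤ N := by
    intro ρ
    have h1 : {P₁ : Set V | P₁ ⊆ {v | β v ≤ ρ}}.Finite := (hβ.finite ρ).finite_subsets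
    obtain ⟨N, hN⟩ := (h1.image fun P₁ => {g : G | ∀ v ∈ P₁, g • v = v}.ncard).bddAbove
    refine ⟨N, fun P hP hF h hh => ?_⟩
    have h2 : {g : G | ∀ v ∈ (fun v => h⁻¹ • v) '' P, g • v = v}.ncard ≤ N := by
      refine hN ⟨(fun v => h⁻¹ • v) '' P, ?_, rfl⟩
      rintro _ ⟨v, hv, rfl⟩
      exact hh v hv
    refine le_trans ?_ h2
    refine Set.ncard_le_ncard_of_injOn (fun g => h⁻¹ * g * h) ?_ ?_ ((finOn_smul h⁻¹ P).2 hF)
    · rintro g hg _ ⟨v, hv, rfl⟩
      change (h⁻¹ * g * h) • h⁻¹ • v = h⁻¹ • v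
      rw [mul_smul, mul_smul, smul_inv_smul, hg v hv]
    · intro k _ l _ hkl
      have hkl' : h⁻¹ * k * h = h⁻¹ * l * h := hkl
      simpa using hkl'
  choose M hM using key
  exact ⟨M, hM⟩

end Pool.Agent.FA
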