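import Pool.Agent.Lib.MP_98022b_fa.Defs
import Pool.Agent.Lib.MP_98022b_h71.Defs

/-!
# Classes of groups with the inheritance properties of the Farrell-Jones conjecture

`IsFJClassA P`: the class `P` is closed under the operations of `IsFJClass` and contains the
countable groups which have a finitely `𝓕`-amenable action with all members of `𝓕` in the class.
`FJHullA S` is the smallest such class containing `S`.
-/

set_option autoImplicit false

namespace Pool.Agent.FJ

open Pool.Agent.FA

/-- A class of groups with the inheritance properties, closed under finitely `𝓕`-amenable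
actions. -/
structure IsFJClassA (P : ∀ (G : Type) [Group G], Prop) : Prop extends IsFJClass P where
  /-- closed under finitely amenable actions -/
  amenable : ∀ {G : Type} [Group G] [Countable G] (𝓕 : Subgroup G → Prop),
    FinitelyAmenable G 𝓕 → (∀ H : Subgroup G, 𝓕 H → P H) → P G

/-- The smallest class of groups which contains the infinite cyclic group and all groups of the
class `S` and is closed under subgroups (and isomorphisms), overgroups of finite index, direct
products of two groups, free products of two groups, directed colimits, extensions `f : G → Q` such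
that `Q` and the preimages of all cyclic subgroups of `Q` are in the class, and contains each
countable group with a finitely `𝓕`-amenable action such that the members of `𝓕` are in the
class. -/
inductive FJHullA (S : ∀ (G : Type) [Group G], Prop) : (G : Type) → [Group G] → Prop
  /-- the groups of the class `S` -/
  | base {G : Type} [Group G] (h : S G) : FJHullA S G
  /-- the infinite cyclic group -/
  | int : FJHullA S (Multiplicative ℤ)
  /-- subgroups (and isomorphic groups) -/
  | sub {G H : Type} [Group G] [Group H] (f : G →* H) (hf : Function.Injective f)
      (h : FJHullA S H) : FJHullA S G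
  /-- overgroups of finite index -/
  | finiteIndex {G : Type} [Group G] (H : Subgroup G) (hH : H.FiniteIndex)
      (h : FJHullA S H) : FJHullA S G
  /-- direct products -/
  | prod {G H : Type} [Group G] [Group H] (hG : FJHullA S G) (hH : FJHullA S H) :
      FJHullA S (G × H)
  /-- free products -/
  | coprod {G H : Type} [Group G] [Group H] (hG : FJHullA S G) (hH : FJHullA S H) :
      FJHullA S (Monoid.Coprod G H)
  /-- directed colimits: `L` is the colimit of the directed system `(G i, f i j)` with canonical
  maps `g i` -/
  | colimit {ι : Type} [Preorder ι] [IsDirectedOrder ι] [Nonempty ι]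
      (G : ι → Type) [∀ i, Group (G i)] (f : ∀ i j, i ≤ j → G i →* G j)
      {L : Type} [Group L] (g : ∀ i, G i →* L)
      (h1 : ∀ i x, f i i le_rfl x = x)
      (h2 : ∀ i j k (hij : i ≤ j) (hjk : j ≤ k) x,
        f j k hjk (f i j hij x) = f i k (hij.trans hjk) x)
      (h3 : ∀ i j (hij : i ≤ j) x, g j (f i j hij x) = g i x)
      (h4 : ∀ y, ∃ i x, g i x = y)
      (h5 : ∀ i x, g i x = 1 → ∃ j, ∃ hij : i ≤ j, f i j hij x = 1)
      (h : ∀ i, FJHullA S (G i)) : FJHullA S L
  /-- extensions: `f : G → Q` with `Q` and all preimages of cyclic subgroups of `Q` in the
  class -/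
  | extension {G Q : Type} [Group G] [Group Q] (f : G →* Q) (hQ : FJHullA S Q)
      (h : ∀ q : Q, FJHullA S ((Subgroup.zpowers q).comap f)) : FJHullA S G
  /-- groups with a finitely amenable action -/
  | amenable {G : Type} [Group G] [Countable G] (𝓕 : Subgroup G → Prop)
      (hG : FinitelyAmenable G 𝓕) (h : ∀ H : Subgroup G, 𝓕 H → FJHullA S H) : FJHullA S G

theorem isFJClassA_fjHullA (S : ∀ (G : Type) [Group G], Prop) : IsFJClassA (FJHullA S) where
  int := FJHullA.int
  of_injective f hf h := FJHullA.sub f hf h
  of_finiteIndex H hH h := FJHullA.finiteIndex H hH h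
  prod := FJHullA.prod
  coprod := FJHullA.coprod
  colimit G _ f _ _ g h1 h2 h3 h4 h5 h := FJHullA.colimit G f g h1 h2 h3 h4 h5 h
  extension f hQ h := FJHullA.extension f hQ h
  amenable 𝓕 hG h := FJHullA.amenable 𝓕 hG h

end Pool.Agent.FJ
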