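import Pool.Agent.Lib.MP_98022b_fa.Bar

/-!
# A Lebesgue number lemma

Task F30.
-/

set_option autoImplicit false

open Set

namespace Pool.Agent.FA

variable {V : Type} {T : SimpleGraph V}

namespace F30aux

/-- The filter of the coordinate neighbourhoods of `x`. -/
def cf (x : V → V → ℝ) : Filter (V → V → ℝ) where
  sets := {U | ∃ (F : Finset (V × V)) (ε : ℝ), 0 < ε ∧
    ∀ y : V → V → ℝ, (∀ e ∈ F, |y e.1 e.2 - x e.1 e.2| < ε) → y ∈ U}
  univ_sets := ⟨∅, 1, one_pos, fun _ _ => trivial⟩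
  sets_of_superset := by
    rintro U W ⟨F, ε, hε, h⟩ hUW
    exact ⟨F, ε, hε, fun y hy => hUW (h y hy)⟩
  inter_sets := by
    classical
    rintro U W ⟨F, ε, hε, h⟩ ⟨F', ε', hε', h'⟩
    refine ⟨F ∪ F', min ε ε', lt_min hε hε', fun y hy => ⟨h y fun e he => ?_, h' y fun e he => ?_⟩⟩
    · exact (hy e (Finset.mem_union_left _ he)).trans_le (min_le_left _ _)
    · exact (hy e (Finset.mem_union_right _ he)).trans_le (min_le_right _ _)

theorem cf_le (x : V → V → ℝ) : cf x ≤ nhds x := by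
  have h : Filter.Tendsto (fun y : V → V → ℝ => y) (cf x) (nhds x) := by
    rw [tendsto_pi_nhds]
    intro u
    rw [tendsto_pi_nhds]
    intro v
    rw [Metric.tendsto_nhds]
    intro ε hε
    refine ⟨{(u, v)}, ε, hε, fun y hy => ?_⟩
    show dist (y u v) (x u v) < ε
    rw [Real.dist_eq]
    exact hy (u, v) (Finset.mem_singleton_self _)
  exact h

/-- Basic neighbourhoods of points of the compactification. -/
theorem exists_coord (x : Bar T) {U : Set (Bar T)} (hU : U ∈ nhds x) :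
    ∃ (F : Finset (V × V)) (ε : ℝ), 0 < ε ∧ (∀ e ∈ F, T.Adj e.1 e.2) ∧
      ∀ y : Bar T, (∀ e ∈ F, |y.1 e.1 e.2 - x.1 e.1 e.2| < ε) → y ∈ U := by
  classical
  rw [nhds_subtype_eq_comap, Filter.mem_comap] at hU
  obtain ⟨W, hW, hWU⟩ := hU
  obtain ⟨F, ε, hε, h⟩ := cf_le x.1 hW
  refine ⟨F.filter fun e => T.Adj e.1 e.2, ε, hε, fun e he => (Finset.mem_filter.mp he).2,
    fun y hy => hWU (h y.1 fun e he => ?_)⟩
  by_cases hadj : T.Adj e.1 e.2
  · exact hy e (Finset.mem_filter.mpr ⟨he, hadj⟩)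
  · rw [y.2.2.1 _ _ hadj, x.2.2.1 _ _ hadj, sub_zero, abs_zero]
    exact hε

theorem isOpen_coord (x : Bar T) (F : Finset (V × V)) (ε : ℝ) :
    IsOpen {y : Bar T | ∀ e ∈ F, |y.1 e.1 e.2 - x.1 e.1 e.2| < ε} := by
  have h : {y : Bar T | ∀ e ∈ F, |y.1 e.1 e.2 - x.1 e.1 e.2| < ε} =
      ⋂ e ∈ F, {y : Bar T | |y.1 e.1 e.2 - x.1 e.1 e.2| < ε} := by
    ext y; simp
  rw [h]
  refine isOpen_biInter_finset fun e _ => ?_
  have hc : Continuous fun y : Bar T => y.1 e.1 e.2 :=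
    (continuous_apply_apply e.1 e.2).comp continuous_subtype_val
  exact isOpen_lt (hc.sub continuous_const).abs continuous_const

end F30aux

open F30aux

/-- Lebesgue number lemma in coordinates: there are a finite set `F` of darts and `n` such that any
set on which the coordinates in `F` vary by at most `2 / n` is contained in a member of the
cover. -/
theorem exists_lebesgue (T : SimpleGraph V) {ι : Type} (O : ι → Set (Bar T))
    (hO : ∀ i, IsOpen (O i)) (hcov : (⋃ i, O i) = univ) :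
    ∃ (F : Finset (V × V)) (n : ℕ), 2 ≤ n ∧ (∀ e ∈ F, T.Adj e.1 e.2) ∧
      ∀ W : Set (Bar T), (∀ x ∈ W, ∀ y ∈ W, ∀ e ∈ F, |x.1 e.1 e.2 - y.1 e.1 e.2| ≤ 2 / n) →
        W.Nonempty → ∃ i, W ⊆ O i := by
  classical
  have hcpt := compactSpace_bar T
  have h1 : ∀ x : Bar T, ∃ (i : ι) (F : Finset (V × V)) (ε : ℝ), 0 < ε ∧
      (∀ e ∈ F, T.Adj e.1 e.2) ∧
      ∀ y : Bar T, (∀ e ∈ F, |y.1 e.1 e.2 - x.1 e.1 e.2| < ε) → y ∈ O i := by
    intro x
    obtain ⟨i, hi⟩ : ∃ i, x ∈ O i := by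
      have : x ∈ ⋃ i, O i := by rw [hcov]; trivial
      exact mem_iUnion.mp this
    obtain ⟨F, ε, hε, hF, h⟩ := exists_coord x ((hO i).mem_nhds hi)
    exact ⟨i, F, ε, hε, hF, h⟩
  choose i F ε hε hF h using h1
  let U : Bar T → Set (Bar T) := fun x =>
    {y : Bar T | ∀ e ∈ F x, |y.1 e.1 e.2 - x.1 e.1 e.2| < ε x / 2}
  obtain ⟨t, ht⟩ := isCompact_univ.elim_finite_subcover U (fun x => isOpen_coord x (F x) (ε x / 2))
    (fun x _ => mem_iUnion.mpr ⟨x, fun e _ => by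
      rw [sub_self, abs_zero]; exact half_pos (hε x)⟩)
  obtain ⟨δ, hδ, hδt⟩ : ∃ δ : ℝ, 0 < δ ∧ ∀ x ∈ t, δ ≤ ε x / 2 := by
    rcases t.eq_empty_or_nonempty with rfl | hne
    · exact ⟨1, one_pos, by simp⟩
    · obtain ⟨x₀, hx₀, hmin⟩ := t.exists_min_image (fun x => ε x / 2) hne
      exact ⟨ε x₀ / 2, half_pos (hε x₀), hmin⟩
  obtain ⟨n, hn⟩ := exists_nat_gt (2 / δ)
  refine ⟨t.biUnion F, n + 2, by omega, ?_, ?_⟩
  · intro e he
    obtain ⟨x, -, hx⟩ := Finset.mem_biUnion.mp he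
    exact hF x e hx
  · intro W hW hne
    obtain ⟨w, hw⟩ := hne
    obtain ⟨x, hxt, hwx⟩ : ∃ x ∈ t, w ∈ U x := by
      have := ht (mem_univ w)
      simpa using this
    refine ⟨i x, fun y hy => h x y fun e he => ?_⟩
    have h2 : |y.1 e.1 e.2 - w.1 e.1 e.2| ≤ 2 / ((n + 2 : ℕ) : ℝ) :=
      hW y hy w hw e (Finset.mem_biUnion.mpr ⟨x, hxt, he⟩)
    have h3 : |w.1 e.1 e.2 - x.1 e.1 e.2| < ε x / 2 := hwx e he
    have h4 : 2 / ((n + 2 : ℕ) : ℝ) ≤ δ := by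
      have hpos : (0 : ℝ) < ((n + 2 : ℕ) : ℝ) := by positivity
      rw [div_le_iff₀ hpos]
      rw [div_lt_iff₀ hδ] at hn
      push_cast
      nlinarith
    have h5 := hδt x hxt
    calc |y.1 e.1 e.2 - x.1 e.1 e.2|
        = |(y.1 e.1 e.2 - w.1 e.1 e.2) + (w.1 e.1 e.2 - x.1 e.1 e.2)| := by congr 1; ring
      _ ≤ |y.1 e.1 e.2 - w.1 e.1 e.2| + |w.1 e.1 e.2 - x.1 e.1 e.2| := abs_add_le _ _
      _ < ε x := by linarith

end Pool.Agent.FA
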