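import Pool.Agent.Lib.MP_98022b_fa.Bar

/-!
# Contractions of the compactification

Task F28.
-/

set_option autoImplicit false

open Set

namespace Pool.Agent.FA

variable {V : Type} {T : SimpleGraph V}

namespace F28aux

/-- The dart `u v` points away from `o`. -/
def Away (T : SimpleGraph V) (o u v : V) : Prop := T.Adj u v ∧ T.dist o v = T.dist o u + 1

theorem away_or (hT : T.IsTree) (o : V) {u v : V} (h : T.Adj u v) :
    Away T o u v ∨ Away T o v u := by
  rcases hT.dist_eq_dist_add_one_of_adj o h with h1 | h1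
  · exact Or.inr ⟨h.symm, h1⟩
  · exact Or.inl ⟨h, h1⟩

theorem not_away {o u v : V} (h : Away T o u v) : ¬ Away T o v u := by
  intro h'
  have h1 := h.2
  have h2 := h'.2
  omega

theorem parent_unique (hT : T.IsTree) {o u v w : V} (hv : Away T o v u) (hw : Away T o w u) :
    v = w := by
  have h1 := hv.2
  have h2 := hw.2
  refine closer_unique hT (u := o) hv.1.symm hw.1.symm ?_ ?_
  · rw [SimpleGraph.dist_comm, SimpleGraph.dist_comm (u := u)]; omega
  · rw [SimpleGraph.dist_comm, SimpleGraph.dist_comm (u := u)]; omega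

open Classical in
/-- The function with given values on the darts away from `o`. -/
noncomputable def ext (T : SimpleGraph V) (o : V) (y : V → V → ℝ) (u v : V) : ℝ :=
  if Away T o u v then y u v else if Away T o v u then 1 - y v u else 0

theorem ext_away {o u v : V} (y : V → V → ℝ) (h : Away T o u v) : ext T o y u v = y u v := by
  simp [ext, h]

theorem ext_away' {o u v : V} (y : V → V → ℝ) (h : Away T o v u) :
    ext T o y u v = 1 - y v u := by
  simp [ext, h, not_away h]

theorem ext_not {o u v : V} (y : V → V → ℝ) (h : ¬ T.Adj u v) : ext T o y u v = 0 := by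
  have h1 : ¬ Away T o u v := fun h' => h h'.1
  have h2 : ¬ Away T o v u := fun h' => h h'.1.symm
  simp [ext, h1, h2]

theorem ext_mem (hT : T.IsTree) (o : V) (y : V → V → ℝ)
    (h01 : ∀ u v, Away T o u v → 0 ≤ y u v ∧ y u v ≤ 1)
    (hsib : ∀ u v w, Away T o u v → Away T o u w → v ≠ w → y u v * y u w = 0)
    (hpar : ∀ p u v, Away T o p u → Away T o u v → 0 < y u v → y p u = 1) :
    ext T o y ∈ Bar T := by
  have hpos : ∀ u v, Away T o u v → y u v = 0 ∨ 0 < y u v := fun u v h => by
    rcases (h01 u v h).1.eq_or_lt with h1 | h1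
    · exact Or.inl h1.symm
    · exact Or.inr h1
  refine ⟨fun u v h => ?_, fun u v h => ext_not y h, fun v u w hu hw hne => ?_⟩
  · rcases away_or hT o h with h1 | h1
    · rw [ext_away y h1, ext_away' y h1]
      exact ⟨(h01 u v h1).1, rfl⟩
    · rw [ext_away y h1, ext_away' y h1]
      refine ⟨?_, by ring⟩
      have := (h01 v u h1).2
      linarith
  · rcases away_or hT o hu with h1 | h1
    · rcases away_or hT o hw with h2 | h2
      · rw [ext_away y h1, ext_away y h2]
        exact hsib v u w h1 h2 hne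
      · rw [ext_away y h1, ext_away' y h2]
        rcases hpos v u h1 with h3 | h3
        · rw [h3, zero_mul]
        · rw [hpar w v u h2 h1 h3]; ring
    · rcases away_or hT o hw with h2 | h2
      · rw [ext_away' y h1, ext_away y h2]
        rcases hpos v w h2 with h3 | h3
        · rw [h3, mul_zero]
        · rw [hpar u v w h1 h2 h3]; ring
      · exact absurd (parent_unique hT h1 h2) hne

/-- The clamp. -/
noncomputable def cl (n : ℕ) (t : ℝ) : ℝ := max 0 (min 1 (2 ^ (n + 1) * (t - 1) + 2))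

theorem cl_nonneg (n : ℕ) (t : ℝ) : 0 ≤ cl n t := le_max_left _ _

theorem cl_le_one (n : ℕ) (t : ℝ) : cl n t ≤ 1 := max_le zero_le_one (min_le_left _ _)

theorem cl_one (n : ℕ) : cl n 1 = 1 := by
  simp [cl]

theorem cl_zero (n : ℕ) : cl n 0 = 0 := by
  have h : (2 : ℝ) ≤ 2 ^ (n + 1) := by
    have := one_le_pow₀ (M₀ := ℝ) (a := 2) (n := n) (by norm_num)
    rw [pow_succ]; linarith
  refine max_eq_left (min_le_of_right_le ?_)
  linarith

theorem cl_eq_one {n : ℕ} {t : ℝ} (h : 0 < cl (n + 1) t) : cl n t = 1 := by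
  have h1 : 0 < min 1 ((2 : ℝ) ^ (n + 1 + 1) * (t - 1) + 2) := by
    rcases lt_max_iff.1 h with h1 | h1
    · exact absurd h1 (lt_irrefl _)
    · exact h1
  have h2 := (lt_min_iff.1 h1).2
  have h3 : (1 : ℝ) ≤ 2 ^ (n + 1) * (t - 1) + 2 := by
    rw [pow_succ] at h2
    linarith
  rw [cl, min_eq_left h3]
  simp

theorem continuous_cl (n : ℕ) : Continuous (cl n) := by
  unfold cl
  fun_prop

section

variable (o : V) (x : Bar T)

open Classical in
/-- Step 1. -/
noncomputable def g₁ (t : ℝ) (y : V → V → ℝ) (u v : V) : ℝ :=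
  if x.1 u v = 0 then min (y u v) (cl (T.dist o u) t) else y u v

open Classical in
/-- Step 2. -/
noncomputable def g₂ (t : ℝ) (y : V → V → ℝ) (u v : V) : ℝ :=
  if x.1 u v = 0 then 0 else max (y u v) (min (x.1 u v) (cl (T.dist o u) t))

open Classical in
/-- Step 3. -/
noncomputable def g₃ (t : ℝ) (y : V → V → ℝ) (u v : V) : ℝ :=
  if x.1 u v = 0 then 0 else (1 - t) * max (y u v) (x.1 u v) + t * x.1 u v

variable {o}

theorem par (x : Bar T) {p u v : V} (h1 : Away T o p u) (h2 : Away T o u v)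
    (h : 0 < x.1 u v) : x.1 p u = 1 := by
  have h3 : p ≠ v := by
    rintro rfl
    exact not_away h1 h2
  have h4 := Bar.mul_eq_zero x h1.1.symm h2.1 h3
  rw [Bar.symm x h1.1] at h4
  rcases mul_eq_zero.1 h4 with h5 | h5
  · linarith
  · linarith

theorem sib (x : Bar T) {u v w : V} (h1 : Away T o u v) (h2 : Away T o u w) (h : v ≠ w) :
    x.1 u v = 0 ∨ x.1 u w = 0 := mul_eq_zero.1 (Bar.mul_eq_zero x h1.1 h2.1 h)

theorem pos_of_ne (x : Bar T) {u v : V} (h : x.1 u v ≠ 0) : 0 < x.1 u v :=
  lt_of_le_of_ne (Bar.nonneg x u v) (Ne.symm h)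

theorem g₁_mem (hT : T.IsTree) (t : ℝ) (y : Bar T) : ext T o (g₁ o x t y.1) ∈ Bar T := by
  have hle : ∀ u v, g₁ o x t y.1 u v ≤ y.1 u v := fun u v => by
    unfold g₁
    split_ifs
    · exact min_le_left _ _
    · exact le_rfl
  have h0 : ∀ u v, 0 ≤ g₁ o x t y.1 u v := fun u v => by
    unfold g₁
    split_ifs
    · exact le_min (Bar.nonneg y u v) (cl_nonneg _ _)
    · exact Bar.nonneg y u v
  refine ext_mem hT o _ (fun u v _ => ⟨h0 u v, (hle u v).trans (Bar.le_one y u v)⟩)
    (fun u v w h1 h2 hne => ?_) (fun p u v h1 h2 h => ?_)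
  · rcases sib y h1 h2 hne with h3 | h3
    · rw [le_antisymm ((hle u v).trans h3.le) (h0 u v), zero_mul]
    · rw [le_antisymm ((hle u w).trans h3.le) (h0 u w), mul_zero]
  · have hy : y.1 p u = 1 := par y h1 h2 (h.trans_le (hle u v))
    by_cases hx : x.1 p u = 0
    · have hx' : x.1 u v = 0 := by
        by_contra hne
        have := par x h1 h2 (pos_of_ne x hne)
        rw [hx] at this
        exact zero_ne_one this
      have h3 : 0 < cl (T.dist o u) t := by
        have := h
        rw [g₁, if_pos hx'] at this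
        exact (lt_min_iff.1 this).2
      rw [h1.2] at h3
      rw [g₁, if_pos hx, hy, cl_eq_one h3, min_self]
    · rw [g₁, if_neg hx, hy]

theorem g₂_mem (hT : T.IsTree) (t : ℝ) (y : Bar T) : ext T o (g₂ o x t y.1) ∈ Bar T := by
  have h01 : ∀ u v, 0 ≤ g₂ o x t y.1 u v ∧ g₂ o x t y.1 u v ≤ 1 := fun u v => by
    unfold g₂
    split_ifs
    · exact ⟨le_rfl, zero_le_one⟩
    · exact ⟨le_max_of_le_left (Bar.nonneg y u v),
        max_le (Bar.le_one y u v) (min_le_of_left_le (Bar.le_one x u v))⟩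
  refine ext_mem hT o _ (fun u v _ => h01 u v) (fun u v w h1 h2 hne => ?_)
    (fun p u v h1 h2 h => ?_)
  · rcases sib x h1 h2 hne with h3 | h3
    · rw [g₂, if_pos h3, zero_mul]
    · rw [mul_comm, g₂, if_pos h3, zero_mul]
  · have hx : x.1 u v ≠ 0 := by
      intro hx
      rw [g₂, if_pos hx] at h
      exact lt_irrefl _ h
    have hx1 : x.1 p u = 1 := par x h1 h2 (pos_of_ne x hx)
    rw [g₂, if_neg hx] at h
    rw [g₂, if_neg (by rw [hx1]; exact one_ne_zero), hx1]
    rcases lt_max_iff.1 h with h3 | h3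
    · rw [par y h1 h2 h3]
      exact max_eq_left (min_le_left _ _)
    · have h4 := (lt_min_iff.1 h3).2
      rw [h1.2] at h4
      rw [cl_eq_one h4, min_self]
      exact max_eq_right (Bar.le_one y p u)

theorem g₃_mem (hT : T.IsTree) {t : ℝ} (ht0 : 0 ≤ t) (ht1 : t ≤ 1) (y : Bar T) :
    ext T o (g₃ x t y.1) ∈ Bar T := by
  have h01 : ∀ u v, 0 ≤ g₃ x t y.1 u v ∧ g₃ x t y.1 u v ≤ 1 := fun u v => by
    unfold g₃
    split_ifs
    · exact ⟨le_rfl, zero_le_one⟩
    · have h1 : 0 ≤ max (y.1 u v) (x.1 u v) := le_max_of_le_left (Bar.nonneg y u v)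
      have h2 : max (y.1 u v) (x.1 u v) ≤ 1 := max_le (Bar.le_one y u v) (Bar.le_one x u v)
      have h3 := Bar.nonneg x u v
      have h4 := Bar.le_one x u v
      constructor
      · have h5 := mul_nonneg (sub_nonneg.2 ht1) h1
        have h6 := mul_nonneg ht0 h3
        linarith
      · nlinarith
  refine ext_mem hT o _ (fun u v _ => h01 u v) (fun u v w h1 h2 hne => ?_)
    (fun p u v h1 h2 h => ?_)
  · rcases sib x h1 h2 hne with h3 | h3
    · rw [g₃, if_pos h3, zero_mul]
    · rw [mul_comm, g₃, if_pos h3, zero_mul]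
  · have hx : x.1 u v ≠ 0 := by
      intro hx
      rw [g₃, if_pos hx] at h
      exact lt_irrefl _ h
    have hx1 : x.1 p u = 1 := par x h1 h2 (pos_of_ne x hx)
    rw [g₃, if_neg (by rw [hx1]; exact one_ne_zero), hx1, max_eq_right (Bar.le_one y p u)]
    ring

/-- The value of `ext` lies between. -/
theorem ext_between (hT : T.IsTree) (o : V) {g : V → V → ℝ} {y : Bar T}
    (h : ∀ u v, g u v ∈ uIcc (y.1 u v) (x.1 u v)) (u v : V) :
    ext T o g u v ∈ uIcc (y.1 u v) (x.1 u v) := by
  by_cases hadj : T.Adj u v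
  · rcases away_or hT o hadj with h1 | h1
    · rw [ext_away g h1]
      exact h u v
    · rw [ext_away' g h1, Bar.symm y h1.1, Bar.symm x h1.1]
      have h2 := h v u
      rw [mem_uIcc] at h2 ⊢
      rcases h2 with h2 | h2
      · right; constructor <;> linarith [h2.1, h2.2]
      · left; constructor <;> linarith [h2.1, h2.2]
  · rw [ext_not g hadj, x.2.2.1 u v hadj, y.2.2.1 u v hadj]
    exact left_mem_uIcc

theorem g₁_between (t : ℝ) (y : Bar T) (u v : V) :
    g₁ o x t y.1 u v ∈ uIcc (y.1 u v) (x.1 u v) := by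
  unfold g₁
  split_ifs with h
  · rw [h, mem_uIcc]
    exact Or.inr ⟨le_min (Bar.nonneg y u v) (cl_nonneg _ _), min_le_left _ _⟩
  · exact left_mem_uIcc

theorem g₂_between (t : ℝ) (y : Bar T) (u v : V) :
    g₂ o x t y.1 u v ∈ uIcc (y.1 u v) (x.1 u v) := by
  unfold g₂
  split_ifs with h
  · rw [h]; exact right_mem_uIcc
  · rcases le_total (y.1 u v) (x.1 u v) with h1 | h1
    · rw [mem_uIcc]
      exact Or.inl ⟨le_max_left _ _, max_le h1 (min_le_left _ _)⟩
    · rw [max_eq_left (min_le_of_left_le h1)]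
      exact left_mem_uIcc

theorem g₃_between {t : ℝ} (ht0 : 0 ≤ t) (ht1 : t ≤ 1) (y : Bar T) (u v : V) :
    g₃ x t y.1 u v ∈ uIcc (y.1 u v) (x.1 u v) := by
  unfold g₃
  split_ifs with h
  · rw [h]; exact right_mem_uIcc
  · rcases le_total (y.1 u v) (x.1 u v) with h1 | h1
    · rw [max_eq_right h1]
      have : (1 - t) * x.1 u v + t * x.1 u v = x.1 u v := by ring
      rw [this]
      exact right_mem_uIcc
    · rw [max_eq_left h1, mem_uIcc]
      refine Or.inr ⟨?_, ?_⟩
      · nlinarith
      · nlinarith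

/-- Continuity of a family given by `ext`. -/
theorem continuous_ext {Z : Type} [TopologicalSpace Z] (o : V) (g : Z → V → V → ℝ)
    (hmem : ∀ z, ext T o (g z) ∈ Bar T) (hg : ∀ u v, Continuous fun z => g z u v) :
    Continuous fun z => (⟨ext T o (g z), hmem z⟩ : Bar T) := by
  refine Continuous.subtype_mk (continuous_pi fun u => continuous_pi fun v => ?_) _
  unfold ext
  split_ifs
  · exact hg u v
  · exact continuous_const.sub (hg v u)
  · exact continuous_const

theorem continuous_coord (u v : V) : Continuous fun y : Bar T => y.1 u v :=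
  (continuous_apply v).comp ((continuous_apply u).comp continuous_subtype_val)

/-- Two points of the compactification are equal if they agree on the darts away from `o`. -/
theorem eq_of_away (hT : T.IsTree) (o : V) {a b : Bar T}
    (h : ∀ u v, Away T o u v → a.1 u v = b.1 u v) : a = b := by
  apply Subtype.ext
  funext u v
  by_cases hadj : T.Adj u v
  · rcases away_or hT o hadj with h1 | h1
    · exact h u v h1
    · rw [Bar.symm a h1.1, Bar.symm b h1.1, h v u h1]
  · rw [a.2.2.1 u v hadj, b.2.2.1 u v hadj]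

end

end F28aux

open F28aux

/-- The compactification can be contracted to any point `x` in three steps such that each
coordinate stays between the coordinates of the starting point and of `x`. With a base vertex `v₀`,
`n` the distance of the dart `u v` from `v₀` and `c n t` the clamp of `2 ^ (n + 1) * (t - 1) + 2` to
`[0, 1]` (so `c (n + 1) t > 0` implies `c n t = 1`), on the darts pointing away from `v₀`:
step 1 (`t` from `1` to `0`): `min (y u v) (c n t)` if `x u v = 0`, else `y u v`;
step 2 (`t` from `0` to `1`): `max (y u v) (min (x u v) (c n t))` if `x u v > 0`, else `0`;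
step 3: `(1 - t) * max (y u v) (x u v) + t * x u v` if `x u v > 0`, else `0`. -/
theorem exists_phases (hT : T.IsTree) (x : Bar T) :
    ∃ (f₁ f₂ : Bar T → Bar T) (H₁ H₂ H₃ : unitInterval × Bar T → Bar T),
      Continuous H₁ ∧ Continuous H₂ ∧ Continuous H₃ ∧
      (∀ y, H₁ (0, y) = y) ∧ (∀ y, H₁ (1, y) = f₁ y) ∧
      (∀ y, H₂ (0, y) = f₁ y) ∧ (∀ y, H₂ (1, y) = f₂ y) ∧
      (∀ y, H₃ (0, y) = f₂ y) ∧ (∀ y, H₃ (1, y) = x) ∧
      ∀ t y u v, (H₁ (t, y)).1 u v ∈ uIcc (y.1 u v) (x.1 u v) ∧
        (H₂ (t, y)).1 u v ∈ uIcc (y.1 u v) (x.1 u v) ∧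
        (H₃ (t, y)).1 u v ∈ uIcc (y.1 u v) (x.1 u v) := by
  classical
  obtain ⟨o⟩ := hT.connected.nonempty
  have hfst : Continuous fun z : unitInterval × Bar T => (z.1 : ℝ) :=
    continuous_subtype_val.comp continuous_fst
  have hco : ∀ u v, Continuous fun z : unitInterval × Bar T => z.2.1 u v := fun u v =>
    (continuous_coord u v).comp continuous_snd
  refine ⟨fun y => ⟨ext T o (g₁ o x (1 - 1) y.1), g₁_mem x hT _ y⟩,
    fun y => ⟨ext T o (g₂ o x 1 y.1), g₂_mem x hT _ y⟩,
    fun z => ⟨ext T o (g₁ o x (1 - (z.1 : ℝ)) z.2.1), g₁_mem x hT _ z.2⟩,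
    fun z => ⟨ext T o (g₂ o x (z.1 : ℝ) z.2.1), g₂_mem x hT _ z.2⟩,
    fun z => ⟨ext T o (g₃ x (z.1 : ℝ) z.2.1), g₃_mem x hT z.1.2.1 z.1.2.2 z.2⟩,
    ?_, ?_, ?_, ?_, ?_, ?_, ?_, ?_, ?_, ?_⟩
  · refine continuous_ext o (fun z : unitInterval × Bar T => g₁ o x (1 - (z.1 : ℝ)) z.2.1)
      (fun z => g₁_mem x hT _ z.2) (fun u v => ?_)
    unfold g₁
    split_ifs
    · exact (hco u v).min ((continuous_cl _).comp (continuous_const.sub hfst))
    · exact hco u v
  · refine continuous_ext o (fun z : unitInterval × Bar T => g₂ o x (z.1 : ℝ) z.2.1)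
      (fun z => g₂_mem x hT _ z.2) (fun u v => ?_)
    unfold g₂
    split_ifs
    · exact continuous_const
    · exact (hco u v).max (continuous_const.min ((continuous_cl _).comp hfst))
  · refine continuous_ext o (fun z : unitInterval × Bar T => g₃ x (z.1 : ℝ) z.2.1)
      (fun z => g₃_mem x hT z.1.2.1 z.1.2.2 z.2) (fun u v => ?_)
    unfold g₃
    split_ifs
    · exact continuous_const
    · exact ((continuous_const.sub hfst).mul ((hco u v).max continuous_const)).add
        (hfst.mul continuous_const)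
  · intro y
    refine eq_of_away hT o fun u v h => ?_
    show ext T o (g₁ o x (1 - ((0 : unitInterval) : ℝ)) y.1) u v = y.1 u v
    rw [ext_away _ h, g₁]
    have h1 : (1 : ℝ) - ((0 : unitInterval) : ℝ) = 1 := by simp
    rw [h1, cl_one, min_eq_left (Bar.le_one y u v)]
    simp
  · intro y
    rfl
  · intro y
    refine eq_of_away hT o fun u v h => ?_
    show ext T o (g₂ o x ((0 : unitInterval) : ℝ) y.1) u v = ext T o (g₁ o x (1 - 1) y.1) u v
    have h1 : ((0 : unitInterval) : ℝ) = 0 := rfl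
    rw [ext_away _ h, ext_away _ h, g₁, g₂, h1, sub_self, cl_zero]
    split_ifs
    · exact (min_eq_right (Bar.nonneg y u v)).symm
    · rw [min_eq_right (Bar.nonneg x u v), max_eq_left (Bar.nonneg y u v)]
  · intro y
    rfl
  · intro y
    refine eq_of_away hT o fun u v h => ?_
    show ext T o (g₃ x ((0 : unitInterval) : ℝ) y.1) u v = ext T o (g₂ o x 1 y.1) u v
    have h1 : ((0 : unitInterval) : ℝ) = 0 := rfl
    rw [ext_away _ h, ext_away _ h, g₃, g₂, h1, cl_one]
    split_ifs
    · rfl
    · rw [min_eq_left (Bar.le_one x u v)]; ring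
  · intro y
    refine eq_of_away hT o fun u v h => ?_
    show ext T o (g₃ x ((1 : unitInterval) : ℝ) y.1) u v = x.1 u v
    have h1 : ((1 : unitInterval) : ℝ) = 1 := rfl
    rw [ext_away _ h, g₃, h1]
    split_ifs with h2
    · exact h2.symm
    · ring
  · intro t y u v
    exact ⟨ext_between x hT o (fun u v => g₁_between x _ y u v) u v,
      ext_between x hT o (fun u v => g₂_between x _ y u v) u v,
      ext_between x hT o (fun u v => g₃_between x t.2.1 t.2.2 y u v) u v⟩

end Pool.Agent.FA
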