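import Pool.Agent.Lib.MP_98022b_fa.Gauge

/-!
# Priorities of windows

Task F14.
-/

set_option autoImplicit false

open Set

namespace Pool.Agent.FA

variable {G V : Type} [Group G] [MulAction G V]

theorem prio_eq {r : ℕ} {e : (Fin (2 * r + 1) → V) → ℕ} (he : Function.Injective e)
    {P P' : ℤ → V} {m m' : ℤ} (h : prio G r e P m = prio G r e P' m') :
    ∃ g : G, ∀ t : ℤ, |t| ≤ r → g • P (m + t) = P' (m' + t) := by
  have key : ∀ (Q : ℤ → V) (n : ℤ), ∃ g : G, prio G r e Q n =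
      e (fun t => g • Q (n - r + (t : ℕ))) := by
    intro Q n
    have hne : {k | ∃ g : G, k = e (fun t => g • Q (n - r + (t : ℕ)))}.Nonempty :=
      ⟨_, 1, rfl⟩
    exact Nat.sInf_mem hne
  obtain ⟨g₁, h₁⟩ := key P m
  obtain ⟨g₂, h₂⟩ := key P' m'
  rw [h₁, h₂] at h
  have h' := he h
  refine ⟨g₂⁻¹ * g₁, fun t ht => ?_⟩
  have hb := abs_le.mp ht
  have hlt : (t + r).toNat < 2 * r + 1 := by omega
  have h3 := congrFun h' ⟨(t + r).toNat, hlt⟩
  simp only at h3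
  have e1 : m - r + ((t + r).toNat : ℤ) = m + t := by omega
  have e2 : m' - r + ((t + r).toNat : ℤ) = m' + t := by omega
  rw [e1, e2] at h3
  rw [mul_smul, h3, inv_smul_smul]

theorem prio_bound {β : V → ℕ} {len : G → ℕ} (hβ : IsGauge G β len) {r : ℕ}
    (e : (Fin (2 * r + 1) → V) → ℕ) (ρ : ℕ) :
    ∃ Q : ℕ, ∀ (P : ℤ → V) (m : ℤ) (h : G), (∀ j, |j - m| ≤ r → Close β ρ h (P j)) →
      prio G r e P m ≤ Q := by
  have hfin : (Set.pi univ (fun _ : Fin (2 * r + 1) => {v : V | β v ≤ ρ})).Finite :=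
    Set.Finite.pi' (fun _ => hβ.finite ρ) |>.subset (by intro f hf i; exact hf i (mem_univ i))
  obtain ⟨Q, hQ⟩ := (hfin.image e).bddAbove
  refine ⟨Q, fun P m h hP => ?_⟩
  refine le_trans (Nat.sInf_le ⟨h⁻¹, rfl⟩) (hQ ⟨_, ?_, rfl⟩)
  intro t _
  have ht := t.2
  exact hP (m - r + (t : ℕ)) (by rw [abs_le]; constructor <;> omega)

theorem prio_shift {r : ℕ} {e : (Fin (2 * r + 1) → V) → ℕ} {P P' : ℤ → V} {m : ℤ} (t : ℤ)
    (h : ∀ j, |j - m| ≤ r → P j = P' (j + t)) : prio G r e P m = prio G r e P' (m + t) := by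
  have : ∀ g : G, (fun s : Fin (2 * r + 1) => g • P (m - r + (s : ℕ))) =
      fun s : Fin (2 * r + 1) => g • P' (m + t - r + (s : ℕ)) := by
    intro g
    funext s
    have hs := s.2
    rw [h (m - r + (s : ℕ)) (by rw [abs_le]; constructor <;> omega)]
    congr 2
    ring
  unfold prio
  simp only [this]

theorem prio_smul {r : ℕ} {e : (Fin (2 * r + 1) → V) → ℕ} (P : ℤ → V) (m : ℤ) (g : G) :
    prio G r e (fun j => g • P j) m = prio G r e P m := by
  unfold prio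
  congr 1
  ext n
  constructor
  · rintro ⟨h, rfl⟩
    exact ⟨h * g, by simp only [mul_smul]⟩
  · rintro ⟨h, rfl⟩
    exact ⟨h * g⁻¹, by simp only [mul_smul, inv_smul_smul]⟩

end Pool.Agent.FA
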