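import Pool.Agent.Lib.MP_98022b_fa.Amen
import Pool.Agent.Lib.MP_98022b_fa.Hull

/-!
# Relatively acylindrical actions on trees

Task F37.
-/

set_option autoImplicit false

open Set
open scoped Pointwise

namespace Pool.Agent.FJ

open Pool.Agent.FA

variable {P : ∀ (G : Type) [Group G], Prop}

/-- A group with a homomorphism to `ℤ` with finite kernel is in the class. -/
theorem IsFJClass.of_finite_ker (hP : IsFJClass P) {G : Type} [Group G]
    (τ : G →* Multiplicative ℤ) (h : Finite τ.ker) : P G := by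
  classical
  obtain ⟨t, ht⟩ : ∃ t : G, ∀ g : G, ∃ b : ℤ, τ g = τ t ^ b := by
    obtain ⟨⟨y, ⟨t, rfl⟩⟩, hy⟩ := IsCyclic.exists_generator (α := τ.range)
    refine ⟨t, fun g => ?_⟩
    obtain ⟨b, hb⟩ := hy ⟨τ g, ⟨g, rfl⟩⟩
    exact ⟨b, (congrArg Subtype.val hb).symm⟩
  by_cases hτt : τ t = 1
  · have : Finite G := by
      refine Finite.of_surjective (fun k : τ.ker => (k : G)) fun g => ?_
      obtain ⟨b, hb⟩ := ht g
      exact ⟨⟨g, by rw [MonoidHom.mem_ker, hb, hτt, one_zpow]⟩, rfl⟩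
    exact hP.of_finite
  · have hinj : Function.Injective (zpowersHom G t) := by
      rw [injective_iff_map_eq_one]
      intro a ha
      rw [zpowersHom_apply] at ha
      have h1 := congrArg τ ha
      rw [map_zpow, map_one] at h1
      have h2 : a.toAdd * (τ t).toAdd = 0 := by
        have h3 := congrArg Multiplicative.toAdd h1
        rw [toAdd_zpow, toAdd_one, smul_eq_mul] at h3
        exact h3
      rcases mul_eq_zero.1 h2 with h3 | h3
      · exact h3
      · exact absurd h3 hτt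
    refine hP.of_finiteIndex (zpowersHom G t).range ?_
      (hP.of_equiv (MonoidHom.ofInjective hinj).symm hP.int)
    have : Finite (G ⧸ (zpowersHom G t).range) := by
      refine Finite.of_surjective
        (fun k : τ.ker => (QuotientGroup.mk (k : G) : G ⧸ (zpowersHom G t).range)) fun q => ?_
      obtain ⟨g, rfl⟩ := QuotientGroup.mk_surjective q
      obtain ⟨b, hb⟩ := ht g
      have hk : g * t ^ (-b) ∈ τ.ker := by
        rw [MonoidHom.mem_ker, map_mul, map_zpow, hb, ← zpow_add, add_neg_cancel, zpow_zero]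
      refine ⟨⟨g * t ^ (-b), hk⟩, ?_⟩
      refine QuotientGroup.eq.2 ?_
      change (g * t ^ (-b))⁻¹ * g ∈ (zpowersHom G t).range
      rw [mul_inv_rev, mul_assoc, inv_mul_cancel, mul_one]
      refine inv_mem ⟨Multiplicative.ofAdd (-b), ?_⟩
      rw [zpowersHom_apply, toAdd_ofAdd]
    exact Subgroup.finiteIndex_of_finite_quotient

/-- The countable case. -/
theorem IsFJClassA.relAcyl_countable (hP : IsFJClassA P) {G V : Type} [Group G] [Countable G]
    [MulAction G V] [Countable V] {T : SimpleGraph V} (hT : T.IsTree)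
    (hadj : ∀ (g : G) (u v : V), T.Adj u v → T.Adj (g • u) (g • v)) {𝒴 : Set (Set V)} {k : ℕ}
    (h𝒴 : ∀ (g : G), ∀ Y ∈ 𝒴, g • Y ∈ 𝒴) (hconv : ∀ Y ∈ 𝒴, Conv T Y)
    (hk : ∀ Y ∈ 𝒴, ∀ Y' ∈ 𝒴, Y ≠ Y' → ∀ u v, u ∈ Y → u ∈ Y' → v ∈ Y → v ∈ Y' → T.dist u v < k)
    (hY : ∀ u v, k ≤ T.dist u v → ¬ FinOn G ({u, v} : Set V) → ∃ Y ∈ 𝒴, u ∈ Y ∧ v ∈ Y)
    (hv : ∀ v : V, P (MulAction.stabilizer G v)) (hs : ∀ Y ∈ 𝒴, P (MulAction.stabilizer G Y)) :
    P G := by
  refine hP.amenable (treeFamily G T 𝒴) (finitelyAmenable_of_tree hT hadj h𝒴 hconv hk hY) ?_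
  rintro H (⟨v, hH⟩ | ⟨u, v, -, hH⟩ | ⟨Y, hY𝒴, hH⟩ | ⟨τ, hτ⟩)
  · exact hP.toIsFJClass.of_le (K := MulAction.stabilizer G v) (fun g hg => hH g hg) (hv v)
  · refine hP.of_finiteIndex (MulAction.stabilizer H u) ⟨?_⟩ ?_
    · rw [MulAction.index_stabilizer]
      have hsub : MulAction.orbit H u ⊆ {u, v} := by
        rintro _ ⟨g, rfl⟩
        have h1 : (g : G) • u ∈ (g : G) • ({u, v} : Set V) := smul_mem_smul_set (Or.inl rfl)
        rw [hH g g.2] at h1
        exact h1
      have hfin : (MulAction.orbit H u).Finite := (Set.toFinite ({u, v} : Set V)).subset hsub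
      rw [Ne, Set.ncard_eq_zero hfin]
      exact Set.Nonempty.ne_empty ⟨u, MulAction.mem_orbit_self u⟩
    · refine hP.of_injective (H := MulAction.stabilizer G u)
        ((H.subtype.comp (MulAction.stabilizer H u).subtype).codRestrict _ ?_) ?_ (hv u)
      · rintro ⟨g, hg⟩
        exact hg
      · intro x y hxy
        have h1 : ((x : H) : G) = ((y : H) : G) :=
          congrArg (fun w : MulAction.stabilizer G u => (w : G)) hxy
        exact Subtype.ext (Subtype.ext h1)
  · exact hP.toIsFJClass.of_le (K := MulAction.stabilizer G Y) (fun g hg => hH g hg) (hs Y hY𝒴)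
  · exact hP.toIsFJClass.of_finite_ker τ hτ

end Pool.Agent.FJ
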