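import Pool.Agent.Lib.MP_98022b_fa.RelCount
import Pool.Agent.Lib.MP_98022b_fa.Restrict

/-!
# Relatively acylindrical actions on trees

Task F38.
-/

set_option autoImplicit false

open Set
open scoped Pointwise

namespace Pool.Agent.FJ

open Pool.Agent.FA

namespace F38aux

theorem countable_closure {G : Type} [Group G] (S : Set G) (hS : S.Countable) :
    Countable (Subgroup.closure S) := by
  have : Countable S := hS.to_subtype
  have h1 : Countable (FreeGroup S) := inferInstanceAs (Countable (Quot _))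
  rw [FreeGroup.closure_eq_range]
  have h2 : (Set.range (FreeGroup.lift ((↑) : S → G))).Countable := Set.countable_range _
  exact h2.to_subtype

/-- The action on the hull. -/
@[instance_reducible]
def hullAction {G V : Type} [Group G] [MulAction G V] {T : SimpleGraph V} (hT : T.IsTree)
    (hadj : ∀ (g : G) (u v : V), T.Adj u v → T.Adj (g • u) (g • v)) (v₀ : V) :
    MulAction G (hullSet G T v₀) where
  smul g w := ⟨g • (w : V), smul_mem_hullSet hT hadj v₀ g w.2⟩
  one_smul w := Subtype.ext (one_smul G (w : V))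
  mul_smul g h w := Subtype.ext (mul_smul g h (w : V))

end F38aux

open F38aux

variable {P : ∀ (G : Type) [Group G], Prop}

/-- THEOREM B1. Groups acting on trees, relatively acylindrical with respect to `𝒴`, with vertex
stabilizers and stabilizers of members of `𝒴` in the class. -/
theorem IsFJClassA.relAcyl (hP : IsFJClassA P) {G V : Type} [Group G]
    [MulAction G V] {T : SimpleGraph V} (hT : T.IsTree)
    (hadj : ∀ (g : G) (u v : V), T.Adj u v → T.Adj (g • u) (g • v)) {𝒴 : Set (Set V)} {k : ℕ}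
    (h𝒴 : ∀ (g : G), ∀ Y ∈ 𝒴, g • Y ∈ 𝒴) (hconv : ∀ Y ∈ 𝒴, Conv T Y)
    (hk : ∀ Y ∈ 𝒴, ∀ Y' ∈ 𝒴, Y ≠ Y' → ∀ u v, u ∈ Y → u ∈ Y' → v ∈ Y → v ∈ Y' → T.dist u v < k)
    (hY : ∀ u v, k ≤ T.dist u v → ¬ FinOn G ({u, v} : Set V) → ∃ Y ∈ 𝒴, u ∈ Y ∧ v ∈ Y)
    (hv : ∀ v : V, P (MulAction.stabilizer G v)) (hs : ∀ Y ∈ 𝒴, P (MulAction.stabilizer G Y)) :
    P G := by
  classical
  obtain ⟨v₀⟩ : Nonempty V := hT.connected.nonempty
  refine hP.locally fun S => ⟨Subgroup.closure (S : Set G), fun x hx => Subgroup.subset_closure hx,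
    ?_⟩
  obtain ⟨K, hK⟩ : ∃ K : Subgroup G, K = Subgroup.closure (S : Set G) := ⟨_, rfl⟩
  rw [← hK]
  have hc : Countable K := by
    rw [hK]
    exact countable_closure _ S.countable_toSet
  have hadjK : ∀ (g : K) (u v : V), T.Adj u v → T.Adj (g • u) (g • v) := fun g u v h =>
    hadj g u v h
  let act : MulAction K (hullSet K T v₀) := hullAction hT hadjK v₀
  have hsm : ∀ (g : K) (w : hullSet K T v₀), ((g • w : hullSet K T v₀) : V) = (g : G) • (w : V) :=
    fun g w => rfl
  have hT' := isTree_induce_hullSet (G := K) hT v₀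
  have hcV : Countable (hullSet K T v₀) := (countable_hullSet hT v₀).to_subtype
  have hdist := dist_induce_hullSet (G := K) hT v₀
  -- the traces of the members of `𝒴`
  let 𝒴' : Set (Set (hullSet K T v₀)) :=
    {Y' | ∃ Y ∈ 𝒴, Y' = {w : hullSet K T v₀ | (w : V) ∈ Y} ∧
      ∃ u ∈ Y', ∃ v ∈ Y', k ≤ T.dist (u : V) v}
  have hpre : ∀ (g : K) (Y : Set V), g • {w : hullSet K T v₀ | (w : V) ∈ Y} =
      {w : hullSet K T v₀ | (w : V) ∈ (g : G) • Y} := by
    intro g Y
    ext w
    rw [Set.mem_smul_set_iff_inv_smul_mem, Set.mem_ofPred_eq, Set.mem_ofPred_eq,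
      Set.mem_smul_set_iff_inv_smul_mem]
    rfl
  have hdsm : ∀ (g : G) (u v : V), T.dist (g • u) (g • v) = T.dist u v := by
    intro g u v
    have key : ∀ (g : G) (u v : V), T.dist (g • u) (g • v) ≤ T.dist u v := by
      intro g u v
      obtain ⟨p, hp⟩ := hT.connected.exists_walk_length_eq_dist u v
      let f : T →g T := ⟨fun w => g • w, fun h => hadj g _ _ h⟩
      have h1 := SimpleGraph.dist_le (p.map f)
      rw [SimpleGraph.Walk.length_map, hp] at h1
      exact h1
    apply le_antisymm (key g u v)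
    have h2 := key g⁻¹ (g • u) (g • v)
    rwa [inv_smul_smul, inv_smul_smul] at h2
  refine hP.relAcyl_countable (G := K) (V := hullSet K T v₀) (T := T.induce (hullSet K T v₀))
    (𝒴 := 𝒴') (k := k) hT' ?_ ?_ ?_ ?_ ?_ ?_ ?_
  · intro g u v h
    exact hadjK g u v h
  · rintro g _ ⟨Y, hYm, rfl, u, hu, v, hv', huv⟩
    refine ⟨(g : G) • Y, h𝒴 g Y hYm, hpre g Y, g • u, ⟨u, hu, rfl⟩, g • v, ⟨v, hv', rfl⟩, ?_⟩
    rw [hsm, hsm, hdsm]
    exact huv
  · rintro _ ⟨Y, hYm, rfl, -⟩ u hu v hv' w hw
    rw [hdist, hdist, hdist] at hw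
    exact hconv Y hYm u hu v hv' w hw
  · rintro _ ⟨Y, hYm, rfl, -⟩ _ ⟨Z, hZm, rfl, -⟩ hne u v h1 h2 h3 h4
    rw [hdist]
    refine hk Y hYm Z hZm ?_ u v h1 h2 h3 h4
    rintro rfl
    exact hne rfl
  · intro u v huv hfin
    rw [hdist] at huv
    have h1 : ¬ FinOn G ({(u : V), (v : V)} : Set V) := by
      intro h2
      apply hfin
      have h3 : ((fun g : K => (g : G)) '' {g : K | ∀ w ∈ ({u, v} : Set (hullSet K T v₀)),
          g • w = w}).Finite := by
        refine h2.subset ?_
        rintro _ ⟨g, hg, rfl⟩ w hw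
        rcases hw with rfl | hw
        · exact congrArg Subtype.val (hg u (Or.inl rfl))
        · rw [Set.mem_singleton_iff] at hw
          rw [hw]
          exact congrArg Subtype.val (hg v (Or.inr rfl))
      exact h3.of_finite_image (fun a _ b _ hab => Subtype.ext hab)
    obtain ⟨Y, hYm, hu, hv'⟩ := hY u v huv h1
    exact ⟨_, ⟨Y, hYm, rfl, u, hu, v, hv', huv⟩, hu, hv'⟩
  · intro w
    refine hP.of_injective (H := MulAction.stabilizer G (w : V))
      ((K.subtype.comp (MulAction.stabilizer K w).subtype).codRestrict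
        (MulAction.stabilizer G (w : V)) fun g => ?_) ?_ (hv w)
    · exact congrArg Subtype.val g.2
    · intro a b hab
      have h1 := congrArg (fun x : MulAction.stabilizer G (w : V) => (x : G)) hab
      exact Subtype.ext (Subtype.ext h1)
  · rintro _ ⟨Y, hYm, rfl, u, hu, v, hv', huv⟩
    have key : ∀ g : K, g • {w : hullSet K T v₀ | (w : V) ∈ Y} =
        {w : hullSet K T v₀ | (w : V) ∈ Y} → (g : G) • Y = Y := by
      intro g hg
      by_contra hne
      rw [hpre] at hg
      have h1 : (u : V) ∈ (g : G) • Y := by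
        have : u ∈ {w : hullSet K T v₀ | (w : V) ∈ (g : G) • Y} := by
          rw [hg]
          exact hu
        exact this
      have h2 : (v : V) ∈ (g : G) • Y := by
        have : v ∈ {w : hullSet K T v₀ | (w : V) ∈ (g : G) • Y} := by
          rw [hg]
          exact hv'
        exact this
      have h3 := hk _ (h𝒴 g Y hYm) Y hYm hne u v h1 hu h2 hv'
      omega
    refine hP.of_injective (H := MulAction.stabilizer G Y)
      ((K.subtype.comp (MulAction.stabilizer K
        {w : hullSet K T v₀ | (w : V) ∈ Y}).subtype).codRestrict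
        (MulAction.stabilizer G Y) fun g => ?_) ?_ (hs Y hYm)
    · exact key g g.2
    · intro a b hab
      have h1 := congrArg (fun x : MulAction.stabilizer G Y => (x : G)) hab
      exact Subtype.ext (Subtype.ext h1)

end Pool.Agent.FJ
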