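import Pool.Agent.Lib.MP_98022b_fa.VCyc

/-!
# Stabilizers of the trees fixed by the powers of an element
-/

set_option autoImplicit false

open Set
open scoped Pointwise

namespace Pool.Agent.FJ

open Pool.Agent.FA Pool.Agent.FA.F41aux

variable {P : ∀ (G : Type) [Group G], Prop}

/-- The virtual centralizer of `c`. -/
private def vcent {G : Type} [Group G] (c : G) : Subgroup G where
  carrier := {p | ∃ m : ℤ, m ≠ 0 ∧ p * c ^ m = c ^ m * p}
  one_mem' := ⟨1, one_ne_zero, by group⟩
  mul_mem' := by
    rintro p q ⟨m, hm, hp⟩ ⟨n, hn, hq⟩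
    have hp' : Commute p (c ^ m) := hp
    have hq' : Commute q (c ^ n) := hq
    refine ⟨m * n, mul_ne_zero hm hn, ?_⟩
    have h1 : Commute p (c ^ (m * n)) := by
      rw [zpow_mul]
      exact hp'.zpow_right n
    have h2 : Commute q (c ^ (m * n)) := by
      rw [mul_comm m n, zpow_mul]
      exact hq'.zpow_right m
    exact h1.mul_left h2
  inv_mem' := by
    rintro p ⟨m, hm, hp⟩
    have hp' : Commute p (c ^ m) := hp
    exact ⟨m, hm, hp'.inv_left⟩

private lemma P_vcent (hP : IsFJClassA P) {G V : Type} [Group G]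
    [MulAction G V] {T : SimpleGraph V} (hT : T.IsTree)
    (hadj : ∀ (g : G) (u v : V), T.Adj u v → T.Adj (g • u) (g • v))
    (hv : ∀ v : V, P (MulAction.stabilizer G v)) {k : ℕ} {c : G}
    (hE : ∀ u v, k ≤ T.dist u v → ∀ n : ℤ, n ≠ 0 → c ^ n • u = u → c ^ n • v = v →
      VCyc (MulAction.stabilizer G u ⊓ MulAction.stabilizer G v))
    (hc : Inf c) {v₀ : V} (hv₀ : c • v₀ = v₀) : P (vcent c) := by
  classical
  refine hP.toIsFJClass.locally fun S => ?_
  -- a common power
  have hcom : ∀ x : vcent c, ∃ m : ℤ, m ≠ 0 ∧ (x : G) * c ^ m = c ^ m * x := fun x => x.2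
  choose m hm hmc using hcom
  set a : ℤ := ∏ x ∈ S, m x with ha
  have ha0 : a ≠ 0 := Finset.prod_ne_zero_iff.2 fun x _ => hm x
  have hzmem : c ^ a ∈ vcent c := ⟨1, one_ne_zero, by group⟩
  let z : vcent c := ⟨c ^ a, hzmem⟩
  let L : Subgroup (vcent c) := Subgroup.closure (insert z (S : Set (vcent c)))
  refine ⟨L, fun x hx => Subgroup.subset_closure (Set.mem_insert_of_mem _ hx), ?_⟩
  have hLc : Countable L :=
    F41aux.countable_closure _ ((Finset.countable_toSet S).insert z)
  have hzL : z ∈ L := Subgroup.subset_closure (Set.mem_insert _ _)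
  have hcent : ∀ g : L, g * ⟨z, hzL⟩ = ⟨z, hzL⟩ * g := by
    intro g
    apply Subtype.ext
    have h1 : L ≤ Subgroup.centralizer {z} := by
      refine (Subgroup.closure_le _).2 ?_
      intro x hx
      rw [SetLike.mem_coe, Subgroup.mem_centralizer_iff]
      intro y hy
      rw [Set.mem_singleton_iff] at hy
      subst hy
      rcases Set.mem_insert_iff.1 hx with rfl | hx
      · rfl
      · apply Subtype.ext
        change c ^ a * (x : G) = (x : G) * c ^ a
        have h2 : Commute (x : G) (c ^ (m x)) := hmc x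
        obtain ⟨k, hk⟩ : m x ∣ a := Finset.dvd_prod_of_mem m hx
        have h3 : Commute (x : G) (c ^ a) := by
          rw [hk, zpow_mul]
          exact h2.zpow_right k
        exact h3.symm
    have h2 := (Subgroup.mem_centralizer_iff.1 (h1 g.2)) z rfl
    exact h2.symm
  have hinj : Function.Injective ((vcent c).subtype.comp L.subtype) :=
    (vcent c).subtype_injective.comp L.subtype_injective
  refine hP.central (G := L) hT (fun g u v h => hadj (g : G) u v h) (fun v => ?_) ⟨z, hzL⟩ hcent
    ?_ v₀ ?_ k ?_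
  · -- vertex stabilizers
    refine hP.toIsFJClass.of_injective (H := MulAction.stabilizer G v)
      { toFun := fun x => ⟨((x : L) : vcent c), x.2⟩
        map_one' := rfl
        map_mul' := fun _ _ => rfl } ?_ (hv v)
    intro x y hxy
    apply Subtype.ext
    apply Subtype.ext
    apply Subtype.ext
    exact Subtype.mk.inj hxy
  · intro n hn
    have h1 : (c ^ a) ^ n = 1 := by
      have := congrArg (fun w : L => ((w : vcent c) : G)) hn
      simpa using this
    exact hc.zpow ha0 n h1
  · change (c ^ a) • v₀ = v₀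
    exact zpow_smul_of hv₀ a
  · intro u v huv hu hv'
    have hu' : (c ^ a) • u = u := hu
    have hv'' : (c ^ a) • v = v := hv'
    obtain ⟨d, -, hd⟩ := hE u v huv a ha0 hu' hv''
    have h1 : (Subgroup.zpowers (c ^ a)).relIndex
        (MulAction.stabilizer G u ⊓ MulAction.stabilizer G v) ≠ 0 :=
      relIndex_zpowers_ne_zero hd (Subgroup.mem_inf.2 ⟨hu', hv''⟩) (hc.zpow ha0)
    have h2 := Subgroup.relIndex_comap_ne_zero ((vcent c).subtype.comp L.subtype) h1
    have e1 : (Subgroup.zpowers (c ^ a)).comap ((vcent c).subtype.comp L.subtype) =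
        Subgroup.zpowers (⟨z, hzL⟩ : L) := by
      ext x
      rw [Subgroup.mem_comap, Subgroup.mem_zpowers_iff, Subgroup.mem_zpowers_iff]
      constructor
      · rintro ⟨k, hk⟩
        refine ⟨k, hinj ?_⟩
        rw [map_zpow, ← hk]
        rfl
      · rintro ⟨k, hk⟩
        refine ⟨k, ?_⟩
        rw [← hk, map_zpow]
        rfl
    have e2 : (MulAction.stabilizer G u ⊓ MulAction.stabilizer G v).comap
        ((vcent c).subtype.comp L.subtype) =
        MulAction.stabilizer L u ⊓ MulAction.stabilizer L v := rfl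
    rw [e1, e2] at h2
    exact ⟨h2⟩

/-- The balanced case: the stabilizer of `cyl V c`. -/
theorem IsFJClassA.stab_cyl (hP : IsFJClassA P) {G V : Type} [Group G]
    [MulAction G V] {T : SimpleGraph V} (hT : T.IsTree)
    (hadj : ∀ (g : G) (u v : V), T.Adj u v → T.Adj (g • u) (g • v))
    (hv : ∀ v : V, P (MulAction.stabilizer G v)) {k : ℕ} {c : G}
    (hE : ∀ u v, k ≤ T.dist u v → ∀ n : ℤ, n ≠ 0 → c ^ n • u = u → c ^ n • v = v →
      VCyc (MulAction.stabilizer G u ⊓ MulAction.stabilizer G v))
    (hc : Inf c) {v₀ : V} (hv₀ : c • v₀ = v₀)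
    (hst : ∀ p ∈ MulAction.stabilizer G (cyl V c), ∃ m n : ℤ, m ≠ 0 ∧
        p * c ^ m * p⁻¹ = c ^ n ∧ (n = m ∨ n = -m)) :
    P (MulAction.stabilizer G (cyl V c)) := by
  have hle : vcent c ≤ MulAction.stabilizer G (cyl V c) := by
    rintro p ⟨m, hm, hpm⟩
    rw [MulAction.mem_stabilizer_iff, smul_cyl]
    refine cyl_eq (m := m) (n := m) hm hm ?_
    rw [conj_zpow, hpm]
    group
  refine hP.toIsFJClass.of_finiteIndex ((vcent c).subgroupOf (MulAction.stabilizer G (cyl V c)))
    ?_ ?_
  · have hdvd : ((vcent c).subgroupOf (MulAction.stabilizer G (cyl V c))).index ∣ 2 := by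
      rw [Subgroup.index_dvd_two_iff]
      by_cases hall : ∀ b : MulAction.stabilizer G (cyl V c),
          b ∈ (vcent c).subgroupOf (MulAction.stabilizer G (cyl V c))
      · exact ⟨1, fun b => Or.inr (hall b)⟩
      · push Not at hall
        obtain ⟨⟨q, hq⟩, hq'⟩ := hall
        rw [Subgroup.mem_subgroupOf] at hq'
        refine ⟨⟨q, hq⟩, fun ⟨p, hp⟩ => ?_⟩
        rw [Subgroup.mem_subgroupOf, Subgroup.mem_subgroupOf]
        obtain ⟨m, n, hm, hmn, hn⟩ := hst q hq
        obtain ⟨m', n', hm', hmn', hn'⟩ := hst p hp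
        rcases hn' with rfl | rfl
        · right
          refine ⟨n', hm', ?_⟩
          change p * c ^ n' = c ^ n' * p
          calc p * c ^ n' = (p * c ^ n' * p⁻¹) * p := by group
            _ = c ^ n' * p := by rw [hmn']
        · left
          have hn : n = -m := by
            rcases hn with rfl | h
            · exfalso
              apply hq'
              refine ⟨n, hm, ?_⟩
              change q * c ^ n = c ^ n * q
              calc q * c ^ n = (q * c ^ n * q⁻¹) * q := by group
                _ = c ^ n * q := by rw [hmn]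
            · exact h
          subst hn
          refine ⟨m * m', mul_ne_zero hm hm', ?_⟩
          change p * q * c ^ (m * m') = c ^ (m * m') * (p * q)
          have e1 : q * c ^ (m * m') * q⁻¹ = c ^ (-(m * m')) := by
            rw [zpow_mul, ← conj_zpow, hmn, ← zpow_mul, neg_mul]
          have e2 : p * c ^ (-(m * m')) * p⁻¹ = c ^ (m * m') := by
            have : -(m * m') = m' * (-m) := by ring
            rw [this, zpow_mul, ← conj_zpow, hmn', ← zpow_mul]
            congr 1
            ring
          calc p * q * c ^ (m * m') = p * (q * c ^ (m * m') * q⁻¹) * q := by group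
            _ = p * c ^ (-(m * m')) * q := by rw [e1]
            _ = (p * c ^ (-(m * m')) * p⁻¹) * (p * q) := by group
            _ = c ^ (m * m') * (p * q) := by rw [e2]
    refine ⟨fun h0 => ?_⟩
    rw [h0] at hdvd
    exact absurd hdvd (by norm_num)
  · exact hP.toIsFJClass.of_equiv (Subgroup.subgroupOfEquivOfLe hle)
      (P_vcent hP hT hadj hv hE hc hv₀)

end Pool.Agent.FJ
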