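import Pool.Agent.Lib.MP_98022b_fa.Basic

/-!
# Facts on trees

Task F01.
-/

set_option autoImplicit false

open Set

namespace Pool.Agent.FA

variable {G V : Type} [Group G] [MulAction G V] {T : SimpleGraph V}

/-- If `a, b` are adjacent then `b` is between `a` and `v`, or `a` is between `b` and `v`. -/
theorem adj_between (hT : T.IsTree) {a b : V} (hab : T.Adj a b) (v : V) :
    T.dist a v = T.dist b v + 1 ∨ T.dist b v = T.dist a v + 1 := by
  have h := hT.dist_eq_dist_add_one_of_adj v hab
  rw [T.dist_comm (u := v) (v := a), T.dist_comm (u := v) (v := b)] at h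
  exact h

/-- The first step of the geodesic from `v` to `u ≠ v` is the only neighbour closer to `u`. -/
theorem closer_unique (hT : T.IsTree) {u v w w' : V} (hw : T.Adj v w) (hw' : T.Adj v w')
    (h : T.dist w u + 1 = T.dist v u) (h' : T.dist w' u + 1 = T.dist v u) : w = w' := by
  obtain ⟨p, hp⟩ := hT.connected.exists_walk_length_eq_dist w u
  obtain ⟨q, hq⟩ := hT.connected.exists_walk_length_eq_dist w' u
  have h1 : (SimpleGraph.Walk.cons hw p).IsPath := by
    apply SimpleGraph.Walk.isPath_of_length_eq_dist
    rw [SimpleGraph.Walk.length_cons, hp, h]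
  have h2 : (SimpleGraph.Walk.cons hw' q).IsPath := by
    apply SimpleGraph.Walk.isPath_of_length_eq_dist
    rw [SimpleGraph.Walk.length_cons, hq, h']
  have h3 := (hT.isAcyclic.subsingleton_path _ _).elim ⟨_, h1⟩ ⟨_, h2⟩
  have h4 : SimpleGraph.Walk.cons hw p = SimpleGraph.Walk.cons hw' q := Subtype.ext_iff.1 h3
  have h5 := congrArg (fun r => SimpleGraph.Walk.getVert r 1) h4
  simpa using h5

/-- A non-backtracking sequence in a tree is geodesic. -/
theorem dist_of_nonback (hT : T.IsTree) (p : ℕ → V) (n : ℕ)
    (h1 : ∀ m < n, T.Adj (p m) (p (m + 1))) (h2 : ∀ m, m + 2 ≤ n → p (m + 2) ≠ p m)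
    {a b : ℕ} (hab : a ≤ b) (hb : b ≤ n) : T.dist (p a) (p b) = b - a := by
  have key : ∀ c, a + c ≤ n → T.dist (p a) (p (a + c)) = c := by
    intro c
    induction c using Nat.strong_induction_on with
    | _ c ih =>
      intro hc
      match c, ih, hc with
      | 0, _, _ => simp
      | 1, _, hc => exact SimpleGraph.dist_eq_one_iff_adj.2 (h1 a (by omega))
      | c + 2, ih, hc =>
        have e1 := ih c (by omega) (by omega)
        have e2 := ih (c + 1) (by omega) (by omega)
        have hadj : T.Adj (p (a + (c + 1))) (p (a + (c + 2))) := h1 (a + (c + 1)) (by omega)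
        have hadj' : T.Adj (p (a + c)) (p (a + (c + 1))) := h1 (a + c) (by omega)
        rcases adj_between hT hadj (p a) with h | h
        · exfalso
          refine h2 (a + c) (by omega) ?_
          refine closer_unique hT (u := p a) (v := p (a + (c + 1))) hadj hadj'.symm h.symm ?_
          rw [T.dist_comm (u := p (a + c)), T.dist_comm (u := p (a + (c + 1))), e1, e2]
        · rw [T.dist_comm, h, T.dist_comm, e2]
  have h3 := key (b - a) (by omega)
  rwa [show a + (b - a) = b by omega] at h3

/-- A bi-infinite non-backtracking sequence in a tree is injective. -/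
theorem injective_of_nonback (hT : T.IsTree) (l : ℤ → V)
    (h1 : ∀ j, T.Adj (l j) (l (j + 1))) (h2 : ∀ j, l (j + 2) ≠ l j) : Function.Injective l := by
  have key : ∀ i j : ℤ, i < j → l i ≠ l j := by
    intro i j hij heq
    have h := dist_of_nonback hT (fun m => l (i + m)) (j - i).toNat
      (fun m _ => by
        have := h1 (i + m)
        simpa [add_assoc] using this)
      (fun m _ => by
        have := h2 (i + m)
        simpa [add_assoc] using this) (a := 0) (b := (j - i).toNat) (Nat.zero_le _) le_rfl
    have e : i + ((j - i).toNat : ℤ) = j := by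
      rw [Int.toNat_of_nonneg (by omega)]
      ring
    simp only [Nat.cast_zero, add_zero, e, heq, SimpleGraph.dist_self] at h
    omega
  intro i j hij
  by_contra hne
  rcases lt_or_gt_of_ne hne with h | h
  · exact key i j h hij
  · exact key j i h hij.symm

private theorem dist_le_of_adj (hT : T.IsTree) (p : ℕ → V) (n : ℕ)
    (h1 : ∀ m < n, T.Adj (p m) (p (m + 1))) {a b : ℕ} (hab : a ≤ b) (hb : b ≤ n) :
    T.dist (p a) (p b) ≤ b - a := by
  induction b, hab using Nat.le_induction with
  | base => simp
  | succ b hab ih =>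
    have h2 := ih (by omega)
    have h3 : T.dist (p b) (p (b + 1)) = 1 := SimpleGraph.dist_eq_one_iff_adj.2 (h1 b (by omega))
    have h4 := hT.connected.dist_triangle (u := p a) (v := p b) (w := p (b + 1))
    omega

/-- Geodesics exist. -/
theorem exists_geodesic (hT : T.IsTree) (u v : V) :
    ∃ p : ℕ → V, p 0 = u ∧ p (T.dist u v) = v ∧
      (∀ m < T.dist u v, T.Adj (p m) (p (m + 1))) ∧
      ∀ a b, a ≤ b → b ≤ T.dist u v → T.dist (p a) (p b) = b - a := by
  obtain ⟨w, hw⟩ := hT.connected.exists_walk_length_eq_dist u v
  have h1 : ∀ m < T.dist u v, T.Adj (w.getVert m) (w.getVert (m + 1)) := fun m hm =>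
    w.adj_getVert_succ (by omega)
  have hend : w.getVert (T.dist u v) = v := by rw [← hw]; exact w.getVert_length
  refine ⟨w.getVert, w.getVert_zero, hend, h1, fun a b hab hb => ?_⟩
  have e1 := dist_le_of_adj hT w.getVert _ h1 hab hb
  have e2 := dist_le_of_adj hT w.getVert _ h1 (Nat.zero_le a) (by omega)
  have e3 := dist_le_of_adj hT w.getVert _ h1 hb le_rfl
  rw [w.getVert_zero] at e2
  rw [hend] at e3
  have t1 := hT.connected.dist_triangle (u := u) (v := w.getVert a) (w := v)
  have t2 := hT.connected.dist_triangle (u := w.getVert a) (v := w.getVert b) (w := v)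
  omega

/-- The action preserves distances. -/
theorem dist_smul (hadj : ∀ (g : G) (u v : V), T.Adj u v → T.Adj (g • u) (g • v))
    (g : G) (u v : V) : T.dist (g • u) (g • v) = T.dist u v := by
  have key : ∀ (g : G) (u v : V), T.Reachable u v → T.dist (g • u) (g • v) ≤ T.dist u v := by
    intro g u v huv
    obtain ⟨w, hw⟩ := huv.exists_walk_length_eq_dist
    have h := T.dist_le (w.map (⟨fun x => g • x, fun {a b} h => hadj g a b h⟩ : T →g T))
    rw [SimpleGraph.Walk.length_map, hw] at h
    exact h
  have hr : ∀ (g : G) (u v : V), T.Reachable u v → T.Reachable (g • u) (g • v) := by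
    intro g u v huv
    exact huv.map (⟨fun x => g • x, fun {a b} h => hadj g a b h⟩ : T →g T)
  by_cases huv : T.Reachable u v
  · refine le_antisymm (key g u v huv) ?_
    have h := key g⁻¹ (g • u) (g • v) (hr g u v huv)
    rwa [inv_smul_smul, inv_smul_smul] at h
  · have h' : ¬ T.Reachable (g • u) (g • v) := by
      intro h
      have := hr g⁻¹ _ _ h
      rw [inv_smul_smul, inv_smul_smul] at this
      exact huv this
    rw [SimpleGraph.dist_eq_zero_of_not_reachable huv,
      SimpleGraph.dist_eq_zero_of_not_reachable h']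

/-- A vertex between two vertices is determined by its distances. -/
theorem between_unique (hT : T.IsTree) {u v w w' : V} (hw : T.dist u w + T.dist w v = T.dist u v)
    (hw' : T.dist u w' + T.dist w' v = T.dist u v) (h : T.dist u w = T.dist u w') : w = w' := by
  obtain ⟨p, hp⟩ := hT.connected.exists_walk_length_eq_dist u w
  obtain ⟨q, hq⟩ := hT.connected.exists_walk_length_eq_dist w v
  obtain ⟨p', hp'⟩ := hT.connected.exists_walk_length_eq_dist u w'
  obtain ⟨q', hq'⟩ := hT.connected.exists_walk_length_eq_dist w' v
  have h1 : (p.append q).IsPath := by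
    apply SimpleGraph.Walk.isPath_of_length_eq_dist
    rw [SimpleGraph.Walk.length_append, hp, hq, hw]
  have h2 : (p'.append q').IsPath := by
    apply SimpleGraph.Walk.isPath_of_length_eq_dist
    rw [SimpleGraph.Walk.length_append, hp', hq', hw']
  have h3 := (hT.isAcyclic.subsingleton_path _ _).elim ⟨_, h1⟩ ⟨_, h2⟩
  have h4 : p.append q = p'.append q' := Subtype.ext_iff.1 h3
  have h5 := congrArg (fun r => SimpleGraph.Walk.getVert r (T.dist u w)) h4
  simp only [SimpleGraph.Walk.getVert_append, hp, hp', ← h, lt_irrefl, if_false, Nat.sub_self,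
    SimpleGraph.Walk.getVert_zero] at h5
  exact h5

/-- What fixes two vertices fixes all vertices between them. -/
theorem fix_between (hT : T.IsTree)
    (hadj : ∀ (g : G) (u v : V), T.Adj u v → T.Adj (g • u) (g • v)) {g : G} {u v w : V}
    (hu : g • u = u) (hv : g • v = v) (hw : T.dist u w + T.dist w v = T.dist u v) :
    g • w = w := by
  have e1 : T.dist u (g • w) = T.dist u w := by
    conv_lhs => rw [← hu]
    exact dist_smul hadj g u w
  have e2 : T.dist (g • w) v = T.dist w v := by
    conv_lhs => rw [← hv]
    exact dist_smul hadj g w v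
  exact between_unique hT (by rw [e1, e2, hw]) hw e1

end Pool.Agent.FA
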