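import Pool.Agent.Lib.MP_98022b_fa.StabCyl

/-!
# Groups acting on trees: relative acylindricity modulo virtually cyclic groups
-/

set_option autoImplicit false

open Set
open scoped Pointwise

namespace Pool.Agent.FJ

open Pool.Agent.FA Pool.Agent.FA.F41aux

variable {P : ∀ (G : Type) [Group G], Prop}

/-- The pair `u, v` is long: the distance is at least `k` and no member of `𝒴` contains both. -/
def Long {V : Type} (T : SimpleGraph V) (𝒴 : Set (Set V)) (k : ℕ) (u v : V) : Prop :=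
  k ≤ T.dist u v ∧ ∀ Y ∈ 𝒴, ¬ (u ∈ Y ∧ v ∈ Y)

/-- The stabilizer of `cyl V c`, if the commensurator of `c` has a homomorphism to a group in the
class which is injective on the powers of `c`. -/
theorem IsFJClassA.stab_cyl_phi (hP : IsFJClassA P) {G V : Type} [Group G]
    [MulAction G V] {T : SimpleGraph V} (hT : T.IsTree)
    (hadj : ∀ (g : G) (u v : V), T.Adj u v → T.Adj (g • u) (g • v))
    (hv : ∀ v : V, P (MulAction.stabilizer G v)) {k : ℕ} {c : G}
    (hE : ∀ u v, k ≤ T.dist u v → ∀ n : ℤ, n ≠ 0 → c ^ n • u = u → c ^ n • v = v →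
      VCyc (MulAction.stabilizer G u ⊓ MulAction.stabilizer G v))
    (hc : Inf c) {v₀ : V} (hv₀ : c • v₀ = v₀) {R : Type} [Group R] (hR : P R)
    (φ : commensurator c →* R)
    (hφ : ∀ x : commensurator c, (x : G) = c → ∀ n : ℤ, φ x ^ n = 1 → n = 0)
    (hst : MulAction.stabilizer G (cyl V c) ≤ commensurator c) :
    P (MulAction.stabilizer G (cyl V c)) := by
  classical
  have hccm : c ∈ commensurator c := ⟨1, 1, one_ne_zero, one_ne_zero, by group⟩
  let ι : MulAction.stabilizer G (cyl V c) →* commensurator c := Subgroup.inclusion hst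
  refine hP.extension (φ.comp ι) hR fun r => ?_
  set H : Subgroup (MulAction.stabilizer G (cyl V c)) := (Subgroup.zpowers r).comap (φ.comp ι)
    with hH
  have hmem : ∀ (h : H) (w : cyl V c), ((h : MulAction.stabilizer G (cyl V c)) : G) • (w : V) ∈
      cyl V c := by
    intro h w
    have h1 : ((h : MulAction.stabilizer G (cyl V c)) : G) • cyl V c = cyl V c := h.1.2
    have h2 : ((h : MulAction.stabilizer G (cyl V c)) : G) • (w : V) ∈
        ((h : MulAction.stabilizer G (cyl V c)) : G) • cyl V c := Set.smul_mem_smul_set w.2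
    rwa [h1] at h2
  let act : MulAction H (cyl V c) :=
    { smul := fun h w => ⟨((h : MulAction.stabilizer G (cyl V c)) : G) • (w : V), hmem h w⟩
      one_smul := fun w => Subtype.ext (one_smul G (w : V))
      mul_smul := fun g h w => Subtype.ext (mul_smul (g.1 : G) (h.1 : G) (w : V)) }
  have hconv : Conv T (cyl V c) := conv_cyl hT hadj c
  have hdist := dist_induce_conv hT hconv
  let ι' : H →* G := (MulAction.stabilizer G (cyl V c)).subtype.comp H.subtype
  have hι' : Function.Injective ι' :=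
    (Subgroup.subtype_injective _).comp (Subgroup.subtype_injective _)
  have hcommon : ∀ u v : cyl V c, ∃ N : ℤ, N ≠ 0 ∧ c ^ N • (u : V) = u ∧ c ^ N • (v : V) = v := by
    rintro ⟨u, m, hm, hu⟩ ⟨v, n, hn, hv⟩
    exact ⟨m * n, mul_ne_zero hm hn, zpow_mul_smul_of hu n, by
      rw [mul_comm]; exact zpow_mul_smul_of hv m⟩
  refine hP.cyclicEdges (G := H) (V := cyl V c) (T := T.induce (cyl V c))
    (isTree_induce_conv hT hconv ⟨v₀, 1, one_ne_zero, by rwa [zpow_one]⟩) ?_ ?_ k ?_ ?_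
  · intro g u v h
    exact hadj _ _ _ h
  · intro w
    refine hP.toIsFJClass.of_injective (H := MulAction.stabilizer G (w : V))
      { toFun := fun x => ⟨ι' (x : H), congrArg Subtype.val x.2⟩
        map_one' := rfl
        map_mul' := fun _ _ => rfl } ?_ (hv w)
    intro x y hxy
    exact Subtype.ext (hι' (congrArg (fun z : MulAction.stabilizer G (w : V) => (z : G)) hxy))
  · intro u v huv
    rw [hdist] at huv
    obtain ⟨N, hN, h1, h2⟩ := hcommon u v
    have h3 := (hE u v huv N hN h1 h2).comap ι' hι'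
    have e : (MulAction.stabilizer G (u : V) ⊓ MulAction.stabilizer G (v : V)).comap ι' =
        MulAction.stabilizer H u ⊓ MulAction.stabilizer H v := by
      ext x
      rw [Subgroup.mem_comap, Subgroup.mem_inf, Subgroup.mem_inf]
      constructor
      · rintro ⟨ha, hb⟩
        exact ⟨Subtype.ext ha, Subtype.ext hb⟩
      · rintro ⟨ha, hb⟩
        exact ⟨congrArg Subtype.val ha, congrArg Subtype.val hb⟩
    rw [e] at h3
    exact h3
  · intro g x u v m n huv hu hv' hx e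
    rw [hdist] at huv
    obtain ⟨N, hN, h1, h2⟩ := hcommon u v
    obtain ⟨d, -, hd⟩ := hE u v huv N hN h1 h2
    have hx1 : ι' x ∈ MulAction.stabilizer G (u : V) ⊓ MulAction.stabilizer G (v : V) :=
      Subgroup.mem_inf.2 ⟨congrArg Subtype.val hu, congrArg Subtype.val hv'⟩
    have hx2 : Inf (ι' x) := by
      intro i hi
      apply hx
      apply hι'
      rw [map_zpow, hi, map_one]
    obtain ⟨a, b, ha, hb, hab⟩ := commens hd hx1 (Subgroup.mem_inf.2 ⟨h1, h2⟩) hx2 (hc.zpow hN)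
    -- the image of `x` in `R`
    have key0 : ι x.1 ^ a = (⟨c, hccm⟩ : commensurator c) ^ (N * b) := by
      apply Subtype.ext
      have h5 : ((ι x.1 ^ a : commensurator c) : G) = ι' x ^ a := rfl
      have h6 : (((⟨c, hccm⟩ : commensurator c) ^ (N * b) : commensurator c) : G) = c ^ (N * b) :=
        rfl
      rw [h5, h6, hab, zpow_mul]
    have key : φ (ι x.1) ^ a = φ ⟨c, hccm⟩ ^ (N * b) := by
      calc φ (ι x.1) ^ a = φ (ι x.1 ^ a) := (map_zpow φ _ _).symm
        _ = φ (⟨c, hccm⟩ ^ (N * b)) := by rw [key0]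
        _ = φ ⟨c, hccm⟩ ^ (N * b) := map_zpow φ _ _
    obtain ⟨i, hi⟩ := Subgroup.mem_zpowers_iff.1 (show (φ.comp ι) x.1 ∈ Subgroup.zpowers r from x.2)
    obtain ⟨j, hj⟩ := Subgroup.mem_zpowers_iff.1 (show (φ.comp ι) g.1 ∈ Subgroup.zpowers r from g.2)
    have hcomm : Commute ((φ.comp ι) g.1) ((φ.comp ι) x.1) := by
      rw [← hi, ← hj]
      exact (Commute.refl r).zpow_zpow j i
    have e1 : (φ.comp ι) g.1 * (φ.comp ι) x.1 ^ m * ((φ.comp ι) g.1)⁻¹ = (φ.comp ι) x.1 ^ n := by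
      have := congrArg (fun z : H => (φ.comp ι) z.1) e
      simpa using this
    rw [(hcomm.zpow_right m).eq, mul_inv_cancel_right] at e1
    have e2 : φ (ι x.1) ^ (m - n) = 1 := by
      rw [zpow_sub]
      exact mul_inv_eq_one.2 e1
    have e3 : φ ⟨c, hccm⟩ ^ (N * b * (m - n)) = 1 := by
      rw [zpow_mul, ← key, ← zpow_mul, mul_comm, zpow_mul, e2, one_zpow]
    have e4 := hφ ⟨c, hccm⟩ rfl _ e3
    rcases mul_eq_zero.1 e4 with h | h
    · exact absurd h (mul_ne_zero hN hb)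
    · rw [sub_eq_zero.1 h]

/-- THEOREM (relative to `𝒴`, without a homomorphism). -/
theorem IsFJClassA.tree_rel (hP : IsFJClassA P) {G V : Type} [Group G]
    [MulAction G V] {T : SimpleGraph V} (hT : T.IsTree)
    (hadj : ∀ (g : G) (u v : V), T.Adj u v → T.Adj (g • u) (g • v))
    (hv : ∀ v : V, P (MulAction.stabilizer G v)) {𝒴 : Set (Set V)} {k : ℕ}
    (h𝒴 : ∀ (g : G), ∀ Y ∈ 𝒴, g • Y ∈ 𝒴) (hconv : ∀ Y ∈ 𝒴, Conv T Y)
    (hk : ∀ Y ∈ 𝒴, ∀ Y' ∈ 𝒴, Y ≠ Y' → ∀ u v, u ∈ Y → u ∈ Y' → v ∈ Y → v ∈ Y' → T.dist u v < k)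
    (hs : ∀ Y ∈ 𝒴, P (MulAction.stabilizer G Y))
    (h1 : ∀ u v, Long T 𝒴 k u v → VCyc (MulAction.stabilizer G u ⊓ MulAction.stabilizer G v))
    (h2 : ∀ (c : G) (u v : V), Long T 𝒴 k u v → c • u = u → c • v = v →
      (∀ i : ℤ, c ^ i = 1 → i = 0) → ∀ Y ∈ 𝒴, ∀ x ∈ Y, ∀ y ∈ Y, ∀ n : ℤ, n ≠ 0 →
      c ^ n • x = x → c ^ n • y = y → T.dist x y < k)
    (h3 : ∀ (c : G) (u v : V), Long T 𝒴 k u v → c • u = u → c • v = v →
      (∀ i : ℤ, c ^ i = 1 → i = 0) →
      (∀ (g : G) (m n : ℤ), g * c ^ m * g⁻¹ = c ^ n → |m| = |n|) ∨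
      ∃ (R : Type) (_ : Group R) (φ : commensurator c →* R), P R ∧
        ∀ x : commensurator c, (x : G) = c → ∀ n : ℤ, φ x ^ n = 1 → n = 0) : P G := by
  classical
  have hcommon : ∀ (c : G) (u v : V), u ∈ cyl V c → v ∈ cyl V c →
      ∃ N : ℤ, N ≠ 0 ∧ c ^ N • u = u ∧ c ^ N • v = v := by
    rintro c u v ⟨m, hm, hu⟩ ⟨n, hn, hv⟩
    exact ⟨m * n, mul_ne_zero hm hn, zpow_mul_smul_of hu n, by
      rw [mul_comm]; exact zpow_mul_smul_of hv m⟩
  -- vertices fixed by a power of `c` at distance at least `k` form a long pair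
  have hlong : ∀ (c : G) (a b : V), Long T 𝒴 k a b → c • a = a → c • b = b → Inf c →
      ∀ u v, k ≤ T.dist u v → ∀ n : ℤ, n ≠ 0 → c ^ n • u = u → c ^ n • v = v →
      Long T 𝒴 k u v := by
    intro c a b hab ha hb hc u v huv n hn hu hv'
    exact ⟨huv, fun Y hY hYuv => absurd huv (not_le.2
      (h2 c a b hab ha hb hc Y hY u hYuv.1 v hYuv.2 n hn hu hv'))⟩
  have hmem : ∀ (c : G) (a : V), c • a = a → a ∈ cyl V c := by
    intro c a h1
    exact ⟨1, one_ne_zero, by rwa [zpow_one]⟩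
  -- commensurability
  have htwo : ∀ (c d : G) (a b : V), Long T 𝒴 k a b → c • a = a → c • b = b →
      Inf c → Inf d → ∀ u v, k ≤ T.dist u v →
      u ∈ cyl V c → v ∈ cyl V c → u ∈ cyl V d → v ∈ cyl V d →
      ∃ p q : ℤ, p ≠ 0 ∧ q ≠ 0 ∧ c ^ p = d ^ q := by
    intro c d a b hab ha hb hc hd u v huv hu hv' hu' hv''
    obtain ⟨M, hM, h5, h6⟩ := hcommon c u v hu hv'
    obtain ⟨N, hN, h7, h8⟩ := hcommon d u v hu' hv''
    obtain ⟨e, -, he⟩ := h1 u v (hlong c a b hab ha hb hc u v huv M hM h5 h6)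
    obtain ⟨p, q, hp, hq, hpq⟩ := commens he
      (x := c ^ M) (y := d ^ N)
      (Subgroup.mem_inf.2 ⟨h5, h6⟩) (Subgroup.mem_inf.2 ⟨h7, h8⟩)
      (hc.zpow hM) (hd.zpow hN)
    exact ⟨M * p, N * q, mul_ne_zero hM hp, mul_ne_zero hN hq, by rw [zpow_mul, zpow_mul d, hpq]⟩
  have hsmulY : ∀ (g : G) (Y : Set V), Y ∈ 𝒴 → ∀ a, g • a ∈ Y → a ∈ g⁻¹ • Y := by
    intro g Y _ a ha
    rw [Set.mem_inv_smul_set_iff]
    exact ha
  let 𝒵 : Set (Set V) := {Y | Y ∈ 𝒴 ∨ ∃ (c : G) (a b : V), Long T 𝒴 k a b ∧ c • a = a ∧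
    c • b = b ∧ Inf c ∧ Y = cyl V c}
  refine hP.relAcyl (𝒴 := 𝒵) (k := k) hT hadj ?_ ?_ ?_ ?_ hv ?_
  · rintro g Y (hY | ⟨c, a, b, hab, h4, h5, hc, rfl⟩)
    · exact Or.inl (h𝒴 g Y hY)
    · refine Or.inr ⟨g * c * g⁻¹, g • a, g • b, ⟨?_, ?_⟩, ?_, ?_, hc.conj g, smul_cyl g c⟩
      · rw [dist_smul hadj]; exact hab.1
      · intro Y hY hYY
        exact hab.2 (g⁻¹ • Y) (h𝒴 _ Y hY) ⟨hsmulY g Y hY a hYY.1, hsmulY g Y hY b hYY.2⟩
      · rw [mul_smul, inv_smul_smul, mul_smul, h4]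
      · rw [mul_smul, inv_smul_smul, mul_smul, h5]
  · rintro Y (hY | ⟨c, a, b, hab, h4, h5, hc, rfl⟩)
    · exact hconv Y hY
    · exact conv_cyl hT hadj c
  · have hYc : ∀ Y ∈ 𝒴, ∀ (c : G) (a b : V), Long T 𝒴 k a b → c • a = a → c • b = b → Inf c →
        ∀ u v, u ∈ Y → u ∈ cyl V c → v ∈ Y → v ∈ cyl V c → T.dist u v < k := by
      intro Y hY c a b hab ha hb hc u v hu hu' hv hv'
      obtain ⟨N, hN, h7, h8⟩ := hcommon c u v hu' hv'
      exact h2 c a b hab ha hb hc Y hY u hu v hv N hN h7 h8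
    rintro Y (hY | ⟨c, a, b, hab, h4, h5, hc, rfl⟩) Y' (hY' | ⟨d, a', b', hab', h4', h5', hd, rfl⟩)
      hne u v hu hu' hv hv'
    · exact hk Y hY Y' hY' hne u v hu hu' hv hv'
    · exact hYc Y hY d a' b' hab' h4' h5' hd u v hu hu' hv hv'
    · exact hYc Y' hY' c a b hab h4 h5 hc u v hu' hu hv' hv
    · by_contra hlt
      obtain ⟨p, q, hp, hq, hpq⟩ := htwo c d a b hab h4 h5 hc hd u v (not_lt.1 hlt) hu hv hu' hv'
      exact hne (cyl_eq hp hq hpq)
  · intro u v huv hinf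
    by_cases hex : ∃ Y ∈ 𝒴, u ∈ Y ∧ v ∈ Y
    · obtain ⟨Y, hY, hu, hv'⟩ := hex
      exact ⟨Y, Or.inl hY, hu, hv'⟩
    · have hl : Long T 𝒴 k u v := ⟨huv, fun Y hY h => hex ⟨Y, hY, h⟩⟩
      obtain ⟨c, hc, hcE⟩ := h1 u v hl
      set K : Subgroup G := MulAction.stabilizer G u ⊓ MulAction.stabilizer G v with hKdef
      have hKinf : Infinite K := by
        rw [← not_finite_iff_infinite]
        intro hfin
        apply hinf
        unfold FinOn
        have e : {g : G | ∀ v' ∈ ({u, v} : Set V), g • v' = v'} = (K : Set G) := by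
          ext g
          simp only [Set.mem_ofPred_eq, Set.mem_insert_iff, Set.mem_singleton_iff,
            forall_eq_or_imp, forall_eq, SetLike.mem_coe, hKdef, Subgroup.mem_inf,
            MulAction.mem_stabilizer_iff]
        rw [e]
        exact hfin
      have hcI : Inf c := inf_of_infinite hcE hKinf
      obtain ⟨hc1, hc2⟩ := Subgroup.mem_inf.1 hc
      exact ⟨cyl V c, Or.inr ⟨c, u, v, hl, hc1, hc2, hcI, rfl⟩, hmem c u hc1, hmem c v hc2⟩
  · rintro Y (hY | ⟨c, a, b, hab, h4, h5, hc, rfl⟩)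
    · exact hs Y hY
    · have hE : ∀ u v, k ≤ T.dist u v → ∀ n : ℤ, n ≠ 0 → c ^ n • u = u → c ^ n • v = v →
          VCyc (MulAction.stabilizer G u ⊓ MulAction.stabilizer G v) := fun u v huv n hn hu hv' =>
        h1 u v (hlong c a b hab h4 h5 hc u v huv n hn hu hv')
      have hcom : ∀ p ∈ MulAction.stabilizer G (cyl V c), ∃ m n : ℤ, m ≠ 0 ∧ n ≠ 0 ∧
          p * c ^ m * p⁻¹ = c ^ n := by
        intro p hp
        have hp' : cyl V (p * c * p⁻¹) = cyl V c := by
          rw [← smul_cyl]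
          exact hp
        have ha : a ∈ cyl V c := hmem c a h4
        have hb : b ∈ cyl V c := hmem c b h5
        obtain ⟨m, n, hm, hn, hmn⟩ := htwo c (p * c * p⁻¹) a b hab h4 h5 hc (hc.conj p) a b hab.1
          ha hb (hp' ▸ ha) (hp' ▸ hb)
        rw [conj_zpow] at hmn
        exact ⟨n, m, hn, hm, hmn.symm⟩
      rcases h3 c a b hab h4 h5 hc with hbal | ⟨R, _, φ, hR, hφ⟩
      · refine hP.stab_cyl hT hadj hv hE hc h4 fun p hp => ?_
        obtain ⟨m, n, hm, hn, e⟩ := hcom p hp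
        exact ⟨m, n, hm, e, by rcases abs_eq_abs.1 (hbal p m n e) with h | h <;> omega⟩
      · exact hP.stab_cyl_phi hT hadj hv hE hc h4 hR φ hφ fun p hp => by
          obtain ⟨m, n, hm, hn, e⟩ := hcom p hp
          exact ⟨m, n, hm, hn, e⟩

/-- THEOREM (general form). -/
theorem IsFJClassA.tree_rel_hom (hP : IsFJClassA P) {G V Q : Type} [Group G] [Group Q]
    [MulAction G V] {T : SimpleGraph V} (hT : T.IsTree)
    (hadj : ∀ (g : G) (u v : V), T.Adj u v → T.Adj (g • u) (g • v))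
    (hv : ∀ v : V, P (MulAction.stabilizer G v)) (f : G →* Q) (hQ : P Q)
    {𝒴 : Set (Set V)} {k : ℕ}
    (h𝒴 : ∀ (g : G), ∀ Y ∈ 𝒴, g • Y ∈ 𝒴) (hconv : ∀ Y ∈ 𝒴, Conv T Y)
    (hk : ∀ Y ∈ 𝒴, ∀ Y' ∈ 𝒴, Y ≠ Y' → ∀ u v, u ∈ Y → u ∈ Y' → v ∈ Y → v ∈ Y' → T.dist u v < k)
    (hs : ∀ Y ∈ 𝒴, P (MulAction.stabilizer G Y))
    (h1 : ∀ (u v : V) (q : Q), Long T 𝒴 k u v →
      VCyc (MulAction.stabilizer G u ⊓ MulAction.stabilizer G v ⊓ (Subgroup.zpowers q).comap f))
    (h2 : ∀ (c : G) (u v : V), Long T 𝒴 k u v → c • u = u → c • v = v →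
      (∀ i : ℤ, c ^ i = 1 → i = 0) → ∀ Y ∈ 𝒴, ∀ x ∈ Y, ∀ y ∈ Y, ∀ n : ℤ, n ≠ 0 →
      c ^ n • x = x → c ^ n • y = y → T.dist x y < k)
    (h3 : ∀ (c : G) (u v : V), Long T 𝒴 k u v → c • u = u → c • v = v →
      (∀ i : ℤ, c ^ i = 1 → i = 0) → f c = 1 →
      (∀ (g : G) (m n : ℤ), g * c ^ m * g⁻¹ = c ^ n → |m| = |n|) ∨
      ∃ (R : Type) (_ : Group R) (φ : commensurator c →* R), P R ∧
        ∀ x : commensurator c, (x : G) = c → ∀ n : ℤ, φ x ^ n = 1 → n = 0) : P G := by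
  classical
  refine hP.extension f hQ fun q => ?_
  set H : Subgroup G := (Subgroup.zpowers q).comap f with hH
  refine hP.tree_rel (G := H) (V := V) hT (fun g u v h => hadj g.1 u v h) (fun v => ?_)
    (𝒴 := 𝒴) (k := k) (fun g Y hY => h𝒴 g.1 Y hY) hconv hk (fun Y hY => ?_) (fun u v hl => ?_)
    (fun c u v hl hu hv' hc Y hY x hx y hy n hn hxx hyy => ?_) (fun c u v hl hu hv' hc => ?_)
  · refine hP.toIsFJClass.of_injective (H := MulAction.stabilizer G v)
      { toFun := fun x => ⟨(x : H).1, x.2⟩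
        map_one' := rfl
        map_mul' := fun _ _ => rfl } ?_ (hv v)
    intro x y hxy
    exact Subtype.ext (Subtype.ext (congrArg (fun z : MulAction.stabilizer G v => (z : G)) hxy))
  · refine hP.toIsFJClass.of_injective (H := MulAction.stabilizer G Y)
      { toFun := fun x => ⟨(x : H).1, x.2⟩
        map_one' := rfl
        map_mul' := fun _ _ => rfl } ?_ (hs Y hY)
    intro x y hxy
    exact Subtype.ext (Subtype.ext (congrArg (fun z : MulAction.stabilizer G Y => (z : G)) hxy))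
  · have h4 := (h1 u v q hl).comap H.subtype H.subtype_injective
    have e : (MulAction.stabilizer G u ⊓ MulAction.stabilizer G v ⊓
        (Subgroup.zpowers q).comap f).comap H.subtype =
        MulAction.stabilizer H u ⊓ MulAction.stabilizer H v := by
      ext x
      rw [Subgroup.mem_comap, Subgroup.mem_inf, Subgroup.mem_inf, Subgroup.mem_inf]
      exact ⟨fun h => h.1, fun h => ⟨h, x.2⟩⟩
    rw [e] at h4
    exact h4
  · have hc' : ∀ i : ℤ, (c : G) ^ i = 1 → i = 0 := fun i hi => hc i (Subtype.ext hi)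
    exact h2 c u v hl hu hv' hc' Y hY x hx y hy n hn hxx hyy
  · have hc' : ∀ i : ℤ, (c : G) ^ i = 1 → i = 0 := fun i hi => hc i (Subtype.ext hi)
    by_cases hr : ∃ r : ℤ, r ≠ 0 ∧ f (c : G) ^ r = 1
    · obtain ⟨r, hr, hfr⟩ := hr
      have hcr : Inf ((c : G) ^ r) := Inf.zpow hc' hr
      have hpow : ∀ (g : G) (m n : ℤ), g * (c : G) ^ m * g⁻¹ = (c : G) ^ n →
          g * ((c : G) ^ r) ^ m * g⁻¹ = ((c : G) ^ r) ^ n := by
        intro g m n e
        rw [← zpow_mul, ← zpow_mul, mul_comm r m, mul_comm r n, zpow_mul, zpow_mul, ← e, conj_zpow]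
      rcases h3 ((c : G) ^ r) u v hl (zpow_smul_of hu r) (zpow_smul_of hv' r) hcr
        (by rw [map_zpow, hfr]) with hb | ⟨R, _, φ, hR, hφ⟩
      · left
        intro g m n e
        exact hb g m n (hpow g m n (congrArg Subtype.val e))
      · right
        have hcm : ∀ g : commensurator c, ((g : H) : G) ∈ commensurator ((c : G) ^ r) := by
          rintro ⟨g, m, n, hm, hn, e⟩
          exact ⟨m, n, hm, hn, hpow g m n (congrArg Subtype.val e)⟩
        refine ⟨R, inferInstance, φ.comp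
          { toFun := fun g => ⟨((g : H) : G), hcm g⟩
            map_one' := rfl
            map_mul' := fun _ _ => rfl }, hR, ?_⟩
        intro x hx n hn
        have hxr : ((x ^ r : commensurator c) : H) = c ^ r :=
          congrArg (fun z : H => z ^ r) hx
        refine hφ ⟨(((x ^ r : commensurator c) : H) : G), hcm _⟩ (by
          show (((x ^ r : commensurator c) : H) : G) = (c : G) ^ r
          rw [hxr]; rfl) n ?_
        have e1 : (⟨(((x ^ r : commensurator c) : H) : G), hcm _⟩ : commensurator ((c : G) ^ r)) =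
            ⟨((x : H) : G), hcm x⟩ ^ r := rfl
        rw [e1, map_zpow, ← zpow_mul, mul_comm, zpow_mul]
        have hn' : φ ⟨((x : H) : G), hcm x⟩ ^ n = 1 := hn
        rw [hn', one_zpow]
    · left
      intro g m n e
      have e0 : (g : G) * (c : G) ^ m * (g : G)⁻¹ = (c : G) ^ n := congrArg Subtype.val e
      obtain ⟨i, hi⟩ := Subgroup.mem_zpowers_iff.1 (show f (c : G) ∈ Subgroup.zpowers q from c.2)
      obtain ⟨j, hj⟩ := Subgroup.mem_zpowers_iff.1 (show f (g : G) ∈ Subgroup.zpowers q from g.2)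
      have hcomm : Commute (f (g : G)) (f (c : G)) := by
        rw [← hi, ← hj]
        exact (Commute.refl q).zpow_zpow j i
      have e1 : f (g : G) * f (c : G) ^ m * (f (g : G))⁻¹ = f (c : G) ^ n := by
        have := congrArg f e0
        simpa using this
      rw [(hcomm.zpow_right m).eq, mul_inv_cancel_right] at e1
      have e2 : f (c : G) ^ (m - n) = 1 := by
        rw [zpow_sub]
        exact mul_inv_eq_one.2 e1
      by_contra hne
      apply hr
      refine ⟨m - n, fun h => hne ?_, e2⟩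
      rw [sub_eq_zero.1 h]

end Pool.Agent.FJ
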