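import Pool.Agent.Lib.MP_98022b_fa.CycEdges
import Pool.Agent.Lib.MP_98022b_fa.ConvTree

/-!
# Virtually cyclic subgroups and commensurators
-/

set_option autoImplicit false

open Set
open scoped Pointwise

namespace Pool.Agent.FJ

open Pool.Agent.FA Pool.Agent.FA.F41aux

variable {G : Type} [Group G]

/-- The subgroup `E` is virtually cyclic: it contains an element which generates a subgroup of finite
index of `E`. -/
def VCyc (E : Subgroup G) : Prop :=
  ∃ c ∈ E, ((Subgroup.zpowers c).subgroupOf E).FiniteIndex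

/-- The commensurator of the subgroup generated by `c`: the group of all `g` such that
`g * c ^ m * g⁻¹ = c ^ n` for some nonzero integers `m, n`. -/
def commensurator (c : G) : Subgroup G where
  carrier := {g | ∃ m n : ℤ, m ≠ 0 ∧ n ≠ 0 ∧ g * c ^ m * g⁻¹ = c ^ n}
  one_mem' := ⟨1, 1, one_ne_zero, one_ne_zero, by group⟩
  mul_mem' := by
    rintro g h ⟨m, n, hm, hn, e⟩ ⟨p, q, hp, hq, e'⟩
    refine ⟨p * m, n * q, mul_ne_zero hp hm, mul_ne_zero hn hq, ?_⟩
    have h1 : h * c ^ (p * m) * h⁻¹ = c ^ (m * q) := by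
      rw [zpow_mul, ← conj_zpow, e', ← zpow_mul, mul_comm]
    have h2 : g * c ^ (m * q) * g⁻¹ = c ^ (n * q) := by
      rw [zpow_mul, ← conj_zpow, e, ← zpow_mul]
    calc g * h * c ^ (p * m) * (g * h)⁻¹ = g * (h * c ^ (p * m) * h⁻¹) * g⁻¹ := by group
      _ = c ^ (n * q) := by rw [h1, h2]
  inv_mem' := by
    rintro g ⟨m, n, hm, hn, e⟩
    refine ⟨n, m, hn, hm, ?_⟩
    rw [← e]
    group

theorem VCyc.comap {H : Type} [Group H] (ι : H →* G) (hι : Function.Injective ι) {E : Subgroup G}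
    (hE : VCyc E) : VCyc (E.comap ι) := by
  obtain ⟨d, hd, hfin⟩ := hE
  have hle : Subgroup.zpowers d ≤ E := by rwa [Subgroup.zpowers_le]
  have hcyc : IsCyclic ((Subgroup.zpowers d).comap ι) := by
    refine isCyclic_of_injective (G' := Subgroup.zpowers d)
      (ι.subgroupComap (Subgroup.zpowers d)) ?_
    intro a b hab
    exact Subtype.ext (hι (congrArg Subtype.val hab))
  obtain ⟨g, hg⟩ := hcyc.exists_generator
  have hz : Subgroup.zpowers (g : H) = (Subgroup.zpowers d).comap ι := by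
    apply le_antisymm
    · rw [Subgroup.zpowers_le]
      exact g.2
    · intro x hx
      obtain ⟨n, hn⟩ := Subgroup.mem_zpowers_iff.1 (hg ⟨x, hx⟩)
      exact ⟨n, congrArg Subtype.val hn⟩
  refine ⟨g, Subgroup.comap_mono hle g.2, ?_⟩
  rw [hz]
  refine ⟨?_⟩
  exact Subgroup.relIndex_comap_ne_zero ι hfin.index_ne_zero

theorem VCyc.of_le {E K : Subgroup G} (hK : K ≤ E) (hE : VCyc E) : VCyc K := by
  obtain ⟨c, hc, hfin⟩ := hE.comap K.subtype K.subtype_injective
  have h1 : E.comap K.subtype = ⊤ := by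
    rw [eq_top_iff]
    intro x _
    exact hK x.2
  rw [h1] at hfin
  refine ⟨c, c.2, ⟨?_⟩⟩
  have h2 : (Subgroup.zpowers (c : G)).subgroupOf K = Subgroup.zpowers c := by
    ext x
    rw [Subgroup.mem_subgroupOf, Subgroup.mem_zpowers_iff, Subgroup.mem_zpowers_iff]
    constructor
    · rintro ⟨n, hn⟩
      exact ⟨n, Subtype.ext hn⟩
    · rintro ⟨n, hn⟩
      exact ⟨n, congrArg Subtype.val hn⟩
  rw [h2]
  have h3 := hfin.index_ne_zero
  rwa [Subgroup.subgroupOf, Subgroup.index_comap_of_surjective] at h3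
  intro x
  exact ⟨⟨x, trivial⟩, rfl⟩

end Pool.Agent.FJ
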